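import Pool.Agent.AM.Defs
import Pool.Agent.AG.B1

/-!
# [AM-C1] the elements `aa g x c n`
-/

set_option autoImplicit false

open Polynomial

namespace AM

/-- PROOF. As `AG.vv_ball` (AG/C2.lean): induction for `aa g x c n * g ^ n ∈ ball S ((a + m b) n)`, then multiply by `g ^ (-n)`. -/
theorem aa_ball {G : Type*} [Group G] {S : Finset G} {g x : G} {a b m : ℕ}
    (hg : g ∈ AG.ball S a) (hx : x ∈ AG.ball S b) (c : ℕ → ℕ) (hc : ∀ i, c i ≤ m) (n : ℕ) :
    aa g x c n ∈ AG.ball S ((2 * a + m * b) * n) := by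
  have h : aa g x c n * g ^ n ∈ AG.ball S ((a + m * b) * n) := by
    induction n with
    | zero =>
      have : aa g x c 0 * g ^ 0 = 1 := by simp [aa]
      rw [this]
      exact AG.one_mem_ball _ _
    | succ n ih =>
      have h1 : aa g x c (n + 1) * g ^ (n + 1) =
          (aa g x c n * g ^ n) * (x ^ c n * g) := by
        show aa g x c n * (g ^ n * x ^ c n * (g ^ n)⁻¹) * g ^ (n + 1) = _
        rw [pow_succ]; group
      have h2 : x ^ c n ∈ AG.ball S (m * b) :=
        AG.ball_mono S (Nat.mul_le_mul_right b (hc n)) (AG.pow_mem_ball hx (c n))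
      rw [h1, Nat.mul_succ]
      refine AG.mul_mem_ball ih ?_
      rw [Nat.add_comm a (m * b)]
      exact AG.mul_mem_ball h2 hg
  have h3 : (g ^ n)⁻¹ ∈ AG.ball S (n * a) := AG.inv_mem_ball (AG.pow_mem_ball hg n)
  have h4 := AG.mul_mem_ball h h3
  rw [mul_inv_cancel_right] at h4
  have h5 : (a + m * b) * n + n * a = (2 * a + m * b) * n := by ring
  rwa [h5] at h4

/-- the element belonging to a polynomial -/
def ww {G : Type*} [Group G] {p : ℕ} (g x : G) (q : (ZMod p)[X]) : G :=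
  aa g x (fun i => (q.coeff i).val) (q.natDegree + 1)

/-- PROOF. `Polynomial.aeval_eq_sum_range`, `ZMod.natCast_zmod_val`. -/
theorem sum_eq_aeval {p : ℕ} [Fact p.Prime] {K : Type*} [Field K] [Algebra (ZMod p) K] (t : K)
    (q : (ZMod p)[X]) :
    ∑ i ∈ Finset.range (q.natDegree + 1), (((q.coeff i).val : ℕ) : K) * t ^ i = aeval t q := by
  rw [aeval_eq_sum_range]
  refine Finset.sum_congr rfl (fun i _ => ?_)
  rw [Algebra.smul_def]
  congr 1
  conv_rhs => rw [← ZMod.natCast_zmod_val (q.coeff i)]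
  rw [map_natCast]

theorem ww_ball {G : Type*} [Group G] {S : Finset G} {g x : G} {a b : ℕ} {p : ℕ} [Fact p.Prime]
    (hg : g ∈ AG.ball S a) (hx : x ∈ AG.ball S b) (q : (ZMod p)[X]) :
    ww g x q ∈ AG.ball S ((2 * a + p * b) * (q.natDegree + 1)) :=
  aa_ball hg hx _ (fun i => (ZMod.val_lt (q.coeff i)).le) _

end AM
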