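import Pool.Agent.AM.Defs

/-!
# [AM-K3] finiteness of `[K : F_i(T)]`
-/

set_option autoImplicit false

open Polynomial IntermediateField

namespace AM

/-- if `K` is generated by finitely many elements over `k` and algebraic over the intermediate
field `E`, then `[K : E]` is finite -/
theorem k3_fd {k K : Type*} [Field k] [Field K] [Algebra k K] (hK : FieldFG k K)
    (E : IntermediateField k K) (h : ∀ a : K, IsAlgebraic E a) : FiniteDimensional E K := by
  obtain ⟨s, hs⟩ := hK
  have hfin : FiniteDimensional E (IntermediateField.adjoin E ((s : Set K))) :=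
    IntermediateField.finiteDimensional_adjoin (fun a _ => (h a).isIntegral)
  have htop : IntermediateField.adjoin E (s : Set K) = ⊤ := by
    rw [eq_top_iff]
    intro a _
    have ha : a ∈ IntermediateField.adjoin k (s : Set K) := by rw [hs]; trivial
    have hle : IntermediateField.adjoin k (s : Set K) ≤
        (IntermediateField.adjoin E (s : Set K)).restrictScalars k := by
      rw [IntermediateField.adjoin_le_iff]
      exact IntermediateField.subset_adjoin E (s : Set K)
    exact hle ha
  rw [htop] at hfin
  exact (IntermediateField.topEquiv (F := E) (E := K)).toLinearEquiv.finiteDimensional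

/-- algebraic over a subalgebra contained in an intermediate field -/
theorem k3_alg {k K : Type*} [Field k] [Field K] [Algebra k K] (S : Subalgebra k K)
    (E : IntermediateField k K) (hSE : ∀ a ∈ S, a ∈ E) {a : K} (h : IsAlgebraic S a) :
    IsAlgebraic E a := by
  obtain ⟨p, hp0, hp⟩ := h
  let g : S →+* E := (Subalgebra.inclusion (S := S) (T := E.toSubalgebra) hSE).toRingHom
  have hg : Function.Injective g := Subalgebra.inclusion_injective (S := S) (T := E.toSubalgebra) hSE
  refine ⟨p.map g, ?_, ?_⟩
  · rwa [Ne, Polynomial.map_eq_zero_iff hg]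
  · rw [Polynomial.aeval_def, Polynomial.eval₂_map]
    rw [Polynomial.aeval_def] at hp
    have hc : (algebraMap E K).comp g = algebraMap S K := by
      ext a; rfl
    rw [hc]; exact hp

/-- PROOF. Let `F = Fi k x i`. `x i` is algebraic over `F(T)`: `K` is algebraic over `k(x) = F(x i)`, so there is a nonzero polynomial over `F(x i)` with root `T`; clearing denominators there is a nonzero `Q ∈ F[X][Y]` with `Q(x i, T) = 0`; as `T` is
transcendental over `F`, `Q(X, T) ∈ F(T)[X]` is not zero, and it has the root `x i`. (Or use the exchange property of algebraic closure / transcendence bases in Mathlib.) Hence `K`, algebraic over `k(x) ⊆ F(T)(x i)`, is algebraic over `F(T)`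
(`Algebra.IsAlgebraic.trans` or `IntermediateField.isAlgebraic_adjoin...`). `K = k(s)` with `s` finite, so `K = F(T)(s)` is generated by finitely many algebraic elements, hence finite over `F(T)` (`IntermediateField.finiteDimensional_adjoin`). -/
theorem finiteDimensional_Fi {k K : Type*} [Field k] [Field K] [Algebra k K] {ι : Type*}
    (x : ι → K) (hx : IsTranscendenceBasis k x) (hK : FieldFG k K) (i : ι) (T : K)
    (hT : Transcendental (Fi k x i) T) : FiniteDimensional (Fi k x i)⟮T⟯ K := by
  classical
  set M := AlgebraicIndependent.matroid k K with hM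
  set S : Set K := Set.range (fun j : {j : ι // j ≠ i} => x j) with hS
  have hSx : insert (x i) S = Set.range x := by
    ext a
    constructor
    · rintro (rfl | ⟨j, rfl⟩)
      · exact ⟨i, rfl⟩
      · exact ⟨j.1, rfl⟩
    · rintro ⟨j, rfl⟩
      by_cases hj : j = i
      · subst hj; exact Or.inl rfl
      · exact Or.inr ⟨⟨j, hj⟩, rfl⟩
  have hbase : M.IsBase (Set.range x) := by
    rw [hM, AlgebraicIndependent.matroid_isBase_iff]
    exact hx.to_subtype_range
  have hgr : ∀ a : K, a ∈ M.closure (Set.range x) := by
    intro a
    rw [hbase.closure_eq, hM, AlgebraicIndependent.matroid_e]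
    trivial
  have hTS : T ∉ M.closure S := by
    intro h
    rw [hM, AlgebraicIndependent.matroid_closure_eq] at h
    have h' : IsAlgebraic (Algebra.adjoin k S) T :=
      (Subalgebra.mem_algebraicClosure (R := _) (S := K)).mp h
    apply hT
    exact k3_alg (Algebra.adjoin k S) (Fi k x i)
      (fun a ha => IntermediateField.algebra_adjoin_le_adjoin k S ha) h'
  have hxi : x i ∈ M.closure (insert T S) := by
    apply Matroid.mem_closure_insert hTS
    rw [hSx]; exact hgr T
  have hall : ∀ a : K, a ∈ M.closure (insert T S) := by
    intro a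
    have h1 : Set.range x ⊆ M.closure (insert T S) := by
      rw [← hSx]
      rintro b (rfl | hb)
      · exact hxi
      · exact M.subset_closure _ (by rw [hM, AlgebraicIndependent.matroid_e]; exact Set.subset_univ _)
          (Or.inr hb)
    have h2 := M.closure_subset_closure h1
    rw [M.closure_closure] at h2
    exact h2 (hgr a)
  have hE : ∀ a : K, IsAlgebraic (Fi k x i)⟮T⟯ a := by
    intro a
    have h := hall a
    rw [hM, AlgebraicIndependent.matroid_closure_eq] at h
    have h' : IsAlgebraic (Algebra.adjoin k (insert T S)) a :=
      (Subalgebra.mem_algebraicClosure (R := _) (S := K)).mp h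
    refine k3_alg (Algebra.adjoin k (insert T S)) ((Fi k x i)⟮T⟯.restrictScalars k) ?_ h'
    intro b hb
    have hle : Algebra.adjoin k (insert T S) ≤ ((Fi k x i)⟮T⟯.restrictScalars k).toSubalgebra := by
      rw [Algebra.adjoin_le_iff]
      rintro c (rfl | hc)
      · exact IntermediateField.mem_adjoin_simple_self (Fi k x i) c
      · have hcF : c ∈ Fi k x i := IntermediateField.subset_adjoin k S hc
        exact IntermediateField.algebraMap_mem (Fi k x i)⟮T⟯ (⟨c, hcF⟩ : Fi k x i)
    exact hle hb
  exact k3_fd hK ((Fi k x i)⟮T⟯.restrictScalars k) hE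

/-- PROOF. Choose a finite set `s` of field generators; it contains a transcendence basis (`exists_isTranscendenceBasis_subset` or `..._between`, `K` is algebraic over `k(s) = K`). -/
theorem exists_finite_basis {k K : Type*} [Field k] [Field K] [Algebra k K] (hK : FieldFG k K) :
    ∃ (n : ℕ) (x : Fin n → K), IsTranscendenceBasis k x := by
  classical
  obtain ⟨s, hs⟩ := hK
  have halg : Algebra.IsAlgebraic (Algebra.adjoin k (s : Set K)) K := by
    constructor
    intro a
    have ha : a ∈ IntermediateField.adjoin k (s : Set K) := by rw [hs]; trivial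
    rw [IntermediateField.mem_adjoin_iff_div] at ha
    obtain ⟨r, hr, t, ht, rfl⟩ := ha
    have h1 : IsAlgebraic (Algebra.adjoin k (s : Set K)) r :=
      isAlgebraic_algebraMap (⟨r, hr⟩ : Algebra.adjoin k (s : Set K))
    have h2 : IsAlgebraic (Algebra.adjoin k (s : Set K)) t :=
      isAlgebraic_algebraMap (⟨t, ht⟩ : Algebra.adjoin k (s : Set K))
    rw [div_eq_mul_inv]
    exact h1.mul h2.inv
  obtain ⟨t, hts, ht⟩ := exists_isTranscendenceBasis_subset (R := k) (s : Set K)
  have hfin : Finite t := (s.finite_toSet.subset hts).to_subtype
  obtain ⟨n, ⟨e⟩⟩ := Finite.exists_equiv_fin t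
  refine ⟨n, fun i => ((e.symm i : t) : K), ?_⟩
  exact (isTranscendenceBasis_equiv' e.symm rfl).mpr ht

/-- PROOF. `K` is algebraic over `k(x)` and generated by finitely many elements (`IntermediateField.finiteDimensional_adjoin`). -/
theorem finiteDimensional_basis {k K : Type*} [Field k] [Field K] [Algebra k K] {ι : Type*}
    (x : ι → K) (hx : IsTranscendenceBasis k x) (hK : FieldFG k K) :
    FiniteDimensional (IntermediateField.adjoin k (Set.range x)) K :=
  k3_fd hK _ (fun a => hx.isAlgebraic_field.isAlgebraic a)

end AM
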