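import Pool.Agent.AM.Defs

/-!
# [AM-L1] a large finitely generated submodule
-/

set_option autoImplicit false

open Polynomial IntermediateField

namespace AM

section l1
variable {F K : Type*} [Field F] [Field K] [Algebra F K]

/-- `K` as an algebra over `F[X]`, `X ↦ T` -/
@[reducible] noncomputable def l1_alg (T : K) : Algebra F[X] K :=
  (aeval T : F[X] →ₐ[F] K).toRingHom.toAlgebra

/-- transfer of integrality -/
theorem l1_int (T x : K) (h : IsIntegral (Algebra.adjoin F ({T} : Set K)) x) :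
    (aeval T : F[X] →ₐ[F] K).toRingHom.IsIntegralElem x := by
  obtain ⟨p, hp, hx⟩ := h
  let φ : F[X] →+* Algebra.adjoin F ({T} : Set K) :=
    (aeval (⟨T, Algebra.self_mem_adjoin_singleton F T⟩ : Algebra.adjoin F ({T} : Set K))).toRingHom
  have hφ : ∀ P : F[X], ((φ P : Algebra.adjoin F ({T} : Set K)) : K) = aeval T P := by
    intro P
    change ((aeval (⟨T, Algebra.self_mem_adjoin_singleton F T⟩ :
      Algebra.adjoin F ({T} : Set K)) P : Algebra.adjoin F ({T} : Set K)) : K) = aeval T P
    have h1 := aeval_algHom_apply (Algebra.adjoin F ({T} : Set K)).val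
      (⟨T, Algebra.self_mem_adjoin_singleton F T⟩ : Algebra.adjoin F ({T} : Set K)) P
    exact h1.symm
  have hsurj : Function.Surjective φ := by
    rintro ⟨y, hy⟩
    rw [Algebra.adjoin_singleton_eq_range_aeval] at hy
    obtain ⟨P, hP⟩ := hy
    exact ⟨P, Subtype.ext ((hφ P).trans hP)⟩
  have hlift : p ∈ lifts φ := by
    rw [mem_lifts]
    exact Polynomial.map_surjective φ hsurj p
  obtain ⟨q, hq, -, hqm⟩ := lifts_and_natDegree_eq_and_monic hlift hp
  refine ⟨q, hqm, ?_⟩
  have h2 : (aeval T : F[X] →ₐ[F] K).toRingHom =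
      (algebraMap (Algebra.adjoin F ({T} : Set K)) K).comp φ := by
    apply RingHom.ext
    intro P
    exact (hφ P).symm
  rw [h2, ← Polynomial.eval₂_map, hq]
  exact hx

theorem l1_main (Y : Finset K)
    (hY : IntermediateField.adjoin F (Y : Set K) = ⊤) (T : K) (hT : Transcendental F T)
    (hTY : T ∈ Algebra.adjoin F (Y : Set K)) [FiniteDimensional F⟮T⟯ K] (c : K → F[X])
    (hc : ∀ q ∈ Y, c q ≠ 0 ∧
      IsIntegral (Algebra.adjoin F ({T} : Set K)) (aeval T (c q) * q)) :
    ∃ (r : ℕ) (e : Fin r → K), (∀ j, e j ∈ Algebra.adjoin F (Y : Set K)) ∧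
      (∀ P : Fin r → F[X], ∑ j, aeval T (P j) * e j = 0 → P = 0) ∧
      (∀ w ∈ Algebra.adjoin F (Y : Set K), ∃ (k : ℕ) (B : Fin r → F[X]),
        aeval T (∏ q ∈ Y, c q) ^ k * w = ∑ j, aeval T (B j) * e j) ∧
      r = Module.finrank F⟮T⟯ K := by
  classical
  let algX : Algebra F[X] K := l1_alg T
  have halg : ∀ P : F[X], algebraMap F[X] K P = aeval T P := fun P => rfl
  have hsm : ∀ (P : F[X]) (x : K), P • x = aeval T P * x := fun P x => rfl
  have hinj : Function.Injective (algebraMap F[X] K) := transcendental_iff_injective.1 hT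
  have : FaithfulSMul F[X] K := (faithfulSMul_iff_algebraMap_injective F[X] K).2 hinj
  -- the subalgebra
  let Z : Finset K := Y.image fun q => aeval T (c q) * q
  have hZ : ∀ z ∈ (Z : Set K), IsIntegral F[X] z := by
    intro z hz
    obtain ⟨q, hq, rfl⟩ := Finset.mem_image.1 (Finset.mem_coe.1 hz)
    exact l1_int T _ (hc q hq).2
  let S' : Subalgebra F[X] K := Algebra.adjoin F[X] (Z : Set K)
  let M : Submodule F[X] K := Subalgebra.toSubmodule S'
  have hfg : M.FG := fg_adjoin_of_finite (Finset.finite_toSet Z) hZ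
  have : Module.Finite F[X] M := Module.Finite.iff_fg.2 hfg
  have : Module.IsTorsionFree F[X] K := inferInstance
  have : Module.IsTorsionFree F[X] M := inferInstance
  have : Module.Free F[X] M := Module.free_of_finite_type_torsion_free'
  let b := Module.finBasis F[X] M
  let e : Fin (Module.finrank F[X] M) → K := fun j => (b j : K)
  -- `M` is contained in `F[Y]`
  have hAT : ∀ P : F[X], aeval T P ∈ Algebra.adjoin F (Y : Set K) := fun P =>
    (Algebra.adjoin_le (Set.singleton_subset_iff.2 hTY)) (aeval_mem_adjoin_singleton F T)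
  have hMS : ∀ x ∈ S', x ∈ Algebra.adjoin F (Y : Set K) := by
    intro x hx
    induction hx using Algebra.adjoin_induction with
    | mem z hz =>
      obtain ⟨q, hq, rfl⟩ := Finset.mem_image.1 (Finset.mem_coe.1 hz)
      exact mul_mem (hAT _) (Algebra.subset_adjoin (Finset.mem_coe.2 hq))
    | algebraMap P => exact hAT P
    | add x y _ _ hx hy => exact add_mem hx hy
    | mul x y _ _ hx hy => exact mul_mem hx hy
  -- (i)
  set D : F[X] := ∏ q ∈ Y, c q with hD
  have hDne : D ≠ 0 := Finset.prod_ne_zero_iff.2 fun q hq => (hc q hq).1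
  have hDT : aeval T D ≠ 0 := by
    rw [← halg]
    exact (map_ne_zero_iff _ hinj).2 hDne
  have hpowS : ∀ (k : ℕ) (x : K), x ∈ S' → aeval T D ^ k * x ∈ S' := by
    intro k x hx
    rw [← halg]
    exact mul_mem (pow_mem (Subalgebra.algebraMap_mem S' D) k) hx
  have hclear : ∀ w ∈ Algebra.adjoin F (Y : Set K), ∃ k : ℕ, aeval T D ^ k * w ∈ S' := by
    intro w hw
    induction hw using Algebra.adjoin_induction with
    | mem q hq =>
      refine ⟨1, ?_⟩
      have h1 : D = (∏ q' ∈ Y.erase q, c q') * c q := by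
        rw [hD, Finset.prod_erase_mul _ _ (Finset.mem_coe.1 hq)]
      rw [pow_one, h1, map_mul, mul_assoc, ← halg]
      exact mul_mem (Subalgebra.algebraMap_mem S' _) (Algebra.subset_adjoin
        (Finset.mem_coe.2 (Finset.mem_image.2 ⟨q, Finset.mem_coe.1 hq, rfl⟩)))
    | algebraMap a =>
      refine ⟨0, ?_⟩
      rw [pow_zero, one_mul]
      have h1 : algebraMap F K a = algebraMap F[X] K (C a) := by
        rw [halg, aeval_C]
      rw [h1]
      exact Subalgebra.algebraMap_mem S' _
    | add x y _ _ hx hy =>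
      obtain ⟨k, hk⟩ := hx
      obtain ⟨l, hl⟩ := hy
      refine ⟨k + l, ?_⟩
      have h1 : aeval T D ^ (k + l) * (x + y) =
          aeval T D ^ l * (aeval T D ^ k * x) + aeval T D ^ k * (aeval T D ^ l * y) := by ring
      rw [h1]
      exact add_mem (hpowS _ _ hk) (hpowS _ _ hl)
    | mul x y _ _ hx hy =>
      obtain ⟨k, hk⟩ := hx
      obtain ⟨l, hl⟩ := hy
      refine ⟨k + l, ?_⟩
      have h1 : aeval T D ^ (k + l) * (x * y) =
          (aeval T D ^ k * x) * (aeval T D ^ l * y) := by ring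
      rw [h1]
      exact mul_mem hk hl
  have hrep : ∀ x ∈ S', ∃ B : Fin (Module.finrank F[X] M) → F[X],
      x = ∑ j, aeval T (B j) * e j := by
    intro x hx
    refine ⟨fun j => b.repr (⟨x, hx⟩ : M) j, ?_⟩
    have h1 := congrArg (fun y : M => (y : K)) (b.sum_repr (⟨x, hx⟩ : M))
    simp only [Submodule.coe_sum, Submodule.coe_smul] at h1
    exact h1.symm
  have hB : ∀ w ∈ Algebra.adjoin F (Y : Set K), ∃ (k : ℕ)
      (B : Fin (Module.finrank F[X] M) → F[X]), aeval T D ^ k * w = ∑ j, aeval T (B j) * e j := by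
    intro w hw
    obtain ⟨k, hk⟩ := hclear w hw
    obtain ⟨B, hB⟩ := hrep _ hk
    exact ⟨k, B, hB⟩
  have hli : LinearIndependent F[X] e := b.linearIndependent.map' M.subtype M.ker_subtype
  refine ⟨_, e, fun j => hMS _ (b j).2, ?_, hB, ?_⟩
  · intro P hP
    funext j
    exact Fintype.linearIndependent_iff.1 hli P hP j
  -- (ii)
  let g : F[X] →ₐ[F] F⟮T⟯ := aeval (AdjoinSimple.gen F T)
  have hg : ∀ P : F[X], ((g P : F⟮T⟯) : K) = aeval T P := by
    intro P
    have h1 := aeval_algHom_apply (F⟮T⟯).val (AdjoinSimple.gen F T) P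
    exact h1.symm
  let algE : Algebra F[X] F⟮T⟯ := g.toRingHom.toAlgebra
  have : IsScalarTower F[X] F⟮T⟯ K := IsScalarTower.of_algebraMap_eq fun P => (hg P).symm
  have : FaithfulSMul F[X] F⟮T⟯ := by
    refine (faithfulSMul_iff_algebraMap_injective F[X] F⟮T⟯).2 fun P Q h => hinj ?_
    have h1 := congrArg (fun y : F⟮T⟯ => (y : K)) h
    exact (hg P).symm.trans (h1.trans (hg Q))
  have : IsFractionRing F[X] F⟮T⟯ := by
    refine IsFractionRing.of_field F[X] F⟮T⟯ fun z => ?_
    obtain ⟨p, q, hpq⟩ := (mem_adjoin_simple_iff F (z : K)).1 z.2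
    refine ⟨p, q, Subtype.ext ?_⟩
    rw [hpq, ← hg, ← hg]
    rfl
  have hliE : LinearIndependent F⟮T⟯ e := by
    rw [← LinearIndependent.iff_fractionRing F[X] F⟮T⟯]
    exact hli
  -- the span
  have hspan1 : ∀ w ∈ Algebra.adjoin F (Y : Set K), w ∈ Submodule.span F⟮T⟯ (Set.range e) := by
    intro w hw
    obtain ⟨k, B, hB⟩ := hB w hw
    have hne : algebraMap F[X] F⟮T⟯ D ^ k ≠ 0 :=
      pow_ne_zero k ((map_ne_zero_iff _ (FaithfulSMul.algebraMap_injective F[X] F⟮T⟯)).2 hDne)
    rw [← Submodule.smul_mem_iff _ hne]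
    have h1 : (algebraMap F[X] F⟮T⟯ D ^ k) • w = ∑ j, algebraMap F[X] F⟮T⟯ (B j) • e j := by
      rw [Algebra.smul_def, map_pow]
      have h2 : ∀ P : F[X], algebraMap F⟮T⟯ K (algebraMap F[X] F⟮T⟯ P) = aeval T P := hg
      rw [h2, hB]
      refine Finset.sum_congr rfl fun j _ => ?_
      rw [Algebra.smul_def, h2]
    rw [h1]
    exact Submodule.sum_mem _ fun j _ => Submodule.smul_mem _ _
      (Submodule.subset_span (Set.mem_range_self j))
  have hadj : IntermediateField.adjoin F⟮T⟯ (Y : Set K) = ⊤ := by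
    rw [eq_top_iff]
    intro x _
    have h1 : x ∈ IntermediateField.adjoin F (Y : Set K) := by rw [hY]; trivial
    have h2 : IntermediateField.adjoin F (Y : Set K) ≤
        IntermediateField.restrictScalars F (IntermediateField.adjoin F⟮T⟯ (Y : Set K)) := by
      rw [IntermediateField.adjoin_le_iff]
      exact IntermediateField.subset_adjoin F⟮T⟯ (Y : Set K)
    exact h2 h1
  have htop : Algebra.adjoin F⟮T⟯ (Y : Set K) = ⊤ := by
    rw [← adjoin_toSubalgebra_of_isAlgebraic (fun x _ => Algebra.IsAlgebraic.isAlgebraic x), hadj]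
    rfl
  have hspan : ⊤ ≤ Submodule.span F⟮T⟯ (Set.range e) := by
    intro x _
    have h1 : x ∈ Subalgebra.toSubmodule (Algebra.adjoin F⟮T⟯ (Y : Set K)) := by
      rw [htop]
      trivial
    rw [Algebra.adjoin_eq_span] at h1
    refine Submodule.span_le.2 ?_ h1
    intro y hy
    apply hspan1
    exact (Submonoid.closure_le (S := (Algebra.adjoin F (Y : Set K)).toSubmonoid)).2
      Algebra.subset_adjoin hy
  have h5 := Module.finrank_eq_card_basis (Module.Basis.mk hliE hspan)
  rw [Fintype.card_fin] at h5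
  exact h5.symm

end l1

/-- PROOF. `A = Algebra.adjoin F {T}` is isomorphic to `F[X]`, a principal ideal domain. `S' = Algebra.adjoin A {aeval T (c q) * q : q ∈ Y}` is generated by finitely many integral elements, so it is a finitely generated `A`-module (`fg_adjoin_of_finite`). It is contained in
`S = Algebra.adjoin F Y` (`T ∈ S`), torsion free over `A`, so free with a basis `e 0, ..., e (r-1)`. (i) `C = ∏_{q ∈ Y} c q`: for every `w ∈ S` there is `k` with `C(T)^k w ∈ S'`: induction (`Algebra.adjoin_induction`): for `q ∈ Y` `C(T) q = (C / c q)(T) (c_q(T) q)`; `F`;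
sums: the maximum; products: the sum of the exponents. Every element of `S'` is `∑_j B_j(T) e_j` (the elements of `A` are the `aeval T B`). (ii) `r = [K : F(T)]`: the `e j` are linearly independent over `A`, so over the fraction field `F(T)` of `A`; they span `K` over `F(T)`: the
span `V` of `S'` over `F(T)` is a subring of `K` containing the field `F(T)`, and `Y` (`C(T) ≠ 0`); `K` is algebraic over `F(T)`, so `V` is a field; it contains `F` and `Y`, so `V = K`. -/
theorem exists_lattice {F K : Type*} [Field F] [Field K] [Algebra F K] (Y : Finset K)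
    (hY : IntermediateField.adjoin F (Y : Set K) = ⊤) (T : K) (hT : Transcendental F T)
    (hTY : T ∈ Algebra.adjoin F (Y : Set K)) [FiniteDimensional F⟮T⟯ K] (c : K → F[X])
    (hc : ∀ q ∈ Y, c q ≠ 0 ∧
      IsIntegral (Algebra.adjoin F ({T} : Set K)) (aeval T (c q) * q)) :
    ∃ e : Fin (Module.finrank F⟮T⟯ K) → K, (∀ j, e j ∈ Algebra.adjoin F (Y : Set K)) ∧
      (∀ P : Fin (Module.finrank F⟮T⟯ K) → F[X], ∑ j, aeval T (P j) * e j = 0 → P = 0) ∧
      ∀ w ∈ Algebra.adjoin F (Y : Set K), ∃ (k : ℕ) (B : Fin (Module.finrank F⟮T⟯ K) → F[X]),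
        aeval T (∏ q ∈ Y, c q) ^ k * w = ∑ j, aeval T (B j) * e j := by
  obtain ⟨r, e, h1, h2, h3, rfl⟩ := l1_main Y hY T hT hTY c hc
  exact ⟨e, h1, h2, h3⟩

end AM
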