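import Pool.Agent.AM.Defs

/-!
# [AM-L2] lower bound for the dimension of `S / g(T) S`
-/

set_option autoImplicit false

open Polynomial IntermediateField

namespace AM

/-- PROOF. The elements `T^i e_j`, `i < n = deg g`, `j < h` of `S` (`Fin (n * h) ≃ Fin n × Fin h`, `finProdFinEquiv`). Suppose that `∑_{i,j} a_ij T^i e_j = g(T) w`, `w ∈ S`. Let `A_j = ∑_i a_ij X^i`, of degree `< n`. With `k`, `B` for `w`:
`∑_j (c^k A_j)(T) e_j = c(T)^k g(T) w = ∑_j (g B_j)(T) e_j`, so `c^k A_j = g B_j` for all `j`; `g` is coprime to `c^k` (`IsCoprime.pow_left`), so `g ∣ A_j`, `A_j = 0` by degrees (`Polynomial.eq_zero_of_dvd_of_natDegree_lt`/`degree_lt`), so all `a_ij = 0`. -/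
theorem indep_of_lattice {F K : Type*} [Field F] [Field K] [Algebra F K] (S : Subalgebra F K)
    (T : K) (hTS : T ∈ S) (g : F[X]) (hg : g ≠ 0) (c : F[X]) (hcg : IsCoprime c g) (h : ℕ)
    (e : Fin h → K) (he : ∀ j, e j ∈ S)
    (hind : ∀ P : Fin h → F[X], ∑ j, aeval T (P j) * e j = 0 → P = 0)
    (hden : ∀ w ∈ S, ∃ (k : ℕ) (B : Fin h → F[X]),
      aeval T c ^ k * w = ∑ j, aeval T (B j) * e j) :
    Indep S (aeval T g) (g.natDegree * h) := by
  refine ⟨fun q => T ^ ((finProdFinEquiv.symm q).1 : ℕ) * e (finProdFinEquiv.symm q).2, ?_, ?_⟩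
  · intro q
    exact S.mul_mem (S.pow_mem hTS _) (he _)
  · rintro a ⟨w, hw, hsum⟩
    obtain ⟨k, B, hB⟩ := hden w hw
    set A : Fin h → F[X] := fun j => ∑ i : Fin g.natDegree, C (a (finProdFinEquiv (i, j))) * X ^ (i : ℕ)
      with hA
    have h1 : ∑ q, a q • (T ^ ((finProdFinEquiv.symm q).1 : ℕ) * e (finProdFinEquiv.symm q).2) =
        ∑ j, aeval T (A j) * e j := by
      rw [← (finProdFinEquiv (m := g.natDegree) (n := h)).sum_comp, Fintype.sum_prod_type_right]
      refine Finset.sum_congr rfl fun j _ => ?_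
      rw [hA]
      simp only [map_sum, map_mul, aeval_C, map_pow, aeval_X, Finset.sum_mul, Equiv.symm_apply_apply]
      refine Finset.sum_congr rfl fun i _ => ?_
      rw [Algebra.smul_def, mul_assoc]
    rw [h1] at hsum
    have h2 := hind (fun j => c ^ k * A j - g * B j) (by
      have e1 : ∀ j, aeval T (c ^ k * A j - g * B j) * e j =
          aeval T c ^ k * (aeval T (A j) * e j) - aeval T g * (aeval T (B j) * e j) := by
        intro j
        simp only [map_sub, map_mul, map_pow]
        ring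
      simp only [e1]
      rw [Finset.sum_sub_distrib, ← Finset.mul_sum, ← Finset.mul_sum, hsum, ← hB]
      ring)
    have h3 : ∀ j, A j = 0 := by
      intro j
      have h4 : c ^ k * A j = g * B j := sub_eq_zero.mp (congrFun h2 j)
      have h5 : g ∣ c ^ k * A j := ⟨B j, h4⟩
      have h6 : IsCoprime g (c ^ k) := (hcg.pow_left).symm
      have h7 : g ∣ A j := h6.dvd_of_dvd_mul_left h5
      refine eq_zero_of_dvd_of_degree_lt h7 ?_
      rw [degree_eq_natDegree hg]
      exact degree_sum_fin_lt _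
    funext q
    have h8 := congrArg (fun P => coeff P ((finProdFinEquiv.symm q).1 : ℕ)) (h3 (finProdFinEquiv.symm q).2)
    simp only [hA, finsetSum_coeff, coeff_C_mul, coeff_X_pow, coeff_zero] at h8
    rw [Finset.sum_eq_single (finProdFinEquiv.symm q).1] at h8
    · rw [if_pos rfl, mul_one, Prod.mk.eta, Equiv.apply_symm_apply] at h8
      exact h8
    · intro b _ hb
      rw [if_neg, mul_zero]
      intro h9
      exact hb (Fin.ext h9.symm)
    · intro h9
      exact absurd (Finset.mem_univ _) h9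

end AM
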