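import Pool.Agent.AM.Defs

/-!
# [AM-U1] upper bound for the dimension of `S / G(T) S`
-/

set_option autoImplicit false

open Polynomial IntermediateField

namespace AM

theorem u1_aeval_mem {F K : Type*} [Field F] [Field K] [Algebra F K] (S : Subalgebra F K) {T : K}
    (hTS : T ∈ S) (P : F[X]) : aeval T P ∈ S := by
  have h : Algebra.adjoin F ({T} : Set K) ≤ S := by
    rw [Algebra.adjoin_le_iff, Set.singleton_subset_iff]
    exact hTS
  exact h (aeval_mem_adjoin_singleton F T)

theorem u1_basis {F K : Type*} [Field F] [Field K] [Algebra F K] (T : K)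
    (hT : Transcendental F T) (S : Subalgebra F K) (hTS : T ∈ S) (N : ℕ) (u : Fin N → K)
    (hu : ∀ i, u i ∈ S) :
    ∃ (r : ℕ) (e : Fin r → K), (∀ j, e j ∈ S) ∧
      (∀ P : Fin r → F[X], ∑ j, aeval T (P j) * e j = 0 → P = 0) ∧
      ∀ i, ∃ P : Fin r → F[X], u i = ∑ j, aeval T (P j) * e j := by
  let _ : Algebra F[X] K := (aeval T : F[X] →ₐ[F] K).toRingHom.toAlgebra
  have hsm : ∀ (P : F[X]) (x : K), P • x = aeval T P * x := fun P x => Algebra.smul_def P x
  have hinj : Function.Injective (aeval T : F[X] →ₐ[F] K) :=
    transcendental_iff_injective.mp hT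
  set M : Submodule F[X] K := Submodule.span F[X] (Set.range u) with hM
  have hfin : Module.Finite F[X] M := Module.Finite.span_of_finite F[X] (Set.finite_range u)
  have htf : NoZeroSMulDivisors F[X] K := by
    constructor
    intro P x h
    rw [hsm] at h
    rcases mul_eq_zero.mp h with h1 | h1
    · left
      exact hinj (by rw [h1, map_zero])
    · right; exact h1
  have htf2 : Module.IsTorsionFree F[X] M := by
    have h1 : Module.IsTorsionFree F[X] K := by
      constructor
      intro P hP x y hxy
      have hP' : P ≠ 0 := hP.ne_zero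
      have h2 : P • (x - y) = 0 := by
        rw [smul_sub]
        exact sub_eq_zero.mpr hxy
      rcases htf.eq_zero_or_eq_zero_of_smul_eq_zero h2 with h3 | h3
      · exact absurd h3 hP'
      · exact sub_eq_zero.mp h3
    infer_instance
  have hfree : Module.Free F[X] M := inferInstance
  set b := Module.finBasis F[X] M with hb
  have hMS : ∀ x ∈ M, x ∈ S := by
    intro x hx
    induction hx using Submodule.span_induction with
    | mem x h => obtain ⟨i, rfl⟩ := h; exact hu i
    | zero => exact S.zero_mem
    | add x y _ _ hx hy => exact S.add_mem hx hy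
    | smul P x _ hx =>
      rw [hsm]
      exact S.mul_mem (u1_aeval_mem S hTS P) hx
  refine ⟨Module.finrank F[X] M, fun j => (b j : K), fun j => hMS _ (b j).2, ?_, ?_⟩
  · intro P hP
    have h1 : ∑ j, P j • b j = 0 := by
      apply Subtype.ext
      rw [Submodule.coe_sum, Submodule.coe_zero, ← hP]
      refine Finset.sum_congr rfl fun j _ => ?_
      rw [Submodule.coe_smul, hsm]
    funext j
    exact Fintype.linearIndependent_iff.mp b.linearIndependent P h1 j
  · intro i
    refine ⟨fun j => b.repr ⟨u i, Submodule.subset_span ⟨i, rfl⟩⟩ j, ?_⟩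
    have h1 := b.sum_repr ⟨u i, Submodule.subset_span ⟨i, rfl⟩⟩
    have h2 := congrArg (fun x : M => (x : K)) h1
    simp only [Submodule.coe_sum, Submodule.coe_smul] at h2
    refine h2.symm.trans ?_
    refine Finset.sum_congr rfl fun j _ => ?_
    rw [hsm]

theorem u1_rank {F K : Type*} [Field F] [Field K] [Algebra F K] (T : K)
    [FiniteDimensional F⟮T⟯ K] (r : ℕ) (e : Fin r → K)
    (hind : ∀ P : Fin r → F[X], ∑ j, aeval T (P j) * e j = 0 → P = 0) :
    r ≤ Module.finrank F⟮T⟯ K := by
  have hli : LinearIndependent F⟮T⟯ e := by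
    rw [Fintype.linearIndependent_iff]
    intro f hf j
    have hex : ∀ j, ∃ p q : F[X], aeval T q ≠ 0 ∧ (f j : K) = aeval T p / aeval T q := by
      intro j
      obtain ⟨p, q, hpq⟩ := (mem_adjoin_simple_iff F (f j : K)).mp (f j).2
      by_cases hq : aeval T q = 0
      · refine ⟨0, 1, by simp, ?_⟩
        rw [hpq, hq]
        simp
      · exact ⟨p, q, hq, hpq⟩
    choose p q hq hpq using hex
    have hprod : aeval T (∏ i, q i) ≠ 0 := by
      rw [map_prod]
      exact Finset.prod_ne_zero_iff.mpr fun i _ => hq i
    have h1 := hind (fun j => p j * ∏ i ∈ Finset.univ.erase j, q i) (by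
      have h2 : ∀ j, aeval T (p j * ∏ i ∈ Finset.univ.erase j, q i) * e j =
          aeval T (∏ i, q i) * (f j • e j) := by
        intro j
        rw [IntermediateField.smul_def, smul_eq_mul, hpq j, map_mul,
          ← Finset.mul_prod_erase Finset.univ q (Finset.mem_univ j), map_mul]
        have := hq j
        field_simp
      simp only [h2]
      rw [← Finset.mul_sum, hf, mul_zero])
    have h3 : p j * ∏ i ∈ Finset.univ.erase j, q i = 0 := congrFun h1 j
    have h4 : p j = 0 := by
      rcases mul_eq_zero.mp h3 with h4 | h4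
      · exact h4
      · exfalso
        have : aeval T (∏ i, q i) = 0 := by
          rw [← Finset.mul_prod_erase Finset.univ q (Finset.mem_univ j), h4, mul_zero, map_zero]
        exact hprod this
    apply Subtype.ext
    rw [hpq j, h4]
    simp
  have h := hli.fintype_card_le_finrank
  rwa [Fintype.card_fin] at h

/-- PROOF. Let `u : Fin N → S` be as in `Indep`, and `M₀ ⊆ K` the `F[T]`-span of the `u i` (make `K` an `F[X]`-module/algebra by `(aeval T).toAlgebra`); `M₀ ⊆ S`. It is finitely generated and torsion free over the principal ideal domain `F[X]` (`T` is transcendental, `K` is a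
field), hence free (`Module.free_of_finite_type_torsion_free'`, or `Submodule.basisOfPid`..), with basis `e 0, ..., e (r-1)`. The `e j` are linearly independent over `F[X]`, so over the fraction field `F(T)` (`LinearIndependent.iff_fractionRing`, or clear denominators), so
`r ≤ [K : F(T)]`. Write `u i = ∑_j P_ij(T) e_j` and divide by `G` with remainder: `P_ij = G Q_ij + R_ij`, `deg R_ij < n = deg G` (`G` need not be monic: `Polynomial.div`/`%` over a field). If `N > n r` the `N` vectors `(R_ij)_j ∈ (F[X]_{< n})^r` in a space of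
dimension `n r` are linearly dependent: `a ≠ 0` with `∑_i a_i R_ij = 0` for all `j`, so `∑_i a_i u_i = G(T) ∑_j (∑_i a_i Q_ij)(T) e_j ∈ G(T) S`, a contradiction. So `N ≤ n r ≤ n [K : F(T)]`. -/
theorem indep_le {F K : Type*} [Field F] [Field K] [Algebra F K] (T : K)
    (hT : Transcendental F T) [FiniteDimensional F⟮T⟯ K] (S : Subalgebra F K) (hTS : T ∈ S)
    (G : F[X]) (hG : G ≠ 0) (N : ℕ) (h : Indep S (aeval T G) N) :
    N ≤ G.natDegree * Module.finrank F⟮T⟯ K := by
  obtain ⟨u, huS, hu⟩ := h
  obtain ⟨r, e, heS, hind, hP⟩ := u1_basis T hT S hTS N u huS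
  choose P hP using hP
  have hr := u1_rank T r e hind
  have hdeg : ∀ i j, (P i j % G).degree < G.degree := fun i j => EuclideanDomain.mod_lt _ hG
  set v : Fin N → (Fin r × Fin G.natDegree → F) := fun i q => (P i q.1 % G).coeff q.2 with hv
  have hli : LinearIndependent F v := by
    rw [Fintype.linearIndependent_iff]
    intro a ha
    have h1 : ∀ j, ∑ i, C (a i) * (P i j % G) = 0 := by
      intro j
      ext k
      rw [finsetSum_coeff, coeff_zero]
      simp only [coeff_C_mul]
      by_cases hk : k < G.natDegree
      · have h2 := congrFun ha (j, ⟨k, hk⟩)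
        rw [Finset.sum_apply] at h2
        simpa [hv] using h2
      · apply Finset.sum_eq_zero
        intro i _
        have h3 : (P i j % G).coeff k = 0 := by
          apply coeff_eq_zero_of_degree_lt
          refine (hdeg i j).trans_le ?_
          rw [degree_eq_natDegree hG]
          exact_mod_cast not_lt.mp hk
        rw [h3, mul_zero]
    have h2 : ∑ i, a i • u i = aeval T G * ∑ j, aeval T (∑ i, C (a i) * (P i j / G)) * e j := by
      have h3 : ∀ i, a i • u i = ∑ j, aeval T (C (a i) * P i j) * e j := by
        intro i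
        rw [hP i, Finset.smul_sum]
        refine Finset.sum_congr rfl fun j _ => ?_
        rw [map_mul, aeval_C, Algebra.smul_def, mul_assoc]
      simp only [h3]
      rw [Finset.sum_comm, Finset.mul_sum]
      refine Finset.sum_congr rfl fun j _ => ?_
      rw [← Finset.sum_mul, ← map_sum, ← mul_assoc, ← map_mul]
      congr 2
      have h4 : ∀ i, C (a i) * P i j = G * (C (a i) * (P i j / G)) + C (a i) * (P i j % G) := by
        intro i
        conv_lhs => rw [← EuclideanDomain.div_add_mod (P i j) G]
        ring
      simp only [h4]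
      rw [Finset.sum_add_distrib, h1 j, add_zero, Finset.mul_sum]
    have h5 := hu a ⟨_, Subalgebra.sum_mem S fun j _ =>
      S.mul_mem (u1_aeval_mem S hTS _) (heS j), h2⟩
    intro i
    exact congrFun h5 i
  have h6 := hli.fintype_card_le_finrank
  rw [Fintype.card_fin, Module.finrank_fintype_fun_eq_card, Fintype.card_prod, Fintype.card_fin,
    Fintype.card_fin] at h6
  calc N ≤ r * G.natDegree := h6
    _ = G.natDegree * r := mul_comm _ _
    _ ≤ _ := Nat.mul_le_mul_left _ hr

/-- PROOF. `z⁻¹` is a polynomial in `z` over `F` (`z` algebraic and not zero: `IsAlgebraic.inv...`, `Subalgebra.inv_mem_of_algebraic` or `Algebra.adjoin` of an algebraic element is a field), so `z⁻¹ ∈ S`. If `N > 0` take `a = Pi.single i 1`: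
`u i = z * (z⁻¹ * u i) ∈ z S`, so `a = 0`, a contradiction. -/
theorem indep_eq_zero {F K : Type*} [Field F] [Field K] [Algebra F K] (S : Subalgebra F K) (z : K)
    (hz : z ∈ S) (hz0 : z ≠ 0) (halg : IsAlgebraic F z) (N : ℕ) (h : Indep S z N) : N = 0 := by
  have hinv : z⁻¹ ∈ S := Subalgebra.inv_mem_of_algebraic (x := ⟨z, hz⟩) (A := S) (by
    exact halg)
  obtain ⟨u, huS, hu⟩ := h
  by_contra hN
  have i : Fin N := ⟨0, Nat.pos_of_ne_zero hN⟩
  have h1 := hu (Pi.single i 1) ⟨z⁻¹ * u i, S.mul_mem hinv (huS i), by
    rw [Finset.sum_eq_single i]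
    · rw [Pi.single_eq_same, one_smul, ← mul_assoc, mul_inv_cancel₀ hz0, one_mul]
    · intro j _ hj
      rw [Pi.single_eq_of_ne hj, zero_smul]
    · intro h; exact absurd (Finset.mem_univ _) h⟩
  have h2 := congrFun h1 i
  rw [Pi.single_eq_same] at h2
  exact one_ne_zero h2

end AM
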