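import Pool.Agent.AM.K1
import Pool.Agent.AM.L1
import Pool.Agent.AM.L2
import Pool.Agent.AM.U1

/-!
# [AM-L3] comparison of the heights
-/

set_option autoImplicit false

open Polynomial IntermediateField

namespace AM

variable {F K : Type*} [Field F] [Field K] [Algebra F K]

theorem l3_zero {S : Subalgebra F K} {z : K} {N : ℕ} (h : Indep S z N) {y : K} (hy : y ∈ S)
    (hzy : z * y = 1) : N = 0 := by
  by_contra hN
  obtain ⟨u, hu, hind⟩ := h
  have hN' : 0 < N := Nat.pos_of_ne_zero hN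
  have h1 := hind (Pi.single ⟨0, hN'⟩ 1) ⟨y * u ⟨0, hN'⟩, S.mul_mem hy (hu _), by
    rw [← mul_assoc, hzy, one_mul, Finset.sum_eq_single (⟨0, hN'⟩ : Fin N)]
    · simp
    · intro b _ hb
      rw [Pi.single_eq_of_ne hb, zero_smul]
    · intro hb
      exact absurd (Finset.mem_univ _) hb⟩
  have h2 := congrFun h1 ⟨0, hN'⟩
  simp at h2

theorem l3_mono {S : Subalgebra F K} {z z' : K} {N : ℕ} (h : Indep S z N) {y : K} (hy : y ∈ S)
    (hzy : z * y = z') : Indep S z' N := by
  obtain ⟨u, hu, hind⟩ := h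
  refine ⟨u, hu, fun a ha => hind a ?_⟩
  obtain ⟨w, hw, hs⟩ := ha
  exact ⟨y * w, S.mul_mem hy hw, by rw [hs, ← hzy, mul_assoc]⟩

theorem l3_aeval_mem {S : Subalgebra F K} {t : K} (ht : t ∈ S) (g : F[X]) : aeval t g ∈ S :=
  (Algebra.adjoin_le (Set.singleton_subset_iff.2 ht)) (Polynomial.aeval_mem_adjoin_singleton F t)

theorem l3_alg {t : K} (ht : IsAlgebraic F t) (g : F[X]) : IsAlgebraic F (aeval t g) := by
  rw [isAlgebraic_iff_isIntegral] at ht ⊢
  exact l3_aeval_mem (S := integralClosure F K) ht g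

/-- PROOF. `exists_den` for every `q ∈ Y`: `c q` with degree `≤ δ < deg g`, so `g ∤ c q`, and `g` is irreducible: `g` is coprime to `c q` and to the product (`IsCoprime.prod_left`). `exists_lattice` and `indep_of_lattice`. -/
theorem le_indep (Y : Finset K) (hY : IntermediateField.adjoin F (Y : Set K) = ⊤) (δ : ℕ)
    (hδ : ∀ q ∈ Y, HtLe F q δ) (T : K) (hT : Transcendental F T)
    (hTY : T ∈ Algebra.adjoin F (Y : Set K)) [FiniteDimensional F⟮T⟯ K] (g : F[X])
    (hg : Irreducible g) (hn : δ < g.natDegree) :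
    Indep (Algebra.adjoin F (Y : Set K)) (aeval T g) (g.natDegree * Module.finrank F⟮T⟯ K) := by
  have h1 : ∀ q ∈ Y, ∃ c : F[X], c ≠ 0 ∧ c.natDegree ≤ δ ∧
      IsIntegral (Algebra.adjoin F ({T} : Set K)) (aeval T c * q) :=
    fun q hq => exists_den T q hT δ (hδ q hq)
  choose! c hc using h1
  obtain ⟨e, he, hind, hden⟩ := exists_lattice Y hY T hT hTY c
    (fun q hq => ⟨(hc q hq).1, (hc q hq).2.2⟩)
  have hcop : IsCoprime (∏ q ∈ Y, c q) g := by
    refine IsCoprime.prod_left fun q hq => ?_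
    refine IsCoprime.symm ?_
    rw [hg.coprime_iff_not_dvd]
    intro hd
    have h2 := Polynomial.natDegree_le_of_dvd hd (hc q hq).1
    have h3 := (hc q hq).2.1
    omega
  exact indep_of_lattice _ T hTY g hg.ne_zero _ hcop _ e he hind hden

/-- PROOF. `0 < deg g` and `0 < finrank`, so `N = deg g * finrank > 0`; with `a = Pi.single 0 1` (`u 0 = g(T) (y * u 0)`) `Indep` gives a contradiction. -/
theorem not_unit (Y : Finset K) (hY : IntermediateField.adjoin F (Y : Set K) = ⊤) (δ : ℕ)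
    (hδ : ∀ q ∈ Y, HtLe F q δ) (T : K) (hT : Transcendental F T)
    (hTY : T ∈ Algebra.adjoin F (Y : Set K)) [FiniteDimensional F⟮T⟯ K] (g : F[X])
    (hg : Irreducible g) (hn : δ < g.natDegree) (y : K)
    (hy : y ∈ Algebra.adjoin F (Y : Set K)) : aeval T g * y ≠ 1 := by
  intro h1
  have h2 := l3_zero (le_indep Y hY δ hδ T hT hTY g hg hn) hy h1
  have h3 : 0 < Module.finrank F⟮T⟯ K := Module.finrank_pos
  have h4 : 0 < g.natDegree := by omega
  have h5 := Nat.mul_pos h4 h3
  omega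

/-- PROOF. If `T` is algebraic over `F`: clear. Otherwise `Indep S (g(T)) (n h(T))` by `le_indep`, `n = deg g`, `h(T) = finrank F⟮T⟯ K > 0`. As `g'(t) S ⊆ g(T) S` (`g'(t) w = g(T) (y w)`) also `Indep S (g'(t)) (n h(T))`. If `t` is algebraic over `F`, so is `g'(t) ≠ 0`, and
`n h(T) = 0` by `indep_eq_zero`, a contradiction (`n > δ ≥ 0`). If `t` is transcendental, `indep_le` gives `n h(T) ≤ n h(t)`, so `h(T) ≤ h(t)`. -/
theorem htLe_of_rel (Y : Finset K) (hY : IntermediateField.adjoin F (Y : Set K) = ⊤) (δ : ℕ)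
    (hδ : ∀ q ∈ Y, HtLe F q δ) (T t : K)
    (hTY : T ∈ Algebra.adjoin F (Y : Set K)) (htY : t ∈ Algebra.adjoin F (Y : Set K))
    (hTf : Transcendental F T → FiniteDimensional F⟮T⟯ K)
    (htf : Transcendental F t → FiniteDimensional F⟮t⟯ K) (g g' : F[X]) (hg : Irreducible g)
    (hn : δ < g.natDegree) (hd : g'.natDegree = g.natDegree) (y : K)
    (hy : y ∈ Algebra.adjoin F (Y : Set K)) (hrel : aeval T g * y = aeval t g')
    (hne : aeval t g' ≠ 0) : HtLe F T (Module.finrank F⟮t⟯ K) := by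
  by_cases hT : IsAlgebraic F T
  · exact Or.inl hT
  have hT' : Transcendental F T := hT
  have hfd : FiniteDimensional F⟮T⟯ K := hTf hT'
  have h1 := le_indep Y hY δ hδ T hT' hTY g hg hn
  have h2 := l3_mono h1 hy hrel
  have h3 : 0 < Module.finrank F⟮T⟯ K := Module.finrank_pos
  have h4 : 0 < g.natDegree := by omega
  by_cases ht : IsAlgebraic F t
  · have h5 := indep_eq_zero _ _ (l3_aeval_mem htY g') hne (l3_alg ht g') _ h2
    have h6 := Nat.mul_pos h4 h3
    omega
  · have ht' : Transcendental F t := ht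
    have hfd' : FiniteDimensional F⟮t⟯ K := htf ht'
    have hg0 : g' ≠ 0 := by
      rintro rfl
      exact hne (map_zero _)
    have h5 := indep_le t ht' _ htY g' hg0 _ h2
    rw [hd] at h5
    exact Or.inr ⟨hfd, Nat.le_of_mul_le_mul_left h5 h4⟩

end AM
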