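import Pool.Agent.AM.Defs

/-!
# [AM-N4] finiteness of the set of the roots of the polynomials of bounded degree
-/

set_option autoImplicit false

open Polynomial IntermediateField

namespace AM

/-- PROOF. The exponents of the monomials of such a polynomial are `≤ C` in every variable (`MvPolynomial.degreeOf_le_iff`), so the support is contained in a fixed finite set, and the coefficients are in a finite set. -/
theorem finite_degreeOf_le {σ k : Type*} [Field k] [Finite k] [Finite σ] (C : ℕ) :
    {Φ : MvPolynomial σ k | ∀ o, Φ.degreeOf o ≤ C}.Finite := by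
  classical
  have := Fintype.ofFinite σ
  have hS : {m : σ →₀ ℕ | ∀ o, m o ≤ C}.Finite := by
    have h1 : {m : σ →₀ ℕ | ∀ o, m o ≤ C} ⊆
        (fun m : σ →₀ ℕ => (m : σ → ℕ)) ⁻¹' (Set.Iic (fun _ => C)) := by
      intro m hm
      exact fun o => hm o
    exact Set.Finite.subset (Set.Finite.preimage (DFunLike.coe_injective.injOn) (Set.finite_Iic _)) h1
  have : Finite {m : σ →₀ ℕ | ∀ o, m o ≤ C} := hS
  let f : MvPolynomial σ k → ({m : σ →₀ ℕ | ∀ o, m o ≤ C} → k) := fun Φ m => Φ.coeff m
  refine Set.Finite.of_finite_image (f := f) (Set.toFinite _) ?_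
  intro Φ hΦ Ψ hΨ heq
  ext m
  by_cases hm : ∀ o, m o ≤ C
  · exact congrFun heq ⟨m, hm⟩
  · have hout : ∀ Θ : MvPolynomial σ k, (∀ o, Θ.degreeOf o ≤ C) → Θ.coeff m = 0 := by
      intro Θ hΘ
      by_contra hne
      apply hm
      intro o
      exact (MvPolynomial.le_degreeOf_of_mem_support o (MvPolynomial.mem_support_iff.mpr hne)).trans
        (hΘ o)
    rw [hout Φ hΦ, hout Ψ hΨ]

/-- PROOF. `MvPolynomial.optionEquivLeft k ι Φ ∈ (MvPolynomial ι k)[X]` is not zero, its image `Φ_x ∈ K[X]` under the injective homomorphism `aeval x` on the coefficients is not zero, and `aeval (xT x T) Φ = Φ_x(T)`: the set of the roots of `Φ_x`. -/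
theorem finite_roots {k K : Type*} [Field k] [Field K] [Algebra k K] {ι : Type*} (x : ι → K)
    (hx : AlgebraicIndependent k x) (Φ : MvPolynomial (Option ι) k) (hΦ : Φ ≠ 0) :
    {T : K | MvPolynomial.aeval (xT x T) Φ = 0}.Finite := by
  classical
  let P : K[X] := (MvPolynomial.optionEquivLeft k ι Φ).map
    ((MvPolynomial.aeval x : MvPolynomial ι k →ₐ[k] K) : MvPolynomial ι k →+* K)
  have hinj : Function.Injective ((MvPolynomial.aeval x : MvPolynomial ι k →ₐ[k] K) :
      MvPolynomial ι k →+* K) := hx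
  have hP : P ≠ 0 := by
    intro h
    have h1 := (Polynomial.map_eq_zero_iff hinj).mp h
    exact hΦ ((map_eq_zero_iff _ (MvPolynomial.optionEquivLeft k ι).injective).mp h1)
  have heval : ∀ T : K, MvPolynomial.aeval (xT x T) Φ = P.eval T := by
    intro T
    have h1 : (MvPolynomial.aeval (xT x T) : MvPolynomial (Option ι) k →ₐ[k] K) =
        ((Polynomial.aeval T : K[X] →ₐ[K] K).restrictScalars k).comp
          ((Polynomial.mapAlgHom (MvPolynomial.aeval x : MvPolynomial ι k →ₐ[k] K)).comp
            (MvPolynomial.optionEquivLeft k ι).toAlgHom) := by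
      apply MvPolynomial.algHom_ext
      intro o
      cases o with
      | none =>
        simp [xT, MvPolynomial.optionEquivLeft_X_none]
      | some i =>
        simp [xT, MvPolynomial.optionEquivLeft_X_some]
    have h2 := DFunLike.congr_fun h1 Φ
    rw [h2]
    show Polynomial.aeval T P = _
    rw [Polynomial.coe_aeval_eq_eval]
  have h3 : {T : K | MvPolynomial.aeval (xT x T) Φ = 0} ⊆ (P.roots.toFinset : Set K) := by
    intro T hT
    rw [Set.mem_setOf_eq, heval] at hT
    rw [Finset.mem_coe, Multiset.mem_toFinset, Polynomial.mem_roots hP]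
    exact hT
  exact (Finset.finite_toSet _).subset h3

/-- PROOF. If `degreeOf (some i) Φ = 0` for all `i` then `Φ` is in the image of `k[X]` (only the variable `none` occurs: `MvPolynomial.vars`, or `optionEquivLeft Φ` has constant coefficients), so `T` is a root of a nonzero polynomial over `k`. -/
theorem isAlgebraic_of_degreeOf {k K : Type*} [Field k] [Field K] [Algebra k K] {ι : Type*}
    (x : ι → K) (T : K) (Φ : MvPolynomial (Option ι) k) (hΦ : Φ ≠ 0)
    (h0 : MvPolynomial.aeval (xT x T) Φ = 0) (h : ∀ i, Φ.degreeOf (some i) = 0) :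
    IsAlgebraic k T := by
  classical
  let f : PUnit.{1} → Option ι := fun _ => none
  have hvars : (Φ.vars : Set (Option ι)) ⊆ Set.range f := by
    intro o ho
    cases o with
    | none => exact ⟨PUnit.unit, rfl⟩
    | some i =>
      exact absurd (h i) (MvPolynomial.mem_vars_iff_degreeOf_ne_zero.mp ho)
  obtain ⟨Ψ, hΨ⟩ := MvPolynomial.exists_rename_eq_of_vars_subset_range Φ f
    (fun a b _ => Subsingleton.elim a b) hvars
  refine ⟨MvPolynomial.pUnitAlgEquiv.{_, 0} k Ψ, ?_, ?_⟩
  · intro h1
    have h2 := (map_eq_zero_iff _ (MvPolynomial.pUnitAlgEquiv.{_, 0} k).injective).mp h1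
    rw [h2, map_zero] at hΨ
    exact hΦ hΨ.symm
  · have h1 : ((Polynomial.aeval T : k[X] →ₐ[k] K).comp (MvPolynomial.pUnitAlgEquiv.{_, 0} k).toAlgHom) =
        (MvPolynomial.aeval (fun _ => T) : MvPolynomial PUnit.{1} k →ₐ[k] K) := by
      apply MvPolynomial.algHom_ext
      intro i
      simp
    have h2 := DFunLike.congr_fun h1 Ψ
    have h3 : Polynomial.aeval T (MvPolynomial.pUnitAlgEquiv.{_, 0} k Ψ) =
        MvPolynomial.aeval (fun _ => T) Ψ := h2
    rw [h3]
    rw [← hΨ, MvPolynomial.aeval_rename] at h0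
    exact h0

/-- PROOF. `ZMod p` is finite, so `(ZMod p)⟮T⟯` is a finite field; the nonzero element `T` of it has finite order. -/
theorem pow_eq_one_of_isAlgebraic {p : ℕ} [Fact p.Prime] {K : Type*} [Field K] [Algebra (ZMod p) K]
    (T : K) (hT : T ≠ 0) (h : IsAlgebraic (ZMod p) T) : ∃ k : ℕ, 0 < k ∧ T ^ k = 1 := by
  have : FiniteDimensional (ZMod p) (ZMod p)⟮T⟯ :=
    IntermediateField.adjoin.finiteDimensional h.isIntegral
  have : Finite (ZMod p)⟮T⟯ := Module.finite_of_finite (ZMod p)
  have hg : IntermediateField.AdjoinSimple.gen (ZMod p) T ≠ 0 := by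
    intro h0
    apply hT
    have := congrArg (algebraMap (ZMod p)⟮T⟯ K) h0
    rwa [IntermediateField.AdjoinSimple.algebraMap_gen, map_zero] at this
  obtain ⟨k, hk, hk1⟩ := (isOfFinOrder_iff_pow_eq_one.mp
    (isOfFinOrder_of_finite (Units.mk0 _ hg)))
  refine ⟨k, hk, ?_⟩
  have h1 : (IntermediateField.AdjoinSimple.gen (ZMod p) T) ^ k = 1 := by
    have := congrArg Units.val hk1
    rwa [Units.val_pow_eq_pow_val, Units.val_mk0, Units.val_one] at this
  have h2 := congrArg (algebraMap (ZMod p)⟮T⟯ K) h1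
  rwa [map_pow, IntermediateField.AdjoinSimple.algebraMap_gen, map_one] at h2

end AM
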