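import Pool.Agent.AM.N3
import Pool.Agent.AM.N4

/-!
# [AM-N5] Northcott property
-/

set_option autoImplicit false

open Polynomial IntermediateField

namespace AM

/-- **Northcott.** PROOF. `m = [K : k(x)]` (`finiteDimensional_basis`). For every `T` in the set let `Φ_T` be as in `exists_gen`. By `degreeOf_some_le` and `degreeOf_none_le` all its degrees are `≤ max C m`. So the set is contained in the union of the
sets of `finite_roots` over the finitely many nonzero `Φ` of `finite_degreeOf_le`. -/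
theorem northcott {k K : Type*} [Field k] [Finite k] [Field K] [Algebra k K] {ι : Type*} [Finite ι]
    (x : ι → K) (hx : IsTranscendenceBasis k x) (hK : FieldFG k K) (C : ℕ) :
    {T : K | ∀ i, HtLe (Fi k x i) T C}.Finite := by
  haveI := finiteDimensional_basis x hx hK
  set m := Module.finrank (IntermediateField.adjoin k (Set.range x)) K with hm
  have hfin : {Φ : MvPolynomial (Option ι) k | ∀ o, Φ.degreeOf o ≤ max C m}.Finite :=
    finite_degreeOf_le (max C m)
  refine ((hfin.subset (fun Φ (h : Φ ∈ {Φ : MvPolynomial (Option ι) k |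
    (∀ o, Φ.degreeOf o ≤ max C m) ∧ Φ ≠ 0}) => h.1)).biUnion (fun Φ hΦ =>
      finite_roots x hx.1 Φ hΦ.2)).subset ?_
  intro T hT
  obtain ⟨Φ, hΦ0, hΦT, hΦ⟩ := exists_gen x hx T
  refine Set.mem_iUnion₂.2 ⟨Φ, ⟨?_, hΦ0⟩, hΦT⟩
  intro o
  cases o with
  | none => exact (degreeOf_none_le x T Φ hΦ).trans (le_max_right _ _)
  | some i => exact (degreeOf_some_le x T i C (hT i) Φ hΦ).trans (le_max_left _ _)

/-- PROOF. `Φ_T` of `exists_gen` has `degreeOf (some i) = 0` for all `i` (`degreeOf_some_eq_zero`); `isAlgebraic_of_degreeOf`. -/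
theorem isAlgebraic_of_forall {k K : Type*} [Field k] [Field K] [Algebra k K] {ι : Type*}
    (x : ι → K) (hx : IsTranscendenceBasis k x) (T : K) (h : ∀ i, IsAlgebraic (Fi k x i) T) :
    IsAlgebraic k T := by
  obtain ⟨Φ, hΦ0, hΦT, hΦ⟩ := exists_gen x hx T
  exact isAlgebraic_of_degreeOf x T Φ hΦ0 hΦT
    (fun i => degreeOf_some_eq_zero x T i (h i) Φ hΦ)

end AM
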