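import Pool.Agent.AM.K2
import Pool.Agent.AM.K3
import Pool.Agent.AM.L3
import Pool.Agent.AM.N5

/-!
# [AM-K4] the arithmetic theorem
-/

set_option autoImplicit false

open Polynomial IntermediateField

namespace AM

theorem k4_htLe_mono {F K : Type*} [Field F] [Field K] [Algebra F K] {T : K} {C D : ℕ}
    (h : HtLe F T C) (hCD : C ≤ D) : HtLe F T D := by
  rcases h with h | ⟨h1, h2⟩
  · exact Or.inl h
  · exact Or.inr ⟨h1, h2.trans hCD⟩

theorem k4_Y {K : Type*} [Field K] (Γ : Subgroup Kˣ) (hfg : Γ.FG) :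
    ∃ Y : Finset K, (Y : Set K) ⊆ uset Γ ∧
      ∀ (F : Type*) [Field F] [Algebra F K], ∀ u ∈ Γ, (u : K) ∈ Algebra.adjoin F (Y : Set K) := by
  classical
  obtain ⟨S, hS⟩ := hfg
  refine ⟨(S ∪ S.image (fun u => u⁻¹)).image (fun u : Kˣ => (u : K)), ?_, ?_⟩
  · intro z hz
    rw [Finset.mem_coe, Finset.mem_image] at hz
    obtain ⟨u, hu, rfl⟩ := hz
    refine ⟨u, ?_, rfl⟩
    rw [Finset.mem_union, Finset.mem_image] at hu
    rcases hu with hu | ⟨v, hv, rfl⟩
    · rw [← hS]
      exact Subgroup.subset_closure hu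
    · rw [← hS]
      exact Subgroup.inv_mem _ (Subgroup.subset_closure hv)
  · intro F _ _ u hu
    rw [← hS] at hu
    have key : (u : K) ∈ Algebra.adjoin F
          (((S ∪ S.image (fun u => u⁻¹)).image (fun u : Kˣ => (u : K)) : Finset K) : Set K) ∧
        ((u⁻¹ : Kˣ) : K) ∈ Algebra.adjoin F
          (((S ∪ S.image (fun u => u⁻¹)).image (fun u : Kˣ => (u : K)) : Finset K) : Set K) := by
      induction hu using Subgroup.closure_induction with
      | mem x hx =>
        constructor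
        · apply Algebra.subset_adjoin
          rw [Finset.mem_coe, Finset.mem_image]
          exact ⟨x, Finset.mem_union_left _ hx, rfl⟩
        · apply Algebra.subset_adjoin
          rw [Finset.mem_coe, Finset.mem_image]
          exact ⟨x⁻¹, Finset.mem_union_right _ (Finset.mem_image_of_mem _ hx), rfl⟩
      | one =>
        constructor
        · rw [Units.val_one]
          exact Subalgebra.one_mem _
        · rw [inv_one, Units.val_one]
          exact Subalgebra.one_mem _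
      | mul x y _ _ hx hy =>
        constructor
        · rw [Units.val_mul]
          exact Subalgebra.mul_mem _ hx.1 hy.1
        · rw [mul_inv_rev, Units.val_mul]
          exact Subalgebra.mul_mem _ hy.2 hx.2
      | inv x _ hx =>
        rw [inv_inv]
        exact ⟨hx.2, hx.1⟩
    exact key.1

theorem k4_adjoin_le {k K : Type*} [Field k] [Field K] [Algebra k K] (E : IntermediateField k K)
    (Y : Set K) {y : K} (hy : y ∈ Algebra.adjoin k Y) : y ∈ Algebra.adjoin E Y := by
  have h : Algebra.adjoin k Y ≤ (Algebra.adjoin E Y).restrictScalars k :=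
    Algebra.adjoin_le fun z hz => Algebra.subset_adjoin hz
  exact h hy

theorem k4_adjoin_top {k K : Type*} [Field k] [Field K] [Algebra k K] (E : IntermediateField k K)
    (Y : Set K) (hY : IntermediateField.adjoin k Y = ⊤) : IntermediateField.adjoin E Y = ⊤ := by
  have h : IntermediateField.adjoin k Y ≤ (IntermediateField.adjoin E Y).restrictScalars k :=
    IntermediateField.adjoin_le_iff.mpr fun z hz => IntermediateField.subset_adjoin E Y hz
  rw [eq_top_iff]
  intro z _
  exact h (hY ▸ IntermediateField.mem_top)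

/-- the common set-up -/
theorem k4_setup {p : ℕ} [Fact p.Prime] {K : Type*} [Field K] [Algebra (ZMod p) K]
    (Γ : Subgroup Kˣ) (hfg : Γ.FG) (hgen : IntermediateField.adjoin (ZMod p) (uset Γ) = ⊤) :
    ∃ (d : ℕ) (x : Fin d → K) (Y : Finset K) (δ : ℕ), IsTranscendenceBasis (ZMod p) x ∧
      FieldFG (ZMod p) K ∧
      Algebra.adjoin (ZMod p) (uset Γ) = Algebra.adjoin (ZMod p) (Y : Set K) ∧
      (∀ u ∈ Γ, (u : K) ∈ Algebra.adjoin (ZMod p) (Y : Set K)) ∧
      IntermediateField.adjoin (ZMod p) (Y : Set K) = ⊤ ∧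
      ∀ i, ∀ q ∈ Y, HtLe (Fi (ZMod p) x i) q δ := by
  classical
  obtain ⟨Y, hYΓ, hY⟩ := k4_Y Γ hfg
  have h1 : Algebra.adjoin (ZMod p) (uset Γ) = Algebra.adjoin (ZMod p) (Y : Set K) := by
    apply le_antisymm
    · apply Algebra.adjoin_le
      rintro _ ⟨u, hu, rfl⟩
      exact hY (ZMod p) u hu
    · exact Algebra.adjoin_mono hYΓ
  have h2 : IntermediateField.adjoin (ZMod p) (Y : Set K) = ⊤ := by
    rw [eq_top_iff, ← hgen, IntermediateField.adjoin_le_iff]
    rintro _ ⟨u, hu, rfl⟩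
    exact IntermediateField.algebra_adjoin_le_adjoin _ _ (hY (ZMod p) u hu)
  have hK : FieldFG (ZMod p) K := ⟨Y, h2⟩
  obtain ⟨d, x, hx⟩ := exists_finite_basis hK
  refine ⟨d, x, Y, Finset.univ.sup fun i => Y.sup fun q =>
    Module.finrank (Fi (ZMod p) x i)⟮q⟯ K, hx, hK, h1, hY (ZMod p), h2, ?_⟩
  intro i q hq
  by_cases halg : IsAlgebraic (Fi (ZMod p) x i) q
  · exact Or.inl halg
  · refine Or.inr ⟨finiteDimensional_Fi x hx hK i q halg, ?_⟩
    have h3 : Module.finrank (Fi (ZMod p) x i)⟮q⟯ K ≤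
        Y.sup fun q => Module.finrank (Fi (ZMod p) x i)⟮q⟯ K :=
      Finset.le_sup (f := fun q => Module.finrank (Fi (ZMod p) x i)⟮q⟯ K) hq
    exact h3.trans (Finset.le_sup (f := fun i => Y.sup fun q =>
      Module.finrank (Fi (ZMod p) x i)⟮q⟯ K) (Finset.mem_univ i))

theorem k4_transc {p : ℕ} [Fact p.Prime] {K : Type*} [Field K] [Algebra (ZMod p) K] (t : Kˣ)
    (htinf : ∀ k : ℕ, 0 < k → t ^ k ≠ 1) : Transcendental (ZMod p) (t : K) := by
  intro halg
  obtain ⟨k, hk, hk1⟩ := pow_eq_one_of_isAlgebraic (t : K) t.ne_zero halg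
  apply htinf k hk
  apply Units.ext
  rw [Units.val_pow_eq_pow_val, hk1, Units.val_one]

/-- PROOF. `exists_finite_basis`: `x : Fin d → K` (`FieldFG`: a finite set `Y₀` of generators of `Γ` and their inverses generates the field `K`). `Y` = the finite set of the elements of `Y₀` and their inverses in `K`: `Algebra.adjoin (ZMod p) Y = Algebra.adjoin (ZMod p) (uset Γ)`, `Γ ⊆ Algebra.adjoin F Y` for every intermediate field `F`,
`IntermediateField.adjoin F Y = ⊤`. For `i` let `F i = Fi (ZMod p) x i`; `HtLe (F i) q δ` for all `q ∈ Y` and all `i`, for some `δ` (`finiteDimensional_Fi`). `N₀ = δ + 1`. `C` = the maximum of the `finrank (F i)⟮t⟯ K`. `Φ` = the finite set of `northcott` for `C`.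
Let `n ≥ N₀`, `g, g'`, `T`, `y`. `t` is transcendental over `ZMod p` (`pow_eq_one_of_isAlgebraic`), so `g'(t) ≠ 0`. For every `i` the polynomials `g, g'` stay irreducible over `F i` (`irreducible_map_Fi`; `aeval` of the mapped polynomial is `aeval` of `g`), of the same degree, and `htLe_of_rel` (`y ∈ Algebra.adjoin (F i) Y` as
`Algebra.adjoin (ZMod p) Y ⊆ Algebra.adjoin (F i) Y`) gives `HtLe (F i) T C`. So `T ∈ Φ`. -/
theorem arith {p : ℕ} [Fact p.Prime] {K : Type*} [Field K] [Algebra (ZMod p) K] (Γ : Subgroup Kˣ)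
    (hfg : Γ.FG) (hgen : IntermediateField.adjoin (ZMod p) (uset Γ) = ⊤) (t : Kˣ) (ht : t ∈ Γ)
    (htinf : ∀ k : ℕ, 0 < k → t ^ k ≠ 1) :
    ∃ (N₀ : ℕ) (Φ : Finset K), ∀ n, N₀ ≤ n → ∀ g g' : (ZMod p)[X], Irreducible g →
      Irreducible g' → g.natDegree = n → g'.natDegree = n → ∀ T ∈ Γ, ∀ y ∈ Algebra.adjoin (ZMod p) (uset Γ),
        aeval (T : K) g * y = aeval (t : K) g' → (T : K) ∈ Φ := by
  classical
  obtain ⟨d, x, Y, δ, hx, hK, hS, hΓ, hY, hδ⟩ := k4_setup Γ hfg hgen
  have hfin := northcott x hx hK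
    (Finset.univ.sup fun i => Module.finrank (Fi (ZMod p) x i)⟮(t : K)⟯ K)
  refine ⟨δ + 1, hfin.toFinset, ?_⟩
  intro n hn g g' hg hg' hgn hg'n T hT y hy hrel
  rw [Set.Finite.mem_toFinset]
  intro i
  have htr : Transcendental (ZMod p) (t : K) := k4_transc t htinf
  have hne : aeval (t : K) g' ≠ 0 := by
    intro h0
    exact htr ⟨g', hg'.ne_zero, h0⟩
  rw [hS] at hy
  have hmain := htLe_of_rel (F := Fi (ZMod p) x i) Y (k4_adjoin_top _ _ hY) δ (hδ i) (T : K) (t : K)
    (k4_adjoin_le _ _ (hΓ T hT)) (k4_adjoin_le _ _ (hΓ t ht))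
    (fun h => finiteDimensional_Fi x hx hK i _ h) (fun h => finiteDimensional_Fi x hx hK i _ h)
    (g.map (algebraMap (ZMod p) (Fi (ZMod p) x i)))
    (g'.map (algebraMap (ZMod p) (Fi (ZMod p) x i)))
    (irreducible_map_Fi x hx.1 i g hg) (by rw [natDegree_map]; omega)
    (by rw [natDegree_map, natDegree_map]; omega) y (k4_adjoin_le _ _ hy)
    (by rw [aeval_map_algebraMap, aeval_map_algebraMap]; exact hrel)
    (by rw [aeval_map_algebraMap]; exact hne)
  exact k4_htLe_mono hmain (Finset.le_sup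
    (f := fun i => Module.finrank (Fi (ZMod p) x i)⟮(t : K)⟯ K) (Finset.mem_univ i))

/-- PROOF. With the same `x`, `Y`, `F i`, `δ`, `N₀`. If `g' ≠ g''` (monic, irreducible) they are coprime: `a g' + b g'' = 1`, so `1 = a(t) g'(t) + b(t) g''(t) = g(T) (a(t) y + b(t) y')` in `S = Algebra.adjoin (ZMod p) (uset Γ)`. `T` is transcendental over `ZMod p` (`pow_eq_one_of_isAlgebraic`), so transcendental over some `F i`
(`isAlgebraic_of_forall`); `not_unit` over `F i` (with `g` mapped to `F i`, irreducible) gives a contradiction. -/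
theorem arith_unique {p : ℕ} [Fact p.Prime] {K : Type*} [Field K] [Algebra (ZMod p) K]
    (Γ : Subgroup Kˣ) (hfg : Γ.FG)
    (hgen : IntermediateField.adjoin (ZMod p) (uset Γ) = ⊤) (t : Kˣ) (ht : t ∈ Γ) :
    ∃ N₀ : ℕ, ∀ n, N₀ ≤ n → ∀ g g' g'' : (ZMod p)[X], Irreducible g → g.natDegree = n →
      g'.Monic → Irreducible g' → g''.Monic → Irreducible g'' → ∀ T ∈ Γ,
      (∀ k : ℕ, 0 < k → T ^ k ≠ 1) → ∀ y ∈ Algebra.adjoin (ZMod p) (uset Γ),
      ∀ y' ∈ Algebra.adjoin (ZMod p) (uset Γ), aeval (T : K) g * y = aeval (t : K) g' →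
        aeval (T : K) g * y' = aeval (t : K) g'' → g' = g'' := by
  classical
  obtain ⟨d, x, Y, δ, hx, hK, hS, hΓ, hY, hδ⟩ := k4_setup Γ hfg hgen
  refine ⟨δ + 1, ?_⟩
  intro n hn g g' g'' hg hgn hm' hg' hm'' hg'' T hT hTinf y hy y' hy' h1 h2
  by_contra hne
  have hcop : IsCoprime g' g'' := by
    rcases hg'.isCoprime_or_dvd g'' with h | h
    · exact h
    · exfalso
      apply hne
      exact eq_of_monic_of_associated hm' hm'' (hg'.associated_of_dvd hg'' h)
  obtain ⟨a, b, hab⟩ := hcop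
  have htr : Transcendental (ZMod p) (T : K) := k4_transc T hTinf
  have hex : ∃ i, Transcendental (Fi (ZMod p) x i) (T : K) := by
    by_contra hcon
    apply htr
    apply isAlgebraic_of_forall x hx
    intro i
    by_contra hi
    exact hcon ⟨i, hi⟩
  obtain ⟨i, hi⟩ := hex
  have hfd : FiniteDimensional (Fi (ZMod p) x i)⟮(T : K)⟯ K := finiteDimensional_Fi x hx hK i _ hi
  have htY : (t : K) ∈ Algebra.adjoin (ZMod p) (Y : Set K) := hΓ t ht
  have haev : ∀ q : (ZMod p)[X], aeval (t : K) q ∈ Algebra.adjoin (ZMod p) (Y : Set K) := by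
    intro q
    exact (Algebra.adjoin_le (Set.singleton_subset_iff.mpr htY) :
      Algebra.adjoin (ZMod p) ({(t : K)} : Set K) ≤ Algebra.adjoin (ZMod p) (Y : Set K))
      (aeval_mem_adjoin_singleton (ZMod p) (t : K))
  rw [hS] at hy hy'
  refine not_unit (F := Fi (ZMod p) x i) Y (k4_adjoin_top _ _ hY) δ (hδ i) (T : K) hi
    (k4_adjoin_le _ _ (hΓ T hT)) (g.map (algebraMap (ZMod p) (Fi (ZMod p) x i)))
    (irreducible_map_Fi x hx.1 i g hg) (by rw [natDegree_map]; omega)
    (aeval (t : K) a * y + aeval (t : K) b * y')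
    (k4_adjoin_le _ _ (Subalgebra.add_mem _ (Subalgebra.mul_mem _ (haev a) hy)
      (Subalgebra.mul_mem _ (haev b) hy'))) ?_
  rw [aeval_map_algebraMap]
  have h3 : aeval (t : K) (a * g' + b * g'') = 1 := by rw [hab, map_one]
  rw [map_add, map_mul, map_mul, ← h1, ← h2] at h3
  rw [← h3]
  ring

end AM
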