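import Pool.Agent.AM.C1
import Pool.Agent.AM.K4

/-!
# [AM-C2] orbits contain a bounded number of the elements `ww g x q`
-/

set_option autoImplicit false

open Polynomial

namespace AM

/-- the elements of one `𝔸`-orbit -/
theorem c2_fibre {p : ℕ} [Fact p.Prime] {G : Type*} [Group G] {K : Type*} [Field K]
    [Algebra (ZMod p) K] {Γ : Subgroup Kˣ} {t : Kˣ} {g x : G} {f : G → K}
    {𝔸 : Subgroup (MulAut G)} (h : CoreP p Γ t g x f 𝔸) : ∃ (N₀ : ℕ) (Φ : Finset K), ∀ n, N₀ ≤ n →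
      ∀ q₀ : (ZMod p)[X], q₀.Monic ∧ Irreducible q₀ ∧ q₀.natDegree = n →
      ∀ I : Finset (ZMod p)[X], (∀ q ∈ I, q.Monic ∧ Irreducible q ∧ q.natDegree = n) →
        (∀ q ∈ I, ∃ α ∈ 𝔸, α (ww g x q₀) = ww g x q) → I.card ≤ Φ.card := by
  classical
  obtain ⟨N₁, Φ, hΦ⟩ := arith Γ h.fg h.gen t h.ht h.tinf
  obtain ⟨N₂, hN₂⟩ := arith_unique Γ h.fg h.gen t h.ht
  refine ⟨max N₁ N₂, Φ, ?_⟩
  intro n hn q₀ hq₀ I hI hα
  have key : ∀ q ∈ I, ∃ T ∈ Γ, (∀ k : ℕ, 0 < k → T ^ k ≠ 1) ∧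
      ∃ y ∈ Algebra.adjoin (ZMod p) (uset Γ), aeval (T : K) q₀ * y = aeval (t : K) q := by
    intro q hq
    obtain ⟨α, hα𝔸, hαq⟩ := hα q hq
    obtain ⟨T, hT, hTinf, y, hy, hval⟩ := h.aut α hα𝔸
    refine ⟨T, hT, hTinf, y, hy, ?_⟩
    have h1 := hval (fun i => (q₀.coeff i).val) (q₀.natDegree + 1)
    have h2 := h.val (fun i => (q.coeff i).val) (q.natDegree + 1)
    have h3 : f (α (ww g x q₀)) = f (ww g x q) := by rw [hαq]
    unfold ww at h3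
    rw [h1, h2, sum_eq_aeval, sum_eq_aeval] at h3
    exact h3
  choose! T hT hTinf y hy hrel using key
  refine Finset.card_le_card_of_injOn (fun q => ((T q : Kˣ) : K)) ?_ ?_
  · intro q hq
    exact hΦ n (le_trans (le_max_left _ _) hn) q₀ q hq₀.2.1 (hI q hq).2.1 hq₀.2.2 (hI q hq).2.2
      (T q) (hT q hq) (y q) (hy q hq) (hrel q hq)
  · intro q hq q' hq' hqq'
    have hTT : T q = T q' := Units.ext hqq'
    have hr := hrel q' hq'
    rw [← hTT] at hr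
    exact hN₂ n (le_trans (le_max_right _ _) hn) q₀ q q' hq₀.2.1 hq₀.2.2 (hI q hq).1 (hI q hq).2.1
      (hI q' hq').1 (hI q' hq').2.1 (T q) (hT q hq) (hTinf q hq) (y q) (hy q hq) (y q')
      (hy q' hq') (hrel q hq) hr

/-- PROOF. `N₀` from `arith` and `arith_unique` (maximum), `Φ` from `arith`, `L = 𝔸.index * Φ.card`. If `I` is empty: clear. Fix `q₁ ∈ I` and choose `φ q` with `φ q (ww g x q₁) = ww g x q` for `q ∈ I`. Map `q ∈ I` to the class of `(φ q)⁻¹` in `MulAut G ⧸ 𝔸` (`𝔸.index` elements). If `q, q'` are in the same class then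
`α = φ q' * (φ q)⁻¹ ∈ 𝔸` and `α (ww g x q) = ww g x q'`. So it is enough to bound for fixed `q` the number of the `q' ∈ I` with `α (ww g x q) = ww g x q'` for some `α ∈ 𝔸`, by `Φ.card`: for such `α`, `q'` let `T`, `y` be as in `CoreP.aut`: by `CoreP.val`, `sum_eq_aeval` `aeval t q' = aeval T q * y`, so `T ∈ Φ` by `arith`, and `q'` is determined by
`T` (`arith_unique`): `q' ↦ T` is injective. (`Finset.card_le_mul_card_image`.) -/
theorem fibre_bound {p : ℕ} [Fact p.Prime] {G : Type*} [Group G] {K : Type*} [Field K]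
    [Algebra (ZMod p) K] {Γ : Subgroup Kˣ} {t : Kˣ} {g x : G} {f : G → K}
    {𝔸 : Subgroup (MulAut G)} (h : CoreP p Γ t g x f 𝔸) : ∃ N₀ L : ℕ, ∀ n, N₀ ≤ n →
      ∀ I : Finset (ZMod p)[X], (∀ q ∈ I, q.Monic ∧ Irreducible q ∧ q.natDegree = n) →
        (∀ q ∈ I, ∀ q' ∈ I, ∃ φ : MulAut G, φ (ww g x q) = ww g x q') → I.card ≤ L := by
  classical
  obtain ⟨N₀, Φ, hΦ⟩ := c2_fibre h
  have := h.fin
  have : Finite (MulAut G ⧸ 𝔸) := Subgroup.finite_quotient_of_finiteIndex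
  have := Fintype.ofFinite (MulAut G ⧸ 𝔸)
  refine ⟨N₀, Φ.card * Fintype.card (MulAut G ⧸ 𝔸), ?_⟩
  intro n hn I hI hφ
  rcases I.eq_empty_or_nonempty with rfl | ⟨q₁, hq₁⟩
  · simp
  have hφ1 : ∀ q ∈ I, ∃ φ : MulAut G, φ (ww g x q₁) = ww g x q := fun q hq => hφ q₁ hq₁ q hq
  choose! φ hφq using hφ1
  have hcard := Finset.card_le_mul_card_image_of_maps_to
    (f := fun q => (QuotientGroup.mk (φ q)⁻¹ : MulAut G ⧸ 𝔸)) (s := I) (t := Finset.univ)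
    (fun q _ => Finset.mem_univ _) Φ.card ?_
  · rwa [Finset.card_univ] at hcard
  intro c _
  rcases (I.filter fun q => (QuotientGroup.mk (φ q)⁻¹ : MulAut G ⧸ 𝔸) = c).eq_empty_or_nonempty
    with h0 | ⟨q₀, hq₀⟩
  · rw [h0]; simp
  rw [Finset.mem_filter] at hq₀
  refine hΦ n hn q₀ (hI q₀ hq₀.1) _ (fun q hq => hI q (Finset.mem_filter.mp hq).1) ?_
  intro q hq
  rw [Finset.mem_filter] at hq
  have hc : (QuotientGroup.mk (φ q)⁻¹ : MulAut G ⧸ 𝔸) = QuotientGroup.mk (φ q₀)⁻¹ := by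
    rw [hq.2, hq₀.2]
  rw [QuotientGroup.eq, inv_inv] at hc
  refine ⟨φ q * (φ q₀)⁻¹, hc, ?_⟩
  have h1 : (φ q₀)⁻¹ (ww g x q₀) = ww g x q₁ := by
    rw [← hφq q₀ hq₀.1]
    exact (φ q₀).symm_apply_apply _
  rw [MulAut.mul_apply, h1]
  exact hφq q hq.1

end AM
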