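import Mathlib

/-!
# [AM-I1] many irreducible polynomials
-/

set_option autoImplicit false

open Polynomial

namespace AM

/-- An element whose minimal polynomial has degree `d` satisfies `a ^ (p ^ d) = a`. -/
theorem i1_pow (p : ℕ) [Fact p.Prime] {K : Type*} [Field K] [Finite K] [Algebra (ZMod p) K]
    (a : K) : a ^ (p ^ (minpoly (ZMod p) a).natDegree) = a := by
  have hint : IsIntegral (ZMod p) a := Algebra.IsIntegral.isIntegral a
  have hfr := IntermediateField.adjoin.finrank hint
  have : Fintype (IntermediateField.adjoin (ZMod p) {a}) := Fintype.ofFinite _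
  have hc : Fintype.card (IntermediateField.adjoin (ZMod p) {a})
      = p ^ (minpoly (ZMod p) a).natDegree := by
    rw [← hfr, Module.card_eq_pow_finrank (K := ZMod p), ZMod.card]
  have := FiniteField.pow_card (K := IntermediateField.adjoin (ZMod p) {a})
    (IntermediateField.AdjoinSimple.gen (ZMod p) a)
  rw [hc] at this
  have h2 := congrArg (fun x : IntermediateField.adjoin (ZMod p) {a} => (x : K)) this
  simpa using h2

theorem i1_dvd (p n : ℕ) [Fact p.Prime] (hn : n ≠ 0) (a : GaloisField p n) :
    (minpoly (ZMod p) a).natDegree ∣ n := by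
  have hint : IsIntegral (ZMod p) a := Algebra.IsIntegral.isIntegral a
  have hfr := IntermediateField.adjoin.finrank hint
  have h2 := Module.finrank_mul_finrank (ZMod p) (IntermediateField.adjoin (ZMod p) {a})
    (GaloisField p n)
  rw [GaloisField.finrank p hn, hfr] at h2
  exact ⟨_, h2.symm⟩

/-- A geometric sum bound. -/
theorem i1_geom (p m : ℕ) (hp : 2 ≤ p) :
    ∑ d ∈ Finset.range (m + 1), p ^ d ≤ p ^ (m + 1) := by
  have h := Nat.geomSum_lt hp (s := Finset.range (m + 1)) (n := m + 1)
    (fun k hk => Finset.mem_range.1 hk)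
  exact h.le

/-- The number of solutions of `a ^ (p ^ d) = a`. -/
theorem i1_roots (p d : ℕ) (hp : 2 ≤ p) (hd : 1 ≤ d) {K : Type*} [Field K] [Fintype K]
    [DecidableEq K] : (Finset.univ.filter fun a : K => a ^ (p ^ d) = a).card ≤ p ^ d := by
  have h1 : 1 < p ^ d := Nat.one_lt_pow (by omega) (by omega)
  have hne : (X ^ (p ^ d) - X : K[X]) ≠ 0 := FiniteField.X_pow_card_sub_X_ne_zero K h1
  have hdeg : (X ^ (p ^ d) - X : K[X]).natDegree = p ^ d :=
    FiniteField.X_pow_card_sub_X_natDegree_eq K h1
  have hsub : (Finset.univ.filter fun a : K => a ^ (p ^ d) = a)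
      ⊆ (X ^ (p ^ d) - X : K[X]).roots.toFinset := by
    intro a ha
    rw [Finset.mem_filter] at ha
    rw [Multiset.mem_toFinset, mem_roots hne, IsRoot.def]
    simp [ha.2]
  calc _ ≤ _ := Finset.card_le_card hsub
    _ ≤ _ := Multiset.toFinset_card_le _
    _ ≤ _ := card_roots' _
    _ = _ := hdeg

/-- PROOF. `N₁ = 4`. `K = GaloisField p n` has `p ^ n` elements. For `a ∈ K` the minimal polynomial over `ZMod p` has a degree `d ∣ n`, and `a ^ (p ^ d) = a` (`a` is in the subfield generated by it, with `p ^ d` elements). If `d < n` then `d ≤ n / 2`; the number of such `a` is at most `∑_{d ≤ n / 2} p ^ d ≤ p ^ (n / 2 + 1)`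
(roots of `X ^ (p ^ d) - X`, geometric sum), and `2 p ^ (n / 2 + 1) ≤ p ^ n` for `n ≥ 4`. So at least `p ^ n / 2` elements have a minimal polynomial of degree `n`; let `I` be the set of these polynomials (a finite set). Every `g ∈ I` has at most `n` roots in `K`: `p ^ n ≤ 2 n |I|`. -/
theorem many_irreducible (p : ℕ) [Fact p.Prime] : ∃ N₁ : ℕ, ∀ n, N₁ ≤ n →
    ∃ I : Finset (ZMod p)[X], (∀ g ∈ I, g.Monic ∧ Irreducible g ∧ g.natDegree = n) ∧
      2 ^ n ≤ 2 * n * I.card := by
  classical
  refine ⟨4, fun n hn => ?_⟩
  have hp : 2 ≤ p := (Fact.out : p.Prime).two_le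
  have hn0 : n ≠ 0 := by omega
  have : Fintype (GaloisField p n) := Fintype.ofFinite _
  have hcard : Fintype.card (GaloisField p n) = p ^ n := by
    rw [← Nat.card_eq_fintype_card, GaloisField.card p n hn0]
  set good : Finset (GaloisField p n) :=
    Finset.univ.filter fun a => (minpoly (ZMod p) a).natDegree = n with hgood
  set bad : Finset (GaloisField p n) :=
    Finset.univ.filter fun a => ¬ (minpoly (ZMod p) a).natDegree = n with hbad
  have hsum : good.card + bad.card = p ^ n := by
    rw [← hcard, hgood, hbad, Finset.card_filter_add_card_filter_not, Finset.card_univ]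
  have hbad_le : bad.card ≤ p ^ (n / 2 + 1) := by
    have hsub : bad ⊆ (Finset.range (n / 2 + 1)).biUnion
        (fun d => if 1 ≤ d then Finset.univ.filter (fun a : GaloisField p n => a ^ (p ^ d) = a)
          else ∅) := by
      intro a ha
      rw [hbad, Finset.mem_filter] at ha
      have hdvd := i1_dvd p n hn0 a
      have hpos : 0 < (minpoly (ZMod p) a).natDegree :=
        minpoly.natDegree_pos (Algebra.IsIntegral.isIntegral a)
      have hle : (minpoly (ZMod p) a).natDegree ≤ n / 2 := by
        obtain ⟨k, hk⟩ := hdvd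
        have hk2 : 2 ≤ k := by
          rcases Nat.lt_or_ge k 2 with h | h
          · exfalso
            interval_cases k
            · omega
            · exact ha.2 (by omega)
          · exact h
        rw [Nat.le_div_iff_mul_le (by norm_num)]
        calc _ ≤ (minpoly (ZMod p) a).natDegree * k := Nat.mul_le_mul_left _ hk2
          _ = n := hk.symm
      rw [Finset.mem_biUnion]
      refine ⟨(minpoly (ZMod p) a).natDegree, Finset.mem_range.2 (by omega), ?_⟩
      rw [if_pos (by omega), Finset.mem_filter]
      exact ⟨Finset.mem_univ _, i1_pow p a⟩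
    calc bad.card ≤ _ := Finset.card_le_card hsub
      _ ≤ _ := Finset.card_biUnion_le
      _ ≤ ∑ d ∈ Finset.range (n / 2 + 1), p ^ d := by
          refine Finset.sum_le_sum fun d _ => ?_
          split_ifs with h
          · exact i1_roots p d hp h
          · simp
      _ ≤ _ := i1_geom p (n / 2) hp
  have h2 : 2 * p ^ (n / 2 + 1) ≤ p ^ n := by
    calc 2 * p ^ (n / 2 + 1) ≤ p * p ^ (n / 2 + 1) := Nat.mul_le_mul_right _ hp
      _ = p ^ (n / 2 + 2) := by ring
      _ ≤ p ^ n := Nat.pow_le_pow_right (by omega) (by omega)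
  refine ⟨good.image (minpoly (ZMod p)), ?_, ?_⟩
  · intro g hg
    rw [Finset.mem_image] at hg
    obtain ⟨a, ha, rfl⟩ := hg
    rw [hgood, Finset.mem_filter] at ha
    exact ⟨minpoly.monic (Algebra.IsIntegral.isIntegral a),
      minpoly.irreducible (Algebra.IsIntegral.isIntegral a), ha.2⟩
  · have hle : good.card ≤ n * (good.image (minpoly (ZMod p))).card := by
      refine Finset.card_le_mul_card_image (f := minpoly (ZMod p)) good n ?_
      intro g hg
      rw [Finset.mem_image] at hg
      obtain ⟨b, hb, rfl⟩ := hg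
      have hb2 := (Finset.mem_filter.1 hb).2
      have hne : (minpoly (ZMod p) b).map (algebraMap (ZMod p) (GaloisField p n)) ≠ 0 :=
        (minpoly.monic (Algebra.IsIntegral.isIntegral b)).map _ |>.ne_zero
      have hsub : good.filter (fun a => minpoly (ZMod p) a = minpoly (ZMod p) b)
          ⊆ ((minpoly (ZMod p) b).map (algebraMap (ZMod p) (GaloisField p n))).roots.toFinset := by
        intro a ha
        rw [Finset.mem_filter] at ha
        rw [Multiset.mem_toFinset, mem_roots hne, IsRoot.def, eval_map_algebraMap, ← ha.2]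
        exact minpoly.aeval _ _
      calc _ ≤ _ := Finset.card_le_card hsub
        _ ≤ _ := Multiset.toFinset_card_le _
        _ ≤ _ := card_roots' _
        _ ≤ _ := natDegree_map_le
        _ = n := hb2
    have h3 : (2 : ℕ) ^ n ≤ p ^ n := Nat.pow_le_pow_left hp n
    have h4 : p ^ n ≤ 2 * good.card := by omega
    calc 2 ^ n ≤ 2 * good.card := h3.trans h4
      _ ≤ 2 * (n * (good.image (minpoly (ZMod p))).card) := Nat.mul_le_mul_left _ hle
      _ = _ := by ring

end AM
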