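import Pool.Agent.AM.C2
import Pool.Agent.AM.I1
import Pool.Agent.AG.B2

/-!
# [AM-C3] exponential growth from the core data
-/

set_option autoImplicit false

open Polynomial

namespace AM

/-- PROOF. `g ∈ ball S a`, `x ∈ ball S b` (`AG.exists_mem_ball`), `M = 2 a + p b`. For `n ≥ N = max (N₀, N₁, 1)` (`fibre_bound`, `many_irreducible`) map `q ∈ I` to `AG.autOrbit (ww g x q)`, an orbit which meets `ball S (M (n + 1)) ⊆ ball S (2 M n)`; every fibre has at most `L` elements (`AG.autOrbit_eq_iff`), so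
`|I| ≤ L * autGrowth S (2 M n)` (`Finset.card_le_mul_card_image_of_maps_to`, as in AG/C5.lean) and `2 ^ n ≤ 2 n L autGrowth S (2 M n)`. For `n < N` `2 ^ n ≤ 2 ^ N * autGrowth S (2 M n)` (`1 ∈ ball`, so `autGrowth ≥ 1`). So `2 ^ n ≤ 1 + autGrowth S (2 M n) * (K (1 * n + 2) ^ 1)` with `K = 2 ^ N + 2 L` for all `n`, and
`AG.dom_of_bound`. -/
theorem dom_of_coreP {p : ℕ} [Fact p.Prime] {G : Type*} [Group G] (S : Finset G)
    (hS : Subgroup.closure (S : Set G) = ⊤) {K : Type*} [Field K]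
    [Algebra (ZMod p) K] {Γ : Subgroup Kˣ} {t : Kˣ} {g x : G} {f : G → K}
    {𝔸 : Subgroup (MulAut G)} (h : CoreP p Γ t g x f 𝔸) :
    AG.Dom (fun n => 2 ^ n) (AG.autGrowth S) := by
  classical
  obtain ⟨a, ha⟩ := AG.exists_mem_ball (S := S) (g := g) (by rw [hS]; exact Subgroup.mem_top g)
  obtain ⟨b, hb⟩ := AG.exists_mem_ball (S := S) (g := x) (by rw [hS]; exact Subgroup.mem_top x)
  obtain ⟨N₀, L, hL⟩ := fibre_bound h
  obtain ⟨N₁, hN₁⟩ := many_irreducible p
  have hmono : Monotone (AG.autGrowth S) := fun m n h => AG.autGrowth_mono S h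
  set N := max (max N₀ N₁) 1 with hN
  set M := 2 * a + p * b with hM
  have hpos : ∀ n, 1 ≤ AG.autGrowth S n := by
    intro n
    have hfin : (AG.autOrbit '' AG.ball S n).Finite := (AG.ball_finite S n).image _
    have : (AG.autOrbit '' AG.ball S n).Nonempty := ⟨_, 1, AG.one_mem_ball S n, rfl⟩
    exact (Set.ncard_pos hfin).2 this
  refine AG.dom_of_bound (AG.autGrowth S) hmono (2 ^ N + 2 * L) 1 1 (2 * M) fun n => ?_
  rcases lt_or_ge n N with hn | hn
  · have h1 : 2 ^ n ≤ 2 ^ N := Nat.pow_le_pow_right (by norm_num) hn.le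
    have h2 := hpos (2 * M * n)
    have h3 : 2 ^ N ≤ (2 ^ N + 2 * L) * (1 * n + 2) ^ 1 := by
      rw [pow_one, one_mul]
      have : 1 ≤ n + 2 := by omega
      calc 2 ^ N ≤ 2 ^ N + 2 * L := Nat.le_add_right _ _
        _ = (2 ^ N + 2 * L) * 1 := (Nat.mul_one _).symm
        _ ≤ (2 ^ N + 2 * L) * (n + 2) := Nat.mul_le_mul_left _ this
    have h4 : 1 * ((2 ^ N + 2 * L) * (1 * n + 2) ^ 1) ≤
        AG.autGrowth S (2 * M * n) * ((2 ^ N + 2 * L) * (1 * n + 2) ^ 1) :=
      Nat.mul_le_mul_right _ h2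
    omega
  · have hn0 : N₀ ≤ n := ((le_max_left _ _).trans (le_max_left _ _)).trans hn
    have hn1 : N₁ ≤ n := ((le_max_right _ _).trans (le_max_left _ _)).trans hn
    have hn2 : 1 ≤ n := (le_max_right _ _).trans hn
    obtain ⟨I, hI, hIc⟩ := hN₁ n hn1
    have hfin : (AG.autOrbit '' AG.ball S (2 * M * n)).Finite := (AG.ball_finite S _).image _
    set T : Finset (Set G) := hfin.toFinset with hT
    have hTcard : T.card = AG.autGrowth S (2 * M * n) := by
      unfold AG.autGrowth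
      rw [Set.ncard_eq_toFinset_card _ hfin]
    have hmaps : ∀ q ∈ I, AG.autOrbit (ww g x q) ∈ T := by
      intro q hq
      rw [hT, Set.Finite.mem_toFinset]
      refine ⟨_, ?_, rfl⟩
      have h1 := ww_ball ha hb q
      rw [(hI q hq).2.2] at h1
      refine AG.ball_mono S ?_ h1
      calc (2 * a + p * b) * (n + 1) ≤ (2 * a + p * b) * (2 * n) :=
            Nat.mul_le_mul_left _ (by omega)
        _ = 2 * M * n := by rw [hM]; ring
    have hfib : ∀ y ∈ T, (I.filter (fun q => AG.autOrbit (ww g x q) = y)).card ≤ L := by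
      intro y _
      apply hL n hn0
      · intro q hq
        exact hI q (Finset.mem_filter.1 hq).1
      · intro q hq q' hq'
        rw [Finset.mem_filter] at hq hq'
        exact (AG.autOrbit_eq_iff _ _).mp (hq.2.trans hq'.2.symm)
    have hcard := Finset.card_le_mul_card_image_of_maps_to hmaps L hfib
    rw [hTcard] at hcard
    calc 2 ^ n ≤ 2 * n * I.card := hIc
      _ ≤ 2 * n * (L * AG.autGrowth S (2 * M * n)) := Nat.mul_le_mul_left _ hcard
      _ = AG.autGrowth S (2 * M * n) * (2 * L * n) := by ring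
      _ ≤ AG.autGrowth S (2 * M * n) * ((2 ^ N + 2 * L) * (1 * n + 2) ^ 1) := by
          refine Nat.mul_le_mul_left _ ?_
          rw [pow_one, one_mul]
          exact Nat.mul_le_mul (Nat.le_add_left _ _) (by omega)
      _ ≤ 1 + AG.autGrowth S (2 * M * n) * ((2 ^ N + 2 * L) * (1 * n + 2) ^ 1) :=
          Nat.le_add_left _ _

end AM
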