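import Pool.Agent.AG.Defs
import Pool.Agent.AG.G2

/-!
# [AM] automorphic growth of virtually solvable groups (MP_893f58_al): definitions
-/

set_option autoImplicit false

open Polynomial IntermediateField

namespace AM

/-! ## fields -/

section Field

/-- `u 0, ..., u (N-1)` in `S` are linearly independent over `F` modulo `z S`, for some `u`, i.e. `dim_F S / z S ≥ N` -/
def Indep {F K : Type*} [Field F] [Field K] [Algebra F K] (S : Subalgebra F K) (z : K) (N : ℕ) :
    Prop :=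
  ∃ u : Fin N → K, (∀ i, u i ∈ S) ∧ ∀ a : Fin N → F, (∃ w ∈ S, ∑ i, a i • u i = z * w) → a = 0

/-- the field generated by the `x j`, `j ≠ i` -/
def Fi (k : Type*) {K ι : Type*} [Field k] [Field K] [Algebra k K] (x : ι → K) (i : ι) :
    IntermediateField k K :=
  IntermediateField.adjoin k (Set.range fun j : {j : ι // j ≠ i} => x j)

/-- `T` is algebraic over `F` or `[K : F(T)] ≤ C` -/
def HtLe (F : Type*) {K : Type*} [Field F] [Field K] [Algebra F K] (T : K) (C : ℕ) : Prop :=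
  IsAlgebraic F T ∨ (FiniteDimensional F⟮T⟯ K ∧ Module.finrank F⟮T⟯ K ≤ C)

/-- `K` is finitely generated as a field over `k` -/
def FieldFG (k K : Type*) [Field k] [Field K] [Algebra k K] : Prop :=
  ∃ s : Finset K, IntermediateField.adjoin k (s : Set K) = ⊤

/-- the family `x` together with `T` -/
def xT {K ι : Type*} (x : ι → K) (T : K) : Option ι → K := fun o => o.elim T x

end Field

/-! ## modules with a group action -/

section Hall

variable {J : Type*} [CommRing J] {B : Type*} [AddCommGroup B] [Module J B] {P : Type*} [Group P]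

/-- `Y` is stable under `Q` -/
def St (ρ : P →* Module.End J B) (Q : Subgroup P) (Y : Submodule J B) : Prop :=
  ∀ q ∈ Q, ∀ y ∈ Y, ρ q y ∈ Y

/-- the smallest `Q`-stable submodule containing `f` -/
def sp (ρ : P →* Module.End J B) (Q : Subgroup P) (f : Set B) : Submodule J B :=
  Submodule.span J {b | ∃ q ∈ Q, ∃ a ∈ f, b = ρ q a}

/-- finitely generated as a module with an action of `Q` -/
def FGq (ρ : P →* Module.End J B) (Q : Subgroup P) (X : Submodule J B) : Prop :=
  ∃ f : Finset B, X = sp ρ Q (f : Set B)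

/-- `(X / Y)[1/s]` is free over `J[1/s]`, more precisely: there is a subset `b` of `X`, linearly independent modulo `Y`, such that every element of `X` multiplied by a power of
`s` is in `span b ⊔ Y` -/
def GF (s : J) (Y X : Submodule J B) : Prop :=
  ∃ b : Set B, b ⊆ X ∧ LinearIndependent J (fun x : b => Y.mkQ (x : B)) ∧
    ∀ x ∈ X, ∃ k : ℕ, s ^ k • x ∈ Submodule.span J b ⊔ Y

/-- Hall's theorem and generic freeness for `Q` -/
def Good (ρ : P →* Module.End J B) (Q : Subgroup P) : Prop :=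
  ∀ X : Submodule J B, FGq ρ Q X → (∀ Y ≤ X, St ρ Q Y → FGq ρ Q Y) ∧
    ∀ Y ≤ X, St ρ Q Y → ∃ s : J, s ≠ 0 ∧ GF s Y X

end Hall

/-! ## groups -/

section Groups

variable {G : Type*} [Group G]

/-- `B` (with the `R`-linear action `ρ` of `G`) is the section `D / D₁`, `π` the canonical map (only its values on `D` matter) -/
structure Sec (D D₁ : Subgroup G) (R : Type*) [CommRing R] (B : Type*) [AddCommGroup B]
    [Module R B] (π : G → B) (ρ : G →* Module.End R B) : Prop where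
  add : ∀ x ∈ D, ∀ y ∈ D, π (x * y) = π x + π y
  surj : ∀ b : B, ∃ x ∈ D, π x = b
  ker : ∀ x ∈ D, π x = 0 ↔ x ∈ D₁
  conj : ∀ g : G, ∀ x ∈ D, π (g * x * g⁻¹) = ρ g (π x)

/-- `D / D₁` is an infinite abelian group of exponent `p`, `D₁ ≤ D ≤ H` -/
structure Pair (p : ℕ) (H D D₁ : Subgroup G) : Prop where
  le : D₁ ≤ D
  leH : D ≤ H
  comm : ⁅D, D⁆ ≤ D₁
  pow : ∀ x ∈ D, x ^ p ∈ D₁
  inf : D₁.relIndex D = 0

/-- the elements of `H` which are central modulo `D` -/
def zz (H D : Subgroup G) [H.Normal] [D.Normal] : Subgroup G := H ⊓ AG.cent H D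

/-- `∏_{i < n} g^i x^(c i) g^(-i)` -/
def aa (g x : G) (c : ℕ → ℕ) : ℕ → G
  | 0 => 1
  | n + 1 => aa g x c n * (g ^ n * x ^ c n * (g ^ n)⁻¹)

/-- the elements of `Γ` in `K` -/
def uset {K : Type*} [Field K] (Γ : Subgroup Kˣ) : Set K := (fun u : Kˣ => (u : K)) '' (Γ : Set Kˣ)

/-- the input of the counting argument in characteristic `p` -/
structure CoreP (p : ℕ) [Fact p.Prime] {K : Type*} [Field K] [Algebra (ZMod p) K] (Γ : Subgroup Kˣ)
    (t : Kˣ) (g x : G) (f : G → K) (𝔸 : Subgroup (MulAut G)) : Prop where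
  fg : Γ.FG
  gen : IntermediateField.adjoin (ZMod p) (uset Γ) = ⊤
  ht : t ∈ Γ
  tinf : ∀ k : ℕ, 0 < k → t ^ k ≠ 1
  fin : 𝔸.FiniteIndex
  val : ∀ (c : ℕ → ℕ) (n : ℕ), f (aa g x c n) = ∑ i ∈ Finset.range n, (c i : K) * (t : K) ^ i
  aut : ∀ φ ∈ 𝔸, ∃ T ∈ Γ, (∀ k : ℕ, 0 < k → T ^ k ≠ 1) ∧ ∃ y ∈ Algebra.adjoin (ZMod p) (uset Γ),
    ∀ (c : ℕ → ℕ) (n : ℕ), f (φ (aa g x c n)) =
      (∑ i ∈ Finset.range n, (c i : K) * (T : K) ^ i) * y

end Groups

end AM
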