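import Pool.Agent.AM.Defs

/-!
# [AM-E0] abelian sections as modules: existence
-/

set_option autoImplicit false

universe u

namespace AM

theorem e0_mem {G : Type u} [Group G] (D D₁ : Subgroup G) [D.Normal] [D₁.Normal] (g : G) :
    D₁.subgroupOf D ≤ (D₁.subgroupOf D).comap (MulAut.conjNormal g : D ≃* D).toMonoidHom := by
  intro x hx
  rw [Subgroup.mem_comap, Subgroup.mem_subgroupOf]
  rw [Subgroup.mem_subgroupOf] at hx
  change ((MulAut.conjNormal g x : D) : G) ∈ D₁
  rw [MulAut.conjNormal_apply]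
  exact Subgroup.Normal.conj_mem inferInstance _ hx g

/-- conjugation on the quotient -/
noncomputable def e0_act {G : Type u} [Group G] (D D₁ : Subgroup G) [D.Normal] [D₁.Normal] (g : G) :
    D ⧸ D₁.subgroupOf D →* D ⧸ D₁.subgroupOf D :=
  QuotientGroup.map _ _ (MulAut.conjNormal g : D ≃* D).toMonoidHom (e0_mem D D₁ g)

theorem e0_act_mk {G : Type u} [Group G] (D D₁ : Subgroup G) [D.Normal] [D₁.Normal] (g : G)
    (x : D) : e0_act D D₁ g (QuotientGroup.mk x) = QuotientGroup.mk (MulAut.conjNormal g x) := rfl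

open scoped commutatorElement in
theorem e0_comm {G : Type u} [Group G] (D D₁ : Subgroup G) [D.Normal] [D₁.Normal]
    (hc : ⁅D, D⁆ ≤ D₁) (a b : D ⧸ D₁.subgroupOf D) : a * b = b * a := by
  obtain ⟨a, rfl⟩ := QuotientGroup.mk_surjective a
  obtain ⟨b, rfl⟩ := QuotientGroup.mk_surjective b
  rw [← QuotientGroup.mk_mul, ← QuotientGroup.mk_mul, QuotientGroup.eq, Subgroup.mem_subgroupOf]
  apply hc
  have h1 : (((a * b)⁻¹ * (b * a) : D) : G) = ⁅((b : G))⁻¹, ((a : G))⁻¹⁆ := by
    simp [commutatorElement_def, mul_assoc]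
  rw [h1]
  exact Subgroup.commutator_mem_commutator (D.inv_mem b.2) (D.inv_mem a.2)

theorem e0_base {G : Type u} [Group G] (D D₁ : Subgroup G) [D.Normal] [D₁.Normal]
    (hc : ⁅D, D⁆ ≤ D₁) :
    ∃ (B : Type u) (_ : AddCommGroup B) (π : G → B) (ρ : G →* AddMonoid.End B),
      (∀ x ∈ D, ∀ y ∈ D, π (x * y) = π x + π y) ∧ (∀ b : B, ∃ x ∈ D, π x = b) ∧
      (∀ x ∈ D, π x = 0 ↔ x ∈ D₁) ∧ ∀ g : G, ∀ x ∈ D, π (g * x * g⁻¹) = ρ g (π x) := by
  classical
  let _ : CommGroup (D ⧸ D₁.subgroupOf D) :=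
    { (inferInstance : Group (D ⧸ D₁.subgroupOf D)) with mul_comm := e0_comm D D₁ hc }
  let π : G → Additive (D ⧸ D₁.subgroupOf D) :=
    fun x => if h : x ∈ D then Additive.ofMul (QuotientGroup.mk ⟨x, h⟩) else 0
  have hπ : ∀ (x : G) (h : x ∈ D), π x = Additive.ofMul (QuotientGroup.mk ⟨x, h⟩) :=
    fun x h => dif_pos h
  let ρ : G →* AddMonoid.End (Additive (D ⧸ D₁.subgroupOf D)) :=
    { toFun := fun g => MonoidHom.toAdditive (e0_act D D₁ g)
      map_one' := by
        ext b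
        obtain ⟨x, hx⟩ := QuotientGroup.mk_surjective b.toMul
        change Additive.ofMul (e0_act D D₁ 1 b.toMul) = b
        rw [← hx, e0_act_mk, map_one]
        change Additive.ofMul (QuotientGroup.mk x) = b
        rw [hx]
        rfl
      map_mul' := by
        intro g h
        ext b
        obtain ⟨x, hx⟩ := QuotientGroup.mk_surjective b.toMul
        change Additive.ofMul (e0_act D D₁ (g * h) b.toMul) =
          Additive.ofMul (e0_act D D₁ g (e0_act D D₁ h b.toMul))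
        rw [← hx, e0_act_mk, e0_act_mk, e0_act_mk, map_mul]
        rfl }
  refine ⟨Additive (D ⧸ D₁.subgroupOf D), inferInstance, π, ρ, ?_, ?_, ?_, ?_⟩
  · intro x hx y hy
    rw [hπ x hx, hπ y hy, hπ (x * y) (D.mul_mem hx hy)]
    rfl
  · intro b
    obtain ⟨x, hx⟩ := QuotientGroup.mk_surjective b.toMul
    refine ⟨x, x.2, ?_⟩
    rw [hπ x x.2]
    change Additive.ofMul (QuotientGroup.mk x) = b
    rw [hx]
    rfl
  · intro x hx
    rw [hπ x hx]
    change Additive.ofMul (QuotientGroup.mk ⟨x, hx⟩ : D ⧸ D₁.subgroupOf D) = Additive.ofMul 1 ↔ _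
    rw [Equiv.apply_eq_iff_eq, QuotientGroup.eq_one_iff, Subgroup.mem_subgroupOf]
  · intro g x hx
    have h1 : g * x * g⁻¹ ∈ D := Subgroup.Normal.conj_mem inferInstance _ hx g
    rw [hπ x hx, hπ _ h1]
    change _ = Additive.ofMul (e0_act D D₁ g (QuotientGroup.mk ⟨x, hx⟩))
    rw [e0_act_mk]
    congr 2

/-- PROOF. `Q = G ⧸ D₁`, `B₀ = D.map (QuotientGroup.mk' D₁)`, a normal abelian subgroup of `Q`; `B = Additive B₀` (with a commutative group structure made from the group structure of `B₀` and `⁅D, D⁆ ≤ D₁`; let `ι` be the map `G → B`, `g ↦` the class of `g` if `g ∈ D`, `0` otherwise). `ρ g` is the additive map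
conjugation by `g` (for instance `MulAut.conjNormal`), a `ℤ`-linear map (`AddMonoidHom.toIntLinearMap`). -/
theorem exists_secZ {G : Type u} [Group G] (D D₁ : Subgroup G) [D.Normal] [D₁.Normal]
    (hle : D₁ ≤ D) (hc : ⁅D, D⁆ ≤ D₁) :
    ∃ (B : Type u) (_ : AddCommGroup B) (π : G → B) (ρ : G →* Module.End ℤ B),
      Sec D D₁ ℤ B π ρ := by
  obtain ⟨B, hB, π, ρ, h1, h2, h3, h4⟩ := e0_base D D₁ hc
  let ρ' : G →* Module.End ℤ B :=
    { toFun := fun g => AddMonoidHom.toIntLinearMap (ρ g)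
      map_one' := by
        ext b
        change ρ 1 b = b
        rw [map_one]
        rfl
      map_mul' := by
        intro g h
        ext b
        change ρ (g * h) b = ρ g (ρ h b)
        rw [map_mul]
        rfl }
  exact ⟨B, hB, π, ρ', ⟨h1, h2, h3, h4⟩⟩

theorem e0_zmod {G : Type u} [Group G] {p : ℕ} {B : Type u} [AddCommGroup B] [Module (ZMod p) B]
    (ρ : G →* AddMonoid.End B) :
    ∃ ρ' : G →* Module.End (ZMod p) B, ∀ (g : G) (b : B), ρ' g b = ρ g b := by
  have hz : ∀ (f : B →+ B) (b : B), AddMonoidHom.toZModLinearMap p f b = f b := fun f b => by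
    rw [AddMonoidHom.coe_toZModLinearMap]
  refine ⟨{ toFun := fun g => AddMonoidHom.toZModLinearMap p (ρ g)
            map_one' := ?_
            map_mul' := ?_ }, fun g b => hz _ _⟩
  · apply LinearMap.ext
    intro b
    rw [hz, map_one]
    rfl
  · intro g h
    apply LinearMap.ext
    intro b
    rw [Module.End.mul_apply, hz, hz, hz, map_mul]
    rfl

/-- PROOF. The same `B`; `p • b = 0` for all `b`, `AddCommGroup.zmodModule` gives the `ZMod p`-module structure, additive maps are `ZMod p`-linear (`AddMonoidHom.toZModLinearMap`). -/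
theorem exists_sec {G : Type u} [Group G] (D D₁ : Subgroup G) [D.Normal] [D₁.Normal]
    (hle : D₁ ≤ D) (hc : ⁅D, D⁆ ≤ D₁) (p : ℕ) (hp : ∀ x ∈ D, x ^ p ∈ D₁) :
    ∃ (B : Type u) (_ : AddCommGroup B) (_ : Module (ZMod p) B) (π : G → B)
      (ρ : G →* Module.End (ZMod p) B), Sec D D₁ (ZMod p) B π ρ := by
  obtain ⟨B, hB, π, ρ, h1, h2, h3, h4⟩ := e0_base D D₁ hc
  have hpow : ∀ x ∈ D, ∀ n : ℕ, π (x ^ n) = n • π x := by
    intro x hx n
    induction n with
    | zero =>
      rw [pow_zero, zero_smul]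
      exact (h3 1 D.one_mem).2 D₁.one_mem
    | succ n ih => rw [pow_succ, h1 _ (D.pow_mem hx n) _ hx, ih, succ_nsmul]
  have hpB : ∀ b : B, p • b = 0 := by
    intro b
    obtain ⟨x, hx, rfl⟩ := h2 b
    rw [← hpow x hx, h3 _ (D.pow_mem hx p)]
    exact hp x hx
  let _ : Module (ZMod p) B := AddCommGroup.zmodModule hpB
  obtain ⟨ρ', hρ'⟩ := e0_zmod (p := p) ρ
  refine ⟨B, hB, inferInstance, π, ρ', ⟨h1, h2, h3, fun g x hx => ?_⟩⟩
  rw [h4 g x hx]
  exact (hρ' g (π x)).symm

end AM
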