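import Pool.Agent.AM.Defs
import Pool.Agent.AG.G4
import Pool.Agent.AG.C1

/-!
# [AM-E1] abelian sections as modules: properties
-/

set_option autoImplicit false

namespace AM

variable {G : Type*} [Group G] {D D₁ : Subgroup G} {R : Type*} [CommRing R] {B : Type*}
  [AddCommGroup B] [Module R B] {π : G → B} {ρ : G →* Module.End R B}

theorem e1_lcs {H : Subgroup G} {c : ℕ} (hc : H.lowerCentralSeries c ≤ D) {x : H}
    (hx : x ∈ (⊤ : Subgroup H).lowerCentralSeries c) : (x : G) ∈ D := by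
  apply hc
  rw [← Subgroup.top_subtype_lowerCentralSeries]
  exact ⟨x, hx, rfl⟩


theorem Sec.one (S : Sec D D₁ R B π ρ) : π 1 = 0 := by
  have h := S.add 1 D.one_mem 1 D.one_mem
  rw [mul_one] at h
  exact left_eq_add.1 h

theorem Sec.inv (S : Sec D D₁ R B π ρ) {x : G} (hx : x ∈ D) : π x⁻¹ = -π x := by
  have h := S.add x hx x⁻¹ (D.inv_mem hx)
  rw [mul_inv_cancel, S.one] at h
  exact (neg_eq_of_add_eq_zero_right h.symm).symm

theorem Sec.pow (S : Sec D D₁ R B π ρ) {x : G} (hx : x ∈ D) (n : ℕ) : π (x ^ n) = n • π x := by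
  induction n with
  | zero => rw [pow_zero, S.one, zero_nsmul]
  | succ n ih => rw [pow_succ, S.add _ (D.pow_mem hx n) x hx, ih, succ_nsmul]

theorem Sec.eq_iff (S : Sec D D₁ R B π ρ) {x y : G} (hx : x ∈ D) (hy : y ∈ D) :
    π x = π y ↔ x⁻¹ * y ∈ D₁ := by
  rw [← S.ker _ (D.mul_mem (D.inv_mem hx) hy), S.add _ (D.inv_mem hx) _ hy, S.inv hx,
    neg_add_eq_zero]

/-- PROOF. Both say that `π (g x g⁻¹) = π x` for all `x ∈ D` (`Sec.surj`). -/
theorem Sec.rho_eq_one [D.Normal] [D₁.Normal] (S : Sec D D₁ R B π ρ) (g : G) :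
    ρ g = 1 ↔ g ∈ AG.cent D D₁ := by
  have key : ∀ x ∈ D, g * x * g⁻¹ * x⁻¹ ∈ D₁ ↔ ρ g (π x) = π x := by
    intro x hx
    have h1 : g * x * g⁻¹ ∈ D := Subgroup.Normal.conj_mem inferInstance x hx g
    rw [← S.ker _ (D.mul_mem h1 (D.inv_mem hx)), S.add _ h1 _ (D.inv_mem hx), S.inv hx,
      S.conj g x hx, ← sub_eq_add_neg, sub_eq_zero]
  rw [AG.mem_cent]
  constructor
  · intro h x hx
    rw [key x hx, h, Module.End.one_apply]
  · intro h
    refine LinearMap.ext fun b => ?_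
    obtain ⟨x, hx, rfl⟩ := S.surj b
    rw [(key x hx).1 (h x hx), Module.End.one_apply]

/-- `D` acts trivially. -/
theorem Sec.rho_of_mem [D.Normal] [D₁.Normal] (S : Sec D D₁ R B π ρ) (hc : ⁅D, D⁆ ≤ D₁) {g : G}
    (hg : g ∈ D) : ρ g = 1 := by
  rw [S.rho_eq_one, AG.mem_cent]
  intro d hd
  have h1 := Subgroup.commutator_mem_commutator hg hd
  rw [commutatorElement_def] at h1
  exact hc h1

/-- automorphisms of `G` act on characteristic sections. PROOF. `Φ (π x) = π (φ x)` for `x ∈ D` is well defined (`Sec.eq_iff`, `φ` maps `D₁` to itself, `AG.c1_char`), additive and bijective (inverse: `φ⁻¹`). -/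
theorem Sec.aut [D.Characteristic] [D₁.Characteristic] (S : Sec D D₁ R B π ρ) (φ : MulAut G) :
    ∃ Φ : B ≃+ B, (∀ x ∈ D, π (φ x) = Φ (π x)) ∧ ∀ (g : G) (b : B), Φ (ρ g b) = ρ (φ g) (Φ b) := by
  choose s hs hs' using S.surj
  have key : ∀ (ψ : MulAut G), ∀ x ∈ D, π (ψ x) = π (ψ (s (π x))) := by
    intro ψ x hx
    rw [eq_comm, S.eq_iff ((AG.c1_char ψ).2 (hs _)) ((AG.c1_char ψ).2 hx), ← map_inv, ← map_mul,
      AG.c1_char ψ, ← S.eq_iff (hs _) hx]
    exact hs' _
  have key2 : ∀ x ∈ D, π (φ⁻¹ x) = π (φ⁻¹ (s (π x))) := key φ⁻¹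
  refine ⟨{ toFun := fun b => π (φ (s b)), invFun := fun b => π (φ⁻¹ (s b)),
            left_inv := ?_, right_inv := ?_, map_add' := ?_ }, ?_, ?_⟩
  · intro b
    change π (φ⁻¹ (s (π (φ (s b))))) = b
    rw [← key2 _ ((AG.c1_char φ).2 (hs b)), MulAut.inv_apply_self, hs']
  · intro b
    change π (φ (s (π (φ⁻¹ (s b))))) = b
    rw [← key φ _ ((AG.c1_char φ⁻¹).2 (hs b)), MulAut.apply_inv_self, hs']
  · intro a b
    change π (φ (s (a + b))) = π (φ (s a)) + π (φ (s b))
    have h1 : a + b = π (s a * s b) := by rw [S.add _ (hs a) _ (hs b), hs', hs']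
    rw [h1, ← key φ _ (D.mul_mem (hs a) (hs b)), map_mul,
      S.add _ ((AG.c1_char φ).2 (hs a)) _ ((AG.c1_char φ).2 (hs b))]
  · intro x hx
    exact key φ x hx
  · intro g b
    change π (φ (s (ρ g b))) = ρ (φ g) (π (φ (s b)))
    have h1 : ρ g b = π (g * s b * g⁻¹) := by rw [S.conj g _ (hs b), hs']
    have h2 : g * s b * g⁻¹ ∈ D := Subgroup.Normal.conj_mem inferInstance _ (hs b) g
    rw [h1, ← key φ _ h2, map_mul, map_mul, map_inv, S.conj (φ g) _ ((AG.c1_char φ).2 (hs b))]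

/-- finite generation. PROOF. `H` is a finitely generated group, `D.subgroupOf H` is a normal subgroup of `H` which contains the lower central term (`Subgroup.top_subtype_lowerCentralSeries`), so it is the normal closure in `H` of a finite set `X` (`AG.normally_fg`). `f` = the image of `X` under `π`. The set of the
`x ∈ H` with `x ∈ D` and `π x ∈ span R {ρ h b}` is a subgroup, normal in `H`, and contains `X`; so it is everything in `D`, and `π` is surjective. -/
theorem Sec.fg [D.Normal] [D₁.Normal] (S : Sec D D₁ R B π ρ) (H : Subgroup G) (hH : H.FG)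
    (hDH : D ≤ H) (c : ℕ) (hc : H.lowerCentralSeries c ≤ D) :
    FGq (ρ.comp H.subtype) (⊤ : Subgroup H) (⊤ : Submodule R B) := by
  classical
  have hHG : Group.FG H := (Group.fg_iff_subgroup_fg H).2 hH
  have hcH : (⊤ : Subgroup H).lowerCentralSeries c ≤ D.subgroupOf H := by
    intro x hx
    rw [Subgroup.mem_subgroupOf]
    exact e1_lcs hc hx
  obtain ⟨X, hX⟩ := AG.normally_fg H (D.subgroupOf H) c hcH
  have hXD : ∀ x ∈ X, (x : G) ∈ D := by
    intro x hx
    have h1 : x ∈ D.subgroupOf H := by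
      rw [← hX]
      exact Subgroup.subset_normalClosure hx
    exact Subgroup.mem_subgroupOf.1 h1
  refine ⟨X.image (fun x : H => π (x : G)), ?_⟩
  set V := sp (ρ.comp H.subtype) (⊤ : Subgroup H) ((X.image (fun x : H => π (x : G)) : Finset B) : Set B)
    with hV
  let N : Subgroup G :=
    { carrier := {y | y ∈ D ∧ π y ∈ V}
      mul_mem' := by
        rintro a b ⟨ha, ha'⟩ ⟨hb, hb'⟩
        exact ⟨D.mul_mem ha hb, by rw [S.add a ha b hb]; exact V.add_mem ha' hb'⟩
      one_mem' := ⟨D.one_mem, by rw [S.one]; exact V.zero_mem⟩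
      inv_mem' := by
        rintro a ⟨ha, ha'⟩
        exact ⟨D.inv_mem ha, by rw [S.inv ha]; exact V.neg_mem ha'⟩ }
  have h1 : D.subgroupOf H ≤ N.comap H.subtype := by
    rw [← hX]
    unfold Subgroup.normalClosure
    rw [Subgroup.closure_le]
    intro y hy
    rw [Group.mem_conjugatesOfSet_iff] at hy
    obtain ⟨x, hx, hxy⟩ := hy
    obtain ⟨g, rfl⟩ := isConj_iff.1 hxy
    have hxD := hXD x hx
    change H.subtype (g * x * g⁻¹) ∈ N
    have e2 : H.subtype (g * x * g⁻¹) = (g : G) * (x : G) * (g : G)⁻¹ := rfl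
    rw [e2]
    refine ⟨Subgroup.Normal.conj_mem inferInstance _ hxD _, ?_⟩
    rw [S.conj _ _ hxD, hV]
    apply Submodule.subset_span
    exact ⟨g, Subgroup.mem_top g, π (x : G), by
      rw [Finset.mem_coe, Finset.mem_image]; exact ⟨x, hx, rfl⟩, rfl⟩
  symm
  rw [eq_top_iff]
  intro b _
  obtain ⟨x, hx, rfl⟩ := S.surj b
  have h2 : (⟨x, hDH hx⟩ : H) ∈ D.subgroupOf H := Subgroup.mem_subgroupOf.2 hx
  exact (h1 h2).2

/-- PROOF. `H.lowerCentralSeries c ≤ D` acts trivially (`Sec.rho_of_mem`), `Subgroup.top_subtype_lowerCentralSeries`. -/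
theorem Sec.lcs_le_ker [D.Normal] [D₁.Normal] (S : Sec D D₁ R B π ρ) (hcomm : ⁅D, D⁆ ≤ D₁)
    (H : Subgroup G) (c : ℕ) (hc : H.lowerCentralSeries c ≤ D) :
    (⊤ : Subgroup H).lowerCentralSeries c ≤ (ρ.comp H.subtype).ker := by
  intro x hx
  rw [MonoidHom.mem_ker]
  exact S.rho_of_mem hcomm (e1_lcs hc hx)

end AM
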