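import Pool.Agent.AM.E3
import Pool.Agent.AG.S3

/-!
# [AM-E4] for a maximal pair the central elements act through an infinite group
-/

set_option autoImplicit false

namespace AM

open scoped commutatorElement

variable {G : Type*} [Group G]

theorem e4_lift {A B : Type*} [Group A] [Group B] (f : A →* B) {K : Subgroup A}
    (h2 : (K.map f).FG) : ∃ T : Finset A, (T : Set A) ⊆ K ∧
      K ≤ f.ker ⊔ Subgroup.closure (T : Set A) := by
  classical
  obtain ⟨S, hS⟩ := h2
  have hlift : ∀ s : S, ∃ k ∈ K, f k = s := by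
    intro s
    have : (s : B) ∈ K.map f := by
      rw [← hS]; exact Subgroup.subset_closure s.2
    exact this
  choose g hg1 hg2 using hlift
  set T : Finset A := S.attach.image g with hT
  have hTK : (T : Set A) ⊆ K := by
    intro x hx
    simp only [hT, Finset.coe_image, Set.mem_image] at hx
    obtain ⟨s, -, rfl⟩ := hx
    exact hg1 s
  have hTm : (Subgroup.closure (T : Set A)).map f = K.map f := by
    rw [MonoidHom.map_closure, ← hS]
    congr 1
    ext y
    simp only [hT, Finset.coe_image, Set.mem_image, Finset.mem_coe, Finset.mem_attach, true_and]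
    constructor
    · rintro ⟨x, ⟨s, rfl⟩, rfl⟩
      rw [hg2]; exact s.2
    · intro hy
      exact ⟨g ⟨y, hy⟩, ⟨⟨y, hy⟩, rfl⟩, hg2 _⟩
  refine ⟨T, hTK, ?_⟩
  intro k hk
  have hk2 : f k ∈ (Subgroup.closure (T : Set A)).map f := by
    rw [hTm]; exact Subgroup.mem_map_of_mem f hk
  obtain ⟨t, ht, htk⟩ := hk2
  have h3 : k * t⁻¹ ∈ f.ker := by
    rw [MonoidHom.mem_ker, map_mul, map_inv, htk, mul_inv_cancel]
  have h4 : k = (k * t⁻¹) * t := by group
  rw [h4]
  exact Subgroup.mul_mem _ (Subgroup.mem_sup_left h3) (Subgroup.mem_sup_right ht)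

/-- a subgroup between `D` and `H` is finitely generated modulo `D` -/
theorem e4_fg (H : Subgroup G) (hH : H.FG) (D : Subgroup G) [D.Normal] (c : ℕ)
    (hc : H.lowerCentralSeries c ≤ D) (E : Subgroup G) (hEH : E ≤ H) :
    ∃ X : Finset G, (X : Set G) ⊆ E ∧ E ≤ D ⊔ Subgroup.closure (X : Set G) := by
  classical
  have : Group.FG H := (Group.fg_iff_subgroup_fg H).2 hH
  have hn : (D.subgroupOf H).Normal := inferInstance
  have : Group.FG (H ⧸ D.subgroupOf H) := inferInstance
  have hnil : Group.IsNilpotent (H ⧸ D.subgroupOf H) := by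
    rw [Subgroup.nilpotent_iff_lowerCentralSeries]
    refine ⟨c, ?_⟩
    have h1 := Subgroup.map_lowerCentralSeries (⊤ : Subgroup H)
      (QuotientGroup.mk' (D.subgroupOf H)) c
    rw [Subgroup.map_top_of_surjective _ (QuotientGroup.mk'_surjective _)] at h1
    rw [← h1, Subgroup.map_eq_bot_iff, QuotientGroup.ker_mk']
    have h2 := Subgroup.map_lowerCentralSeries (⊤ : Subgroup H) H.subtype c
    have h3 : (⊤ : Subgroup H).map H.subtype = H := by
      rw [← MonoidHom.range_eq_map, Subgroup.range_subtype]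
    rw [h3] at h2
    intro x hx
    rw [Subgroup.mem_subgroupOf]
    apply hc
    rw [← h2]
    exact Subgroup.mem_map_of_mem _ hx
  obtain ⟨T, hT1, hT2⟩ := e4_lift (QuotientGroup.mk' (D.subgroupOf H)) (K := E.subgroupOf H)
    (AG.fg_of_nilpotent _)
  rw [QuotientGroup.ker_mk'] at hT2
  refine ⟨T.image H.subtype, ?_, ?_⟩
  · intro x hx
    rw [Finset.coe_image] at hx
    obtain ⟨t, ht, rfl⟩ := hx
    exact Subgroup.mem_subgroupOf.1 (hT1 ht)
  · have h1 := Subgroup.map_mono (f := H.subtype) hT2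
    rw [Subgroup.map_subgroupOf_eq_of_le hEH, Subgroup.map_sup, MonoidHom.map_closure] at h1
    refine h1.trans (sup_le_sup ?_ ?_)
    · rw [Subgroup.map_le_iff_le_comap]
      intro x hx
      exact Subgroup.mem_subgroupOf.1 hx
    · rw [Finset.coe_image]

/-- conjugation by powers when the commutator is central -/
theorem e4_conj {Q : Type*} [Group Q] {u v w : Q} (h : u * v * u⁻¹ = w * v)
    (hw : u * w * u⁻¹ = w) (n : ℕ) : u ^ n * v * (u ^ n)⁻¹ = w ^ n * v := by
  induction n with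
  | zero => simp
  | succ n ih =>
    have hwn : ∀ k : ℕ, u * w ^ k * u⁻¹ = w ^ k := by
      intro k
      rw [← conj_pow, hw]
    calc u ^ (n + 1) * v * (u ^ (n + 1))⁻¹ = u * (u ^ n * v * (u ^ n)⁻¹) * u⁻¹ := by
          rw [pow_succ']
          group
      _ = u * (w ^ n * v) * u⁻¹ := by rw [ih]
      _ = (u * w ^ n * u⁻¹) * (u * v * u⁻¹) := by group
      _ = w ^ n * (w * v) := by rw [hwn, h]
      _ = w ^ (n + 1) * v := by rw [pow_succ, mul_assoc]

theorem e4_comm_closure (D₁ : Subgroup G) [D₁.Normal] (S : Set G)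
    (h : ∀ s ∈ S, ∀ t ∈ S, Commute (QuotientGroup.mk' D₁ s) (QuotientGroup.mk' D₁ t)) :
    ⁅Subgroup.closure S, Subgroup.closure S⁆ ≤ D₁ := by
  have h1 : ∀ x ∈ Subgroup.closure S, ∀ t ∈ S,
      Commute (QuotientGroup.mk' D₁ x) (QuotientGroup.mk' D₁ t) := by
    intro x hx t ht
    induction hx using Subgroup.closure_induction with
    | mem s hs => exact h s hs t ht
    | one => rw [map_one]; exact Commute.one_left _
    | mul a b _ _ ha hb => rw [map_mul]; exact Commute.mul_left ha hb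
    | inv a _ ha => rw [map_inv]; exact Commute.inv_left ha
  have h2 : ∀ x ∈ Subgroup.closure S, ∀ y ∈ Subgroup.closure S,
      Commute (QuotientGroup.mk' D₁ x) (QuotientGroup.mk' D₁ y) := by
    intro x hx y hy
    induction hy using Subgroup.closure_induction with
    | mem s hs => exact h1 x hx s hs
    | one => rw [map_one]; exact Commute.one_right _
    | mul a b _ _ ha hb => rw [map_mul]; exact Commute.mul_right ha hb
    | inv a _ ha => rw [map_inv]; exact Commute.inv_right ha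
  rw [Subgroup.commutator_le]
  intro x hx y hy
  have h3 := h2 x hx y hy
  have h4 : QuotientGroup.mk' D₁ ⁅x, y⁆ = 1 := by
    rw [map_commutatorElement, commutatorElement_eq_one_iff_commute]
    exact h3
  rw [QuotientGroup.mk'_apply, QuotientGroup.eq_one_iff] at h4
  exact h4

theorem e4_char {K : Subgroup G} (h : ∀ (φ : G ≃* G), ∀ x ∈ K, φ x ∈ K) : K.Characteristic := by
  rw [Subgroup.characteristic_iff_le_comap]
  intro φ x hx
  exact h φ x hx

theorem e4_mem {K : Subgroup G} [hK : K.Characteristic] (φ : G ≃* G) {x : G} (hx : x ∈ K) :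
    φ x ∈ K := by
  have := (Subgroup.characteristic_iff_le_comap.1 hK) φ hx
  exact this

/-- closure of an invariant set joined to a characteristic subgroup -/
theorem e4_sup_char (D : Subgroup G) [D.Characteristic] (S : Set G)
    (h : ∀ (φ : G ≃* G), ∀ x ∈ S, φ x ∈ S) : (D ⊔ Subgroup.closure S).Characteristic := by
  rw [Subgroup.characteristic_iff_le_comap]
  intro φ
  refine sup_le ?_ ?_
  · intro x hx
    exact Subgroup.mem_sup_left (e4_mem φ hx)
  · rw [Subgroup.closure_le]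
    intro x hx
    exact Subgroup.mem_sup_right (Subgroup.subset_closure (h φ x hx))

/-- a finitely generated abelian section of finite exponent is finite -/
theorem e4_finite {p : ℕ} (hp : p ≠ 0) (D C : Subgroup G) [D.Normal] (hcomm : ⁅C, C⁆ ≤ D)
    (hpow : ∀ u ∈ C, u ^ p ∈ D)
    (hfg : ∃ X : Finset G, (X : Set G) ⊆ C ∧ C ≤ D ⊔ Subgroup.closure (X : Set G)) :
    D.relIndex C ≠ 0 := by
  classical
  have hn : (D.subgroupOf C).Normal := inferInstance
  obtain ⟨X, hX1, hX2⟩ := hfg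
  have hab : ∀ x y : C ⧸ D.subgroupOf C, x * y = y * x := by
    intro x y
    obtain ⟨a, rfl⟩ := QuotientGroup.mk'_surjective _ x
    obtain ⟨b, rfl⟩ := QuotientGroup.mk'_surjective _ y
    have h1 : QuotientGroup.mk' (D.subgroupOf C) ⁅a, b⁆ = 1 := by
      rw [QuotientGroup.mk'_apply, QuotientGroup.eq_one_iff, Subgroup.mem_subgroupOf]
      apply hcomm
      exact Subgroup.commutator_mem_commutator a.2 b.2
    rw [map_commutatorElement, commutatorElement_eq_one_iff_mul_comm] at h1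
    exact h1
  let _ : CommGroup (C ⧸ D.subgroupOf C) := { (inferInstance : Group (C ⧸ D.subgroupOf C)) with mul_comm := hab }
  have htor : IsMulTorsion (C ⧸ D.subgroupOf C) := by
    intro x
    obtain ⟨a, rfl⟩ := QuotientGroup.mk'_surjective _ x
    rw [isOfFinOrder_iff_pow_eq_one]
    refine ⟨p, Nat.pos_of_ne_zero hp, ?_⟩
    rw [← map_pow, QuotientGroup.mk'_apply, QuotientGroup.eq_one_iff, Subgroup.mem_subgroupOf]
    exact hpow a a.2
  have hfg : Group.FG (C ⧸ D.subgroupOf C) := by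
    rw [Group.fg_iff]
    refine ⟨(fun x : X => QuotientGroup.mk' (D.subgroupOf C) ⟨x.1, hX1 x.2⟩) '' Set.univ, ?_,
      Set.toFinite _⟩
    rw [eq_top_iff]
    intro x _
    obtain ⟨a, rfl⟩ := QuotientGroup.mk'_surjective _ x
    set S := Subgroup.closure ((fun x : X => QuotientGroup.mk' (D.subgroupOf C) ⟨x.1, hX1 x.2⟩) ''
      Set.univ) with hS
    have key : C ≤ (D ⊔ Subgroup.closure (X : Set G)) := hX2
    have h2 : ∀ y ∈ Subgroup.closure (X : Set G), ∃ hy : y ∈ C,
        QuotientGroup.mk' (D.subgroupOf C) ⟨y, hy⟩ ∈ S := by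
      intro y hy
      induction hy using Subgroup.closure_induction with
      | mem s hs =>
        exact ⟨hX1 hs, Subgroup.subset_closure ⟨⟨s, hs⟩, Set.mem_univ _, rfl⟩⟩
      | one => exact ⟨C.one_mem, S.one_mem⟩
      | mul a b _ _ ha hb =>
        obtain ⟨ha1, ha2⟩ := ha
        obtain ⟨hb1, hb2⟩ := hb
        exact ⟨C.mul_mem ha1 hb1, S.mul_mem ha2 hb2⟩
      | inv a _ ha =>
        obtain ⟨ha1, ha2⟩ := ha
        exact ⟨C.inv_mem ha1, S.inv_mem ha2⟩
    obtain ⟨d, hd, y, hy, hdy⟩ := Subgroup.mem_sup_of_normal_left.1 (key a.2)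
    obtain ⟨hyC, hyS⟩ := h2 y hy
    have hdC : d ∈ C := by
      have : d = a.1 * y⁻¹ := by rw [← hdy]; group
      rw [this]
      exact C.mul_mem a.2 (C.inv_mem hyC)
    have ha : a = ⟨d, hdC⟩ * ⟨y, hyC⟩ := by
      apply Subtype.ext
      exact hdy.symm
    rw [ha, map_mul]
    have hd1 : QuotientGroup.mk' (D.subgroupOf C) ⟨d, hdC⟩ = 1 := by
      rw [QuotientGroup.mk'_apply, QuotientGroup.eq_one_iff, Subgroup.mem_subgroupOf]
      exact hd
    rw [hd1, one_mul]
    exact hyS
  have : Finite (C ⧸ D.subgroupOf C) := CommGroup.finite_of_fg_isMulTorsion _ htor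
  have : (D.subgroupOf C).index ≠ 0 := by
    have : (D.subgroupOf C).FiniteIndex := Subgroup.finiteIndex_of_finite_quotient
    exact this.index_ne_zero
  exact this

/-- PROOF. Let `Z = zz H D`, `C₁ = AG.cent D D₁ ⊓ Z`, both characteristic. Suppose that `C₁` has finite index in `Z`. `D ≤ C₁` (`⁅D, D⁆ ≤ D₁`, `D ≤ H`, `D` normal). `C₁ / D` has finite index in `Z / D`, which is infinite (`zz_infinite`) and a finitely generated abelian group (a subgroup of the finitely generated nilpotent group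
`H / D`, `AG.fg_of_nilpotent`); so `C₁ / D` is infinite and finitely generated. For `u, v ∈ C₁` the commutator `⁅u, v⁆` is in `D`, and `D / D₁` is central in `C₁ / D₁` of exponent `p`; so modulo `D₁`: `⁅u ^ p, v⁆ = ⁅u, v⁆ ^ p = 1`, `u ^ p` is central in `C₁ / D₁`.
Let `D' = D ⊔ closure {u ^ p : u ∈ C₁}`: characteristic, `D ≤ D' ≤ H`, `⁅D', D'⁆ ≤ D₁`, `D' / D` is finitely generated (a subgroup of `C₁ / D`). `D' ≠ D`: otherwise `C₁ / D` is a finitely generated abelian group of exponent `p`, hence finite. Let `D₁' = D₁ ⊔ closure {y ^ p : y ∈ D'}`, characteristic. By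
`relIndex_pow_eq_zero` `Pair p H D' D₁'`. By maximality `D' = D`, a contradiction. -/
theorem act_infinite {p : ℕ} (hp : p ≠ 0) (H : Subgroup G) (hH : H.FG) [H.Characteristic]
    (D D₁ : Subgroup G) [D.Characteristic] [D₁.Characteristic] (c : ℕ)
    (hc : H.lowerCentralSeries c ≤ D) (h : Pair p H D D₁)
    (hmax : ∀ E' E₁' : Subgroup G, E'.Characteristic → E₁'.Characteristic → D ≤ E' →
      Pair p H E' E₁' → E' = D) : (AG.cent D D₁).relIndex (zz H D) = 0 := by
  classical
  by_contra hne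
  have hcC : (AG.cent D D₁).Characteristic := AG.cent_char D D₁
  have hcH : (AG.cent H D).Characteristic := AG.cent_char H D
  have hZi := zz_infinite hp H hH D D₁ c hc h
  set Z := zz H D with hZ
  set C := AG.cent D D₁ ⊓ Z with hC
  have hCH : C ≤ H := fun x hx => ((Subgroup.mem_inf.1 (Subgroup.mem_inf.1 hx).2)).1
  have hCc : ∀ u ∈ C, ∀ d ∈ D, u * d * u⁻¹ * d⁻¹ ∈ D₁ := fun u hu =>
    (AG.mem_cent D D₁ u).1 (Subgroup.mem_inf.1 hu).1
  have hCZ : ∀ u ∈ C, ∀ v ∈ H, u * v * u⁻¹ * v⁻¹ ∈ D := fun u hu =>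
    (AG.mem_cent H D u).1 ((Subgroup.mem_inf.1 (Subgroup.mem_inf.1 hu).2)).2
  have hDZ : D ≤ Z := by
    intro d hd
    refine Subgroup.mem_inf.2 ⟨h.leH hd, (AG.mem_cent H D d).2 ?_⟩
    intro v hv
    have h1 : d * v * d⁻¹ * v⁻¹ = d * (v * d⁻¹ * v⁻¹) := by group
    rw [h1]
    exact D.mul_mem hd ((inferInstance : D.Normal).conj_mem _ (D.inv_mem hd) v)
  have hDC : D ≤ C := by
    intro d hd
    refine Subgroup.mem_inf.2 ⟨(AG.mem_cent D D₁ d).2 ?_, hDZ hd⟩
    intro e he
    apply h.comm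
    exact Subgroup.commutator_mem_commutator hd he
  have hCrel : C.relIndex Z ≠ 0 := by
    rw [hC, Subgroup.inf_relIndex_right]
    exact hne
  have hDCi : D.relIndex C = 0 := by
    have h1 := Subgroup.relIndex_mul_relIndex D C Z hDC inf_le_right
    rw [hZi] at h1
    rcases Nat.mul_eq_zero.1 h1 with h2 | h2
    · exact h2
    · exact absurd h2 hCrel
  have hCφ : ∀ (φ : G ≃* G), ∀ x ∈ C, φ x ∈ C := by
    intro φ x hx
    obtain ⟨h1, h2⟩ := Subgroup.mem_inf.1 hx
    obtain ⟨h3, h4⟩ := Subgroup.mem_inf.1 h2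
    exact Subgroup.mem_inf.2 ⟨e4_mem φ h1, Subgroup.mem_inf.2 ⟨e4_mem φ h3, e4_mem φ h4⟩⟩
  have hpc : ∀ u ∈ C, ∀ v ∈ C, Commute (QuotientGroup.mk' D₁ (u ^ p)) (QuotientGroup.mk' D₁ v) := by
    intro u hu v hv
    have hwD : u * v * u⁻¹ * v⁻¹ ∈ D := hCZ u hu v (hCH hv)
    have h1 := e4_conj (u := QuotientGroup.mk' D₁ u) (v := QuotientGroup.mk' D₁ v)
      (w := QuotientGroup.mk' D₁ (u * v * u⁻¹ * v⁻¹)) (by
        rw [← map_inv, ← map_mul, ← map_mul, ← map_mul]
        exact congrArg _ (by group)) (by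
        have h2 := hCc u hu _ hwD
        have h3 : QuotientGroup.mk' D₁ (u * (u * v * u⁻¹ * v⁻¹) * u⁻¹ * (u * v * u⁻¹ * v⁻¹)⁻¹) = 1 := by
          rw [QuotientGroup.mk'_apply, QuotientGroup.eq_one_iff]
          exact h2
        rw [map_mul, map_inv, mul_inv_eq_one] at h3
        rw [← map_inv, ← map_mul, ← map_mul]
        exact h3) p
    have h4 : (QuotientGroup.mk' D₁ (u * v * u⁻¹ * v⁻¹)) ^ p = 1 := by
      rw [← map_pow, QuotientGroup.mk'_apply, QuotientGroup.eq_one_iff]
      exact h.pow _ hwD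
    rw [h4, one_mul, mul_inv_eq_iff_eq_mul] at h1
    rw [map_pow]
    exact h1
  set D' := D ⊔ Subgroup.closure {x : G | ∃ u ∈ C, x = u ^ p} with hD'
  have hD'char : D'.Characteristic := by
    apply e4_sup_char
    rintro φ x ⟨u, hu, rfl⟩
    exact ⟨φ u, hCφ φ u hu, map_pow φ u p⟩
  have hDD' : D ≤ D' := le_sup_left
  have hD'C : D' ≤ C := by
    refine sup_le hDC ?_
    rw [Subgroup.closure_le]
    rintro x ⟨u, hu, rfl⟩
    exact C.pow_mem hu p
  have hD'H : D' ≤ H := hD'C.trans hCH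
  have hcomm : ⁅D', D'⁆ ≤ D₁ := by
    have h1 : D' = Subgroup.closure ((D : Set G) ∪ {x : G | ∃ u ∈ C, x = u ^ p}) := by
      rw [Subgroup.closure_union, Subgroup.closure_eq]
    rw [h1]
    apply e4_comm_closure
    have hDu : ∀ d ∈ D, ∀ u ∈ C, Commute (QuotientGroup.mk' D₁ u) (QuotientGroup.mk' D₁ d) := by
      intro d hd u hu
      have h2 := hCc u hu d hd
      have h3 : QuotientGroup.mk' D₁ (u * d * u⁻¹ * d⁻¹) = 1 := by
        rw [QuotientGroup.mk'_apply, QuotientGroup.eq_one_iff]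
        exact h2
      have h4 : QuotientGroup.mk' D₁ ⁅u, d⁆ = 1 := h3
      rw [map_commutatorElement, commutatorElement_eq_one_iff_commute] at h4
      exact h4
    rintro s (hs | ⟨u, hu, rfl⟩) t (ht | ⟨v, hv, rfl⟩)
    · exact hDu t ht s (hDC hs)
    · exact (hDu s hs _ (C.pow_mem hv p)).symm
    · exact hDu t ht _ (C.pow_mem hu p)
    · exact hpc u hu _ (C.pow_mem hv p)
  set D₁' := D₁ ⊔ Subgroup.closure {x : G | ∃ y ∈ D', x = y ^ p} with hD₁'
  have hD₁'char : D₁'.Characteristic := by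
    apply e4_sup_char
    rintro φ x ⟨u, hu, rfl⟩
    exact ⟨φ u, e4_mem φ hu, map_pow φ u p⟩
  have hpair : Pair p H D' D₁' := by
    refine ⟨?_, hD'H, hcomm.trans le_sup_left, ?_, ?_⟩
    · refine sup_le (h.le.trans hDD') ?_
      rw [Subgroup.closure_le]
      rintro x ⟨u, hu, rfl⟩
      exact D'.pow_mem hu p
    · intro x hx
      exact Subgroup.mem_sup_right (Subgroup.subset_closure ⟨x, hx, rfl⟩)
    · exact relIndex_pow_eq_zero hp D D₁ D' h.le hDD' h.inf h.pow hcomm
        (e4_fg H hH D c hc D' hD'H)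
  have hEq : D' = D := hmax D' D₁' hD'char hD₁'char hDD' hpair
  refine e4_finite hp D C ?_ ?_ (e4_fg H hH D c hc C hCH) hDCi
  · rw [Subgroup.commutator_le]
    intro x hx y hy
    exact hCZ x hx y (hCH hy)
  · intro u hu
    rw [← hEq]
    exact Subgroup.mem_sup_right (Subgroup.subset_closure ⟨u, hu, rfl⟩)

end AM
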