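import Pool.Agent.AM.Defs
import Pool.Agent.AG.G7
import Pool.Agent.AG.C1

/-!
# [AM-E8] the abelian group of the central elements modulo `D`
-/

set_option autoImplicit false

universe u

namespace AM

theorem e8_char {G : Type*} [Group G] {E : Subgroup G} (hE : E.Characteristic) (φ : G ≃* G) (x : G) :
    φ x ∈ E ↔ x ∈ E := by
  have h1 := hE.fixed φ
  constructor
  · intro h
    rw [← h1]
    exact h
  · intro h
    rw [← h1] at h
    exact h

theorem e8_nil {G : Type*} [Group G] (H : Subgroup G) (D : Subgroup G) [D.Normal] (c : ℕ)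
    (hc : H.lowerCentralSeries c ≤ D) : Group.IsNilpotent (H ⧸ D.subgroupOf H) := by
  rw [Subgroup.nilpotent_iff_lowerCentralSeries]
  refine ⟨c, ?_⟩
  have h1 := Subgroup.map_lowerCentralSeries (⊤ : Subgroup H) (QuotientGroup.mk' (D.subgroupOf H)) c
  have h2 := Subgroup.map_lowerCentralSeries (⊤ : Subgroup H) H.subtype c
  have h3 : (⊤ : Subgroup H).map (QuotientGroup.mk' (D.subgroupOf H)) = ⊤ :=
    Subgroup.map_top_of_surjective _ (QuotientGroup.mk'_surjective _)
  have h4 : (⊤ : Subgroup H).map H.subtype = H := by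
    rw [← MonoidHom.range_eq_map, Subgroup.range_subtype]
  rw [h3] at h1
  rw [h4] at h2
  rw [← h1, Subgroup.map_eq_bot_iff, QuotientGroup.ker_mk']
  intro x hx
  rw [Subgroup.mem_subgroupOf]
  apply hc
  rw [← h2]
  exact Subgroup.mem_map_of_mem _ hx

/-- PROOF. `Z = zz H D`, `A = Z ⧸ D.subgroupOf Z` (commutative: `⁅Z, Z⁆ ≤ D`), `α g` = the class of `g` for `g ∈ Z`, `1` otherwise. `A` embeds into the finitely generated nilpotent group `H ⧸ D.subgroupOf H`, so it is finitely generated (`AG.fg_of_nilpotent`). `Z` is characteristic (`AG.cent_char`), so every `φ`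
induces an automorphism of `A`, and this is a homomorphism in `φ`. -/
theorem exists_A {G : Type u} [Group G] (H : Subgroup G) (hH : H.FG) [H.Characteristic]
    (D : Subgroup G) [D.Characteristic] (c : ℕ) (hc : H.lowerCentralSeries c ≤ D) (hDH : D ≤ H) :
    ∃ (A : Type u) (_ : CommGroup A) (α : G → A) (τ : MulAut G →* MulAut A), Group.FG A ∧
      (∀ z ∈ zz H D, ∀ w ∈ zz H D, α (z * w) = α z * α w) ∧ (∀ a : A, ∃ z ∈ zz H D, α z = a) ∧
      (∀ z ∈ zz H D, α z = 1 ↔ z ∈ D) ∧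
      ∀ φ : MulAut G, ∀ z ∈ zz H D, α (φ z) = τ φ (α z) := by
  classical
  have hHD : ∀ (φ : MulAut G) (x : G), φ x ∈ D ↔ x ∈ D := fun φ x => e8_char inferInstance φ x
  have hZc : ∀ (φ : MulAut G) (x : G), φ x ∈ zz H D ↔ x ∈ zz H D := by
    intro φ x
    have h1 := e8_char (E := H) inferInstance φ x
    have h2 := e8_char (AG.cent_char H D) φ x
    exact and_congr h1 h2
  have hDZ : D ≤ zz H D := by
    intro d hd
    refine ⟨hDH hd, ?_⟩
    intro h _
    have h1 : h * d⁻¹ * h⁻¹ ∈ D := Subgroup.Normal.conj_mem inferInstance _ (D.inv_mem hd) h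
    have h2 := D.mul_mem hd h1
    have h3 : d * h * d⁻¹ * h⁻¹ = d * (h * d⁻¹ * h⁻¹) := by group
    rw [h3]
    exact h2
  let Z : Subgroup G := zz H D
  let D' : Subgroup Z := D.subgroupOf Z
  have hcomm : ∀ a b : Z ⧸ D', a * b = b * a := by
    intro a b
    obtain ⟨z, rfl⟩ := QuotientGroup.mk_surjective a
    obtain ⟨w, rfl⟩ := QuotientGroup.mk_surjective b
    rw [← QuotientGroup.mk_mul, ← QuotientGroup.mk_mul, QuotientGroup.eq, Subgroup.mem_subgroupOf]
    have h1 : (w : G)⁻¹ ∈ zz H D := Subgroup.inv_mem _ w.2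
    have h2 : (z : G)⁻¹ ∈ H := Subgroup.inv_mem _ z.2.1
    have h3 := h1.2 _ h2
    have h4 : (((z * w)⁻¹ * (w * z) : Z) : G) = (w : G)⁻¹ * (z : G)⁻¹ * (w : G)⁻¹⁻¹ * (z : G)⁻¹⁻¹ := by
      push_cast
      group
    rw [h4]
    exact h3
  let cg : CommGroup (Z ⧸ D') := { (inferInstance : Group (Z ⧸ D')) with mul_comm := hcomm }
  let eZ : MulAut G → (Z ≃* Z) := fun φ =>
    { toFun := fun z => ⟨φ (z : G), (hZc φ z).2 z.2⟩
      invFun := fun z => ⟨(MulEquiv.symm φ) (z : G),
        (hZc φ _).1 (by rw [MulEquiv.apply_symm_apply]; exact z.2)⟩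
      left_inv := fun z => Subtype.ext (MulEquiv.symm_apply_apply φ (z : G))
      right_inv := fun z => Subtype.ext (MulEquiv.apply_symm_apply φ (z : G))
      map_mul' := fun z w => Subtype.ext (map_mul φ (z : G) (w : G)) }
  have heZ : ∀ φ, D'.map (eZ φ : Z →* Z) = D' := by
    intro φ
    ext z
    constructor
    · rintro ⟨w, hw, rfl⟩
      exact (hHD φ (w : G)).2 hw
    · intro hz
      refine ⟨(eZ φ).symm z, ?_, (eZ φ).apply_symm_apply z⟩
      have h1 : φ (((eZ φ).symm z : Z) : G) = z := MulEquiv.apply_symm_apply φ (z : G)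
      have h2 : φ (((eZ φ).symm z : Z) : G) ∈ D := by rw [h1]; exact hz
      exact (hHD φ _).1 h2
  let τ : MulAut G →* MulAut (Z ⧸ D') :=
    { toFun := fun φ => QuotientGroup.congr D' D' (eZ φ) (heZ φ)
      map_one' := by
        apply MulEquiv.ext
        intro a
        obtain ⟨z, rfl⟩ := QuotientGroup.mk_surjective a
        rfl
      map_mul' := by
        intro φ ψ
        apply MulEquiv.ext
        intro a
        obtain ⟨z, rfl⟩ := QuotientGroup.mk_surjective a
        rfl }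
  let α : G → Z ⧸ D' := fun g => if h : g ∈ zz H D then ((⟨g, h⟩ : Z) : Z ⧸ D') else 1
  have hα : ∀ (z : G) (h : z ∈ zz H D), α z = ((⟨z, h⟩ : Z) : Z ⧸ D') := fun z h => dif_pos h
  refine ⟨Z ⧸ D', cg, α, τ, ?_, ?_, ?_, ?_, ?_⟩
  · -- finitely generated
    have hP : Group.FG H := (Group.fg_iff_subgroup_fg H).2 hH
    have hN := e8_nil H D c hc
    let f : Z →* H ⧸ D.subgroupOf H :=
      (QuotientGroup.mk' (D.subgroupOf H)).comp (Subgroup.inclusion (inf_le_left : Z ≤ H))
    have hk : D' = f.ker := by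
      ext z
      rw [MonoidHom.mem_ker]
      change _ ↔ ((Subgroup.inclusion (inf_le_left : Z ≤ H) z : H) : H ⧸ D.subgroupOf H) = 1
      rw [QuotientGroup.eq_one_iff]
      rfl
    have hfg : f.range.FG := AG.fg_of_nilpotent f.range
    have hfg' : Group.FG f.range := (Group.fg_iff_subgroup_fg _).2 hfg
    let E : f.range ≃* Z ⧸ D' :=
      (QuotientGroup.quotientKerEquivRange f).symm.trans
        (QuotientGroup.quotientMulEquivOfEq hk.symm)
    exact Group.fg_of_surjective (f := E.toMonoidHom) E.surjective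
  · intro z hz w hw
    rw [hα z hz, hα w hw, hα _ (Subgroup.mul_mem _ hz hw)]
    rfl
  · intro a
    obtain ⟨z, rfl⟩ := QuotientGroup.mk_surjective a
    exact ⟨z, z.2, hα _ _⟩
  · intro z hz
    rw [hα z hz]
    exact QuotientGroup.eq_one_iff _
  · intro φ z hz
    rw [hα z hz, hα _ ((hZc φ z).2 hz)]
    rfl

/-- PROOF. `θ (α z) = ρ z` is well defined: `α z = α w` implies `z w⁻¹ ∈ D`. -/
theorem exists_theta {G : Type u} [Group G] (H D : Subgroup G) [H.Normal] [D.Normal] {A : Type u}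
    [CommGroup A] (α : G → A)
    (hmul : ∀ z ∈ zz H D, ∀ w ∈ zz H D, α (z * w) = α z * α w)
    (hsurj : ∀ a : A, ∃ z ∈ zz H D, α z = a) (hker : ∀ z ∈ zz H D, α z = 1 ↔ z ∈ D)
    {M : Type*} [Monoid M] (ρ : G →* M) (hρ : ∀ z ∈ D, ρ z = 1) :
    ∃ θ : A →* M, ∀ z ∈ zz H D, θ (α z) = ρ z := by
  have h1 : α 1 = 1 := (hker 1 (Subgroup.one_mem _)).2 D.one_mem
  have hwd : ∀ z ∈ zz H D, ∀ w ∈ zz H D, α z = α w → ρ z = ρ w := by
    intro z hz w hw h
    have hw' := Subgroup.inv_mem _ hw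
    have h2 : α w * α w⁻¹ = 1 := by
      rw [← hmul w hw _ hw', mul_inv_cancel, h1]
    have h3 : z * w⁻¹ ∈ D := by
      rw [← hker _ (Subgroup.mul_mem _ hz hw'), hmul z hz _ hw', h, h2]
    calc ρ z = ρ (z * w⁻¹ * w) := by rw [inv_mul_cancel_right]
      _ = ρ w := by rw [map_mul, hρ _ h3, one_mul]
  choose s hs hs' using hsurj
  refine ⟨{ toFun := fun a => ρ (s a), map_one' := ?_, map_mul' := ?_ }, ?_⟩
  · rw [hwd _ (hs 1) 1 (Subgroup.one_mem _) (by rw [hs', h1]), map_one]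
  · intro a b
    rw [← map_mul]
    exact hwd _ (hs _) _ (Subgroup.mul_mem _ (hs a) (hs b)) (by
      rw [hs', hmul _ (hs a) _ (hs b), hs', hs'])
  · intro z hz
    exact hwd _ (hs _) _ hz (hs' _)

end AM
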