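import Pool.Agent.AM.E6

/-!
# [AM-E7] a weight and a functional in characteristic `p`
-/

set_option autoImplicit false

universe u

namespace AM

section

variable {p : ℕ} [Fact p.Prime] {A : Type u} [CommGroup A] {B : Type u} [AddCommGroup B]
  [Module (ZMod p) B]

/-- the action of the group algebra -/
noncomputable def act (θ : A →* Module.End (ZMod p) B) :
    MonoidAlgebra (ZMod p) A →ₐ[ZMod p] Module.End (ZMod p) B :=
  MonoidAlgebra.lift (ZMod p) (Module.End (ZMod p) B) A θ

/-- the elements killed by `𝔭` -/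
def CC (θ : A →* Module.End (ZMod p) B) (𝔭 : Ideal (MonoidAlgebra (ZMod p) A)) : Set B :=
  {b | ∀ r ∈ 𝔭, act θ r b = 0}

/-- the extension of a character to the group algebra -/
noncomputable def chiHom {K : Type u} [Field K] [Algebra (ZMod p) K] (χ : A →* Kˣ) :
    MonoidAlgebra (ZMod p) A →ₐ[ZMod p] K :=
  MonoidAlgebra.lift (ZMod p) K A ((Units.coeHom K).comp χ)

/-- a weight `χ` and a functional `f` on the elements killed by the minimal prime `𝔭` -/
structure Fun (θ : A →* Module.End (ZMod p) B) (𝔭 : Ideal (MonoidAlgebra (ZMod p) A)) {K : Type u}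
    [Field K] [Algebra (ZMod p) K] (χ : A →* Kˣ) (s : Kˣ) (f : B → K) : Prop where
  min : 𝔭 ∈ (RingHom.ker (act θ)).minimalPrimes
  ker : ∀ r, r ∈ 𝔭 ↔ chiHom χ r = 0
  gen : IntermediateField.adjoin (ZMod p) (Set.range fun a => (χ a : K)) = ⊤
  add : ∀ b ∈ CC θ 𝔭, ∀ b' ∈ CC θ 𝔭, f (b + b') = f b + f b'
  smul : ∀ a : A, ∀ b ∈ CC θ 𝔭, f (θ a b) = χ a * f b
  val : ∀ b ∈ CC θ 𝔭,
    f b ∈ Algebra.adjoin (ZMod p) ((Set.range fun a => (χ a : K)) ∪ {((s⁻¹ : Kˣ) : K)})
  one : ∃ b ∈ CC θ 𝔭, f b = 1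
  inf : ∃ a : A, ∀ k : ℕ, 0 < k → χ a ^ k ≠ 1

end

theorem e7_noeth {p : ℕ} [Fact p.Prime] {A : Type u} [CommGroup A] [Group.FG A] :
    IsNoetherianRing (MonoidAlgebra (ZMod p) A) := by
  have : Monoid.FG A := Group.fg_iff_monoid_fg.mp inferInstance
  have : Algebra.FiniteType (ZMod p) (MonoidAlgebra (ZMod p) A) :=
    MonoidAlgebra.finiteType_of_fg
  exact Algebra.FiniteType.isNoetherianRing (ZMod p) _

theorem e7_act_of {p : ℕ} [Fact p.Prime] {A : Type u} [CommGroup A] {B : Type u}
    [AddCommGroup B] [Module (ZMod p) B] (θ : A →* Module.End (ZMod p) B) (a : A) :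
    act θ (MonoidAlgebra.of (ZMod p) A a) = θ a := by
  unfold act
  exact MonoidAlgebra.lift_of _ _

theorem e7_comm {p : ℕ} [Fact p.Prime] {A : Type u} [CommGroup A] {B : Type u}
    [AddCommGroup B] [Module (ZMod p) B] (θ : A →* Module.End (ZMod p) B)
    {H : Type u} [Group H] (ρ : H →* Module.End (ZMod p) B)
    (hcomm : ∀ (a : A) (h : H), θ a * ρ h = ρ h * θ a) (r : MonoidAlgebra (ZMod p) A) (h : H)
    (b : B) : act θ r (ρ h b) = ρ h (act θ r b) := by
  have key : act θ r * ρ h = ρ h * act θ r := by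
    induction r using MonoidAlgebra.induction_on with
    | of a => rw [e7_act_of]; exact hcomm a h
    | add f g hf hg => rw [map_add, add_mul, mul_add, hf, hg]
    | smul c f hf => rw [map_smul, smul_mul_assoc, mul_smul_comm, hf]
  exact LinearMap.congr_fun key b

theorem e7_chi_mem_span {p : ℕ} [Fact p.Prime] {A : Type u} [CommGroup A] {K : Type u} [Field K]
    [Algebra (ZMod p) K] (χ : A →* Kˣ) (r : MonoidAlgebra (ZMod p) A) :
    chiHom χ r ∈ Submodule.span (ZMod p) (Set.range fun a => (χ a : K)) := by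
  induction r using MonoidAlgebra.induction_on with
  | of a =>
    unfold chiHom
    rw [MonoidAlgebra.lift_of]
    exact Submodule.subset_span ⟨a, rfl⟩
  | add f g hf hg => rw [map_add]; exact Submodule.add_mem _ hf hg
  | smul c f hf => rw [map_smul]; exact Submodule.smul_mem _ _ hf

theorem e7_chi_mem {p : ℕ} [Fact p.Prime] {A : Type u} [CommGroup A] {K : Type u} [Field K]
    [Algebra (ZMod p) K] (χ : A →* Kˣ) (r : MonoidAlgebra (ZMod p) A) :
    chiHom χ r ∈ Algebra.adjoin (ZMod p) (Set.range fun a => (χ a : K)) := by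
  have h := e7_chi_mem_span χ r
  exact Algebra.span_le_adjoin (ZMod p) _ h

/-- PROOF. `R = MonoidAlgebra (ZMod p) A` is noetherian (`MonoidAlgebra.finiteType_of_fg`), `B` is an `R`-module by `act θ` (`Module.compHom`), its annihilator is the kernel of `act θ`. `exists_prime` for `f` from `hfg`: if `r` kills `f`, it kills all `ρ h b` (`act θ r` commutes with `ρ h`, `MonoidAlgebra.induction_on` or the
`AlgHom` to the centralizer), so everything. `R ⧸ ker` is infinite since `range (act θ) ⊇ range θ` is infinite. -/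
theorem exists_prime_act {p : ℕ} [Fact p.Prime] {A : Type u} [CommGroup A] [Group.FG A]
    {B : Type u} [AddCommGroup B] [Module (ZMod p) B] (θ : A →* Module.End (ZMod p) B)
    {H : Type u} [Group H] (ρ : H →* Module.End (ZMod p) B)
    (hcomm : ∀ (a : A) (h : H), θ a * ρ h = ρ h * θ a)
    (hfg : FGq ρ (⊤ : Subgroup H) (⊤ : Submodule (ZMod p) B)) (hinf : (Set.range θ).Infinite) :
    ∃ 𝔭 ∈ (RingHom.ker (act θ)).minimalPrimes, Infinite (MonoidAlgebra (ZMod p) A ⧸ 𝔭) ∧
      ∃ x₀ : B, ∀ r, act θ r x₀ = 0 ↔ r ∈ 𝔭 := by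
  classical
  let : Module (MonoidAlgebra (ZMod p) A) B :=
    Module.compHom B (act θ : MonoidAlgebra (ZMod p) A →+* Module.End (ZMod p) B)
  have hsm : ∀ (r : MonoidAlgebra (ZMod p) A) (b : B), r • b = act θ r b := fun r b => rfl
  have hann : Module.annihilator (MonoidAlgebra (ZMod p) A) B = RingHom.ker (act θ) := by
    ext r
    rw [Module.mem_annihilator, RingHom.mem_ker]
    constructor
    · intro h
      exact LinearMap.ext fun b => h b
    · intro h b
      rw [hsm, h]
      rfl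
  obtain ⟨f, hf⟩ := hfg
  have h1 : ∀ j : MonoidAlgebra (ZMod p) A, (∀ b ∈ f, j • b = 0) → ∀ b : B, j • b = 0 := by
    intro j hj b
    have hb : b ∈ sp ρ ⊤ (f : Set B) := by
      rw [← hf]
      trivial
    unfold sp at hb
    rw [hsm]
    induction hb using Submodule.span_induction with
    | mem x hx =>
      obtain ⟨h, -, a, ha, rfl⟩ := hx
      rw [e7_comm θ ρ hcomm, ← hsm, hj a ha, map_zero]
    | zero => rw [map_zero]
    | add x y _ _ hx hy => rw [map_add, hx, hy, add_zero]
    | smul c x _ hx => rw [map_smul, hx, smul_zero]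
  have : IsNoetherianRing (MonoidAlgebra (ZMod p) A) := e7_noeth
  have hinf' : Infinite (MonoidAlgebra (ZMod p) A ⧸
      Module.annihilator (MonoidAlgebra (ZMod p) A) B) := by
    rw [hann]
    by_contra hcon
    rw [not_infinite_iff_finite] at hcon
    apply hinf
    have hcon2 : Finite (MonoidAlgebra (ZMod p) A ⧸ RingHom.ker (act θ :
        MonoidAlgebra (ZMod p) A →+* Module.End (ZMod p) B)) := hcon
    have h2 : (Set.range (RingHom.kerLift (act θ : MonoidAlgebra (ZMod p) A →+*
        Module.End (ZMod p) B))).Finite := Set.finite_range _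
    refine h2.subset ?_
    rintro _ ⟨a, rfl⟩
    refine ⟨Ideal.Quotient.mk _ (MonoidAlgebra.of (ZMod p) A a), ?_⟩
    exact (RingHom.kerLift_mk _ _).trans (e7_act_of θ a)
  obtain ⟨𝔭, h𝔭, hi, x₀, hx₀⟩ := exists_prime f h1 hinf'
  rw [hann] at h𝔭
  exact ⟨𝔭, h𝔭, hi, x₀, hx₀⟩

/-- PROOF. `exists_prime_act`; `R = MonoidAlgebra (ZMod p) A`, `B` an `R`-module by `act θ` (`Module.compHom`; `IsScalarTower (ZMod p) R B`), the `ρ h` are `R`-linear. `exists_functional_prime` with `k = ZMod p`, `J = R`. `K = FractionRing (R ⧸ 𝔭)` with `Algebra (ZMod p) K`; `χ a` = the class of `MonoidAlgebra.of a` (a unit, the inverse is the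
class of `a⁻¹`); so `chiHom χ` is the composition `R → R ⧸ 𝔭 → K` (`MonoidAlgebra.algHom_ext`), kernel `𝔭`. `s` = the class of `s ∉ 𝔭`, a unit of `K`. `gen`: the subfield generated by the `χ a` contains the image of `R` and `K` is the fraction field of this image. `val`: `f b = (image of a) * s⁻¹ ^ n`, the image of `R` is
`Algebra.adjoin (ZMod p) (range χ)`. `inf`: otherwise the finitely generated abelian group `range χ` is torsion, hence finite, and `R ⧸ 𝔭 ≅ Algebra.adjoin (ZMod p) (range χ)` is spanned by a finite set over a finite field: finite, a contradiction. -/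
theorem exists_fun {p : ℕ} [Fact p.Prime] {A : Type u} [CommGroup A] [Group.FG A]
    {B : Type u} [AddCommGroup B] [Module (ZMod p) B] (θ : A →* Module.End (ZMod p) B)
    {H : Type u} [Group H] [Group.FG H] (ρ : H →* Module.End (ZMod p) B) (c : ℕ)
    (hc : (⊤ : Subgroup H).lowerCentralSeries c ≤ ρ.ker)
    (hcomm : ∀ (a : A) (h : H), θ a * ρ h = ρ h * θ a)
    (hfg : FGq ρ (⊤ : Subgroup H) (⊤ : Submodule (ZMod p) B)) (hinf : (Set.range θ).Infinite) :
    ∃ (𝔭 : Ideal (MonoidAlgebra (ZMod p) A)) (K : Type u) (_ : Field K) (_ : Algebra (ZMod p) K)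
      (χ : A →* Kˣ) (s : Kˣ) (f : B → K), Fun θ 𝔭 χ s f := by
  classical
  obtain ⟨𝔭, h𝔭, hinfp, x₀, hx₀⟩ := exists_prime_act θ ρ hcomm hfg hinf
  have hp : 𝔭.IsPrime := h𝔭.1.1
  have : IsNoetherianRing (MonoidAlgebra (ZMod p) A) := e7_noeth
  let : Module (MonoidAlgebra (ZMod p) A) B :=
    Module.compHom B (act θ : MonoidAlgebra (ZMod p) A →+* Module.End (ZMod p) B)
  have hsm : ∀ (r : MonoidAlgebra (ZMod p) A) (b : B), r • b = act θ r b := fun r b => rfl
  have : IsScalarTower (ZMod p) (MonoidAlgebra (ZMod p) A) B := ⟨fun x y z => by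
    rw [hsm, hsm, map_smul]
    rfl⟩
  let ρ' : H →* Module.End (MonoidAlgebra (ZMod p) A) B :=
    { toFun := fun h =>
        { toFun := ρ h
          map_add' := fun x y => map_add (ρ h) x y
          map_smul' := fun r b => by
            rw [RingHom.id_apply, hsm, hsm]
            exact (e7_comm θ ρ hcomm r h b).symm }
      map_one' := by
        ext b
        change ρ 1 b = b
        rw [map_one]
        rfl
      map_mul' := fun x y => by
        ext b
        change ρ (x * y) b = ρ x (ρ y b)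
        rw [map_mul]
        rfl }
  have hc' : (⊤ : Subgroup H).lowerCentralSeries c ≤ ρ'.ker := by
    intro h hh
    have h1 := hc hh
    rw [MonoidHom.mem_ker] at h1 ⊢
    ext b
    change ρ h b = b
    rw [h1]
    rfl
  have hfg' : ∃ f : Finset B, Submodule.span (ZMod p) {b : B | ∃ h : H, ∃ a ∈ f, b = ρ' h a} = ⊤ := by
    obtain ⟨f, hf⟩ := hfg
    refine ⟨f, ?_⟩
    rw [hf]
    unfold sp
    congr 1
    ext b
    constructor
    · rintro ⟨h, a, ha, hb⟩
      exact ⟨h, Subgroup.mem_top h, a, ha, hb⟩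
    · rintro ⟨h, -, a, ha, hb⟩
      exact ⟨h, a, ha, hb⟩
  obtain ⟨s, f, hs, hadd, hsmul, hone, hval⟩ := exists_functional_prime (k := ZMod p) ρ' c hc'
    hfg' 𝔭 x₀ hx₀
  let K : Type u := FractionRing (MonoidAlgebra (ZMod p) A ⧸ 𝔭)
  let g : MonoidAlgebra (ZMod p) A →ₐ[ZMod p] K :=
    (IsScalarTower.toAlgHom (ZMod p) (MonoidAlgebra (ZMod p) A ⧸ 𝔭) K).comp
      (Ideal.Quotient.mkₐ (ZMod p) 𝔭)
  have hg : ∀ r, g r = algebraMap (MonoidAlgebra (ZMod p) A ⧸ 𝔭) K (Ideal.Quotient.mk 𝔭 r) :=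
    fun r => rfl
  have hgz : ∀ r, r ∈ 𝔭 ↔ g r = 0 := by
    intro r
    rw [hg, map_eq_zero_iff _ (IsFractionRing.injective (MonoidAlgebra (ZMod p) A ⧸ 𝔭) K),
      Ideal.Quotient.eq_zero_iff_mem]
  let χ : A →* Kˣ := ((g : MonoidAlgebra (ZMod p) A →* K).comp
    (MonoidAlgebra.of (ZMod p) A)).toHomUnits
  have hχ : ∀ a, (χ a : K) = g (MonoidAlgebra.of (ZMod p) A a) := fun a => rfl
  have hchi : chiHom χ = g := by
    apply AlgHom.ext
    intro r
    induction r using MonoidAlgebra.induction_on with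
    | of a =>
      unfold chiHom
      rw [MonoidAlgebra.lift_of]
      exact hχ a
    | add x y hx hy => rw [map_add, map_add, hx, hy]
    | smul c x hx => rw [map_smul, map_smul, hx]
  have hs0 : g s ≠ 0 := fun h => hs ((hgz s).mpr h)
  have hCC : ∀ b : B, b ∈ CC θ 𝔭 ↔ ∀ j ∈ 𝔭, j • b = 0 := fun b => Iff.rfl
  refine ⟨𝔭, K, inferInstance, inferInstance, χ, Units.mk0 (g s) hs0, f, ?_⟩
  constructor
  · exact h𝔭
  · intro r
    rw [hchi]
    exact hgz r
  · rw [eq_top_iff]
    intro z _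
    obtain ⟨x, y, hy, rfl⟩ := IsFractionRing.div_surjective (MonoidAlgebra (ZMod p) A ⧸ 𝔭) z
    have hmem : ∀ w : MonoidAlgebra (ZMod p) A ⧸ 𝔭,
        algebraMap (MonoidAlgebra (ZMod p) A ⧸ 𝔭) K w ∈
          IntermediateField.adjoin (ZMod p) (Set.range fun a => (χ a : K)) := by
      intro w
      obtain ⟨r, rfl⟩ := Ideal.Quotient.mk_surjective w
      rw [← hg, ← hchi]
      exact IntermediateField.algebra_adjoin_le_adjoin (ZMod p) _ (e7_chi_mem χ r)
    exact div_mem (hmem x) (hmem y)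
  · intro b hb b' hb'
    exact hadd b b' hb hb'
  · intro a b hb
    have h1 := hsmul (MonoidAlgebra.of (ZMod p) A a) b hb
    rw [hsm, e7_act_of] at h1
    exact h1
  · intro b hb
    obtain ⟨n, a, hna⟩ := hval b hb
    have h1 : g s ^ n * f b = g a := hna
    have h2 : f b = ((((Units.mk0 (g s) hs0)⁻¹ : Kˣ) : K)) ^ n * g a := by
      rw [← h1, Units.val_inv_eq_inv_val, Units.val_mk0, ← mul_assoc, ← mul_pow,
        inv_mul_cancel₀ hs0, one_pow, one_mul]
    rw [h2]
    have h5 : g a ∈ Algebra.adjoin (ZMod p) (Set.range fun a => (χ a : K)) := by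
      rw [← hchi]
      exact e7_chi_mem χ a
    have h6 : (Set.range fun a => (χ a : K)) ⊆ (Set.range fun a => (χ a : K)) ∪
        {(((Units.mk0 (g s) hs0)⁻¹ : Kˣ) : K)} := Set.subset_union_left
    have h7 : (((Units.mk0 (g s) hs0)⁻¹ : Kˣ) : K) ∈ Algebra.adjoin (ZMod p)
        ((Set.range fun a => (χ a : K)) ∪ {(((Units.mk0 (g s) hs0)⁻¹ : Kˣ) : K)}) :=
      Algebra.subset_adjoin (Set.mem_union_right _ (Set.mem_singleton _))
    exact Subalgebra.mul_mem _ (Subalgebra.pow_mem _ h7 n) (Algebra.adjoin_mono h6 h5)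
  · obtain ⟨x, hx, hfx⟩ := hone
    exact ⟨x, hx, hfx⟩
  · by_contra hcon
    push Not at hcon
    have : Group.FG χ.range := inferInstance
    have htor : IsMulTorsion χ.range := by
      rintro ⟨_, a, rfl⟩
      obtain ⟨k, hk, hk1⟩ := hcon a
      rw [isOfFinOrder_iff_pow_eq_one]
      exact ⟨k, hk, Subtype.ext hk1⟩
    have hfin : Finite χ.range := CommGroup.finite_of_fg_isMulTorsion _ htor
    have hfin2 : (Set.range fun a => (χ a : K)).Finite := by
      have h3 : (Set.range fun a => (χ a : K)) = (fun u : χ.range => ((u : Kˣ) : K)) '' Set.univ := by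
        ext z
        constructor
        · rintro ⟨a, rfl⟩
          exact ⟨⟨χ a, ⟨a, rfl⟩⟩, trivial, rfl⟩
        · rintro ⟨⟨_, a, rfl⟩, -, rfl⟩
          exact ⟨a, rfl⟩
      rw [h3]
      exact Set.finite_univ.image _
    have : FiniteDimensional (ZMod p)
        (Submodule.span (ZMod p) (Set.range fun a => (χ a : K))) :=
      FiniteDimensional.span_of_finite (ZMod p) hfin2
    have : Finite (Submodule.span (ZMod p) (Set.range fun a => (χ a : K))) :=
      Module.finite_of_finite (ZMod p)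
    have hfin3 : Finite (MonoidAlgebra (ZMod p) A ⧸ 𝔭) := by
      have hmem : ∀ w : MonoidAlgebra (ZMod p) A ⧸ 𝔭,
          algebraMap (MonoidAlgebra (ZMod p) A ⧸ 𝔭) K w ∈
            Submodule.span (ZMod p) (Set.range fun a => (χ a : K)) := by
        intro w
        obtain ⟨r, rfl⟩ := Ideal.Quotient.mk_surjective w
        rw [← hg, ← hchi]
        exact e7_chi_mem_span χ r
      refine Finite.of_injective (fun w => (⟨_, hmem w⟩ :
        Submodule.span (ZMod p) (Set.range fun a => (χ a : K)))) ?_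
      intro w w' hw
      exact IsFractionRing.injective (MonoidAlgebra (ZMod p) A ⧸ 𝔭) K (congrArg Subtype.val hw)
    exact not_finite_iff_infinite.mpr hinfp hfin3

end AM
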