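import Pool.Agent.AM.E1
import Pool.Agent.AM.E7

/-!
# [AM-E9] values on the elements `aa g x c n`
-/

set_option autoImplicit false

universe u

namespace AM

theorem aa_map {G : Type*} [Group G] (φ : MulAut G) (g x : G) (c : ℕ → ℕ) (n : ℕ) :
    φ (aa g x c n) = aa (φ g) (φ x) c n := by
  induction n with
  | zero => exact map_one φ
  | succ n ih =>
    change φ (aa g x c n * (g ^ n * x ^ c n * (g ^ n)⁻¹)) =
      aa (φ g) (φ x) c n * (φ g ^ n * φ x ^ c n * (φ g ^ n)⁻¹)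
    rw [map_mul, ih, map_mul, map_mul, map_inv, map_pow, map_pow]

theorem aa_mem {G : Type*} [Group G] {D : Subgroup G} [D.Normal] {x : G} (hx : x ∈ D) (g : G)
    (c : ℕ → ℕ) (n : ℕ) : aa g x c n ∈ D := by
  induction n with
  | zero => exact D.one_mem
  | succ n ih =>
    change aa g x c n * (g ^ n * x ^ c n * (g ^ n)⁻¹) ∈ D
    exact D.mul_mem ih (Subgroup.Normal.conj_mem inferInstance _ (D.pow_mem hx _) _)

/-- PROOF. Induction on `n`, `Sec.add`, `Sec.conj`, `Sec.pow`, `map_pow`. -/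
theorem Sec.aa {G : Type*} [Group G] {D D₁ : Subgroup G} [D.Normal] {R : Type*} [CommRing R]
    {B : Type*} [AddCommGroup B] [Module R B] {π : G → B} {ρ : G →* Module.End R B}
    (S : Sec D D₁ R B π ρ) {x : G} (hx : x ∈ D) (g : G) (c : ℕ → ℕ) (n : ℕ) :
    π (aa g x c n) = ∑ i ∈ Finset.range n, c i • (ρ g ^ i) (π x) := by
  induction n with
  | zero =>
    rw [Finset.sum_range_zero]
    exact S.one
  | succ n ih =>
    rw [Finset.sum_range_succ, ← ih]
    change π (AM.aa g x c n * (g ^ n * x ^ c n * (g ^ n)⁻¹)) = _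
    have h1 : g ^ n * x ^ c n * (g ^ n)⁻¹ ∈ D :=
      Subgroup.Normal.conj_mem inferInstance _ (D.pow_mem hx _) _
    rw [S.add _ (aa_mem hx g c n) _ h1, S.conj _ _ (D.pow_mem hx _), S.pow hx, map_pow, map_nsmul]

section

variable {p : ℕ} [Fact p.Prime] {A : Type u} [CommGroup A] {B : Type u} [AddCommGroup B]
    [Module (ZMod p) B] {θ : A →* Module.End (ZMod p) B} {𝔭 : Ideal (MonoidAlgebra (ZMod p) A)}

theorem e9_act_of (a : A) : act θ (MonoidAlgebra.of (ZMod p) A a) = θ a := by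
  unfold act
  exact MonoidAlgebra.lift_of _ _

theorem e9_act_single (a : A) (r : ZMod p) : act θ (MonoidAlgebra.single a r) = r • θ a := by
  unfold act
  exact MonoidAlgebra.lift_single _ _ _

theorem e9_comm (r : MonoidAlgebra (ZMod p) A) (a : A) (b : B) :
    act θ r (θ a b) = θ a (act θ r b) := by
  have h1 : act θ r * θ a = θ a * act θ r := by
    rw [← e9_act_of (θ := θ) a, ← map_mul, ← map_mul, mul_comm]
  have h2 := congrArg (fun X : Module.End (ZMod p) B => X b) h1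
  exact h2

theorem e9_CC_theta (a : A) {b : B} (hb : b ∈ CC θ 𝔭) : θ a b ∈ CC θ 𝔭 := by
  intro r hr
  rw [e9_comm, hb r hr, map_zero]

theorem e9_CC_pow (a : A) {b : B} (hb : b ∈ CC θ 𝔭) (i : ℕ) : (θ a ^ i) b ∈ CC θ 𝔭 := by
  induction i with
  | zero => exact hb
  | succ i ih =>
    rw [pow_succ']
    exact e9_CC_theta a ih

theorem e9_CC_zero : (0 : B) ∈ CC θ 𝔭 := fun r _ => map_zero _

theorem e9_CC_add {b b' : B} (hb : b ∈ CC θ 𝔭) (hb' : b' ∈ CC θ 𝔭) : b + b' ∈ CC θ 𝔭 := by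
  intro r hr
  rw [map_add, hb r hr, hb' r hr, add_zero]

theorem e9_CC_nsmul {b : B} (hb : b ∈ CC θ 𝔭) (n : ℕ) : n • b ∈ CC θ 𝔭 := by
  intro r hr
  rw [map_nsmul, hb r hr, smul_zero]

variable {K : Type u} [Field K] [Algebra (ZMod p) K] {χ : A →* Kˣ} {s : Kˣ} {f : B → K}

theorem e9_f_zero (F : Fun θ 𝔭 χ s f) : f 0 = 0 := by
  have h := F.add 0 e9_CC_zero 0 e9_CC_zero
  rw [add_zero] at h
  exact left_eq_add.1 h

theorem e9_f_nsmul (F : Fun θ 𝔭 χ s f) {b : B} (hb : b ∈ CC θ 𝔭) (n : ℕ) :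
    f (n • b) = (n : K) * f b := by
  induction n with
  | zero => rw [zero_smul, e9_f_zero F, Nat.cast_zero, zero_mul]
  | succ n ih =>
    rw [succ_nsmul, F.add _ (e9_CC_nsmul hb n) _ hb, ih, Nat.cast_succ, add_mul, one_mul]

theorem e9_f_pow (F : Fun θ 𝔭 χ s f) (a : A) {b : B} (hb : b ∈ CC θ 𝔭) (i : ℕ) :
    f ((θ a ^ i) b) = (χ a : K) ^ i * f b := by
  induction i with
  | zero =>
    rw [pow_zero, pow_zero, one_mul]
    rfl
  | succ i ih =>
    have h1 : (θ a ^ (i + 1)) b = θ a ((θ a ^ i) b) := by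
      rw [pow_succ']
      rfl
    rw [h1, F.smul _ _ (e9_CC_pow a hb i), ih, pow_succ']
    ring

end

/-- PROOF. `CC θ 𝔭` is closed under addition and under the `θ a` (`act θ r (θ a b) = act θ (r * of a) b = θ a (act θ r b)`, commutative); `f` is additive on it, so `f (n • b) = n • f b`; `f (θ a ^ i b) = χ a ^ i * f b`. -/
theorem Fun.sum {p : ℕ} [Fact p.Prime] {A : Type u} [CommGroup A] {B : Type u} [AddCommGroup B]
    [Module (ZMod p) B] {θ : A →* Module.End (ZMod p) B} {𝔭 : Ideal (MonoidAlgebra (ZMod p) A)}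
    {K : Type u} [Field K] [Algebra (ZMod p) K] {χ : A →* Kˣ} {s : Kˣ} {f : B → K}
    (F : Fun θ 𝔭 χ s f) (a : A) {b : B} (hb : b ∈ CC θ 𝔭) (c : ℕ → ℕ) (n : ℕ) :
    f (∑ i ∈ Finset.range n, c i • (θ a ^ i) b) =
      (∑ i ∈ Finset.range n, (c i : K) * (χ a : K) ^ i) * f b := by
  have hm : ∀ n : ℕ, ∑ i ∈ Finset.range n, c i • (θ a ^ i) b ∈ CC θ 𝔭 := by
    intro n
    induction n with
    | zero =>
      rw [Finset.sum_range_zero]
      exact e9_CC_zero
    | succ n ih =>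
      rw [Finset.sum_range_succ]
      exact e9_CC_add ih (e9_CC_nsmul (e9_CC_pow a hb n) _)
  induction n with
  | zero => rw [Finset.sum_range_zero, Finset.sum_range_zero, e9_f_zero F, zero_mul]
  | succ n ih =>
    rw [Finset.sum_range_succ, Finset.sum_range_succ,
      F.add _ (hm n) _ (e9_CC_nsmul (e9_CC_pow a hb n) _), ih,
      e9_f_nsmul F (e9_CC_pow a hb n), e9_f_pow F a hb, add_mul, mul_assoc]

/-- PROOF. Compare `chiHom χ` on `of a` and on `of (τ a)`: the hypothesis says that `MonoidAlgebra.domCongr (ZMod p) (ZMod p) τ` maps `𝔭` into itself and back. If `χ (τ a) ^ k = 1` then `of (τ a ^ k) - 1 ∈ 𝔭`, this is the image of `of (a ^ k) - 1`, so `of (a ^ k) - 1 ∈ 𝔭`, `χ a ^ k = 1`. -/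
theorem Fun.inf_map {p : ℕ} [Fact p.Prime] {A : Type u} [CommGroup A] {B : Type u} [AddCommGroup B]
    [Module (ZMod p) B] {θ : A →* Module.End (ZMod p) B} {𝔭 : Ideal (MonoidAlgebra (ZMod p) A)}
    {K : Type u} [Field K] [Algebra (ZMod p) K] {χ : A →* Kˣ} {s : Kˣ} {f : B → K}
    (F : Fun θ 𝔭 χ s f) (τ : MulAut A)
    (hτ : ∀ r, r ∈ 𝔭 ↔ MonoidAlgebra.domCongr (ZMod p) (ZMod p) τ r ∈ 𝔭) {a : A}
    (ha : ∀ k : ℕ, 0 < k → χ a ^ k ≠ 1) : ∀ k : ℕ, 0 < k → χ (τ a) ^ k ≠ 1 := by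
  intro k hk h
  have hof : ∀ b : A, chiHom χ (MonoidAlgebra.of (ZMod p) A b - 1) = (χ b : K) - 1 := by
    intro b
    rw [map_sub, map_one]
    unfold chiHom
    rw [MonoidAlgebra.lift_of]
    rfl
  have h1 : MonoidAlgebra.of (ZMod p) A (τ a ^ k) - 1 ∈ 𝔭 := by
    rw [F.ker, hof, map_pow, h, Units.val_one, sub_self]
  have h2 : MonoidAlgebra.domCongr (ZMod p) (ZMod p) τ (MonoidAlgebra.of (ZMod p) A (a ^ k) - 1) =
      MonoidAlgebra.of (ZMod p) A (τ a ^ k) - 1 := by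
    rw [map_sub, map_one, ← map_pow τ a k]
    congr 1
    exact MonoidAlgebra.domCongr_single _ _ _
  rw [← h2, ← hτ, F.ker, hof, sub_eq_zero] at h1
  apply ha k hk
  rw [← map_pow]
  exact Units.ext h1

theorem e9_Phi {p : ℕ} [Fact p.Prime] {A : Type u} [CommGroup A] {B : Type u} [AddCommGroup B]
    [Module (ZMod p) B] {θ : A →* Module.End (ZMod p) B} (τ : MulAut A) (Φ : B ≃+ B)
    (hΦ : ∀ (a : A) (b : B), Φ (θ a b) = θ (τ a) (Φ b)) (r : MonoidAlgebra (ZMod p) A) (b : B) :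
    Φ (act θ r b) = act θ (MonoidAlgebra.domCongr (ZMod p) (ZMod p) τ r) (Φ b) := by
  induction r using MonoidAlgebra.induction_on with
  | of a =>
    have h1 : MonoidAlgebra.domCongr (ZMod p) (ZMod p) τ (MonoidAlgebra.of (ZMod p) A a) =
        MonoidAlgebra.of (ZMod p) A (τ a) := MonoidAlgebra.domCongr_single _ _ _
    rw [h1, e9_act_of, e9_act_of]
    exact hΦ a b
  | add x y hx hy =>
    rw [map_add, map_add, map_add, LinearMap.add_apply, LinearMap.add_apply, map_add, hx, hy]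
  | smul c x hx =>
    rw [map_smul, map_smul, map_smul, LinearMap.smul_apply, LinearMap.smul_apply, ← hx]
    exact ZMod.map_smul Φ c _

/-- PROOF. `Φ (act θ r b) = act θ (domCongr τ r) (Φ b)` for all `r` (linearity, `MonoidAlgebra.induction_on`; `Φ` is additive, so `ZMod p`-linear). If `r ∈ 𝔭`, `r = domCongr τ r'` with `r' ∈ 𝔭`, so `act θ r (Φ b) = Φ (act θ r' b) = 0`. -/
theorem CC_map {p : ℕ} [Fact p.Prime] {A : Type u} [CommGroup A] {B : Type u} [AddCommGroup B]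
    [Module (ZMod p) B] {θ : A →* Module.End (ZMod p) B} {𝔭 : Ideal (MonoidAlgebra (ZMod p) A)}
    (τ : MulAut A) (hτ : ∀ r, r ∈ 𝔭 ↔ MonoidAlgebra.domCongr (ZMod p) (ZMod p) τ r ∈ 𝔭)
    (Φ : B ≃+ B) (hΦ : ∀ (a : A) (b : B), Φ (θ a b) = θ (τ a) (Φ b)) {b : B}
    (hb : b ∈ CC θ 𝔭) : Φ b ∈ CC θ 𝔭 := by
  intro r hr
  obtain ⟨r', rfl⟩ := (MonoidAlgebra.domCongr (ZMod p) (ZMod p) τ).surjective r
  rw [← e9_Phi τ Φ hΦ, hb r' ((hτ r').2 hr), map_zero]

/-- PROOF. `φ ↦ Φ` shows that `act θ (domCongr τ r) = 0` iff `act θ r = 0` (`Φ (act θ r b) = act θ (domCongr τ r) (Φ b)`, `Φ` bijective). -/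
theorem ker_map {p : ℕ} [Fact p.Prime] {A : Type u} [CommGroup A] {B : Type u} [AddCommGroup B]
    [Module (ZMod p) B] {θ : A →* Module.End (ZMod p) B} (τ : MulAut A) (Φ : B ≃+ B)
    (hΦ : ∀ (a : A) (b : B), Φ (θ a b) = θ (τ a) (Φ b)) (r : MonoidAlgebra (ZMod p) A) :
    r ∈ RingHom.ker (act θ) ↔
      MonoidAlgebra.domCongr (ZMod p) (ZMod p) τ r ∈ RingHom.ker (act θ) := by
  rw [RingHom.mem_ker, RingHom.mem_ker]
  constructor
  · intro h
    refine LinearMap.ext fun b => ?_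
    obtain ⟨b', rfl⟩ := Φ.surjective b
    rw [← e9_Phi τ Φ hΦ, h, LinearMap.zero_apply, LinearMap.zero_apply, map_zero]
  · intro h
    refine LinearMap.ext fun b => ?_
    apply Φ.injective
    rw [e9_Phi τ Φ hΦ, h, LinearMap.zero_apply, LinearMap.zero_apply, map_zero]

end AM
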