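import Pool.Agent.AM.E0
import Pool.Agent.AM.E4
import Pool.Agent.AM.E8
import Pool.Agent.AM.E9

/-!
# [AM-E10] the existence theorem in characteristic `p`
-/

set_option autoImplicit false

universe u

namespace AM

/-- An element central modulo `D` commutes with `h` up to an element of `D`. -/
theorem e10_comm {G : Type u} [Group G] {H D : Subgroup G} [H.Normal] [D.Normal] {M : Type*}
    [Monoid M] (ρ : G →* M) (hρ : ∀ z ∈ D, ρ z = 1) {z h : G} (hz : z ∈ zz H D) (hh : h ∈ H) :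
    ρ z * ρ h = ρ h * ρ z := by
  have h1 : z * h * z⁻¹ * h⁻¹ ∈ D := hz.2 h hh
  have h2 : z * h = (z * h * z⁻¹ * h⁻¹) * (h * z) := by group
  rw [← map_mul, h2, map_mul, hρ _ h1, one_mul, map_mul]

theorem e10_zz_char {G : Type u} [Group G] {H D : Subgroup G} [H.Characteristic]
    [D.Characteristic] (φ : MulAut G) {z : G} (hz : z ∈ zz H D) : φ z ∈ zz H D := by
  have := AG.cent_char H D
  exact ⟨(AG.c1_char φ).2 hz.1, (AG.c1_char φ).2 hz.2⟩

/-- the range of `θ` is infinite -/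
theorem e10_infinite {G : Type u} [Group G] {H D C : Subgroup G} [H.Normal] [D.Normal]
    {M : Type*} [Monoid M] (ρ : G →* M) {A : Type u} [CommGroup A] (α : G → A) (θ : A →* M)
    (hθ : ∀ z ∈ zz H D, θ (α z) = ρ z) (hC : ∀ z, ρ z = 1 ↔ z ∈ C)
    (hrel : C.relIndex (zz H D) = 0) : (Set.range θ).Infinite := by
  set Z := zz H D with hZ
  set F : Z →* Mˣ := (ρ.comp Z.subtype).toHomUnits with hF
  have hFz : ∀ z : Z, ((F z : Mˣ) : M) = ρ (z : G) := fun z => rfl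
  have hker : F.ker = C.subgroupOf Z := by
    ext z
    rw [MonoidHom.mem_ker, Subgroup.mem_subgroupOf, ← hC, ← hFz]
    constructor
    · intro h
      rw [h, Units.val_one]
    · intro h
      exact Units.ext h
  have h1 : Nat.card F.range = 0 := by
    rw [← Subgroup.index_ker, hker]
    exact hrel
  have h2 : Infinite F.range := by
    rcases Nat.card_eq_zero.1 h1 with h | h
    · exact absurd h (not_isEmpty_of_nonempty _)
    · exact h
  have h3 : (F.range : Set Mˣ).Infinite := Set.infinite_coe_iff.1 h2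
  have h4 : ((fun u : Mˣ => (u : M)) '' (F.range : Set Mˣ)).Infinite :=
    h3.image (Units.val_injective.injOn)
  refine h4.mono ?_
  rintro _ ⟨_, ⟨z, rfl⟩, rfl⟩
  exact ⟨α z, by rw [hθ _ z.2]; rfl⟩

/-- the automorphism of the group algebra -/
noncomputable def e10_tau {G A : Type u} [Group G] [CommGroup A] (p : ℕ)
    (τ : MulAut G →* MulAut A) : MulAut G →* RingAut (MonoidAlgebra (ZMod p) A) where
  toFun φ := (MonoidAlgebra.domCongr (ZMod p) (ZMod p) (τ φ)).toRingEquiv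
  map_one' := by
    rw [map_one, MulAut.one_def, MonoidAlgebra.domCongr_refl]
    rfl
  map_mul' φ ψ := by
    rw [map_mul, MulAut.mul_def, ← MonoidAlgebra.trans_domCongr_domCongr]
    rfl

/-- PROOF. `exists_max_pair`: `E`, `E₁`; write `D, D₁` for them. `exists_sec`: `B`, `π`, `ρ`, `S : Sec D D₁ (ZMod p) B π ρ`. `exists_A`: `A`, `α`, `τ`; `exists_theta` (`Sec.rho_of_mem`): `θ`. `exists_fun` for `θ` and the action `ρ.comp H.subtype` of `H`: `Sec.lcs_le_ker`, `Sec.fg`; `θ` commutes with `ρ h`, `h ∈ H`: for `z ∈ zz H D`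
`z h = d h z`, `d ∈ D` acts trivially. `range θ` is infinite: `z ↦ θ (α z) = ρ z` on `zz H D` is a homomorphism with image `range θ` and kernel the elements of `AG.cent D D₁` (`Sec.rho_eq_one`), of infinite index by `act_infinite`. So there is `F : Fun θ 𝔭 χ s f`.
For `φ : MulAut G` let `Φ` be from `Sec.aut`: `Φ (θ a b) = θ (τ φ a) (Φ b)` (`a = α z`, `z ∈ zz H D`, `φ z ∈ zz H D`: characteristic). `exists_stabilizer` for `M = MulAut G`, `R = MonoidAlgebra (ZMod p) A` (noetherian), `φ ↦ domCongr (τ φ)`, `I = ker (act θ)` (`ker_map`): `𝔸`.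
`Γ = closure (range χ ∪ {s})` (`A` is finitely generated), `a` from `F.inf`, `g ∈ zz H D` with `α g = a`, `t = χ a`; `x ∈ D` with `π x = b` from `F.one`; the function `f ∘ π`. `val`: `Sec.aa`, `Fun.sum` (`ρ g = θ a`). `aut`: `aa_map`, `φ g ∈ zz H D`, `ρ (φ g) = θ (τ φ a)`, `φ x ∈ D`, `π (φ x) = Φ b ∈ CC θ 𝔭` (`CC_map`),
`T = χ (τ φ a)` (`Fun.inf_map`), `y = f (Φ b)` (`F.val`; `Algebra.adjoin_mono`). -/
theorem exists_coreP {G : Type u} [Group G] (p : ℕ) [Fact p.Prime] (H : Subgroup G)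
    (hH : H.FG) [H.Characteristic] (D D₁ : Subgroup G) (hD : D.Characteristic)
    (hD₁ : D₁.Characteristic) (c : ℕ) (hc : H.lowerCentralSeries c ≤ D) (h : Pair p H D D₁) :
    ∃ (K : Type u) (_ : Field K) (_ : Algebra (ZMod p) K) (Γ : Subgroup Kˣ) (t : Kˣ) (g x : G)
      (f : G → K) (𝔸 : Subgroup (MulAut G)), CoreP p Γ t g x f 𝔸 := by
  have hp0 : p ≠ 0 := (Fact.out : p.Prime).ne_zero
  obtain ⟨E, E₁, hE, hE₁, hcE, hP, hmax⟩ := exists_max_pair p H hH c D D₁ hD hD₁ hc h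
  have := hE
  have := hE₁
  obtain ⟨B, iB, iM, π, ρ, S⟩ := exists_sec E E₁ hP.le hP.comm p hP.pow
  obtain ⟨A, iA, α, τ, hA, hmul, hsurj, hker, hτ⟩ := exists_A H hH E c hcE hP.leH
  have := hA
  have hρE : ∀ z ∈ E, ρ z = 1 := fun z hz => S.rho_of_mem hP.comm hz
  obtain ⟨θ, hθ⟩ := exists_theta H E α hmul hsurj hker ρ hρE
  have hinf : (Set.range θ).Infinite :=
    e10_infinite ρ α θ hθ (fun z => S.rho_eq_one z) (act_infinite hp0 H hH E E₁ c hcE hP hmax)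
  have : Group.FG H := (Group.fg_iff_subgroup_fg H).2 hH
  obtain ⟨𝔭, K, iK, iAK, χ, s, f, F⟩ := exists_fun θ (ρ.comp H.subtype) c
    (S.lcs_le_ker hP.comm H c hcE) (by
      intro a h
      obtain ⟨z, hz, rfl⟩ := hsurj a
      rw [hθ z hz]
      exact e10_comm ρ hρE hz h.2) (S.fg H hH hP.leH c hcE) hinf
  -- the automorphisms
  have hΦ : ∀ φ : MulAut G, ∃ Φ : B ≃+ B, (∀ x ∈ E, π (φ x) = Φ (π x)) ∧
      ∀ (a : A) (b : B), Φ (θ a b) = θ (τ φ a) (Φ b) := by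
    intro φ
    obtain ⟨Φ, h1, h2⟩ := S.aut φ
    refine ⟨Φ, h1, fun a b => ?_⟩
    obtain ⟨z, hz, rfl⟩ := hsurj a
    rw [hθ z hz, h2, ← hτ φ z hz, hθ (φ z) (e10_zz_char φ hz)]
  have : Monoid.FG A := inferInstance
  have : IsNoetherianRing (MonoidAlgebra (ZMod p) A) :=
    Algebra.FiniteType.isNoetherianRing (ZMod p) _
  obtain ⟨𝔸, h𝔸, hst⟩ := exists_stabilizer (e10_tau p τ) (RingHom.ker (act θ)) (by
    intro φ r
    obtain ⟨Φ, -, h2⟩ := hΦ φ
    exact ker_map (τ φ) Φ h2 r) 𝔭 F.min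
  have hst' : ∀ φ ∈ 𝔸, ∀ r, r ∈ 𝔭 ↔ MonoidAlgebra.domCongr (ZMod p) (ZMod p) (τ φ) r ∈ 𝔭 := hst
  obtain ⟨a, ha⟩ := F.inf
  obtain ⟨g, hg, hga⟩ := hsurj a
  obtain ⟨b, hb, hfb⟩ := F.one
  obtain ⟨x, hx, hxb⟩ := S.surj b
  have hχΓ : ∀ a : A, χ a ∈ Subgroup.closure (Set.range χ ∪ {s}) := fun a =>
    Subgroup.subset_closure (Or.inl ⟨a, rfl⟩)
  have hsΓ : s ∈ Subgroup.closure (Set.range χ ∪ {s}) := Subgroup.subset_closure (Or.inr rfl)
  refine ⟨K, iK, iAK, Subgroup.closure (Set.range χ ∪ {s}), χ a, g, x, fun y => f (π y), 𝔸, ?_⟩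
  refine { fg := ?_, gen := ?_, ht := hχΓ a, tinf := ha, fin := h𝔸, val := ?_, aut := ?_ }
  · obtain ⟨T, hT, hTf⟩ := Group.fg_iff.1 hA
    refine (Subgroup.fg_iff _).2 ⟨χ '' T ∪ {s}, ?_, (hTf.image _).union (Set.finite_singleton s)⟩
    rw [Subgroup.closure_union, Subgroup.closure_union, ← MonoidHom.map_closure, hT,
      ← MonoidHom.range_eq_map, ← MonoidHom.coe_range, Subgroup.closure_eq]
  · rw [eq_top_iff, ← F.gen]
    refine IntermediateField.adjoin.mono _ _ _ ?_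
    rintro _ ⟨a, rfl⟩
    exact ⟨χ a, hχΓ a, rfl⟩
  · intro c' n
    show f (π (aa g x c' n)) = _
    have h1 : ρ g = θ a := by rw [← hθ g hg, hga]
    rw [S.aa hx, h1, hxb, F.sum a hb, hfb, mul_one]
  · intro φ hφ
    obtain ⟨Φ, h1, h2⟩ := hΦ φ
    refine ⟨χ (τ φ a), hχΓ _, F.inf_map (τ φ) (hst' φ hφ) ha, f (Φ b), ?_, ?_⟩
    · have hb' : Φ b ∈ CC θ 𝔭 := CC_map (τ φ) (hst' φ hφ) Φ h2 hb
      refine Algebra.adjoin_mono ?_ (F.val _ hb')
      rintro _ (⟨a, rfl⟩ | h)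
      · exact ⟨χ a, hχΓ a, rfl⟩
      · rw [Set.mem_singleton_iff] at h
        rw [h]
        exact ⟨s⁻¹, inv_mem hsΓ, rfl⟩
    · intro c' n
      show f (π (φ (aa g x c' n))) = _
      have h3 : ρ (φ g) = θ (τ φ a) := by
        rw [← hθ (φ g) (e10_zz_char φ hg), hτ φ g hg, hga]
      have hb' : Φ b ∈ CC θ 𝔭 := CC_map (τ φ) (hst' φ hφ) Φ h2 hb
      rw [aa_map, S.aa ((AG.c1_char φ).2 hx), h3, h1 x hx, hxb, F.sum (τ φ a) hb']

end AM
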