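import Pool.Agent.AM.Defs
import Pool.Agent.AG.G7
import Pool.Agent.AG.V3

/-!
# [AM-E2] maximal pairs; centers of infinite finitely generated nilpotent groups
-/

set_option autoImplicit false

namespace AM

theorem e2_pow_mem_center {N : Type*} [Group N] (x : N)
    (hx : (QuotientGroup.mk' (Subgroup.center N) x) ∈
      Subgroup.center (N ⧸ Subgroup.center N))
    (e : ℕ) (he : ∀ z ∈ Subgroup.center N, z ^ e = 1) : x ^ e ∈ Subgroup.center N := by
  rw [Subgroup.mem_center_iff]
  intro y
  -- the commutator is central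
  have hc : y * x * y⁻¹ * x⁻¹ ∈ Subgroup.center N := by
    rw [Subgroup.mem_center_iff] at hx
    have h1 := hx (QuotientGroup.mk' (Subgroup.center N) y)
    have h2 : QuotientGroup.mk' (Subgroup.center N) (y * x * y⁻¹ * x⁻¹) = 1 := by
      rw [map_mul, map_mul, map_mul, h1, map_inv, map_inv]
      group
    have h3 := (QuotientGroup.eq_one_iff (N := Subgroup.center N) (y * x * y⁻¹ * x⁻¹)).1 h2
    exact h3
  set z := y * x * y⁻¹ * x⁻¹ with hz
  have h4 : y * x * y⁻¹ = z * x := by rw [hz]; group
  have h5 : Commute z x := by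
    have := (Subgroup.mem_center_iff.1 hc) x
    exact this.symm
  have h6 : y * x ^ e * y⁻¹ = x ^ e := by
    rw [← conj_pow, h4, h5.mul_pow, he z hc, one_mul]
  calc y * x ^ e = (y * x ^ e * y⁻¹) * y := by group
    _ = x ^ e * y := by rw [h6]

/-- PROOF. Induction `Group.nilpotent_center_quotient_ind` (or on the nilpotency class) for the statement: if `N` is finitely generated and its center is finite then `N` is finite. Let `e` be the order of the center `Z`. For `x` with image in the center of `N ⧸ Z` and `y ∈ N` the commutator `⁅x, y⁆` is in `Z`, so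
`⁅x ^ e, y⁆ = ⁅x, y⁆ ^ e = 1` and `x ^ e ∈ Z`: the center of `N ⧸ Z` has exponent dividing `e`. It is finitely generated (`AG.fg_of_nilpotent`) and abelian, hence finite. By induction `N ⧸ Z` is finite, so `N` is finite. -/
theorem finite_of_finite_center {N : Type*} [Group N] [Group.FG N] [Group.IsNilpotent N]
    (h : Finite (Subgroup.center N)) : Finite N := by
  have hfgN : Group.FG N := inferInstance
  revert hfgN h
  refine Group.nilpotent_center_quotient_ind
    (P := fun M _ _ => Finite (Subgroup.center M) → Group.FG M → Finite M) N ?_ ?_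
  · intro M _ _ _ _
    infer_instance
  · intro M _ _ ih hfin hfg
    have hfgq : Group.FG (M ⧸ Subgroup.center M) := QuotientGroup.fg (Subgroup.center M)
    have hfinq : Finite (Subgroup.center (M ⧸ Subgroup.center M)) := by
      have hfgc : Group.FG (Subgroup.center (M ⧸ Subgroup.center M)) :=
        (Group.fg_iff_subgroup_fg _).2 (AG.fg_of_nilpotent _)
      let hcg : CommGroup (Subgroup.center (M ⧸ Subgroup.center M)) :=
        { (inferInstance : Group (Subgroup.center (M ⧸ Subgroup.center M))) with
          mul_comm := fun a b => by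
            apply Subtype.ext
            rw [Subgroup.coe_mul, Subgroup.coe_mul]
            exact (Subgroup.mem_center_iff.1 b.2) a.1 }
      refine @CommGroup.finite_of_fg_isMulTorsion
          (Subgroup.center (M ⧸ Subgroup.center M)) hcg hfgc ?_
      intro z
      rw [isOfFinOrder_iff_pow_eq_one]
      refine ⟨Nat.card (Subgroup.center M), Nat.card_pos, ?_⟩
      obtain ⟨z, hz⟩ := z
      obtain ⟨x, rfl⟩ := QuotientGroup.mk'_surjective (Subgroup.center M) z
      apply Subtype.ext
      rw [Subgroup.coe_pow, Subgroup.coe_one]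
      have h1 : x ^ Nat.card (Subgroup.center M) ∈ Subgroup.center M := by
        apply e2_pow_mem_center x hz
        intro w hw
        have h0 : (⟨w, hw⟩ : Subgroup.center M) ^ Nat.card (Subgroup.center M) = 1 :=
          pow_card_eq_one'
        have h2 := congrArg Subtype.val h0
        rw [Subgroup.coe_pow, Subgroup.coe_one] at h2
        exact h2
      change (QuotientGroup.mk' (Subgroup.center M) x) ^ _ = 1
      rw [← map_pow]
      exact (QuotientGroup.eq_one_iff (N := Subgroup.center M) _).2 h1
    have hq : Finite (M ⧸ Subgroup.center M) := ih hfinq hfgq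
    exact Finite.of_subgroup_quotient (Subgroup.center M)

/-- Ascending chain condition above a term of the lower central series. PROOF. `N = H ⧸ L`, `L = (H.lowerCentralSeries c).subgroupOf H`, is a finitely generated nilpotent group, its subgroups satisfy the ascending chain condition (`AG.fg_of_nilpotent`, `AG.v3_wf`); subgroups `E` of `G` with
`H.lowerCentralSeries c ≤ E ≤ H` embed into them (`E ↦ (E.subgroupOf H).map (QuotientGroup.mk' L)`, strictly monotone). So every nonempty family of such `E` has a maximal element. -/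
theorem exists_max {G : Type*} [Group G] (H : Subgroup G) (hH : H.FG) (c : ℕ)
    [H.Normal] (Q : Subgroup G → Prop) (hQ : ∀ E, Q E → H.lowerCentralSeries c ≤ E ∧ E ≤ H)
    (D : Subgroup G) (hD : Q D) : ∃ E, Q E ∧ ∀ E', Q E' → E ≤ E' → E' = E := by
  classical
  -- lower central series of `H`
  have hmap : ((⊤ : Subgroup H).lowerCentralSeries c).map H.subtype = H.lowerCentralSeries c :=
    Subgroup.top_subtype_lowerCentralSeries H c
  set L : Subgroup H := (⊤ : Subgroup H).lowerCentralSeries c with hL
  have hLn : L.Normal := by rw [hL]; infer_instance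
  have hfg : Group.FG H := (Group.fg_iff_subgroup_fg H).2 hH
  have hfgq : Group.FG (H ⧸ L) := QuotientGroup.fg L
  have hnil : Group.IsNilpotent (H ⧸ L) := by
    rw [Subgroup.nilpotent_iff_lowerCentralSeries]
    refine ⟨c, ?_⟩
    have h1 := Subgroup.map_lowerCentralSeries (⊤ : Subgroup H) (QuotientGroup.mk' L) c
    rw [Subgroup.map_top_of_surjective _ (QuotientGroup.mk'_surjective L)] at h1
    rw [← h1]
    rw [← hL]
    exact QuotientGroup.map_mk'_self L
  have hwf : WellFoundedGT (Subgroup (H ⧸ L)) := AG.v3_wf (fun K => AG.fg_of_nilpotent K)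
  obtain ⟨F, ⟨E, hE, rfl⟩, hmax⟩ := hwf.wf.has_min
    {F : Subgroup (H ⧸ L) | ∃ E, Q E ∧ F = (E.subgroupOf H).map (QuotientGroup.mk' L)}
    ⟨_, D, hD, rfl⟩
  refine ⟨E, hE, ?_⟩
  intro E' hE' hEE'
  have h2 := hmax _ ⟨E', hE', rfl⟩
  have hback : ∀ K : Subgroup G, Q K →
      ((K.subgroupOf H).map (QuotientGroup.mk' L)).comap (QuotientGroup.mk' L) =
        K.subgroupOf H := by
    intro K hK
    rw [Subgroup.comap_map_eq, QuotientGroup.ker_mk', sup_eq_left]
    intro x hx
    rw [Subgroup.mem_subgroupOf]
    apply (hQ K hK).1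
    rw [← hmap]
    exact ⟨x, hx, rfl⟩
  by_contra hne
  apply h2
  have hle : (E.subgroupOf H).map (QuotientGroup.mk' L) ≤
      (E'.subgroupOf H).map (QuotientGroup.mk' L) :=
    Subgroup.map_mono (Subgroup.comap_mono hEE')
  refine lt_of_le_of_ne hle ?_
  intro heq
  apply hne
  have h3 := congrArg (Subgroup.comap (QuotientGroup.mk' L)) heq
  rw [hback E hE, hback E' hE'] at h3
  have h4 := congrArg (Subgroup.map H.subtype) h3
  rw [Subgroup.subgroupOf_map_subtype, Subgroup.subgroupOf_map_subtype,
    inf_eq_left.2 (hQ E hE).2, inf_eq_left.2 (hQ E' hE').2] at h4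
  exact h4.symm

/-- PROOF. `exists_max` for `Q E` := `E` characteristic, `H.lowerCentralSeries c ≤ E`, and there is a characteristic `E₁` with `Pair p H E E₁`. -/
theorem exists_max_pair {G : Type*} [Group G] (p : ℕ) (H : Subgroup G) (hH : H.FG) [H.Characteristic]
    (c : ℕ) (D D₁ : Subgroup G) (hD : D.Characteristic) (hD₁ : D₁.Characteristic)
    (hc : H.lowerCentralSeries c ≤ D) (h : Pair p H D D₁) :
    ∃ E E₁ : Subgroup G, E.Characteristic ∧ E₁.Characteristic ∧ H.lowerCentralSeries c ≤ E ∧
      Pair p H E E₁ ∧ ∀ E' E₁' : Subgroup G, E'.Characteristic → E₁'.Characteristic → E ≤ E' →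
        Pair p H E' E₁' → E' = E := by
  obtain ⟨E, ⟨hE, hcE, E₁, hE₁, hP⟩, hmax⟩ := exists_max H hH c
    (fun E => E.Characteristic ∧ H.lowerCentralSeries c ≤ E ∧ ∃ E₁ : Subgroup G,
      E₁.Characteristic ∧ Pair p H E E₁)
    (fun E hE => ⟨hE.2.1, by obtain ⟨_, _, E₁, _, hP⟩ := hE; exact hP.leH⟩)
    D ⟨hD, hc, D₁, hD₁, h⟩
  refine ⟨E, E₁, hE, hE₁, hcE, hP, ?_⟩
  intro E' E₁' hE' hE₁' hle hP'
  exact hmax E' ⟨hE', hcE.trans hle, E₁', hE₁', hP'⟩ hle

end AM
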