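import Pool.Agent.AM.E2

/-!
# [AM-E3] for a maximal pair the central elements act through an infinite group
-/

set_option autoImplicit false

open scoped commutatorElement

namespace AM

/-- A finitely generated commutative group of finite exponent is finite. -/
theorem e3_finite {Q : Type*} [Group Q] (hfg : Group.FG Q) (hcomm : ∀ a b : Q, a * b = b * a)
    {p : ℕ} (hp : p ≠ 0) (hpow : ∀ a : Q, a ^ p = 1) : Finite Q := by
  let hcg : CommGroup Q := { (inferInstance : Group Q) with mul_comm := hcomm }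
  refine @CommGroup.finite_of_fg_isMulTorsion Q hcg hfg ?_
  intro z
  rw [isOfFinOrder_iff_pow_eq_one]
  exact ⟨p, Nat.pos_of_ne_zero hp, hpow z⟩

/-- Main step: the commutative group `M` is generated by the subgroup `B` of exponent `p` and a finite set. -/
theorem e3_comm {M : Type*} [Group M] (hcomm : ∀ a b : M, a * b = b * a) {p : ℕ} (hp : p ≠ 0)
    (B : Subgroup M) (hB : ∀ b ∈ B, b ^ p = 1) (hinf : Nat.card B = 0)
    (X : Set M) (hXf : X.Finite) (hX : ∀ m : M, ∃ b ∈ B, ∃ w ∈ Subgroup.closure X, m = b * w)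
    (R : Subgroup M) (hR : ∀ r ∈ R, ∃ m : M, r = m ^ p) : R.index = 0 := by
  classical
  -- the group generated by the `p`-th powers of the elements of `X`
  set R' : Subgroup M := Subgroup.closure ((fun x => x ^ p) '' X) with hR'
  have hmulpow : ∀ a b : M, (a * b) ^ p = a ^ p * b ^ p := fun a b =>
    (show Commute a b from hcomm a b).mul_pow p
  have hcl : ∀ w ∈ Subgroup.closure X, w ^ p ∈ R' := by
    intro w hw
    induction hw using Subgroup.closure_induction with
    | mem x hx => exact Subgroup.subset_closure ⟨x, hx, rfl⟩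
    | one => rw [one_pow]; exact R'.one_mem
    | mul x y _ _ hx hy => rw [hmulpow]; exact R'.mul_mem hx hy
    | inv x _ hx => rw [inv_pow]; exact R'.inv_mem hx
  have hle : R ≤ R' := by
    intro r hr
    obtain ⟨m, rfl⟩ := hR r hr
    obtain ⟨b, hb, w, hw, rfl⟩ := hX m
    rw [hmulpow, hB b hb, one_mul]
    exact hcl w hw
  by_contra hne
  have hne' : R'.index ≠ 0 := fun h0 => by
    have := Subgroup.index_dvd_of_le hle
    rw [h0] at this
    exact hne (Nat.eq_zero_of_zero_dvd this)
  have hfgR : Group.FG R' := by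
    rw [Group.fg_iff_subgroup_fg]
    exact ⟨(hXf.image _).toFinset, by rw [Set.Finite.coe_toFinset]⟩
  have hnilR : Group.IsNilpotent R' := by
    have htop : Subgroup.center R' = ⊤ := by
      rw [eq_top_iff]
      intro x _
      rw [Subgroup.mem_center_iff]
      intro y
      apply Subtype.ext
      rw [Subgroup.coe_mul, Subgroup.coe_mul]
      exact hcomm _ _
    exact ⟨1, by rw [Subgroup.upperCentralSeries_one, htop]⟩
  have hKfg : ((B.subgroupOf R')).FG := AG.fg_of_nilpotent _
  have hKfin : Finite (B.subgroupOf R') := by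
    refine e3_finite ((Group.fg_iff_subgroup_fg _).2 hKfg) ?_ hp ?_
    · intro a b
      apply Subtype.ext
      apply Subtype.ext
      rw [Subgroup.coe_mul, Subgroup.coe_mul, Subgroup.coe_mul, Subgroup.coe_mul]
      exact hcomm _ _
    · intro a
      apply Subtype.ext
      apply Subtype.ext
      rw [Subgroup.coe_pow, Subgroup.coe_pow]
      exact hB _ (Subgroup.mem_subgroupOf.1 a.2)
  -- so `B ⊓ R'` is finite
  have h1 : (⊥ : Subgroup M).relIndex (B ⊓ R') ≠ 0 := by
    rw [Subgroup.relIndex_bot_left]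
    have h2 : Nat.card (B.subgroupOf R') = Nat.card (B ⊓ R' : Subgroup M) := by
      have h3 : (B.subgroupOf R').map R'.subtype = B ⊓ R' := Subgroup.subgroupOf_map_subtype B R'
      rw [← h3]
      exact (Nat.card_congr ((B.subgroupOf R').equivMapOfInjective R'.subtype
        R'.subtype_injective).toEquiv)
    rw [← h2]
    exact (Nat.card_pos).ne'
  have h4 : (B ⊓ R').relIndex B ≠ 0 := by
    rw [Subgroup.inf_relIndex_left]
    intro h0
    exact hne' (Subgroup.index_eq_zero_of_relIndex_eq_zero h0)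
  have h5 := Subgroup.relIndex_ne_zero_trans h1 h4
  rw [Subgroup.relIndex_bot_left] at h5
  exact h5 hinf

/-- The quotient `D ⧸ D₁` -/
theorem e3_relIndex_ne_zero {G : Type*} [Group G] {p : ℕ} (hp : p ≠ 0) (D D₁ : Subgroup G)
    (hD : D.FG) [D₁.Normal] (hcomm : ⁅D, D⁆ ≤ D₁) (hpow : ∀ x ∈ D, x ^ p ∈ D₁) :
    D₁.relIndex D ≠ 0 := by
  have hfg : Group.FG D := (Group.fg_iff_subgroup_fg D).2 hD
  have hfgq : Group.FG (D ⧸ D₁.subgroupOf D) := QuotientGroup.fg _
  have hfin : Finite (D ⧸ D₁.subgroupOf D) := by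
    refine e3_finite hfgq ?_ hp ?_
    · intro a b
      obtain ⟨x, rfl⟩ := QuotientGroup.mk'_surjective _ a
      obtain ⟨y, rfl⟩ := QuotientGroup.mk'_surjective _ b
      rw [← map_mul, ← map_mul]
      rw [QuotientGroup.mk'_eq_mk']
      refine ⟨(x * y)⁻¹ * (y * x), ?_, by group⟩
      rw [Subgroup.mem_subgroupOf]
      apply hcomm
      have h1 : (((x * y)⁻¹ * (y * x) : D) : G) = ⁅(y : G)⁻¹, (x : G)⁻¹⁆ := by
        rw [commutatorElement_def]
        push_cast
        group
      rw [h1]
      exact Subgroup.commutator_mem_commutator (D.inv_mem y.2) (D.inv_mem x.2)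
    · intro a
      obtain ⟨x, rfl⟩ := QuotientGroup.mk'_surjective _ a
      rw [← map_pow]
      refine (QuotientGroup.eq_one_iff (N := D₁.subgroupOf D) _).2 ?_
      rw [Subgroup.mem_subgroupOf]
      rw [Subgroup.coe_pow]
      exact hpow _ x.2
  have := Subgroup.index_ne_zero_iff_finite.2 hfin
  exact this

variable {G : Type*} [Group G]

/-- PROOF. If `D` had finite index in `H` it would be finitely generated, and `D / D₁` finite (abelian, finitely generated, exponent `p ≠ 0`). So `H ⧸ D` is an infinite, finitely generated nilpotent group, its center is infinite (`finite_of_finite_center`) and it is the image of `zz H D`. -/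
theorem zz_infinite {p : ℕ} (hp : p ≠ 0) (H : Subgroup G) (hH : H.FG) [H.Normal]
    (D D₁ : Subgroup G) [D.Normal] [D₁.Normal] (c : ℕ) (hc : H.lowerCentralSeries c ≤ D)
    (h : Pair p H D D₁) : D.relIndex (zz H D) = 0 := by
  by_contra hne
  have hfg : Group.FG H := (Group.fg_iff_subgroup_fg H).2 hH
  have hfgq : Group.FG (H ⧸ D.subgroupOf H) := QuotientGroup.fg _
  -- nilpotent
  have hnil : Group.IsNilpotent (H ⧸ D.subgroupOf H) := by
    rw [Subgroup.nilpotent_iff_lowerCentralSeries]
    refine ⟨c, ?_⟩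
    have h1 := Subgroup.map_lowerCentralSeries (⊤ : Subgroup H)
      (QuotientGroup.mk' (D.subgroupOf H)) c
    rw [Subgroup.map_top_of_surjective _ (QuotientGroup.mk'_surjective _)] at h1
    rw [← h1, eq_bot_iff]
    rintro _ ⟨x, hx, rfl⟩
    rw [Subgroup.mem_bot]
    refine (QuotientGroup.eq_one_iff (N := D.subgroupOf H) _).2 ?_
    rw [Subgroup.mem_subgroupOf]
    apply hc
    rw [← Subgroup.top_subtype_lowerCentralSeries]
    exact ⟨x, hx, rfl⟩
  -- the center
  have hcen : Subgroup.center (H ⧸ D.subgroupOf H) ≤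
      ((zz H D).subgroupOf H).map (QuotientGroup.mk' (D.subgroupOf H)) := by
    intro z hz
    obtain ⟨x, rfl⟩ := QuotientGroup.mk'_surjective _ z
    refine ⟨x, ?_, rfl⟩
    change x ∈ (zz H D).subgroupOf H
    rw [Subgroup.mem_subgroupOf]
    refine ⟨x.2, ?_⟩
    change (x : G) ∈ AG.cent H D
    rw [AG.mem_cent]
    intro d hd
    rw [Subgroup.mem_center_iff] at hz
    have h1 := hz (QuotientGroup.mk' (D.subgroupOf H) ⟨d, hd⟩)
    have h2 : QuotientGroup.mk' (D.subgroupOf H) (x * ⟨d, hd⟩ * x⁻¹ * (⟨d, hd⟩ : H)⁻¹) = 1 := by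
      rw [map_mul, map_mul, map_mul, ← h1, map_inv, map_inv]
      group
    have h3 := (QuotientGroup.eq_one_iff (N := D.subgroupOf H) _).1 h2
    rw [Subgroup.mem_subgroupOf] at h3
    exact h3
  have hfinc : Finite (Subgroup.center (H ⧸ D.subgroupOf H)) := by
    have h1 : (⊥ : Subgroup (H ⧸ D.subgroupOf H)).relIndex
        (((zz H D).subgroupOf H).map (QuotientGroup.mk' (D.subgroupOf H))) ≠ 0 := by
      rw [← Subgroup.relIndex_comap, MonoidHom.comap_bot, QuotientGroup.ker_mk']
      have h2 : zz H D ≤ H := inf_le_left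
      rw [Subgroup.relIndex_subgroupOf h2]
      exact hne
    rw [Subgroup.relIndex_bot_left] at h1
    have h2 : Finite (((zz H D).subgroupOf H).map (QuotientGroup.mk' (D.subgroupOf H)) :
        Subgroup (H ⧸ D.subgroupOf H)) := Nat.finite_of_card_ne_zero h1
    exact Finite.of_injective _ (Subgroup.inclusion_injective hcen)
  have hfin : Finite (H ⧸ D.subgroupOf H) := finite_of_finite_center hfinc
  have hfi : (D.subgroupOf H).FiniteIndex := Subgroup.finiteIndex_iff_finite_quotient.2 hfin
  have hDfg : (D.subgroupOf H).FG :=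
    (Group.fg_iff_subgroup_fg _).1 (Subgroup.fg_of_index_ne_zero (D.subgroupOf H))
  have hDfg' : D.FG := by
    obtain ⟨S, hS⟩ := hDfg
    classical
    refine ⟨S.image H.subtype, ?_⟩
    rw [Finset.coe_image, ← MonoidHom.map_closure, hS, Subgroup.subgroupOf_map_subtype,
      inf_eq_left.2 h.leH]
  exact e3_relIndex_ne_zero hp D D₁ hDfg' h.comm h.pow h.inf

/-- `D' / D₁` is abelian with the infinite elementary abelian subgroup `D / D₁`, and `D' / D` is finitely generated; then `D' / (D' ^ p D₁)` is infinite.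

PROOF. `M = D' / D₁`, `B = D / D₁`, written additively. `p M` is a quotient of `M / B` (`p B = 0`), so it is finitely generated; `p M ∩ B` is a finitely generated group of exponent `p`, so it is finite; `B / (p M ∩ B)` is infinite and embeds into `M / p M`. -/
theorem relIndex_pow_eq_zero {p : ℕ} (hp : p ≠ 0) (D D₁ D' : Subgroup G) [D.Normal] [D₁.Normal]
    [D'.Normal] (h₁ : D₁ ≤ D) (hDD' : D ≤ D') (hinf : D₁.relIndex D = 0)
    (hpow : ∀ x ∈ D, x ^ p ∈ D₁) (hcomm : ⁅D', D'⁆ ≤ D₁)
    (hfg : ∃ X : Finset G, (X : Set G) ⊆ D' ∧ D' ≤ D ⊔ Subgroup.closure (X : Set G)) :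
    (D₁ ⊔ Subgroup.closure {x : G | ∃ y ∈ D', x = y ^ p}).relIndex D' = 0 := by
  classical
  obtain ⟨X, hXD', hX⟩ := hfg
  have hmul : ∀ a b : (D' ⧸ D₁.subgroupOf D'), a * b = b * a := by
    intro a b
    obtain ⟨x, rfl⟩ := QuotientGroup.mk'_surjective _ a
    obtain ⟨y, rfl⟩ := QuotientGroup.mk'_surjective _ b
    rw [← map_mul, ← map_mul]
    rw [QuotientGroup.mk'_eq_mk']
    refine ⟨(x * y)⁻¹ * (y * x), ?_, by group⟩
    rw [Subgroup.mem_subgroupOf]
    apply hcomm
    have h1 : (((x * y)⁻¹ * (y * x) : D') : G) = ⁅(y : G)⁻¹, (x : G)⁻¹⁆ := by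
      rw [commutatorElement_def]
      push_cast
      group
    rw [h1]
    exact Subgroup.commutator_mem_commutator (D'.inv_mem y.2) (D'.inv_mem x.2)
  set π : D' →* (D' ⧸ D₁.subgroupOf D') := QuotientGroup.mk' (D₁.subgroupOf D') with hπ
  have hπ1 : ∀ x : D', π x = 1 ↔ (x : G) ∈ D₁ := by
    intro x
    rw [hπ]
    exact (QuotientGroup.eq_one_iff (N := D₁.subgroupOf D') x).trans Subgroup.mem_subgroupOf
  have hπs : Function.Surjective π := QuotientGroup.mk'_surjective _
  set B : Subgroup (D' ⧸ D₁.subgroupOf D') := (D.subgroupOf D').map π with hB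
  set R : Subgroup (D' ⧸ D₁.subgroupOf D') :=
    ((D₁ ⊔ Subgroup.closure {x : G | ∃ y ∈ D', x = y ^ p}).subgroupOf D').map π with hR
  have hmulpow : ∀ a b : (D' ⧸ D₁.subgroupOf D'), (a * b) ^ p = a ^ p * b ^ p := fun a b =>
    (show Commute a b from hmul a b).mul_pow p
  have hRindex : R.index = 0 := by
    refine e3_comm hmul hp B ?_ ?_ ((fun x : D' => π x) '' {x : D' | (x : G) ∈ X}) ?_ ?_ R ?_
    · rintro _ ⟨x, hx, rfl⟩
      rw [← map_pow, hπ1, Subgroup.coe_pow]
      exact hpow _ (Subgroup.mem_subgroupOf.1 hx)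
    · rw [← Subgroup.relIndex_bot_left, hB, ← Subgroup.relIndex_comap, MonoidHom.comap_bot, hπ,
        QuotientGroup.ker_mk', Subgroup.relIndex_subgroupOf hDD']
      exact hinf
    · apply Set.Finite.image
      have : {x : D' | (x : G) ∈ X} = (fun x : D' => (x : G)) ⁻¹' (X : Set G) := rfl
      rw [this]
      exact Set.Finite.preimage (Subtype.val_injective.injOn) X.finite_toSet
    · intro m
      obtain ⟨x, rfl⟩ := hπs m
      have hx := hX x.2
      rw [Subgroup.mem_sup_of_normal_left] at hx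
      obtain ⟨b, hb, w, hw, hbw⟩ := hx
      have hwD' : w ∈ D' := (Subgroup.closure_le D').2 hXD' hw
      refine ⟨π ⟨b, hDD' hb⟩, ⟨⟨b, hDD' hb⟩, Subgroup.mem_subgroupOf.2 hb, rfl⟩,
        π ⟨w, hwD'⟩, ?_, ?_⟩
      · have hgen : ∀ v (hv : v ∈ Subgroup.closure (X : Set G)) (hv' : v ∈ D'),
            π ⟨v, hv'⟩ ∈ Subgroup.closure ((fun x : D' => π x) '' {x : D' | (x : G) ∈ X}) := by
          intro v hv
          induction hv using Subgroup.closure_induction with
          | mem y hy =>
            intro hv'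
            exact Subgroup.subset_closure ⟨⟨y, hv'⟩, hy, rfl⟩
          | one =>
            intro hv'
            have : π ⟨1, hv'⟩ = 1 := by rw [hπ1]; exact D₁.one_mem
            rw [this]
            exact Subgroup.one_mem _
          | mul y z hy hz ihy ihz =>
            intro hv'
            have hy' : y ∈ D' := (Subgroup.closure_le D').2 hXD' hy
            have hz' : z ∈ D' := (Subgroup.closure_le D').2 hXD' hz
            have : (⟨y * z, hv'⟩ : D') = ⟨y, hy'⟩ * ⟨z, hz'⟩ := rfl
            rw [this, map_mul]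
            exact Subgroup.mul_mem _ (ihy hy') (ihz hz')
          | inv y hy ihy =>
            intro hv'
            have hy' : y ∈ D' := (Subgroup.closure_le D').2 hXD' hy
            have : (⟨y⁻¹, hv'⟩ : D') = ⟨y, hy'⟩⁻¹ := rfl
            rw [this, map_inv]
            exact Subgroup.inv_mem _ (ihy hy')
        exact hgen w hw hwD'
      · rw [← map_mul]
        congr 1
        apply Subtype.ext
        rw [Subgroup.coe_mul]
        exact hbw.symm
    · rintro _ ⟨x, hx, rfl⟩
      have hx' := Subgroup.mem_subgroupOf.1 hx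
      rw [Subgroup.mem_sup_of_normal_left] at hx'
      obtain ⟨d, hd, w, hw, hdw⟩ := hx'
      have hgen : ∀ v (hv : v ∈ Subgroup.closure {x : G | ∃ y ∈ D', x = y ^ p}),
          ∃ hv' : v ∈ D', ∃ m, π ⟨v, hv'⟩ = m ^ p := by
        intro v hv
        induction hv using Subgroup.closure_induction with
        | mem y hy =>
          obtain ⟨z, hz, rfl⟩ := hy
          exact ⟨D'.pow_mem hz p, π ⟨z, hz⟩, by rw [← map_pow]; rfl⟩
        | one => exact ⟨D'.one_mem, 1, by
            rw [one_pow, hπ1]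
            exact D₁.one_mem⟩
        | mul y z hy hz ihy ihz =>
          obtain ⟨hy', m, hm⟩ := ihy
          obtain ⟨hz', n, hn⟩ := ihz
          refine ⟨D'.mul_mem hy' hz', m * n, ?_⟩
          have : (⟨y * z, D'.mul_mem hy' hz'⟩ : D') = ⟨y, hy'⟩ * ⟨z, hz'⟩ := rfl
          rw [this, map_mul, hmulpow, hm, hn]
        | inv y hy ihy =>
          obtain ⟨hy', m, hm⟩ := ihy
          refine ⟨D'.inv_mem hy', m⁻¹, ?_⟩
          have : (⟨y⁻¹, D'.inv_mem hy'⟩ : D') = ⟨y, hy'⟩⁻¹ := rfl
          rw [this, map_inv, inv_pow, hm]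
      obtain ⟨hw', m, hm⟩ := hgen w hw
      refine ⟨m, ?_⟩
      have hd' : d ∈ D' := hDD' (h₁ hd)
      have h2 : x = ⟨d, hd'⟩ * ⟨w, hw'⟩ := Subtype.ext (by rw [Subgroup.coe_mul]; exact hdw.symm)
      have h3 : π ⟨d, hd'⟩ = 1 := by rw [hπ1]; exact hd
      rw [h2, map_mul, h3, one_mul, hm]
  have h6 : ((D₁ ⊔ Subgroup.closure {x : G | ∃ y ∈ D', x = y ^ p}).subgroupOf D') ≤
      R.comap π := Subgroup.le_comap_map _ _
  have h7 : (R.comap π).index = 0 := by
    rw [Subgroup.index_comap_of_surjective _ hπs]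
    exact hRindex
  have h8 := Subgroup.index_dvd_of_le h6
  rw [h7] at h8
  exact Nat.eq_zero_of_zero_dvd h8

end AM
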