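import Pool.Agent.AM.Defs

/-!
# [AM-E5] commutative algebra: minimal primes which are annihilators of elements
-/

set_option autoImplicit false

namespace AM

theorem e5_finite {J : Type*} [CommRing J] [IsNoetherianRing J] (I : Ideal J)
    (h : ∀ 𝔭 ∈ I.minimalPrimes, Finite (J ⧸ 𝔭)) : Finite (J ⧸ I) := by
  have key := IsNoetherianRing.induction_on_isQuotientEquivQuotientPrime J (M := J ⧸ I) inferInstance
    (motive := fun N _ _ _ => (∀ a ∈ I, ∀ x : N, a • x = 0) → Finite N) ?_ ?_ ?_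
  · refine key ?_
    intro a ha x
    obtain ⟨y, rfl⟩ := Ideal.Quotient.mk_surjective x
    rw [← Ideal.Quotient.mk_eq_mk, ← Submodule.Quotient.mk_smul, Ideal.Quotient.mk_eq_mk,
      Ideal.Quotient.eq_zero_iff_mem, smul_eq_mul]
    exact I.mul_mem_right _ ha
  · intro N _ _ _ _ _
    infer_instance
  · intro N _ _ _ p e hN
    have hIp : I ≤ p.1 := by
      intro a ha
      have h1 := hN a ha (e.symm (Ideal.Quotient.mk p.1 1))
      rw [← map_smul] at h1
      have h2 : a • (Ideal.Quotient.mk p.1 1 : J ⧸ p.1) = 0 := by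
        apply e.symm.injective
        rw [h1, map_zero]
      rw [← Ideal.Quotient.mk_eq_mk, ← Submodule.Quotient.mk_smul, Ideal.Quotient.mk_eq_mk,
        Ideal.Quotient.eq_zero_iff_mem, smul_eq_mul, mul_one] at h2
      exact h2
    have hp := p.2
    obtain ⟨q, hq, hqp⟩ := Ideal.exists_minimalPrimes_le hIp
    have hfin := h q hq
    have h3 : Finite (J ⧸ p.1) :=
      Finite.of_surjective (Ideal.Quotient.factor hqp) (Ideal.Quotient.factor_surjective hqp)
    exact Finite.of_injective e e.injective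
  · intro N₁ _ _ _ N₂ _ _ _ N₃ _ _ _ f g hf hg hfg h1 h3 hN
    have hN₁ : Finite N₁ := h1 fun a ha x => by
      apply hf
      rw [map_smul, hN a ha, map_zero]
    have hN₃ : Finite N₃ := h3 fun a ha x => by
      obtain ⟨y, rfl⟩ := hg x
      rw [← map_smul, hN a ha, map_zero]
    obtain ⟨σ, hσ⟩ := hg.hasRightInverse
    refine Finite.of_surjective (fun z : N₁ × N₃ => f z.1 + σ z.2) ?_
    intro y
    have h4 : g (y - σ (g y)) = 0 := by
      rw [map_sub, hσ, sub_self]
    obtain ⟨x, hx⟩ := (hfg _).1 h4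
    refine ⟨(x, g y), ?_⟩
    show f x + σ (g y) = y
    rw [hx, sub_add_cancel]

/-- PROOF. `I = Ann B`, `M = J ⧸ I`. If `J ⧸ 𝔭` is finite for all minimal primes `𝔭` over `I`, then `J ⧸ 𝔮` is finite for all primes `𝔮 ≥ I` (`Ideal.exists_minimalPrimes_le`), and so is every finitely generated module annihilated by `I`, in particular `J ⧸ I` (induction over a prime filtration,
`IsNoetherianRing.induction_on_isQuotientEquivQuotientPrime`, for the noetherian ring `J ⧸ I` and its modules), a contradiction. So `J ⧸ 𝔭` is infinite for a minimal prime `𝔭` over `I`. `𝔭` is an associated prime of the finitely generated `J`-module `J ⧸ I`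
(`Module.associatedPrimes.minimalPrimes_annihilator_subset_associatedPrimes` or similar; `Module.annihilator J (J ⧸ I) = I`): there is `r ∈ J` with `𝔭 = {j | j r ∈ I}`. By the hypothesis on `f` this is the intersection of the ideals `{j | j • r • b = 0}`, `b ∈ f`; a prime ideal which is a finite intersection
of ideals is one of them (`Ideal.IsPrime.inf_le'`). Take `x₀ = r • b`. -/
theorem exists_prime {J : Type*} [CommRing J] [IsNoetherianRing J] {B : Type*} [AddCommGroup B]
    [Module J B] (f : Finset B) (hf : ∀ j : J, (∀ b ∈ f, j • b = 0) → ∀ b : B, j • b = 0)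
    (hinf : Infinite (J ⧸ Module.annihilator J B)) :
    ∃ 𝔭 ∈ (Module.annihilator J B).minimalPrimes, Infinite (J ⧸ 𝔭) ∧
      ∃ x₀ : B, ∀ j : J, j • x₀ = 0 ↔ j ∈ 𝔭 := by
  obtain ⟨I, hI⟩ : ∃ I : Ideal J, I = Module.annihilator J B := ⟨_, rfl⟩
  rw [← hI] at hinf ⊢
  have h1 : ∃ 𝔭 ∈ I.minimalPrimes, Infinite (J ⧸ 𝔭) := by
    by_contra hcon
    push Not at hcon
    have h2 : Finite (J ⧸ I) := e5_finite I fun 𝔭 h𝔭 => by
      exact hcon 𝔭 h𝔭
    exact not_finite (J ⧸ I)
  obtain ⟨𝔭, h𝔭, hinf𝔭⟩ := h1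
  refine ⟨𝔭, h𝔭, hinf𝔭, ?_⟩
  have hprime : 𝔭.IsPrime := h𝔭.1.1
  have hann : Module.annihilator J (J ⧸ I) = I := Ideal.annihilator_quotient
  have hass : 𝔭 ∈ associatedPrimes J (J ⧸ I) :=
    Module.associatedPrimes.minimalPrimes_annihilator_subset_associatedPrimes J (J ⧸ I) (by rw [hann]; exact h𝔭)
  rw [AssociatedPrimes.mem_iff, isAssociatedPrime_iff] at hass
  obtain ⟨-, x, hx⟩ := hass
  obtain ⟨r, rfl⟩ := Ideal.Quotient.mk_surjective x
  have hmem : ∀ j : J, j ∈ 𝔭 ↔ j * r ∈ I := by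
    intro j
    rw [hx, Submodule.mem_colon_singleton, Submodule.mem_bot, ← Ideal.Quotient.mk_eq_mk,
      ← Submodule.Quotient.mk_smul, Ideal.Quotient.mk_eq_mk, Ideal.Quotient.eq_zero_iff_mem,
      smul_eq_mul]
  have hmem2 : ∀ j : J, j ∈ 𝔭 ↔ ∀ b ∈ f, j • (r • b) = 0 := by
    intro j
    rw [hmem, hI, Module.mem_annihilator]
    constructor
    · intro h b _
      rw [← mul_smul]
      exact h b
    · intro h
      apply hf
      intro b hb
      rw [mul_smul]
      exact h b hb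
  have hle : f.inf (fun b => Ideal.torsionOf J B (r • b)) ≤ 𝔭 := by
    intro j hj
    rw [hmem2]
    intro b hb
    rw [← Ideal.mem_torsionOf_iff]
    exact (Finset.inf_le hb : f.inf (fun b => Ideal.torsionOf J B (r • b)) ≤ _) hj
  obtain ⟨b, hb, hb2⟩ := hprime.inf_le'.1 hle
  refine ⟨r • b, fun j => ⟨fun h => hb2 ((Ideal.mem_torsionOf_iff _ _).2 h), fun h => (hmem2 j).1 h b hb⟩⟩

theorem e5_ext {S : Type*} [CommRing S] {C : Type*} [AddCommGroup C] [Module S C]
    {K : Type*} [Field K] [Algebra S K] (s : S) (hs : algebraMap S K s ≠ 0) (D : Submodule S C)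
    (φ : D →ₗ[S] K) (h : ∀ c : C, ∃ k : ℕ, s ^ k • c ∈ D) :
    ∃ f : C →ₗ[S] K, ∀ (c : C) (k : ℕ) (hk : s ^ k • c ∈ D),
      algebraMap S K s ^ k * f c = φ ⟨s ^ k • c, hk⟩ := by
  choose k hk using h
  have hpow : ∀ n : ℕ, algebraMap S K s ^ n ≠ 0 := fun n => pow_ne_zero n hs
  have hsm : ∀ (n : ℕ) (d : D), algebraMap S K s ^ n * φ d = φ (s ^ n • d) := by
    intro n d
    rw [map_smul, Algebra.smul_def, map_pow]
  have key : ∀ (c : C) (n : ℕ) (hn : s ^ n • c ∈ D),
      algebraMap S K s ^ n * (φ ⟨s ^ k c • c, hk c⟩ / algebraMap S K s ^ k c) = φ ⟨s ^ n • c, hn⟩ := by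
    intro c n hn
    apply mul_left_cancel₀ (hpow (k c))
    have e1 : algebraMap S K s ^ k c * (algebraMap S K s ^ n * (φ ⟨s ^ k c • c, hk c⟩ / algebraMap S K s ^ k c)) =
        algebraMap S K s ^ n * φ ⟨s ^ k c • c, hk c⟩ := by
      have := hpow (k c)
      field_simp
    rw [e1, hsm, hsm]
    congr 1
    apply Subtype.ext
    show s ^ n • (s ^ k c • c) = s ^ k c • (s ^ n • c)
    rw [smul_comm]
  refine ⟨{ toFun := fun c => φ ⟨s ^ k c • c, hk c⟩ / algebraMap S K s ^ k c
            map_add' := ?_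
            map_smul' := ?_ }, key⟩
  · intro c d
    have hc : s ^ (k c + k d) • c ∈ D := by
      rw [add_comm, pow_add, mul_smul]
      exact D.smul_mem _ (hk c)
    have hd : s ^ (k c + k d) • d ∈ D := by
      rw [pow_add, mul_smul]
      exact D.smul_mem _ (hk d)
    have hcd : s ^ (k c + k d) • (c + d) ∈ D := by
      rw [smul_add]
      exact D.add_mem hc hd
    apply mul_left_cancel₀ (hpow (k c + k d))
    rw [key (c + d) _ hcd, mul_add, key c _ hc, key d _ hd, ← map_add]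
    congr 1
    apply Subtype.ext
    show s ^ (k c + k d) • (c + d) = s ^ (k c + k d) • c + s ^ (k c + k d) • d
    rw [smul_add]
  · intro a c
    have hac : s ^ k c • (a • c) ∈ D := by
      rw [smul_comm]
      exact D.smul_mem _ (hk c)
    apply mul_left_cancel₀ (hpow (k c))
    rw [key (a • c) _ hac, RingHom.id_apply, mul_smul_comm, key c _ (hk c), ← map_smul]
    congr 1
    apply Subtype.ext
    show s ^ k c • (a • c) = a • (s ^ k c • c)
    rw [smul_comm]

/-- PROOF. `GF s ⊥ ⊤`: a linearly independent set `b` (modulo `⊥`) such that every `c` multiplied by a power of `s` is in `span b`. `b` is not empty (otherwise `s^k x₀ = 0`); let `x ∈ b`. For `c ∈ C` let `s^k c = ∑ a_i b_i` and `f c = a_x / s^k`: well defined and linear. (Or: `S[1/s]`-module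
localization.) -/
theorem exists_functional {S : Type*} [CommRing S] [IsDomain S] {C : Type*} [AddCommGroup C]
    [Module S C] (K : Type*) [Field K] [Algebra S K] [IsFractionRing S K] (s : S) (hs : s ≠ 0)
    (h : GF s (⊥ : Submodule S C) ⊤) (x₀ : C) (hx₀ : ∀ j : S, j • x₀ = 0 → j = 0) :
    ∃ f : C →ₗ[S] K, (∃ x, f x = 1) ∧
      ∀ c, ∃ (k : ℕ) (a : S), algebraMap S K s ^ k * f c = algebraMap S K a := by
  obtain ⟨b, -, hb, hspan⟩ := h
  have hinj : Function.Injective (algebraMap S K) := IsFractionRing.injective S K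
  have hs' : algebraMap S K s ≠ 0 := fun h => hs (hinj (by rw [h, map_zero]))
  have hb' : LinearIndependent S (fun x : b => (x : C)) := LinearIndependent.of_comp (⊥ : Submodule S C).mkQ hb
  have hspan' : ∀ c : C, ∃ k : ℕ, s ^ k • c ∈ Submodule.span S (Set.range (fun x : b => (x : C))) := by
    intro c
    obtain ⟨k, hk⟩ := hspan c Submodule.mem_top
    rw [sup_bot_eq] at hk
    refine ⟨k, ?_⟩
    rwa [Subtype.range_coe]
  have hne : b.Nonempty := by
    rw [Set.nonempty_iff_ne_empty]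
    rintro rfl
    obtain ⟨k, hk⟩ := hspan x₀ Submodule.mem_top
    rw [sup_bot_eq, Submodule.span_empty, Submodule.mem_bot] at hk
    exact pow_ne_zero k hs (hx₀ _ hk)
  obtain ⟨x, hx⟩ := hne
  obtain ⟨f, hf⟩ := e5_ext s hs' (Submodule.span S (Set.range (fun x : b => (x : C))))
    ((Algebra.linearMap S K).comp ((Finsupp.lapply (⟨x, hx⟩ : b)).comp hb'.repr)) hspan'
  refine ⟨f, ⟨x, ?_⟩, ?_⟩
  · have hmem : s ^ 0 • x ∈ Submodule.span S (Set.range (fun x : b => (x : C))) := by
      rw [pow_zero, one_smul]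
      exact Submodule.subset_span ⟨⟨x, hx⟩, rfl⟩
    have h1 := hf x 0 hmem
    rw [pow_zero, one_mul] at h1
    rw [h1]
    have h2 : hb'.repr ⟨s ^ 0 • x, hmem⟩ = Finsupp.single (⟨x, hx⟩ : b) 1 := by
      apply hb'.repr_eq_single
      show s ^ 0 • x = x
      rw [pow_zero, one_smul]
    show algebraMap S K ((hb'.repr ⟨s ^ 0 • x, hmem⟩) ⟨x, hx⟩) = 1
    rw [h2, Finsupp.single_eq_same, map_one]
  · intro c
    obtain ⟨k, hk⟩ := hspan' c
    exact ⟨k, _, hf c k hk⟩

/-- PROOF. The minimal primes over `I` form a finite set (`Ideal.finite_minimalPrimes_of_isNoetherianRing`), which is permuted by `M`; the stabilizer of `𝔭` has finite index (the orbit is finite: `MulAction.stabilizer`, `Subgroup.finiteIndex_of...`, or the kernel of `M →` permutations of the finite set). -/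
theorem exists_stabilizer {M : Type*} [Group M] {R : Type*} [CommRing R] [IsNoetherianRing R]
    (τ : M →* RingAut R) (I : Ideal R) (hI : ∀ (m : M) (r : R), r ∈ I ↔ τ m r ∈ I) (𝔭 : Ideal R)
    (h𝔭 : 𝔭 ∈ I.minimalPrimes) :
    ∃ 𝔸 : Subgroup M, 𝔸.FiniteIndex ∧ ∀ m ∈ 𝔸, ∀ r, r ∈ 𝔭 ↔ τ m r ∈ 𝔭 := by
  have hmul : ∀ (m n : M) (r : R), τ (m * n) r = τ m (τ n r) := by
    intro m n r
    rw [map_mul]
    rfl
  have hone : ∀ r : R, τ 1 r = r := by
    intro r
    rw [map_one]
    rfl
  have hinv : ∀ (m : M) (r : R), τ m (τ m⁻¹ r) = r := by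
    intro m r
    rw [← hmul, mul_inv_cancel, hone]
  have hinv' : ∀ (m : M) (r : R), τ m⁻¹ (τ m r) = r := by
    intro m r
    rw [← hmul, inv_mul_cancel, hone]
  let 𝔸 : Subgroup M :=
    { carrier := {m | ∀ r, r ∈ 𝔭 ↔ τ m r ∈ 𝔭}
      mul_mem' := by
        intro m n hm hn r
        rw [hmul]
        exact (hn r).trans (hm _)
      one_mem' := by
        intro r
        rw [hone]
      inv_mem' := by
        intro m hm r
        have h1 := hm (τ m⁻¹ r)
        rw [hinv] at h1
        exact h1.symm }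
  have hprime : 𝔭.IsPrime := h𝔭.1.1
  have hq : ∀ m : M, 𝔭.comap (τ m : R ≃+* R) ∈ I.minimalPrimes := by
    intro m
    refine ⟨⟨inferInstance, ?_⟩, ?_⟩
    · intro r hr
      rw [Ideal.mem_comap]
      exact h𝔭.1.2 ((hI m r).1 hr)
    · rintro q ⟨hq1, hq2⟩ hq3 r hr
      have hq' : (q.comap (τ m⁻¹ : R ≃+* R)).IsPrime := inferInstance
      have h1 : I ≤ q.comap (τ m⁻¹ : R ≃+* R) := by
        intro r hr
        rw [Ideal.mem_comap]
        exact hq2 ((hI m⁻¹ r).1 hr)
      have h2 : q.comap (τ m⁻¹ : R ≃+* R) ≤ 𝔭 := by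
        intro r hr
        rw [Ideal.mem_comap] at hr
        have h3 := hq3 hr
        rw [Ideal.mem_comap] at h3
        have h4 : (τ m : R ≃+* R) ((τ m⁻¹ : R ≃+* R) r) = r := hinv m r
        rwa [h4] at h3
      have h3 := h𝔭.2 ⟨hq', h1⟩ h2
      rw [Ideal.mem_comap] at hr
      have h4 := h3 hr
      rw [Ideal.mem_comap] at h4
      have h5 : (τ m⁻¹ : R ≃+* R) ((τ m : R ≃+* R) r) = r := hinv' m r
      rwa [h5] at h4
  have hfinmin : Finite I.minimalPrimes := (Ideal.finite_minimalPrimes_of_isNoetherianRing R I).to_subtype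
  have hfin : Finite (M ⧸ 𝔸) := by
    refine Finite.of_injective (β := I.minimalPrimes)
      (fun q => ⟨𝔭.comap (τ (q.out)⁻¹ : R ≃+* R), hq _⟩) ?_
    intro q q' h
    have h1 : 𝔭.comap (τ (q.out)⁻¹ : R ≃+* R) = 𝔭.comap (τ (q'.out)⁻¹ : R ≃+* R) := congrArg Subtype.val h
    have h2 : (q.out)⁻¹ * q'.out ∈ 𝔸 := by
      intro r
      rw [hmul]
      have h3 := SetLike.ext_iff.1 h1 (τ q'.out r)
      rw [Ideal.mem_comap, Ideal.mem_comap] at h3
      have h4 : (τ (q'.out)⁻¹ : R ≃+* R) (τ q'.out r) = r := hinv' _ r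
      rw [h4] at h3
      exact h3.symm
    have h5 := QuotientGroup.eq.2 h2
    rw [QuotientGroup.out_eq', QuotientGroup.out_eq'] at h5
    exact h5
  exact ⟨𝔸, Subgroup.finiteIndex_of_finite_quotient, fun m hm => hm⟩

end AM
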