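import Pool.Agent.AM.J7
import Pool.Agent.AM.E5

/-!
# [AM-E6] a functional over a domain
-/

set_option autoImplicit false

namespace AM

open Submodule in
/-- `ρ h` on the torsion submodule, linear over `J ⧸ 𝔭` -/
noncomputable def e6_rho {J : Type*} [CommRing J] {B : Type*} [AddCommGroup B] [Module J B] {H : Type*} [Group H]
    (ρ : H →* Module.End J B) (𝔭 : Ideal J) : H →* Module.End (J ⧸ 𝔭) (torsionBySet J B 𝔭) where
  toFun h :=
    { toFun := fun x => ⟨ρ h x, by
        rw [mem_torsionBySet_iff]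
        intro a
        rw [← map_smul]
        have := (mem_torsionBySet_iff _ _).1 x.2 a
        rw [this, map_zero]⟩
      map_add' := fun x y => by
        apply Subtype.ext
        simp
      map_smul' := fun s x => by
        obtain ⟨j, rfl⟩ := Ideal.Quotient.mk_surjective s
        rw [torsionBySet.mk_smul]
        apply Subtype.ext
        rw [RingHom.id_apply, torsionBySet.mk_smul]
        simp }
  map_one' := by
    apply LinearMap.ext
    intro x
    apply Subtype.ext
    simp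
  map_mul' g h := by
    apply LinearMap.ext
    intro x
    apply Subtype.ext
    simp

theorem e6_rho_apply {J : Type*} [CommRing J] {B : Type*} [AddCommGroup B] [Module J B] {H : Type*} [Group H]
    (ρ : H →* Module.End J B) (𝔭 : Ideal J) (h : H) (x : Submodule.torsionBySet J B 𝔭) :
    ((e6_rho ρ 𝔭 h x : Submodule.torsionBySet J B 𝔭) : B) = ρ h (x : B) := rfl

/-- `ρ` linear over `k` only -/
noncomputable def e6_rhok (k : Type*) {J : Type*} [Field k] [CommRing J] [Algebra k J] {B : Type*} [AddCommGroup B]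
    [Module k B] [Module J B] [IsScalarTower k J B] {H : Type*} [Group H]
    (ρ : H →* Module.End J B) : H →* Module.End k B where
  toFun h := (ρ h).restrictScalars k
  map_one' := by
    apply LinearMap.ext
    intro x
    simp
  map_mul' g h := by
    apply LinearMap.ext
    intro x
    simp

theorem e6_rhok_apply (k : Type*) {J : Type*} [Field k] [CommRing J] [Algebra k J] {B : Type*} [AddCommGroup B]
    [Module k B] [Module J B] [IsScalarTower k J B] {H : Type*} [Group H]
    (ρ : H →* Module.End J B) (h : H) (x : B) : e6_rhok k ρ h x = ρ h x := rfl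

/-- PROOF. `S = J ⧸ 𝔭`, a noetherian domain. `C = {b | ∀ j ∈ 𝔭, j • b = 0}` is the module `Submodule.torsionBySet J B 𝔭` over `S` (Mathlib has the `Module (J ⧸ 𝔭)` instance), stable under the `ρ h` (they are `J`-linear). (1) `hall` over the field `k` for `B` with the action `ρ` restricted to `k`-linear maps
(`LinearMap.restrictScalars k`), `X = ⊤`, `Y = C`: `C` is the `k`-span of `{ρ h b : b ∈ f'}` for a finite `f' ⊆ C`. (2) So `C` as an `S`-module with the action of `H` (`S`-linear) is `sp ⊤ f'`; `hall` over `S` gives `s' ≠ 0` in `S` with `GF s' ⊥ ⊤`. (3) `x₀` is an element of `C` with `j • x₀ = 0 ↔ j ∈ 𝔭`;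
`exists_functional` for `K = FractionRing S`. `s` = a representative of `s'`. `f` = the functional on `C`, `0` outside `C`. -/
theorem exists_functional_prime {k J : Type*} [Field k] [CommRing J] [Algebra k J]
    [IsNoetherianRing J] {B : Type*} [AddCommGroup B] [Module k B] [Module J B]
    [IsScalarTower k J B] {H : Type*} [Group H] [Group.FG H] (ρ : H →* Module.End J B) (c : ℕ)
    (hc : (⊤ : Subgroup H).lowerCentralSeries c ≤ ρ.ker)
    (hfg : ∃ f : Finset B, Submodule.span k {b : B | ∃ h : H, ∃ a ∈ f, b = ρ h a} = ⊤)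
    (𝔭 : Ideal J) [𝔭.IsPrime] (x₀ : B) (hx₀ : ∀ j : J, j • x₀ = 0 ↔ j ∈ 𝔭) :
    ∃ (s : J) (f : B → FractionRing (J ⧸ 𝔭)), s ∉ 𝔭 ∧
      (∀ b b' : B, (∀ j ∈ 𝔭, j • b = 0) → (∀ j ∈ 𝔭, j • b' = 0) → f (b + b') = f b + f b') ∧
      (∀ (j : J) (b : B), (∀ i ∈ 𝔭, i • b = 0) →
        f (j • b) = algebraMap (J ⧸ 𝔭) _ (Ideal.Quotient.mk 𝔭 j) * f b) ∧
      (∃ x, (∀ j ∈ 𝔭, j • x = 0) ∧ f x = 1) ∧
      ∀ b : B, (∀ j ∈ 𝔭, j • b = 0) → ∃ (n : ℕ) (a : J),
        algebraMap (J ⧸ 𝔭) _ (Ideal.Quotient.mk 𝔭 s) ^ n * f b =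
          algebraMap (J ⧸ 𝔭) _ (Ideal.Quotient.mk 𝔭 a) := by
  classical
  set C : Submodule J B := Submodule.torsionBySet J B 𝔭 with hC
  have hmemC : ∀ b : B, b ∈ C ↔ ∀ j ∈ 𝔭, j • b = 0 := by
    intro b
    rw [hC, Submodule.mem_torsionBySet_iff]
    constructor
    · intro h j hj
      exact h ⟨j, hj⟩
    · intro h a
      exact h a.1 a.2
  -- (1)
  have hck : (⊤ : Subgroup H).lowerCentralSeries c ≤ (e6_rhok k ρ).ker := by
    intro h hh
    have h1 : ρ h = 1 := (MonoidHom.mem_ker).1 (hc hh)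
    rw [MonoidHom.mem_ker]
    apply LinearMap.ext
    intro x
    rw [e6_rhok_apply, h1]
    rfl
  have hgk := hall (e6_rhok k ρ) c hck
  obtain ⟨f0, hf0⟩ := hfg
  have hX : FGq (e6_rhok k ρ) (⊤ : Subgroup H) (⊤ : Submodule k B) := by
    refine ⟨f0, ?_⟩
    rw [← hf0]
    unfold sp
    congr 1
    ext b
    constructor
    · rintro ⟨h, a, ha, rfl⟩
      exact ⟨h, Subgroup.mem_top h, a, ha, rfl⟩
    · rintro ⟨h, -, a, ha, rfl⟩
      exact ⟨h, a, ha, rfl⟩
  obtain ⟨f1, hf1⟩ := (hgk ⊤ hX).1 (C.restrictScalars k) le_top (by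
    intro h _ y hy
    rw [Submodule.restrictScalars_mem] at hy ⊢
    rw [hmemC] at hy ⊢
    intro j hj
    rw [e6_rhok_apply, ← map_smul, hy j hj, map_zero])
  have hf1C : ∀ a ∈ f1, a ∈ C := by
    intro a ha
    have h1 : a ∈ C.restrictScalars k := by
      rw [hf1]
      apply Submodule.subset_span
      refine ⟨1, Subgroup.mem_top _, a, ha, ?_⟩
      rw [map_one]
      rfl
    exact h1
  -- (2)
  have hcS : (⊤ : Subgroup H).lowerCentralSeries c ≤ (e6_rho ρ 𝔭).ker := by
    intro h hh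
    have h1 : ρ h = 1 := (MonoidHom.mem_ker).1 (hc hh)
    rw [MonoidHom.mem_ker]
    apply LinearMap.ext
    intro x
    apply Subtype.ext
    rw [e6_rho_apply, h1]
    rfl
  have hgS := hall (e6_rho ρ 𝔭) c hcS
  have hXS : FGq (e6_rho ρ 𝔭) (⊤ : Subgroup H) (⊤ : Submodule (J ⧸ 𝔭) (Submodule.torsionBySet J B 𝔭)) := by
    refine ⟨f1.attach.image fun a => ⟨a.1, hf1C a.1 a.2⟩, ?_⟩
    symm
    rw [eq_top_iff]
    rintro ⟨x, hx⟩ -
    have hx1 : x ∈ sp (e6_rhok k ρ) (⊤ : Subgroup H) (f1 : Set B) := by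
      rw [← hf1]
      exact hx
    have key : ∀ y : B, y ∈ sp (e6_rhok k ρ) (⊤ : Subgroup H) (f1 : Set B) → ∀ hy : y ∈ Submodule.torsionBySet J B 𝔭,
        (⟨y, hy⟩ : Submodule.torsionBySet J B 𝔭) ∈ sp (e6_rho ρ 𝔭) (⊤ : Subgroup H)
          ((f1.attach.image fun a => (⟨a.1, hf1C a.1 a.2⟩ : Submodule.torsionBySet J B 𝔭) :
            Finset (Submodule.torsionBySet J B 𝔭)) : Set (Submodule.torsionBySet J B 𝔭)) := by
      intro y hy
      unfold sp at hy
      induction hy using Submodule.span_induction with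
      | mem z hz =>
        intro hz'
        apply Submodule.subset_span
        obtain ⟨h, -, a, ha, rfl⟩ := hz
        refine ⟨h, Subgroup.mem_top h, ⟨a, hf1C a ha⟩, ?_, ?_⟩
        · rw [Finset.mem_coe, Finset.mem_image]
          exact ⟨⟨a, ha⟩, Finset.mem_attach _ _, rfl⟩
        · apply Subtype.ext
          rfl
      | zero =>
        intro h0
        have : (⟨0, h0⟩ : Submodule.torsionBySet J B 𝔭) = 0 := rfl
        rw [this]
        exact Submodule.zero_mem _
      | add y z hy hz ihy ihz =>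
        intro hyz
        have hyC : y ∈ Submodule.torsionBySet J B 𝔭 := by
          have h1 : y ∈ C.restrictScalars k := by
            rw [hf1]
            exact hy
          exact h1
        have hzC : z ∈ Submodule.torsionBySet J B 𝔭 := by
          have h1 : z ∈ C.restrictScalars k := by
            rw [hf1]
            exact hz
          exact h1
        exact Submodule.add_mem _ (ihy hyC) (ihz hzC)
      | smul r y hy ihy =>
        intro hry
        have hyC : y ∈ Submodule.torsionBySet J B 𝔭 := by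
          have h1 : y ∈ C.restrictScalars k := by
            rw [hf1]
            exact hy
          exact h1
        have h2 : (⟨r • y, hry⟩ : Submodule.torsionBySet J B 𝔭) =
            (Ideal.Quotient.mk 𝔭 (algebraMap k J r)) • (⟨y, hyC⟩ : Submodule.torsionBySet J B 𝔭) := by
          rw [Submodule.torsionBySet.mk_smul]
          apply Subtype.ext
          change r • y = algebraMap k J r • y
          rw [algebraMap_smul]
        rw [h2]
        exact Submodule.smul_mem _ _ (ihy hyC)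
    exact key x hx1 hx
  obtain ⟨s', hs', hGF⟩ := (hgS ⊤ hXS).2 ⊥ bot_le (by
    intro h _ y hy
    rw [Submodule.mem_bot] at hy ⊢
    rw [hy, map_zero])
  -- (3)
  have hx₀C : x₀ ∈ Submodule.torsionBySet J B 𝔭 := (hmemC x₀).2 fun j hj => (hx₀ j).2 hj
  obtain ⟨F, ⟨x1, hx1⟩, hF⟩ := exists_functional (FractionRing (J ⧸ 𝔭)) s' hs' hGF
    (⟨x₀, hx₀C⟩ : Submodule.torsionBySet J B 𝔭) (by
      intro j hj
      obtain ⟨i, rfl⟩ := Ideal.Quotient.mk_surjective j
      rw [Submodule.torsionBySet.mk_smul] at hj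
      have h1 : i • x₀ = 0 := congrArg Subtype.val hj
      rw [Ideal.Quotient.eq_zero_iff_mem]
      exact (hx₀ i).1 h1)
  obtain ⟨s, rfl⟩ := Ideal.Quotient.mk_surjective s'
  set f : B → FractionRing (J ⧸ 𝔭) := fun b => if h : b ∈ Submodule.torsionBySet J B 𝔭 then F ⟨b, h⟩ else 0 with hf
  have hfa : ∀ (b : B) (h : b ∈ Submodule.torsionBySet J B 𝔭), f b = F ⟨b, h⟩ := by
    intro b h
    rw [hf]
    exact dif_pos h
  refine ⟨s, f, ?_, ?_, ?_, ?_, ?_⟩
  · intro h
    exact hs' (Ideal.Quotient.eq_zero_iff_mem.2 h)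
  · intro b b' hb hb'
    have h1 := (hmemC b).2 hb
    have h2 := (hmemC b').2 hb'
    rw [hfa b h1, hfa b' h2, hfa (b + b') (C.add_mem h1 h2), ← map_add]
    rfl
  · intro j b hb
    have h1 := (hmemC b).2 hb
    rw [hfa b h1, hfa (j • b) (C.smul_mem j h1)]
    have h2 : (⟨j • b, C.smul_mem j h1⟩ : Submodule.torsionBySet J B 𝔭) =
        (Ideal.Quotient.mk 𝔭 j) • (⟨b, h1⟩ : Submodule.torsionBySet J B 𝔭) := by
      rw [Submodule.torsionBySet.mk_smul]
      rfl
    rw [h2, map_smul, Algebra.smul_def]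
  · refine ⟨x1, (hmemC _).1 x1.2, ?_⟩
    rw [hfa _ x1.2]
    exact hx1
  · intro b hb
    have h1 := (hmemC b).2 hb
    obtain ⟨n, a', ha⟩ := hF ⟨b, h1⟩
    obtain ⟨a, rfl⟩ := Ideal.Quotient.mk_surjective a'
    exact ⟨n, a, by rw [hfa b h1]; exact ha⟩

end AM
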