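import Pool.Agent.AM.J7

/-!
# [AM-R2] finite rank from finiteness modulo all primes
-/

set_option autoImplicit false

namespace AM

theorem r2_index {B : Type*} [AddCommGroup B]
    (hfin : ∀ l : ℕ, l.Prime → (nsmulAddMonoidHom (α := B) l).range.FiniteIndex) (m : ℕ)
    (hm : m ≠ 0) : (nsmulAddMonoidHom (α := B) m).range.index ≠ 0 := by
  induction m using induction_on_primes with
  | zero => exact absurd rfl hm
  | one =>
    have h : (nsmulAddMonoidHom (α := B) 1).range = ⊤ := by
      rw [eq_top_iff]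
      intro x _
      exact ⟨x, one_nsmul x⟩
    rw [h, AddSubgroup.index_top]
    exact one_ne_zero
  | prime_mul l m hl ih =>
    have hm' : m ≠ 0 := fun h => hm (by rw [h, mul_zero])
    have h1 : (nsmulAddMonoidHom (α := B) (l * m)).range =
        (nsmulAddMonoidHom (α := B) m).range.map (nsmulAddMonoidHom (α := B) l) := by
      ext x
      constructor
      · rintro ⟨y, rfl⟩
        refine ⟨m • y, ⟨y, rfl⟩, ?_⟩
        change l • (m • y) = (l * m) • y
        rw [mul_comm, mul_nsmul]
      · rintro ⟨_, ⟨y, rfl⟩, rfl⟩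
        refine ⟨y, ?_⟩
        change (l * m) • y = l • (m • y)
        rw [mul_comm, mul_nsmul]
    rw [h1, AddSubgroup.index_map]
    refine mul_ne_zero ?_ (hfin l hl).index_ne_zero
    exact ne_zero_of_dvd_ne_zero (ih hm') (AddSubgroup.index_dvd_of_le le_sup_left)

/-- PROOF. `hall` over `ℤ`, `X = ⊤`, `Y = ⊥`: `s ≠ 0` and a linearly independent `b ⊆ B` with: for every `x` some `s^k x ∈ span b`. Let `ℓ` be a prime not dividing `s`. (1) `b` is finite: the elements of `b` are linearly independent over `ZMod ℓ` modulo `ℓ B`: if `∑ a_i b_i = ℓ x` then `s^k x = ∑ c_i b_i`, `s^k a_i = ℓ c_i`, `ℓ ∣ a_i`; and `B / ℓ B` is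
finite. Let `r₀ = |b|`. (2) `T = {x | ∃ k, s^k x = 0}` is an `H`-stable subgroup, so by `hall` generated by the images `ρ h a` of finitely many `a`, so there is one `k` with `s^k T = 0`. `T ⊓ s^k B = ⊥`: `x = s^k y ∈ T` implies `y ∈ T`, `x = 0`. `B / s^k B` is finite (`B / ℓ B` is finite for all primes `ℓ`; `B / m n B` is an extension of a
quotient of `B / n B` by `B / m B`), so `T` is finite. (3) `B / T` embeds into `ℚ^b`: `x ↦` the coordinates of `s^k x` divided by `s^k`, with kernel `T`. A finitely generated subgroup of `ℚ^b` is free of rank `≤ r₀`. So a finitely generated subgroup of `B` is generated by at most `r₀ + |T|` elements. -/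
theorem rank_of_hall {B : Type*} [AddCommGroup B] {H : Type*} [Group H] [Group.FG H]
    (ρ : H →* Module.End ℤ B) (c : ℕ) (hc : (⊤ : Subgroup H).lowerCentralSeries c ≤ ρ.ker)
    (hfg : FGq ρ (⊤ : Subgroup H) (⊤ : Submodule ℤ B))
    (hfin : ∀ l : ℕ, l.Prime → (nsmulAddMonoidHom (α := B) l).range.FiniteIndex) :
    ∃ r : ℕ, ∀ T : Finset B, ∃ T' : Finset B, T'.card ≤ r ∧
      AddSubgroup.closure (T' : Set B) = AddSubgroup.closure (T : Set B) := by
  classical
  have hG := hall ρ c hc ⊤ hfg
  obtain ⟨s, hs, b, _, hli0, hsp0⟩ := hG.2 ⊥ bot_le (fun q _ y hy => by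
    rw [Submodule.mem_bot] at hy
    rw [hy, map_zero]
    exact Submodule.zero_mem _)
  have hli : LinearIndependent ℤ (fun x : b => (x : B)) :=
    LinearIndependent.of_comp (Submodule.mkQ ⊥) hli0
  have hsp : ∀ x : B, ∃ k : ℕ, s ^ k • x ∈ Submodule.span ℤ b := by
    intro x
    obtain ⟨k, hk⟩ := hsp0 x Submodule.mem_top
    rw [sup_bot_eq] at hk
    exact ⟨k, hk⟩
  -- a prime which does not divide `s`
  obtain ⟨l, hl1, hl⟩ := Nat.exists_infinite_primes (s.natAbs + 1)
  have hls : ¬ (l : ℤ) ∣ s := by
    intro h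
    have h1 : l ∣ s.natAbs := Int.natCast_dvd.1 h
    have h2 := Nat.le_of_dvd (Int.natAbs_pos.2 hs) h1
    omega
  have hlp : Prime (l : ℤ) := Nat.prime_iff_prime_int.1 hl
  -- (1) `b` is finite
  have hbfin : Finite b := by
    have := hfin l hl
    let g : b → B ⧸ (nsmulAddMonoidHom (α := B) l).range := fun x => QuotientAddGroup.mk (x : B)
    have hg : Function.Injective g := by
      intro x y hxy
      by_contra hne
      have h1 : -(x : B) + (y : B) ∈ (nsmulAddMonoidHom (α := B) l).range :=
        QuotientAddGroup.eq.1 hxy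
      obtain ⟨z, hz⟩ := h1
      have hz' : (l : ℤ) • z = -(x : B) + (y : B) := by
        rw [natCast_zsmul]
        exact hz
      obtain ⟨k, hk⟩ := hsp z
      rw [Finsupp.mem_span_iff_linearCombination] at hk
      obtain ⟨f, hf⟩ := hk
      have h2 : Finsupp.linearCombination ℤ (fun x : b => (x : B)) ((l : ℤ) • f) =
          Finsupp.linearCombination ℤ (fun x : b => (x : B))
            (s ^ k • (Finsupp.single y 1 - Finsupp.single x 1)) := by
        rw [map_smul, map_smul, map_sub, Finsupp.linearCombination_single,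
          Finsupp.linearCombination_single, one_smul, one_smul]
        have h3 : Finsupp.linearCombination ℤ (fun x : b => (x : B)) f = s ^ k • z := hf
        rw [h3, smul_comm, hz', neg_add_eq_sub]
      have h3 := hli h2
      have h4 := DFunLike.congr_fun h3 y
      rw [Finsupp.smul_apply, Finsupp.smul_apply, Finsupp.sub_apply, Finsupp.single_eq_same,
        Finsupp.single_apply, if_neg hne, sub_zero, smul_eq_mul, smul_eq_mul, mul_one] at h4
      exact hls (hlp.dvd_of_dvd_pow ⟨f y, h4.symm⟩)
    exact Finite.of_injective g hg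
  -- (2) the torsion
  let Tt : Submodule ℤ B :=
    { carrier := {x | ∃ k : ℕ, s ^ k • x = 0}
      add_mem' := by
        rintro x y ⟨k, hk⟩ ⟨k', hk'⟩
        refine ⟨k + k', ?_⟩
        rw [smul_add, pow_add, mul_smul (s ^ k) (s ^ k') y, hk', smul_zero, add_zero,
          mul_comm, mul_smul, hk, smul_zero]
      zero_mem' := ⟨0, smul_zero _⟩
      smul_mem' := by
        rintro a x ⟨k, hk⟩
        refine ⟨k, ?_⟩
        rw [smul_comm, hk, smul_zero] }
  have hTst : St ρ (⊤ : Subgroup H) Tt := by
    rintro q _ y ⟨k, hk⟩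
    refine ⟨k, ?_⟩
    rw [← map_smul, hk, map_zero]
  obtain ⟨f, hf⟩ := hG.1 Tt le_top hTst
  have hK : ∃ K : ℕ, ∀ x ∈ Tt, s ^ K • x = 0 := by
    have h1 : ∀ a ∈ f, ∃ k : ℕ, s ^ k • a = 0 := by
      intro a ha
      have h2 : a ∈ Tt := by
        rw [hf]
        refine Submodule.subset_span ⟨1, Subgroup.mem_top _, a, ha, ?_⟩
        rw [map_one]
        rfl
      exact h2
    choose! κ hκ using h1
    refine ⟨∑ a ∈ f, κ a, fun x hx => ?_⟩
    rw [hf] at hx
    refine Submodule.span_induction ?_ (smul_zero _) ?_ ?_ hx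
    · rintro _ ⟨q, _, a, ha, rfl⟩
      have h2 : ∃ m, ∑ a ∈ f, κ a = m + κ a := by
        refine ⟨∑ a' ∈ f.erase a, κ a', ?_⟩
        exact (Finset.sum_erase_add f κ ha).symm
      obtain ⟨m, hm⟩ := h2
      rw [hm, ← map_smul, pow_add, mul_smul, hκ a ha, smul_zero, map_zero]
    · intro x y _ _ hx hy
      rw [smul_add, hx, hy, add_zero]
    · intro a x _ hx
      rw [smul_comm, hx, smul_zero]
  obtain ⟨K, hK⟩ := hK
  have hTfin : Finite Tt := by
    have hm0 : (s ^ K).natAbs ≠ 0 := Int.natAbs_ne_zero.2 (pow_ne_zero _ hs)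
    have h1 : (nsmulAddMonoidHom (α := B) (s ^ K).natAbs).range.FiniteIndex :=
      ⟨r2_index hfin _ hm0⟩
    let g : Tt → B ⧸ (nsmulAddMonoidHom (α := B) (s ^ K).natAbs).range := fun x =>
      QuotientAddGroup.mk (x : B)
    have habs : ∀ z : B, (s ^ K).natAbs • z = 0 ↔ s ^ K • z = 0 := by
      intro z
      rcases Int.natAbs_eq (s ^ K) with h | h
      · conv_rhs => rw [h]
        rw [natCast_zsmul]
      · conv_rhs => rw [h]
        rw [neg_smul, neg_eq_zero, natCast_zsmul]
    have hg : Function.Injective g := by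
      intro x y hxy
      have h2 : -(x : B) + (y : B) ∈ (nsmulAddMonoidHom (α := B) (s ^ K).natAbs).range :=
        QuotientAddGroup.eq.1 hxy
      obtain ⟨z, hz⟩ := h2
      have hz' : (s ^ K).natAbs • z = -(x : B) + (y : B) := hz
      have h3 : -(x : B) + (y : B) ∈ Tt := Tt.add_mem (Tt.neg_mem x.2) y.2
      have h4 : z ∈ Tt := by
        refine ⟨K + K, ?_⟩
        rw [pow_add, mul_smul, ← habs, smul_comm, hz']
        exact hK _ h3
      have h5 := (habs z).2 (hK z h4)
      rw [hz', neg_add_eq_zero] at h5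
      exact Subtype.ext h5
    exact Finite.of_injective g hg
  -- (3) the bound
  have := Fintype.ofFinite b
  have := Fintype.ofFinite Tt
  refine ⟨Fintype.card b + Fintype.card Tt, fun T => ?_⟩
  set A : Submodule ℤ B := Submodule.span ℤ (T : Set B) with hA
  have hM : ∃ M : ℕ, ∀ x ∈ A, s ^ M • x ∈ Submodule.span ℤ b := by
    choose κ hκ using hsp
    refine ⟨∑ a ∈ T, κ a, fun x hx => ?_⟩
    refine Submodule.span_induction ?_ ?_ ?_ ?_ hx
    · intro a ha
      have h2 : ∃ m, ∑ a ∈ T, κ a = m + κ a := by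
        refine ⟨∑ a' ∈ T.erase a, κ a', ?_⟩
        exact (Finset.sum_erase_add T κ ha).symm
      obtain ⟨m, hm⟩ := h2
      rw [hm, pow_add, mul_smul]
      exact Submodule.smul_mem _ _ (hκ a)
    · rw [smul_zero]
      exact Submodule.zero_mem _
    · intro x y _ _ hx hy
      rw [smul_add]
      exact Submodule.add_mem _ hx hy
    · intro a x _ hx
      rw [smul_comm]
      exact Submodule.smul_mem _ _ hx
  obtain ⟨M, hM⟩ := hM
  let φ : B →ₗ[ℤ] B := s ^ M • LinearMap.id
  have hφ : ∀ x, φ x = s ^ M • x := fun x => rfl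
  have hrange : Set.range (fun x : b => (x : B)) = b := Subtype.range_coe
  let bN := Module.Basis.span hli
  set N := Submodule.span ℤ (Set.range fun x : b => (x : B)) with hN
  have hAN : A.map φ ≤ N := by
    rintro _ ⟨x, hx, rfl⟩
    rw [hN, hrange]
    exact hM x hx
  obtain ⟨m, bL⟩ := Submodule.basisOfPidOfLE hAN bN
  have hmb : m ≤ Fintype.card b := by
    have h1 := Module.Basis.card_le_card_of_le hAN bN bL
    rwa [Fintype.card_fin] at h1
  have hlift : ∀ i : Fin m, ∃ a ∈ A, φ a = bL i := fun i => (bL i).2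
  choose a haA haφ using hlift
  let T1 : Finset B := Finset.univ.image a
  let T2 : Finset B :=
    ((Finset.univ : Finset Tt).image (Subtype.val : Tt → B)).filter (fun x => x ∈ A)
  refine ⟨T1 ∪ T2, ?_, ?_⟩
  · refine (Finset.card_union_le _ _).trans (Nat.add_le_add ?_ ?_)
    · refine Finset.card_image_le.trans ?_
      rw [Finset.card_univ, Fintype.card_fin]
      exact hmb
    · refine (Finset.card_filter_le _ _).trans (Finset.card_image_le.trans ?_)
      rw [Finset.card_univ]
  · rw [← Submodule.span_int_eq_addSubgroupClosure, ← Submodule.span_int_eq_addSubgroupClosure]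
    congr 1
    rw [← hA]
    apply le_antisymm
    · rw [Submodule.span_le]
      intro x hx
      rw [Finset.mem_coe, Finset.mem_union] at hx
      rcases hx with hx | hx
      · obtain ⟨i, _, rfl⟩ := Finset.mem_image.1 hx
        exact haA i
      · exact (Finset.mem_filter.1 hx).2
    · intro x hx
      have h1 : φ x ∈ A.map φ := ⟨x, hx, rfl⟩
      set cc := bL.repr ⟨φ x, h1⟩ with hcc
      have h2 : φ x = ∑ i, cc i • φ (a i) := by
        have h3 := bL.sum_repr ⟨φ x, h1⟩
        have h4 := congrArg (fun w : A.map φ => (w : B)) h3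
        simp only [Submodule.coe_sum, Submodule.coe_smul] at h4
        rw [← h4]
        refine Finset.sum_congr rfl fun i _ => ?_
        rw [haφ]
      have h3 : φ (x - ∑ i, cc i • a i) = 0 := by
        rw [map_sub, map_sum, h2]
        simp only [map_smul]
        rw [sub_self]
      have h4 : x - ∑ i, cc i • a i ∈ A :=
        A.sub_mem hx (A.sum_mem fun i _ => A.smul_mem _ (haA i))
      have h5 : x - ∑ i, cc i • a i ∈ Tt := ⟨M, h3⟩
      have h6 : x - ∑ i, cc i • a i ∈ Submodule.span ℤ ((T1 ∪ T2 : Finset B) : Set B) := by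
        apply Submodule.subset_span
        rw [Finset.mem_coe, Finset.mem_union]
        right
        rw [Finset.mem_filter, Finset.mem_image]
        exact ⟨⟨⟨_, h5⟩, Finset.mem_univ _, rfl⟩, h4⟩
      have h7 : ∑ i, cc i • a i ∈ Submodule.span ℤ ((T1 ∪ T2 : Finset B) : Set B) := by
        refine Submodule.sum_mem _ fun i _ => Submodule.smul_mem _ _ ?_
        apply Submodule.subset_span
        rw [Finset.mem_coe, Finset.mem_union]
        exact Or.inl (Finset.mem_image_of_mem _ (Finset.mem_univ i))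
      have h8 := Submodule.add_mem _ h6 h7
      rwa [sub_add_cancel] at h8

end AM
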