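import Pool.Agent.AM.R1
import Pool.Agent.AM.R2
import Pool.Agent.AM.E0
import Pool.Agent.AM.E1
import Pool.Agent.AG.S3

/-!
# [AM-R3] finite rank of `G ⧸ ⁅D, D⁆`
-/

set_option autoImplicit false

namespace AM

open AG

theorem r3_virt {G : Type*} [Group G] (D H : Subgroup G) [D.Normal] [H.FiniteIndex] (c : ℕ)
    (hc : H.lowerCentralSeries c ≤ D) : Group.IsVirtuallyNilpotent (G ⧸ D) := by
  refine ⟨H.map (QuotientGroup.mk' D), ?_, ⟨?_⟩⟩
  · apply Subgroup.isNilpotent_of_lowerCentralSeries_eq_bot (n := c)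
    rw [← Subgroup.map_lowerCentralSeries, eq_bot_iff]
    rintro _ ⟨x, hx, rfl⟩
    rw [Subgroup.mem_bot]
    exact (QuotientGroup.eq_one_iff _).2 (hc hx)
  · intro h0
    have h1 := Subgroup.index_map_dvd H (QuotientGroup.mk'_surjective D)
    rw [h0, zero_dvd_iff] at h1
    exact Subgroup.FiniteIndex.index_ne_zero h1

/-- the class of the elements of `D` -/
def r3_f {G : Type*} [Group G] {D D₁ : Subgroup G} {R : Type*} [CommRing R] {B : Type*}
    [AddCommGroup B] [Module R B] {π : G → B} {ρ : G →* Module.End R B}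
    (S : Sec D D₁ R B π ρ) : D →* Multiplicative B where
  toFun x := Multiplicative.ofAdd (π x)
  map_one' := by
    change Multiplicative.ofAdd (π 1) = 1
    rw [S.one, ofAdd_zero]
  map_mul' x y := by
    change Multiplicative.ofAdd (π ((x : G) * (y : G))) = _
    rw [S.add _ x.2 _ y.2, ofAdd_add]

theorem r3_surj {G : Type*} [Group G] {D D₁ : Subgroup G} {R : Type*} [CommRing R] {B : Type*}
    [AddCommGroup B] [Module R B] {π : G → B} {ρ : G →* Module.End R B}
    (S : Sec D D₁ R B π ρ) : Function.Surjective (r3_f S) := by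
  intro b
  obtain ⟨x, hx, h⟩ := S.surj (Multiplicative.toAdd b)
  refine ⟨⟨x, hx⟩, ?_⟩
  change Multiplicative.ofAdd (π x) = b
  rw [h, ofAdd_toAdd]

theorem r3_index {G : Type*} [Group G] {D : Subgroup G} {B : Type*}
    [AddCommGroup B] {π : G → B} {ρ : G →* Module.End ℤ B}
    (S : Sec D ⁅D, D⁆ ℤ B π ρ) (l : ℕ) (h : (s3_K D l).relIndex D ≠ 0) :
    (nsmulAddMonoidHom (α := B) l).range.FiniteIndex := by
  let N : Subgroup G :=
    { carrier := {y | y ∈ D ∧ π y ∈ (nsmulAddMonoidHom (α := B) l).range}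
      mul_mem' := by
        rintro a b ⟨ha, ha'⟩ ⟨hb, hb'⟩
        exact ⟨D.mul_mem ha hb, by rw [S.add a ha b hb]; exact add_mem ha' hb'⟩
      one_mem' := ⟨D.one_mem, by rw [S.one]; exact zero_mem _⟩
      inv_mem' := by
        rintro a ⟨ha, ha'⟩
        exact ⟨D.inv_mem ha, by rw [S.inv ha]; exact neg_mem ha'⟩ }
  have hK : s3_K D l ≤ N := by
    unfold s3_K
    rw [Subgroup.closure_le]
    rintro x (hx | ⟨d, hd, rfl⟩)
    · refine ⟨Subgroup.commutator_le_self D hx, ?_⟩
      rw [(S.ker x (Subgroup.commutator_le_self D hx)).2 hx]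
      exact zero_mem _
    · refine ⟨D.pow_mem hd l, ?_⟩
      rw [S.pow hd]
      exact ⟨π d, rfl⟩
  have h1 : (s3_K D l).subgroupOf D ≤
      (AddSubgroup.toSubgroup (nsmulAddMonoidHom (α := B) l).range).comap (r3_f S) := by
    intro x hx
    rw [Subgroup.mem_subgroupOf] at hx
    rw [Subgroup.mem_comap]
    exact (hK hx).2
  have h2 := Subgroup.index_dvd_of_le h1
  rw [Subgroup.index_comap_of_surjective _ (r3_surj S)] at h2
  refine ⟨fun h0 => h ?_⟩
  have h3 : (AddSubgroup.toSubgroup (nsmulAddMonoidHom (α := B) l).range).index = 0 := h0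
  rw [h3, zero_dvd_iff] at h2
  exact h2

theorem r3_rank {B : Type*} [AddCommGroup B] (r : ℕ)
    (h : ∀ T : Finset B, ∃ T' : Finset B, T'.card ≤ r ∧
      AddSubgroup.closure (T' : Set B) = AddSubgroup.closure (T : Set B)) :
    RankLe (Multiplicative B) r := by
  classical
  intro K hK
  obtain ⟨T, hT⟩ := hK
  obtain ⟨T', h1, h2⟩ := h (T.image Multiplicative.toAdd)
  have e2 : (Multiplicative.toAdd ⁻¹' ((T.image Multiplicative.toAdd : Finset B) : Set B)) =
      (T : Set (Multiplicative B)) := by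
    rw [Finset.coe_image]
    exact Set.preimage_image_eq _ Multiplicative.toAdd.injective
  have e1 : (Multiplicative.toAdd ⁻¹' (T' : Set B)) =
      ((T'.image Multiplicative.ofAdd : Finset (Multiplicative B)) : Set (Multiplicative B)) := by
    ext x
    rw [Set.mem_preimage, Finset.mem_coe, Finset.mem_coe, Finset.mem_image]
    constructor
    · intro hx
      exact ⟨_, hx, rfl⟩
    · rintro ⟨y, hy, rfl⟩
      exact hy
  refine ⟨T'.image Multiplicative.ofAdd, Finset.card_image_le.trans h1, ?_⟩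
  rw [← hT, ← e2, ← e1, ← AddSubgroup.toSubgroup_closure, ← AddSubgroup.toSubgroup_closure, h2]

/-- the section as a subgroup of `G ⧸ D₁` -/
theorem r3_equiv {G : Type*} [Group G] {D D₁ : Subgroup G} [D₁.Normal] {R : Type*} [CommRing R]
    {B : Type*} [AddCommGroup B] [Module R B] {π : G → B} {ρ : G →* Module.End R B}
    (S : Sec D D₁ R B π ρ) :
    Nonempty (Multiplicative B ≃* D.map (QuotientGroup.mk' D₁)) := by
  let g : D →* G ⧸ D₁ := (QuotientGroup.mk' D₁).comp D.subtype
  have hg : g.range = D.map (QuotientGroup.mk' D₁) := by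
    change ((QuotientGroup.mk' D₁).comp D.subtype).range = _
    rw [MonoidHom.range_comp, Subgroup.range_subtype]
  have hker : (r3_f S).ker = g.ker := by
    ext x
    rw [MonoidHom.mem_ker, MonoidHom.mem_ker]
    have h1 : g x = 1 ↔ (x : G) ∈ D₁ := QuotientGroup.eq_one_iff _
    have h2 : r3_f S x = 1 ↔ π (x : G) = 0 := Iff.rfl
    rw [h1, h2, S.ker _ x.2]
  exact ⟨(QuotientGroup.quotientKerEquivOfSurjective _ (r3_surj S)).symm.trans
    ((QuotientGroup.quotientMulEquivOfEq hker).trans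
      ((QuotientGroup.quotientKerEquivRange g).trans (MulEquiv.subgroupCongr hg)))⟩


/-- PROOF. `exists_secZ` for `D`, `⁅D, D⁆`: `B`, `π`, `ρ`. `rank_of_hall` for the action of `H` (`Sec.lcs_le_ker`, `Sec.fg`): `π ⁻¹ (l B) = s3_K D l` on `D` (`x ∈ D` with `π x = l π y`: `x (y ^ l)⁻¹ ∈ ⁅D, D⁆`), so `l B` has finite index in `B`. So the finitely generated subgroups of `D ⧸ ⁅D, D⁆`, i.e. of the subgroup `D.map (QuotientGroup.mk' ⁅D, D⁆)` of
`G ⧸ ⁅D, D⁆`, are generated by `≤ r` elements. The quotient of `G ⧸ ⁅D, D⁆` by it is isomorphic to `G ⧸ D` (`QuotientGroup.quotientQuotientEquivQuotient`), finitely generated and virtually nilpotent (the image of `H`), of finite rank by `finRank_of_virtually_nilpotent`. `rankLe_ext`, `rankLe_of_mulEquiv`. -/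
theorem finRank_quot {G : Type*} [Group G] [Group.FG G] (D H : Subgroup G) [D.Characteristic]
    [H.Characteristic] [H.FiniteIndex] (hDH : D ≤ H) (c : ℕ) (hc : H.lowerCentralSeries c ≤ D)
    (hfin : ∀ l : ℕ, l.Prime → (s3_K D l).relIndex D ≠ 0) :
    FinRank (G ⧸ (⁅D, D⁆ : Subgroup G)) := by
  obtain ⟨B, hB, π, ρ, S⟩ := exists_secZ D ⁅D, D⁆ (Subgroup.commutator_le_self D) le_rfl
  have hHfg : Group.FG H := inferInstance
  have hHfg' : H.FG := (Group.fg_iff_subgroup_fg H).1 hHfg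
  obtain ⟨r, hr⟩ := rank_of_hall (ρ.comp H.subtype) c (S.lcs_le_ker le_rfl H c hc)
    (S.fg H hHfg' hDH c hc) (fun l hl => r3_index S l (hfin l hl))
  obtain ⟨e⟩ := r3_equiv S
  have h1 : RankLe (D.map (QuotientGroup.mk' (⁅D, D⁆ : Subgroup G))) r :=
    rankLe_of_mulEquiv e (r3_rank r hr)
  obtain ⟨r₂, h2⟩ := finRank_of_virtually_nilpotent (r3_virt D H c hc)
  have h3 : RankLe ((G ⧸ (⁅D, D⁆ : Subgroup G)) ⧸
      D.map (QuotientGroup.mk' (⁅D, D⁆ : Subgroup G))) r₂ :=
    rankLe_of_mulEquiv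
      (QuotientGroup.quotientQuotientEquivQuotient _ D (Subgroup.commutator_le_self D)).symm h2
  exact ⟨_, rankLe_ext _ h1 h3⟩

end AM
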