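import Pool.Agent.AM.C3
import Pool.Agent.AM.E10
import Pool.Agent.AM.R3
import Pool.Agent.AG.B2
import Pool.Agent.AG.C5
import Pool.Agent.AG.S1
import Pool.Agent.AG.S5

/-!
# [AM-F1] the final theorem
-/

set_option autoImplicit false

namespace AM

open AG

/-- PROOF (helper81). `chain`: `D`, `H`, `c`. Case 1: `(s3_K D p).relIndex D = 0` for some prime `p`: `Pair p H D (s3_K D p)`, `exists_coreP`, `dom_of_coreP`. Case 2: `finRank_quot`; `Q = G ⧸ ⁅D, D⁆` is virtually solvable, not virtually nilpotent (`chain`), of finite rank: `exists_core`, `core`, `quot_dom`. -/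
theorem dom_of_virtSolvable {G : Type*} [Group G] (S : Finset G)
    (hS : Subgroup.closure (S : Set G) = ⊤) (hs : VirtSolvable G)
    (hn : ¬ Group.IsVirtuallyNilpotent G) : Dom (fun n => 2 ^ n) (autGrowth S) := by
  have hfg : Group.FG G := ⟨⟨S, hS⟩⟩
  obtain ⟨D, H, hD, hH, hHf, hDH, ⟨c, hc⟩, hlast⟩ := chain G hs hn
  have hHfg : H.FG := (Group.fg_iff_subgroup_fg H).1 (Subgroup.fg_of_index_ne_zero H)
  by_cases hcase : ∃ p : ℕ, p.Prime ∧ (s3_K D p).relIndex D = 0
  · obtain ⟨p, hp, hinf⟩ := hcase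
    haveI : Fact p.Prime := ⟨hp⟩
    have hpair : Pair p H D (s3_K D p) :=
      ⟨s3_K_le D p, hDH, s3_comm_le_K D p, fun x hx => s3_pow_mem D p x hx, hinf⟩
    obtain ⟨K, _, _, Γ, t, g, x, f, 𝔸, hcore⟩ :=
      exists_coreP p H hHfg D (s3_K D p) hD (s3_K_char D p) c hc hpair
    exact dom_of_coreP S hS hcore
  · push Not at hcase
    obtain ⟨r, hr⟩ := finRank_quot D H hDH c hc hcase
    have hsQ : VirtSolvable (G ⧸ (⁅D, D⁆ : Subgroup G)) := by
      obtain ⟨H₀, hH₀, hsol⟩ := hs
      refine ⟨H₀.map (QuotientGroup.mk' ⁅D, D⁆), ?_, ?_⟩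
      · exact ⟨fun h0 => hH₀.index_ne_zero (by
          have h1 := Subgroup.index_map_dvd H₀ (QuotientGroup.mk'_surjective (⁅D, D⁆ : Subgroup G))
          rw [h0, zero_dvd_iff] at h1
          exact h1)⟩
      · exact Group.isSolvable_of_surjective
          (MonoidHom.subgroupMap_surjective (QuotientGroup.mk' (⁅D, D⁆ : Subgroup G)) H₀)
    have hnQ : ¬ Group.IsVirtuallyNilpotent (G ⧸ (⁅D, D⁆ : Subgroup G)) := by
      rintro ⟨L, hL, hLf⟩
      obtain ⟨c', hc'⟩ := Subgroup.nilpotent_iff_lowerCentralSeries.1 hL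
      have hmap : L.lowerCentralSeries c' = ⊥ := by
        rw [← Subgroup.top_subtype_lowerCentralSeries L c', hc', Subgroup.map_bot]
      have hfi : (L.comap (QuotientGroup.mk' (⁅D, D⁆ : Subgroup G))).FiniteIndex := ⟨by
        rw [Subgroup.index_comap_of_surjective _ (QuotientGroup.mk'_surjective _)]
        exact hLf.index_ne_zero⟩
      refine hlast (L.comap (QuotientGroup.mk' ⁅D, D⁆)) hfi c' ?_
      have h1 : ((L.comap (QuotientGroup.mk' (⁅D, D⁆ : Subgroup G))).lowerCentralSeries c').map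
          (QuotientGroup.mk' (⁅D, D⁆ : Subgroup G)) = ⊥ := by
        rw [Subgroup.map_lowerCentralSeries, Subgroup.map_comap_eq_self_of_surjective
          (QuotientGroup.mk'_surjective _), hmap]
      rwa [Subgroup.map_eq_bot_iff, QuotientGroup.ker_mk'] at h1
    obtain ⟨C, H', hC, hH', hHfg', χ, f, m, g, x, hcore⟩ :=
      exists_core (G ⧸ (⁅D, D⁆ : Subgroup G)) hr hsQ hnQ
    classical
    set S' : Finset (G ⧸ (⁅D, D⁆ : Subgroup G)) := S.image (QuotientGroup.mk' ⁅D, D⁆) with hS'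
    have hS'top : Subgroup.closure (S' : Set (G ⧸ (⁅D, D⁆ : Subgroup G))) = ⊤ := by
      rw [hS', Finset.coe_image, ← MonoidHom.map_closure, hS, ← MonoidHom.range_eq_map,
        MonoidHom.range_eq_top]
      exact QuotientGroup.mk'_surjective _
    haveI : FiniteDimensional QB (Additive C →+ QB) := finiteDimensional_of_rank hr C QB
    exact quot_dom ⁅D, D⁆ S hS S' (core S' hS'top hHfg' hcore)

/-- assembly (helper81) -/
theorem main {G : Type*} [Group G] (S : Finset G) (hS : Subgroup.closure (S : Set G) = ⊤)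
    (N : Subgroup G) [N.Characteristic] (hs : VirtSolvable (G ⧸ N))
    (hn : ¬ Group.IsVirtuallyNilpotent (G ⧸ N)) : Exponential (autGrowth S) := by
  classical
  refine ⟨dom_autGrowth S, quot_dom N S hS (S.image (QuotientGroup.mk' N)) ?_⟩
  refine dom_of_virtSolvable (S.image (QuotientGroup.mk' N)) ?_ hs hn
  rw [Finset.coe_image, ← MonoidHom.map_closure, hS, ← MonoidHom.range_eq_map,
    MonoidHom.range_eq_top]
  exact QuotientGroup.mk'_surjective _

end AM
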