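import Pool.Agent.AG.Defs
import Pool.Agent.AG.S1

/-!
# [AM-F2] virtual quotients
-/

set_option autoImplicit false

namespace AM

open AG

theorem f2_map {G G' : Type*} [Group G] [Group G'] (f : G →* G') (K : Subgroup G) (i : ℕ) :
    (s1_D K i).map f = s1_D (K.map f) i := by
  induction i with
  | zero => rfl
  | succ i ih =>
    show (⁅s1_D K i, s1_D K i⁆ : Subgroup G).map f = ⁅s1_D (K.map f) i, s1_D (K.map f) i⁆
    rw [Subgroup.map_commutator, ih]

theorem f2_mono {G : Type*} [Group G] {K K' : Subgroup G} (h : K ≤ K') (i : ℕ) :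
    s1_D K i ≤ s1_D K' i := by
  induction i with
  | zero => exact h
  | succ i ih => exact Subgroup.commutator_mono ih ih

theorem f2_le {G : Type*} [Group G] (K : Subgroup G) (i : ℕ) : s1_D K i ≤ K := by
  rw [s1_D_eq]
  exact Subgroup.map_subtype_le _

theorem f2_solv {G : Type*} [Group G] (K : Subgroup G) (i : ℕ) (h : s1_D K i = ⊥) :
    Group.IsSolvable K := by
  rw [s1_D_eq, Subgroup.map_eq_bot_iff, Subgroup.ker_subtype, le_bot_iff] at h
  exact (Group.isSolvable_def K).2 ⟨i, h⟩

/-- PROOF. `Q₀ ≤ Q` solvable of finite index, of derived length `d`. `H₀ = (Q₀.comap π).map H.subtype`, of finite index in `G`. `AG.exists_char`: `K ≤ H₀` characteristic of finite index. `N = AG.s1_D K d`, the `d`-th derived subgroup of `K` as a subgroup of `G`, characteristic (`AG.s1_D_char`, `AG.s1_D_eq`). The image of `K` in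
`G ⧸ N` is solvable of finite index. `N ≤ K ≤ H` and `π` is trivial on `N` (`π` maps `K` into `Q₀`, so it maps the `d`-th derived subgroup of `K` to `1`). Suppose that `G ⧸ N` has a nilpotent subgroup of finite index; let `L` be its preimage: of finite index in `G`, `L.lowerCentralSeries c ≤ N`. Then `L ⊓ K` has finite index and
`(L ⊓ K).lowerCentralSeries c ≤ N`, so the image of `L ⊓ K` (a subgroup of `H`) under `π` is nilpotent (`Subgroup.map_lowerCentralSeries`), and of finite index in `Q` as `π` is surjective: a contradiction. -/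
theorem exists_char_of_virtual_quotient {G : Type*} [Group G] [Group.FG G] (H : Subgroup G)
    [H.FiniteIndex] {Q : Type*} [Group Q] (π : H →* Q) (hπ : Function.Surjective π)
    (hs : VirtSolvable Q) (hn : ¬ Group.IsVirtuallyNilpotent Q) :
    ∃ (N : Subgroup G) (_ : N.Characteristic), VirtSolvable (G ⧸ N) ∧
      ¬ Group.IsVirtuallyNilpotent (G ⧸ N) := by
  obtain ⟨Q₀, hQ₀, hsol⟩ := hs
  obtain ⟨d, hd⟩ := (Group.isSolvable_def Q₀).1 hsol
  have hQd : s1_D Q₀ d = ⊥ := by rw [s1_D_eq, hd, Subgroup.map_bot]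
  have hfin0 : ((Q₀.comap π).map H.subtype).FiniteIndex := by
    constructor
    rw [Subgroup.index_map_subtype, Subgroup.index_comap_of_surjective Q₀ hπ]
    exact mul_ne_zero hQ₀.index_ne_zero Subgroup.FiniteIndex.index_ne_zero
  obtain ⟨K, hK, hKc, hKf⟩ := exists_char G ((Q₀.comap π).map H.subtype)
  have hKH : K ≤ H := hK.trans (Subgroup.map_subtype_le _)
  have hNc : (s1_D K d).Characteristic := s1_D_char K hKc d
  refine ⟨s1_D K d, hNc, ?_, ?_⟩
  · refine ⟨K.map (QuotientGroup.mk' (s1_D K d)), ?_, ?_⟩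
    · constructor
      have hdvd := K.index_map_dvd (QuotientGroup.mk'_surjective (s1_D K d))
      exact fun h0 => hKf.index_ne_zero (Nat.eq_zero_of_zero_dvd (h0 ▸ hdvd))
    · apply f2_solv _ d
      rw [← f2_map, Subgroup.map_eq_bot_iff, QuotientGroup.ker_mk']
  · rintro ⟨L', hnil, hfinL⟩
    obtain ⟨c, hc⟩ := (Subgroup.isNilpotent_iff_lowerCentralSeries L').1 hnil
    set L : Subgroup G := L'.comap (QuotientGroup.mk' (s1_D K d)) with hL
    have hLf : L.FiniteIndex := by
      constructor
      rw [hL, Subgroup.index_comap_of_surjective L' (QuotientGroup.mk'_surjective _)]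
      exact hfinL.index_ne_zero
    have hLc : L.lowerCentralSeries c ≤ s1_D K d := by
      have h1 : (L.lowerCentralSeries c).map (QuotientGroup.mk' (s1_D K d)) = ⊥ := by
        rw [Subgroup.map_lowerCentralSeries, hL,
          Subgroup.map_comap_eq_self_of_surjective (QuotientGroup.mk'_surjective _), hc]
      rwa [Subgroup.map_eq_bot_iff, QuotientGroup.ker_mk'] at h1
    set J : Subgroup H := (L ⊓ K).subgroupOf H with hJ
    have hJmap : J.map H.subtype = L ⊓ K :=
      Subgroup.map_subgroupOf_eq_of_le (inf_le_right.trans hKH)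
    have hLK : (L ⊓ K).FiniteIndex := inferInstance
    have hJf : J.FiniteIndex := by
      rw [hJ]
      infer_instance
    have hKmap : (K.subgroupOf H).map H.subtype = K := Subgroup.map_subgroupOf_eq_of_le hKH
    have hKQ : (K.subgroupOf H).map π ≤ Q₀ := by
      rw [Subgroup.map_le_iff_le_comap]
      intro y hy
      rw [Subgroup.mem_subgroupOf] at hy
      obtain ⟨z, hz, hzy⟩ := hK hy
      have : z = y := Subtype.ext hzy
      rw [← this]
      exact hz
    have hker : ∀ y : H, (y : G) ∈ s1_D K d → π y = 1 := by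
      intro y hy
      rw [← hKmap, ← f2_map] at hy
      obtain ⟨z, hz, hzy⟩ := hy
      have hzy' : z = y := Subtype.ext hzy
      rw [hzy'] at hz
      have h1 : π y ∈ (s1_D (K.subgroupOf H) d).map π := ⟨y, hz, rfl⟩
      rw [f2_map] at h1
      have h2 := f2_mono hKQ d h1
      rw [hQd] at h2
      exact Subgroup.mem_bot.1 h2
    apply hn
    refine ⟨J.map π, ?_, ?_⟩
    · rw [Subgroup.isNilpotent_iff_lowerCentralSeries]
      refine ⟨c, ?_⟩
      rw [← Subgroup.map_lowerCentralSeries, eq_bot_iff]
      rintro _ ⟨y, hy, rfl⟩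
      rw [Subgroup.mem_bot]
      apply hker
      have h1 : (y : G) ∈ (J.lowerCentralSeries c).map H.subtype := ⟨y, hy, rfl⟩
      rw [Subgroup.map_lowerCentralSeries, hJmap] at h1
      exact hLc (Subgroup.lowerCentralSeries_mono c inf_le_left h1)
    · constructor
      have hdvd := J.index_map_dvd hπ
      exact fun h0 => hJf.index_ne_zero (Nat.eq_zero_of_zero_dvd (h0 ▸ hdvd))

end AM
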