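import Pool.Agent.AG.Defs

/-!
# [AM-F3] free groups have a solvable quotient which is not virtually nilpotent
-/

set_option autoImplicit false

namespace AM

open AG

/-- multiplication by a rational number -/
def f3_phi : ℚˣ →* MulAut (Multiplicative ℚ) where
  toFun u :=
    { toFun := fun x => Multiplicative.ofAdd ((u : ℚ) * Multiplicative.toAdd x)
      invFun := fun x => Multiplicative.ofAdd (((u⁻¹ : ℚˣ) : ℚ) * Multiplicative.toAdd x)
      left_inv := fun x => by
        change Multiplicative.ofAdd (((u⁻¹ : ℚˣ) : ℚ) * ((u : ℚ) * Multiplicative.toAdd x)) = x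
        rw [← mul_assoc, Units.inv_mul, one_mul, ofAdd_toAdd]
      right_inv := fun x => by
        change Multiplicative.ofAdd ((u : ℚ) * (((u⁻¹ : ℚˣ) : ℚ) * Multiplicative.toAdd x)) = x
        rw [← mul_assoc, Units.mul_inv, one_mul, ofAdd_toAdd]
      map_mul' := fun x y => by
        rw [toAdd_mul, mul_add, ofAdd_add] }
  map_one' := by
    ext x
    change Multiplicative.ofAdd (((1 : ℚˣ) : ℚ) * Multiplicative.toAdd x) = x
    rw [Units.val_one, one_mul, ofAdd_toAdd]
  map_mul' u v := by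
    ext x
    change Multiplicative.ofAdd (((u * v : ℚˣ) : ℚ) * Multiplicative.toAdd x) =
      Multiplicative.ofAdd ((u : ℚ) * ((v : ℚ) * Multiplicative.toAdd x))
    rw [Units.val_mul, mul_assoc]

/-- the affine maps of the rational line -/
abbrev f3_A : Type := SemidirectProduct (Multiplicative ℚ) ℚˣ f3_phi

theorem f3_solvable : Group.IsSolvable f3_A :=
  Group.isSolvable_of_ker_le_range (SemidirectProduct.inl : Multiplicative ℚ →* f3_A)
    (SemidirectProduct.rightHom : f3_A →* ℚˣ)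
    (le_of_eq SemidirectProduct.range_inl_eq_ker_rightHom.symm)

/-- translations -/
def f3_t (q : ℚ) : f3_A := SemidirectProduct.inl (Multiplicative.ofAdd q)

/-- homotheties -/
def f3_m (u : ℚˣ) : f3_A := SemidirectProduct.inr u

theorem f3_comm (q : ℚ) (u : ℚˣ) : f3_t q * f3_m u * (f3_t q)⁻¹ * (f3_m u)⁻¹ =
    f3_t ((1 - (u : ℚ)) * q) := by
  have h1 : (f3_t q)⁻¹ = f3_t (-q) := by
    unfold f3_t
    rw [← map_inv, ofAdd_neg]
  have h2 : f3_m u * f3_t (-q) * (f3_m u)⁻¹ = f3_t ((u : ℚ) * (-q)) := by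
    unfold f3_m f3_t
    rw [← map_inv, ← SemidirectProduct.inl_aut]
    rfl
  have h3 : f3_t ((1 - (u : ℚ)) * q) = f3_t q * f3_t ((u : ℚ) * (-q)) := by
    unfold f3_t
    rw [← map_mul, ← ofAdd_add]
    congr 2
    ring
  rw [h1, h3, ← h2]
  group

theorem f3_pow (u : ℚˣ) (k : ℕ) : f3_m u ^ k = f3_m (u ^ k) := by
  unfold f3_m
  rw [map_pow]

theorem f3_t_pow (q : ℚ) (k : ℕ) : f3_t q ^ k = f3_t (k * q) := by
  unfold f3_t
  rw [← map_pow, ← ofAdd_nsmul, nsmul_eq_mul]

theorem f3_t_ne {q : ℚ} (hq : q ≠ 0) : f3_t q ≠ 1 := by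
  intro h
  apply hq
  have h1 := SemidirectProduct.inl_injective (φ := f3_phi) (h.trans (map_one _).symm)
  exact h1

/-- no subgroup with a translation and a homothety is nilpotent -/
theorem f3_lcs (L : Subgroup f3_A) (u : ℚˣ) (hu : (u : ℚ) ≠ 1) (hL : f3_m u ∈ L) (q : ℚ)
    (hq : q ≠ 0) (hqL : f3_t q ∈ L) (n : ℕ) : ∃ r : ℚ, r ≠ 0 ∧ f3_t r ∈ L.lowerCentralSeries n := by
  induction n with
  | zero => exact ⟨q, hq, hqL⟩
  | succ n ih =>
    obtain ⟨r, hr, hrL⟩ := ih
    refine ⟨(1 - (u : ℚ)) * r, mul_ne_zero (sub_ne_zero.2 (Ne.symm hu)) hr, ?_⟩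
    rw [← f3_comm, ← commutatorElement_def, Subgroup.lowerCentralSeries_succ]
    exact Subgroup.commutator_mem_commutator hrL hL

theorem f3_not (R : Subgroup f3_A) (h1 : f3_m (Units.mk0 2 two_ne_zero) ∈ R) (h2 : f3_t 1 ∈ R) :
    ¬ Group.IsVirtuallyNilpotent R := by
  rintro ⟨N, hN, hfin⟩
  obtain ⟨n, hn⟩ := (Subgroup.isNilpotent_iff_lowerCentralSeries N).1 hN
  obtain ⟨k, hk, -, hk'⟩ := Subgroup.exists_pow_mem_of_index_ne_zero
    (Subgroup.FiniteIndex.index_ne_zero (H := N)) (⟨_, h1⟩ : R)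
  obtain ⟨m, hm, -, hm'⟩ := Subgroup.exists_pow_mem_of_index_ne_zero
    (Subgroup.FiniteIndex.index_ne_zero (H := N)) (⟨_, h2⟩ : R)
  have h3 : f3_m ((Units.mk0 2 two_ne_zero) ^ k) ∈ N.map R.subtype :=
    ⟨_, hk', by
      change (f3_m (Units.mk0 2 two_ne_zero)) ^ k = _
      rw [f3_pow]⟩
  have h4 : f3_t ((m : ℚ) * 1) ∈ N.map R.subtype :=
    ⟨_, hm', by
      change (f3_t 1) ^ m = _
      rw [f3_t_pow]⟩
  have hu : (((Units.mk0 (2 : ℚ) two_ne_zero) ^ k : ℚˣ) : ℚ) ≠ 1 := by
    rw [Units.val_pow_eq_pow_val, Units.val_mk0]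
    exact (one_lt_pow₀ (by norm_num) hk.ne').ne'
  obtain ⟨r, hr, hrL⟩ := f3_lcs _ _ hu h3 _ (by
    rw [mul_one]
    exact_mod_cast hm.ne') h4 n
  rw [← Subgroup.map_lowerCentralSeries, hn, Subgroup.map_bot, Subgroup.mem_bot] at hrL
  exact f3_t_ne hr hrL


/-- PROOF. The group of the affine maps of `ℚ`: `A` = the subgroup of `Equiv.Perm ℚ` (or of `GL (Fin 2) ℚ`) generated by `a : x ↦ 2 x` and `b : x ↦ x + 1`; all its elements are of the form `x ↦ 2 ^ k x + c` (`k : ℤ`, `c : ℚ`), and `k` is a homomorphism to `ℤ` (written multiplicatively: the slope) with abelian kernel, so `A` is solvable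
(`Group.isSolvable_of_...`: extension, or the commutators of commutators are trivial, `derivedSeries A 2 = ⊥`). `A` is a quotient of `FreeGroup (Fin 2)` (`FreeGroup.lift`, the range is the closure). `A` is not virtually nilpotent: a subgroup `L` of finite index contains `a ^ k` and `b ^ m` for some `k, m > 0`; for the translation
`b ^ q` by `q` the commutator `⁅a ^ k, b ^ q⁆` is the translation by `(2 ^ k - 1) q`, so every term of the lower central series of `L` contains a nontrivial translation. -/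
theorem exists_quotient_free : ∃ (Q : Type) (_ : Group Q) (π : FreeGroup (Fin 2) →* Q),
    Function.Surjective π ∧ VirtSolvable Q ∧ ¬ Group.IsVirtuallyNilpotent Q := by
  let f : FreeGroup (Fin 2) →* f3_A :=
    FreeGroup.lift ![f3_m (Units.mk0 2 two_ne_zero), f3_t 1]
  have hsol : Group.IsSolvable f3_A := f3_solvable
  refine ⟨f.range, inferInstance, f.rangeRestrict, f.rangeRestrict_surjective,
    ⟨⊤, inferInstance, inferInstance⟩, f3_not _ ⟨FreeGroup.of 0, ?_⟩ ⟨FreeGroup.of 1, ?_⟩⟩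
  · change FreeGroup.lift _ _ = _
    rw [FreeGroup.lift_apply_of]
    rfl
  · change FreeGroup.lift _ _ = _
    rw [FreeGroup.lift_apply_of]
    rfl

end AM
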