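import Pool.Agent.AM.F1
import Pool.Agent.AM.F2
import Pool.Agent.AM.F3

/-!
# [AM-F4] the final theorem
-/

set_option autoImplicit false

namespace AM

open AG

/-- `G` has a subgroup `H` of finite index with a quotient `H ⧸ M` which is virtually solvable and not virtually nilpotent -/
def HasSolvable (G : Type*) [Group G] : Prop :=
  ∃ (H : Subgroup G) (M : Subgroup H) (_ : M.Normal), H.FiniteIndex ∧ VirtSolvable (H ⧸ M) ∧
    ¬ Group.IsVirtuallyNilpotent (H ⧸ M)

/-- `G` is large: a subgroup of finite index maps onto the free group of rank two -/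
def Large (G : Type*) [Group G] : Prop :=
  ∃ (H : Subgroup G) (f : H →* FreeGroup (Fin 2)), H.FiniteIndex ∧ Function.Surjective f

/-- assembly (helper81) -/
theorem final {G : Type*} [Group G] (S : Finset G) (hS : Subgroup.closure (S : Set G) = ⊤)
    (h : HasSolvable G ∨ Large G) : Exponential (autGrowth S) := by
  have hfg : Group.FG G := ⟨⟨S, hS⟩⟩
  rcases h with ⟨H, M, hM, hH, hs, hn⟩ | ⟨H, f, hH, hf⟩
  · obtain ⟨N, hN, h1, h2⟩ := exists_char_of_virtual_quotient H (QuotientGroup.mk' M)
      (QuotientGroup.mk'_surjective M) hs hn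
    exact main S hS N h1 h2
  · obtain ⟨Q, _, π, hπ, hs, hn⟩ := exists_quotient_free
    obtain ⟨N, hN, h1, h2⟩ := exists_char_of_virtual_quotient H (π.comp f) (hπ.comp hf) hs hn
    exact main S hS N h1 h2

end AM
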