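import Pool.Agent.AM.Defs

/-!
# [AM-J1] modules with a group action: basic facts
-/

set_option autoImplicit false

namespace AM

variable {J : Type*} [CommRing J] {B : Type*} [AddCommGroup B] [Module J B] {P : Type*} [Group P]
  (ρ : P →* Module.End J B)

theorem subset_sp (Q : Subgroup P) (f : Set B) : f ⊆ sp ρ Q f := by
  intro a ha
  exact Submodule.subset_span ⟨1, Q.one_mem, a, ha, by rw [map_one]; rfl⟩

theorem sp_stable (Q : Subgroup P) (f : Set B) : St ρ Q (sp ρ Q f) := by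
  intro q hq x hx
  have h : sp ρ Q f ≤ (sp ρ Q f).comap (ρ q) := by
    unfold sp
    rw [Submodule.span_le]
    rintro b ⟨r, hr, a, ha, rfl⟩
    refine Submodule.subset_span ⟨q * r, Q.mul_mem hq hr, a, ha, ?_⟩
    rw [map_mul]
    rfl
  exact h hx

theorem sp_le {Q : Subgroup P} {f : Set B} {Y : Submodule J B} (hY : St ρ Q Y)
    (hf : f ⊆ (Y : Set B)) : sp ρ Q f ≤ Y := by
  unfold sp
  rw [Submodule.span_le]
  rintro b ⟨q, hq, a, ha, rfl⟩
  exact hY q hq a (hf ha)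

theorem j1_sp_mono (Q : Subgroup P) {f g : Set B} (h : f ⊆ g) : sp ρ Q f ≤ sp ρ Q g :=
  sp_le ρ (sp_stable ρ Q g) (h.trans (subset_sp ρ Q g))

theorem j1_sup {Q : Subgroup P} {X Y : Submodule J B} (hX : St ρ Q X) (hY : St ρ Q Y) :
    St ρ Q (X ⊔ Y) := by
  intro q hq x hx
  obtain ⟨a, ha, b, hb, rfl⟩ := Submodule.mem_sup.1 hx
  rw [map_add]
  exact Submodule.add_mem_sup (hX q hq a ha) (hY q hq b hb)

theorem sp_union (Q : Subgroup P) (f g : Set B) : sp ρ Q (f ∪ g) = sp ρ Q f ⊔ sp ρ Q g := by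
  apply le_antisymm
  · apply sp_le ρ (j1_sup ρ (sp_stable ρ Q f) (sp_stable ρ Q g))
    apply Set.union_subset
    · exact (subset_sp ρ Q f).trans (SetLike.coe_subset_coe.2 le_sup_left)
    · exact (subset_sp ρ Q g).trans (SetLike.coe_subset_coe.2 le_sup_right)
  · exact sup_le (j1_sp_mono ρ Q Set.subset_union_left) (j1_sp_mono ρ Q Set.subset_union_right)

theorem FGq.stable {Q : Subgroup P} {X : Submodule J B} (h : FGq ρ Q X) : St ρ Q X := by
  obtain ⟨f, rfl⟩ := h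
  exact sp_stable ρ Q _

theorem FGq.sup {Q : Subgroup P} {X Y : Submodule J B} (hX : FGq ρ Q X) (hY : FGq ρ Q Y) :
    FGq ρ Q (X ⊔ Y) := by
  classical
  obtain ⟨f, rfl⟩ := hX
  obtain ⟨g, rfl⟩ := hY
  exact ⟨f ∪ g, by rw [Finset.coe_union, sp_union]⟩

theorem FGq.bot (Q : Subgroup P) : FGq ρ Q (⊥ : Submodule J B) := by
  refine ⟨∅, ?_⟩
  apply le_antisymm bot_le
  apply sp_le
  · intro q _ x hx
    rw [Submodule.mem_bot] at hx
    rw [hx, map_zero]
    exact Submodule.zero_mem _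
  · intro x hx
    simp at hx

theorem St.sup {Q : Subgroup P} {X Y : Submodule J B} (hX : St ρ Q X) (hY : St ρ Q Y) :
    St ρ Q (X ⊔ Y) :=
  j1_sup ρ hX hY

theorem St.inf {Q : Subgroup P} {X Y : Submodule J B} (hX : St ρ Q X) (hY : St ρ Q Y) :
    St ρ Q (X ⊓ Y) :=
  fun q hq x hx => ⟨hX q hq x hx.1, hY q hq x hx.2⟩

theorem St.iSup {Q : Subgroup P} {ι : Sort*} {X : ι → Submodule J B} (hX : ∀ i, St ρ Q (X i)) :
    St ρ Q (⨆ i, X i) := by
  intro q hq x hx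
  have h : (⨆ i, X i) ≤ (⨆ i, X i).comap (ρ q) := by
    apply iSup_le
    intro i y hy
    exact (le_iSup X i) (hX i q hq y hy)
  exact h hx

/-- PROOF. `q (y m) = y ((y⁻¹ q y) m)`. -/
theorem St.map {Q : Subgroup P} {y : P} (hy : ∀ q, q ∈ Q ↔ y * q * y⁻¹ ∈ Q) {X : Submodule J B}
    (hX : St ρ Q X) : St ρ Q (X.map (ρ y)) := by
  rintro q hq _ ⟨m, hm, rfl⟩
  have h1 : y⁻¹ * q * y ∈ Q := by
    rw [hy]
    have : y * (y⁻¹ * q * y) * y⁻¹ = q := by group
    rw [this]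
    exact hq
  refine ⟨ρ (y⁻¹ * q * y) m, hX _ h1 m hm, ?_⟩
  rw [← Module.End.mul_apply, ← map_mul, ← Module.End.mul_apply, ← map_mul]
  congr 2
  group

/-- the submodule of the `m` with `ρ y m ∈ X` -/
theorem St.comap {Q : Subgroup P} {y : P} (hy : ∀ q, q ∈ Q ↔ y * q * y⁻¹ ∈ Q)
    {X : Submodule J B} (hX : St ρ Q X) : St ρ Q (X.comap (ρ y)) := by
  intro q hq m hm
  rw [Submodule.mem_comap] at hm ⊢
  have h1 := hX _ ((hy q).1 hq) _ hm
  rw [← Module.End.mul_apply, ← map_mul] at h1 ⊢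
  have h2 : y * q * y⁻¹ * y = y * q := by group
  rwa [h2] at h1

/-- PROOF. `y (sp f) = sp (y f)`: `y q a = (y q y⁻¹) (y a)`. -/
theorem FGq.map {Q : Subgroup P} {y : P} (hy : ∀ q, q ∈ Q ↔ y * q * y⁻¹ ∈ Q)
    {X : Submodule J B} (hX : FGq ρ Q X) : FGq ρ Q (X.map (ρ y)) := by
  classical
  obtain ⟨f, rfl⟩ := hX
  refine ⟨f.image (ρ y), ?_⟩
  apply le_antisymm
  · rw [Submodule.map_le_iff_le_comap]
    have h1 : St ρ Q ((sp ρ Q ((f.image (ρ y) : Finset B) : Set B)).comap (ρ y)) :=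
      St.comap ρ hy (sp_stable ρ Q _)
    apply sp_le ρ h1
    intro a ha
    apply subset_sp ρ Q
    rw [Finset.coe_image]
    exact ⟨a, ha, rfl⟩
  · apply sp_le ρ (St.map ρ hy (sp_stable ρ Q _))
    rw [Finset.coe_image]
    rintro _ ⟨a, ha, rfl⟩
    exact ⟨a, subset_sp ρ Q _ ha, rfl⟩

theorem j1_map_map (y z : P) (X : Submodule J B) :
    (X.map (ρ y)).map (ρ z) = X.map (ρ (z * y)) := by
  rw [map_mul, Module.End.mul_eq_comp, Submodule.map_comp]

theorem j1_map_one (X : Submodule J B) : X.map (ρ 1) = X := by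
  rw [map_one, Module.End.one_eq_id, Submodule.map_id]

theorem map_map_zpow (y : P) (X : Submodule J B) (m n : ℤ) :
    (X.map (ρ (y ^ m))).map (ρ (y ^ n)) = X.map (ρ (y ^ (n + m))) := by
  rw [j1_map_map, zpow_add]

/-- the positive part: `⨆_{i ≤ n} y^i M` -/
def UU (M : Submodule J B) (y : P) : ℕ → Submodule J B
  | 0 => M
  | n + 1 => UU M y n ⊔ M.map (ρ (y ^ (n + 1)))

theorem UU_mono (M : Submodule J B) (y : P) : Monotone (UU ρ M y) :=
  monotone_nat_of_le_succ fun n => by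
    change UU ρ M y n ≤ UU ρ M y n ⊔ M.map (ρ (y ^ (n + 1)))
    exact le_sup_left

theorem j1_inv {Q : Subgroup P} {y : P} (hy : ∀ q, q ∈ Q ↔ y * q * y⁻¹ ∈ Q) :
    ∀ q, q ∈ Q ↔ y⁻¹ * q * y⁻¹⁻¹ ∈ Q := by
  intro q
  rw [hy (y⁻¹ * q * y⁻¹⁻¹)]
  have : y * (y⁻¹ * q * y⁻¹⁻¹) * y⁻¹ = q := by group
  rw [this]

theorem j1_pow {Q : Subgroup P} {y : P} (hy : ∀ q, q ∈ Q ↔ y * q * y⁻¹ ∈ Q) (n : ℕ) :
    ∀ q, q ∈ Q ↔ y ^ n * q * (y ^ n)⁻¹ ∈ Q := by
  induction n with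
  | zero => intro q; simp
  | succ n ih =>
    intro q
    rw [ih q, hy (y ^ n * q * (y ^ n)⁻¹)]
    have : y * (y ^ n * q * (y ^ n)⁻¹) * y⁻¹ = y ^ (n + 1) * q * (y ^ (n + 1))⁻¹ := by
      rw [pow_succ']
      group
    rw [this]

theorem UU_stable {Q : Subgroup P} {y : P} (hy : ∀ q, q ∈ Q ↔ y * q * y⁻¹ ∈ Q)
    {M : Submodule J B} (hM : St ρ Q M) (n : ℕ) : St ρ Q (UU ρ M y n) := by
  induction n with
  | zero => exact hM
  | succ n ih => exact St.sup ρ ih (St.map ρ (j1_pow hy (n + 1)) hM)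

theorem UU_fg {Q : Subgroup P} {y : P} (hy : ∀ q, q ∈ Q ↔ y * q * y⁻¹ ∈ Q)
    {M : Submodule J B} (hM : FGq ρ Q M) (n : ℕ) : FGq ρ Q (UU ρ M y n) := by
  induction n with
  | zero => exact hM
  | succ n ih => exact FGq.sup ρ ih (FGq.map ρ (j1_pow hy (n + 1)) hM)

theorem UU_map_le (M : Submodule J B) (y : P) (n : ℕ) :
    (UU ρ M y n).map (ρ y) ≤ UU ρ M y (n + 1) := by
  induction n with
  | zero =>
    change M.map (ρ y) ≤ M ⊔ M.map (ρ (y ^ (0 + 1)))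
    rw [zero_add, pow_one]
    exact le_sup_right
  | succ n ih =>
    change (UU ρ M y n ⊔ M.map (ρ (y ^ (n + 1)))).map (ρ y)
      ≤ UU ρ M y (n + 1) ⊔ M.map (ρ (y ^ (n + 1 + 1)))
    rw [Submodule.map_sup, j1_map_map, ← pow_succ' y (n + 1)]
    exact sup_le_sup ih le_rfl

theorem j1_pow_le (M : Submodule J B) (y : P) (n : ℕ) : M.map (ρ (y ^ n)) ≤ UU ρ M y n := by
  cases n with
  | zero =>
    rw [pow_zero, j1_map_one]
    exact le_rfl
  | succ n =>
    change M.map (ρ (y ^ (n + 1))) ≤ UU ρ M y n ⊔ M.map (ρ (y ^ (n + 1)))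
    exact le_sup_right

/-- PROOF. Elements of `Q ⊔ zpowers y` are `y^i q` (`Q` is normalized by `y`: `Subgroup.mul_normal`-like, or closure induction), `M = sp ρ Q f`. `W = ⨆ n, UU M y n` is mapped into itself by `ρ y`; `X = ⨆_{n : ℕ} ρ(y^(-n)) W`. -/
theorem exists_pos {Q : Subgroup P} {y : P} (hy : ∀ q, q ∈ Q ↔ y * q * y⁻¹ ∈ Q)
    {X : Submodule J B} (hX : FGq ρ (Q ⊔ Subgroup.zpowers y) X) :
    ∃ M : Submodule J B, FGq ρ Q M ∧ M ≤ X ∧
      (⨆ n, UU ρ M y n).map (ρ y) ≤ ⨆ n, UU ρ M y n ∧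
      (⨆ n, UU ρ M y n) = M ⊔ (⨆ n, UU ρ M y n).map (ρ y) ∧
      X = ⨆ n : ℕ, (⨆ k, UU ρ M y k).map (ρ (y ^ (-(n : ℤ)))) ∧
      ∀ x ∈ X, ∃ n : ℕ, ρ (y ^ n) x ∈ ⨆ k, UU ρ M y k := by
  have hXs : St ρ (Q ⊔ Subgroup.zpowers y) X := FGq.stable ρ hX
  obtain ⟨f, hf⟩ := hX
  have hyin : y ∈ Q ⊔ Subgroup.zpowers y :=
    (le_sup_right : Subgroup.zpowers y ≤ _) (Subgroup.mem_zpowers y)
  have hMX : sp ρ Q (f : Set B) ≤ X := by
    apply sp_le
    · intro q hq x hx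
      exact hXs q ((le_sup_left : Q ≤ _) hq) x hx
    · rw [hf]
      exact subset_sp ρ _ _
  set M : Submodule J B := sp ρ Q (f : Set B) with hM
  have hW1 : (⨆ n, UU ρ M y n).map (ρ y) ≤ ⨆ n, UU ρ M y n := by
    rw [Submodule.map_iSup]
    exact iSup_le fun n => (UU_map_le ρ M y n).trans (le_iSup (UU ρ M y) (n + 1))
  have hM0 : M ≤ ⨆ n, UU ρ M y n := le_iSup (UU ρ M y) 0
  have hW2 : (⨆ n, UU ρ M y n) = M ⊔ (⨆ n, UU ρ M y n).map (ρ y) := by
    apply le_antisymm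
    · apply iSup_le
      intro n
      induction n with
      | zero => exact le_sup_left
      | succ n ih =>
        refine sup_le ih ?_
        rw [pow_succ', ← j1_map_map]
        refine le_trans (Submodule.map_mono ?_) le_sup_right
        exact (j1_pow_le ρ M y n).trans (le_iSup (UU ρ M y) n)
    · exact sup_le hM0 hW1
  have hWst : St ρ Q (⨆ n, UU ρ M y n) := St.iSup ρ fun n => UU_stable ρ hy (sp_stable ρ Q _) n
  set W : Submodule J B := ⨆ n, UU ρ M y n with hW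
  have hmap : ∀ p ∈ Q ⊔ Subgroup.zpowers y, ∀ V : Submodule J B, V ≤ X → V.map (ρ p) ≤ X := by
    rintro p hp V hV _ ⟨m, hm, rfl⟩
    exact hXs p hp m (hV hm)
  have hWX : W ≤ X := by
    apply iSup_le
    intro n
    induction n with
    | zero => exact hMX
    | succ n ih => exact sup_le ih (hmap _ (Subgroup.pow_mem _ hyin _) _ hMX)
  -- the chain
  have hy1 : ∀ n : ℕ, W.map (ρ (y ^ (-(n : ℤ)))) ≤ W.map (ρ (y ^ (-((n + 1 : ℕ) : ℤ)))) := by
    intro n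
    have h1 : W.map (ρ (y ^ (-(n : ℤ)))) = (W.map (ρ y)).map (ρ (y ^ (-((n + 1 : ℕ) : ℤ)))) := by
      rw [j1_map_map]
      congr 2
      rw [← zpow_add_one]
      congr 1
      push_cast
      ring
    rw [h1]
    exact Submodule.map_mono hW1
  have hmono : Monotone fun n : ℕ => W.map (ρ (y ^ (-(n : ℤ)))) := monotone_nat_of_le_succ hy1
  have hZ0 : W ≤ ⨆ n : ℕ, W.map (ρ (y ^ (-(n : ℤ)))) := by
    have h := le_iSup (fun n : ℕ => W.map (ρ (y ^ (-(n : ℤ))))) 0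
    simp only [Nat.cast_zero, neg_zero, zpow_zero, j1_map_one] at h
    exact h
  have hynorm : ∀ n : ℕ, ∀ q, q ∈ Q ↔ y ^ (-(n : ℤ)) * q * (y ^ (-(n : ℤ)))⁻¹ ∈ Q := by
    intro n
    have h := j1_pow (j1_inv hy) n
    intro q
    rw [zpow_neg, zpow_natCast, ← inv_pow]
    exact h q
  have hZQ : St ρ Q (⨆ n : ℕ, W.map (ρ (y ^ (-(n : ℤ))))) :=
    St.iSup ρ fun n => St.map ρ (hynorm n) hWst
  have hZy : ∀ z ∈ ⨆ n : ℕ, W.map (ρ (y ^ (-(n : ℤ)))),
      ρ y z ∈ ⨆ n : ℕ, W.map (ρ (y ^ (-(n : ℤ)))) := by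
    intro z hz
    have h : (⨆ n : ℕ, W.map (ρ (y ^ (-(n : ℤ))))) ≤
        (⨆ n : ℕ, W.map (ρ (y ^ (-(n : ℤ))))).comap (ρ y) := by
      apply iSup_le
      intro n
      rw [← Submodule.map_le_iff_le_comap, j1_map_map]
      cases n with
      | zero =>
        simp only [Nat.cast_zero, neg_zero, zpow_zero, mul_one]
        exact hW1.trans hZ0
      | succ n =>
        have h1 : y * y ^ (-((n + 1 : ℕ) : ℤ)) = y ^ (-(n : ℤ)) := by
          rw [← zpow_one_add]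
          congr 1
          push_cast
          ring
        rw [h1]
        exact le_iSup (fun n : ℕ => W.map (ρ (y ^ (-(n : ℤ))))) n
    exact h hz
  have hZyi : ∀ z ∈ ⨆ n : ℕ, W.map (ρ (y ^ (-(n : ℤ)))),
      ρ y⁻¹ z ∈ ⨆ n : ℕ, W.map (ρ (y ^ (-(n : ℤ)))) := by
    intro z hz
    have h : (⨆ n : ℕ, W.map (ρ (y ^ (-(n : ℤ))))) ≤
        (⨆ n : ℕ, W.map (ρ (y ^ (-(n : ℤ))))).comap (ρ y⁻¹) := by
      apply iSup_le
      intro n
      rw [← Submodule.map_le_iff_le_comap, j1_map_map]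
      have h1 : y⁻¹ * y ^ (-(n : ℤ)) = y ^ (-((n + 1 : ℕ) : ℤ)) := by
        rw [← zpow_neg_one, ← zpow_add]
        congr 1
        push_cast
        ring
      rw [h1]
      exact le_iSup (fun n : ℕ => W.map (ρ (y ^ (-(n : ℤ))))) (n + 1)
    exact h hz
  have hXe : X = ⨆ n : ℕ, W.map (ρ (y ^ (-(n : ℤ)))) := by
    set Z : Submodule J B := ⨆ n : ℕ, W.map (ρ (y ^ (-(n : ℤ)))) with hZ
    apply le_antisymm
    · rw [hf]
      apply sp_le
      · let S : Subgroup P :=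
          { carrier := {p | (∀ z ∈ Z, ρ p z ∈ Z) ∧ ∀ z ∈ Z, ρ p⁻¹ z ∈ Z}
            mul_mem' := by
              rintro a b ⟨ha, ha'⟩ ⟨hb, hb'⟩
              refine ⟨fun z hz => ?_, fun z hz => ?_⟩
              · rw [map_mul, Module.End.mul_apply]
                exact ha _ (hb _ hz)
              · rw [mul_inv_rev, map_mul, Module.End.mul_apply]
                exact hb' _ (ha' _ hz)
            one_mem' := by
              refine ⟨fun z hz => ?_, fun z hz => ?_⟩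
              · rw [map_one]; exact hz
              · rw [inv_one, map_one]; exact hz
            inv_mem' := by
              rintro a ⟨ha, ha'⟩
              exact ⟨ha', by rw [inv_inv]; exact ha⟩ }
        have hS : Q ⊔ Subgroup.zpowers y ≤ S := by
          apply sup_le
          · intro q hq
            exact ⟨fun z hz => hZQ q hq z hz, fun z hz => hZQ _ (Q.inv_mem hq) z hz⟩
          · rw [Subgroup.zpowers_le]
            exact ⟨hZy, hZyi⟩
        intro q hq x hx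
        exact (hS hq).1 x hx
      · intro a ha
        exact hZ0 (hM0 (subset_sp ρ Q _ ha))
    · apply iSup_le
      intro n
      exact hmap _ (Subgroup.zpow_mem _ hyin _) _ hWX
  refine ⟨M, ⟨f, hM⟩, hMX, hW1, hW2, hXe, ?_⟩
  intro x hx
  rw [hXe] at hx
  rw [Submodule.mem_iSup_of_directed _ hmono.directed_le] at hx
  obtain ⟨n, w, hw, rfl⟩ := hx
  refine ⟨n, ?_⟩
  rw [← Module.End.mul_apply, ← map_mul, ← zpow_natCast, ← zpow_add, add_neg_cancel, zpow_zero,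
    map_one]
  exact hw

end AM
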