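import Pool.Agent.AM.Defs

/-!
# [AM-J2] generic freeness: formal properties
-/

set_option autoImplicit false

namespace AM

variable {J : Type*} [CommRing J] {B : Type*} [AddCommGroup B] [Module J B]

theorem j2_lc_mkQ (Y : Submodule J B) (l : B →₀ J) :
    Finsupp.linearCombination J (Y.mkQ : B → B ⧸ Y) l = Y.mkQ (Finsupp.linearCombination J id l) := by
  rw [Finsupp.linearCombination_apply, Finsupp.linearCombination_apply, Finsupp.sum, Finsupp.sum,
    map_sum]
  refine Finset.sum_congr rfl fun x _ => ?_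
  rw [map_smul]
  rfl

/-- independence modulo `Y` in terms of formal linear combinations -/
theorem j2_iff (b : Set B) (Y : Submodule J B) :
    LinearIndependent J (fun x : b => Y.mkQ (x : B)) ↔
      ∀ l ∈ Finsupp.supported J J b, Finsupp.linearCombination J id l ∈ Y → l = 0 := by
  have h1 : LinearIndependent J (fun x : b => Y.mkQ (x : B)) ↔
      LinearIndepOn J (Y.mkQ : B → B ⧸ Y) b := Iff.rfl
  rw [h1, linearIndepOn_iff]
  refine forall_congr' fun l => forall_congr' fun _ => ?_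
  rw [j2_lc_mkQ]
  rw [Submodule.mkQ_apply, Submodule.Quotient.mk_eq_zero]

theorem j2_lc_mem {b : Set B} {M : Submodule J B} (hb : b ⊆ M) {l : B →₀ J}
    (hl : l ∈ Finsupp.supported J J b) : Finsupp.linearCombination J id l ∈ M := by
  rw [Finsupp.linearCombination_apply]
  refine M.sum_mem fun x hx => M.smul_mem _ (hb ?_)
  exact (Finsupp.mem_supported J l).mp hl hx

theorem GF.refl (s : J) (Y : Submodule J B) : GF s Y Y := by
  refine ⟨∅, Set.empty_subset _, linearIndependent_empty_type, fun x hx => ⟨0, ?_⟩⟩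
  rw [pow_zero, one_smul]
  exact Submodule.mem_sup_right hx

/-- PROOF. The same `b`; `(s t)^k x = t^k (s^k x)`. -/
theorem GF.mul_right {s : J} (t : J) {Y X : Submodule J B} (h : GF s Y X) : GF (s * t) Y X := by
  obtain ⟨b, hb, hl, hs⟩ := h
  refine ⟨b, hb, hl, fun x hx => ?_⟩
  obtain ⟨k, hk⟩ := hs x hx
  refine ⟨k, ?_⟩
  rw [mul_pow, mul_comm, mul_smul]
  exact Submodule.smul_mem _ _ hk

/-- PROOF. The image of `b` under the linear automorphism `e`. -/
theorem GF.map {s : J} {Y X : Submodule J B} (h : GF s Y X) (e : B ≃ₗ[J] B) :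
    GF s (Y.map (e : B →ₗ[J] B)) (X.map (e : B →ₗ[J] B)) := by
  obtain ⟨b, hb, hl, hs⟩ := h
  refine ⟨e '' b, ?_, ?_, ?_⟩
  · rintro _ ⟨x, hx, rfl⟩
    exact ⟨x, hb hx, rfl⟩
  · rw [j2_iff] at hl ⊢
    intro l hlb hlY
    classical
    have h1 : Finsupp.mapDomain e.symm l ∈ Finsupp.supported J J b := by
      rw [Finsupp.mem_supported]
      intro x hx
      have h2 := Finsupp.mapDomain_support hx
      rw [Finset.mem_image] at h2
      obtain ⟨y, hy, rfl⟩ := h2
      have h3 := (Finsupp.mem_supported J l).mp hlb hy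
      obtain ⟨z, hz, rfl⟩ := h3
      rw [LinearEquiv.symm_apply_apply]
      exact hz
    have h2 : Finsupp.linearCombination J id (Finsupp.mapDomain e.symm l) =
        e.symm (Finsupp.linearCombination J id l) := by
      rw [Finsupp.linearCombination_mapDomain, Finsupp.linearCombination_apply,
        Finsupp.linearCombination_apply, Finsupp.sum, Finsupp.sum, map_sum]
      refine Finset.sum_congr rfl fun x _ => ?_
      rw [map_smul]
      rfl
    have h3 := hl _ h1 (by
      rw [h2]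
      obtain ⟨y, hy, hy2⟩ := hlY
      rw [← hy2]
      simpa using hy)
    have h4 := Finsupp.mapDomain_injective (M := J) e.symm.injective (a₁ := l) (a₂ := 0)
    apply h4
    rw [h3, Finsupp.mapDomain_zero]
  · rintro _ ⟨x, hx, rfl⟩
    obtain ⟨k, hk⟩ := hs x hx
    refine ⟨k, ?_⟩
    have h1 : (Submodule.span J (e '' b) ⊔ Y.map (e : B →ₗ[J] B)) =
        (Submodule.span J b ⊔ Y).map (e : B →ₗ[J] B) := by
      rw [Submodule.map_sup, Submodule.map_span]
      rfl
    rw [h1]
    refine ⟨s ^ k • x, hk, ?_⟩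
    rw [map_smul]

/-- PROOF. `b ⊆ M`, independent modulo `M ⊓ V`; a linear combination of `b` in `V` is in `M ⊓ V`. For `x = v + m`, `s^k m ∈ span b ⊔ (M ⊓ V)`, so `s^k x ∈ span b ⊔ V`. -/
theorem GF.sup {s : J} {V M : Submodule J B} (h : GF s (M ⊓ V) M) : GF s V (V ⊔ M) := by
  obtain ⟨b, hb, hl, hs⟩ := h
  refine ⟨b, fun x hx => Submodule.mem_sup_right (hb hx), ?_, ?_⟩
  · rw [j2_iff] at hl ⊢
    intro l hlb hlV
    exact hl l hlb ⟨j2_lc_mem hb hlb, hlV⟩
  · intro x hx
    obtain ⟨v, hv, m, hm, rfl⟩ := Submodule.mem_sup.mp hx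
    obtain ⟨k, hk⟩ := hs m hm
    refine ⟨k, ?_⟩
    rw [smul_add]
    refine Submodule.add_mem _ (Submodule.mem_sup_right (V.smul_mem _ hv)) ?_
    exact (sup_le_sup le_rfl inf_le_right : Submodule.span J b ⊔ M ⊓ V ≤ Submodule.span J b ⊔ V) hk

omit [AddCommGroup B] [Module J B] in
theorem j2_split {b₁ b₂ : Set B} {l : B →₀ J} (hl : l ∈ Finsupp.supported J J (b₁ ∪ b₂)) :
    ∃ l₁ ∈ Finsupp.supported J J b₁, ∃ l₂ ∈ Finsupp.supported J J b₂, l = l₁ + l₂ := by
  rw [Finsupp.supported_union] at hl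
  obtain ⟨l₁, h₁, l₂, h₂, h⟩ := Submodule.mem_sup.mp hl
  exact ⟨l₁, h₁, l₂, h₂, h.symm⟩

/-- the independent part of `trans` -/
theorem j2_union {b₁ b₂ : Set B} {Y W : Submodule J B} (hYW : Y ≤ W) (hb₁ : b₁ ⊆ W)
    (h1 : ∀ l ∈ Finsupp.supported J J b₁, Finsupp.linearCombination J id l ∈ Y → l = 0)
    (h2 : ∀ l ∈ Finsupp.supported J J b₂, Finsupp.linearCombination J id l ∈ W → l = 0) :
    ∀ l ∈ Finsupp.supported J J (b₁ ∪ b₂), Finsupp.linearCombination J id l ∈ Y → l = 0 := by
  intro l hl hlY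
  obtain ⟨l₁, hl₁, l₂, hl₂, rfl⟩ := j2_split hl
  have h3 : l₂ = 0 := by
    apply h2 l₂ hl₂
    have h4 := hYW hlY
    rw [map_add] at h4
    exact (Submodule.add_mem_iff_right W (j2_lc_mem hb₁ hl₁)).mp h4
  subst h3
  rw [add_zero] at hlY ⊢
  exact h1 l₁ hl₁ hlY

/-- PROOF. `b = b₁ ∪ b₂`, `b₁ ⊆ W` independent modulo `Y`, `b₂ ⊆ X` independent modulo `W`: disjoint (`J` is nontrivial: an element of `b₂ ∩ W` would be `0` modulo `W`). Independence modulo `Y`: a combination in `Y` is in `W`, so the coefficients at `b₂` vanish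
(`b₁ ⊆ W`), then those at `b₁`. Spanning: `s^k x = β₂ + w`, `s^l w = β₁ + y`, so `s^(k+l) x ∈ span b ⊔ Y`. -/
theorem GF.trans [Nontrivial J] {s : J} {Y W X : Submodule J B} (hYW : Y ≤ W) (hWX : W ≤ X)
    (h1 : GF s Y W) (h2 : GF s W X) : GF s Y X := by
  obtain ⟨b₁, hb₁, hl₁, hs₁⟩ := h1
  obtain ⟨b₂, hb₂, hl₂, hs₂⟩ := h2
  refine ⟨b₁ ∪ b₂, Set.union_subset (hb₁.trans hWX) hb₂, ?_, ?_⟩
  · rw [j2_iff] at hl₁ hl₂ ⊢
    exact j2_union hYW hb₁ hl₁ hl₂
  · intro x hx
    obtain ⟨k, hk⟩ := hs₂ x hx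
    obtain ⟨β, hβ, w, hw, h3⟩ := Submodule.mem_sup.mp hk
    obtain ⟨j, hj⟩ := hs₁ w hw
    refine ⟨j + k, ?_⟩
    rw [pow_add, mul_smul, ← h3, smul_add]
    refine Submodule.add_mem _ ?_ ?_
    · refine Submodule.mem_sup_left (Submodule.smul_mem _ _ ?_)
      exact Submodule.span_mono Set.subset_union_right hβ
    · exact (sup_le_sup (Submodule.span_mono Set.subset_union_left) le_rfl :
        Submodule.span J b₁ ⊔ Y ≤ Submodule.span J (b₁ ∪ b₂) ⊔ Y) hj

/-- PROOF. Let `b n ⊆ U (n+1)` be as in `GF s (U n) (U (n+1))`, `b = ⋃ b n`. The `b n` are disjoint and `b` is independent modulo `U 0`: take the largest `n` which occurs in a linear combination in `U 0 ≤ U n`; the remaining terms are in `U n`, so the coefficients at `b n` vanish. Spanning: for `x ∈ U n`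
induction on `n` (`x ∈ ⨆ U n` is in some `U n`, monotone: `Submodule.mem_iSup_of_directed`). -/
theorem GF.chain [Nontrivial J] {s : J} {U : ℕ → Submodule J B} (hU : Monotone U)
    (h : ∀ n, GF s (U n) (U (n + 1))) : GF s (U 0) (⨆ n, U n) := by
  choose b hb hl hs using h
  refine ⟨⋃ n, b n, ?_, ?_, ?_⟩
  · intro x hx
    obtain ⟨n, hn⟩ := Set.mem_iUnion.mp hx
    exact (le_iSup U (n + 1)) (hb n hn)
  · rw [j2_iff]
    have hsub : ∀ n, (⋃ i ∈ Finset.range n, b i) ⊆ (U n : Set B) := by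
      intro n x hx
      simp only [Set.mem_iUnion, Finset.mem_range] at hx
      obtain ⟨i, hi, hx⟩ := hx
      exact hU (Nat.succ_le_of_lt hi) (hb i hx)
    have key : ∀ n, ∀ l ∈ Finsupp.supported J J (⋃ i ∈ Finset.range n, b i),
        Finsupp.linearCombination J id l ∈ U 0 → l = 0 := by
      intro n
      induction n with
      | zero =>
        intro l hl0 _
        have : (⋃ i ∈ Finset.range 0, b i) = (∅ : Set B) := by simp
        rw [this, Finsupp.supported_empty, Submodule.mem_bot] at hl0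
        exact hl0
      | succ n ih =>
        have h1 : (⋃ i ∈ Finset.range (n + 1), b i) = (⋃ i ∈ Finset.range n, b i) ∪ b n := by
          ext x
          simp only [Set.mem_iUnion, Finset.mem_range, Set.mem_union, Nat.lt_succ_iff_lt_or_eq]
          constructor
          · rintro ⟨i, hi | rfl, hx⟩
            · exact Or.inl ⟨i, hi, hx⟩
            · exact Or.inr hx
          · rintro (⟨i, hi, hx⟩ | hx)
            · exact ⟨i, Or.inl hi, hx⟩
            · exact ⟨n, Or.inr rfl, hx⟩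
        rw [h1]
        exact j2_union (hU (Nat.zero_le n)) (hsub n) ih ((j2_iff _ _).mp (hl n))
    intro l hlb hlU
    have hex : ∃ n, l ∈ Finsupp.supported J J (⋃ i ∈ Finset.range n, b i) := by
      have h1 : ∀ x ∈ l.support, ∃ i, x ∈ b i := fun x hx =>
        Set.mem_iUnion.mp ((Finsupp.mem_supported J l).mp hlb hx)
      choose! i hi using h1
      refine ⟨l.support.sup i + 1, ?_⟩
      rw [Finsupp.mem_supported]
      intro x hx
      have hx' : x ∈ l.support := hx
      simp only [Set.mem_iUnion, Finset.mem_range]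
      exact ⟨i x, Nat.lt_succ_of_le (Finset.le_sup hx'), hi x hx'⟩
    obtain ⟨n, hn⟩ := hex
    exact key n l hn hlU
  · intro x hx
    rw [Submodule.mem_iSup_of_directed U hU.directed_le] at hx
    obtain ⟨n, hn⟩ := hx
    induction n generalizing x with
    | zero => exact ⟨0, by rw [pow_zero, one_smul]; exact Submodule.mem_sup_right hn⟩
    | succ n ih =>
      obtain ⟨k, hk⟩ := hs n x hn
      obtain ⟨β, hβ, w, hw, h3⟩ := Submodule.mem_sup.mp hk
      obtain ⟨j, hj⟩ := ih w hw
      refine ⟨j + k, ?_⟩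
      rw [pow_add, mul_smul, ← h3, smul_add]
      refine Submodule.add_mem _ ?_ hj
      refine Submodule.mem_sup_left (Submodule.smul_mem _ _ ?_)
      exact Submodule.span_mono (Set.subset_iUnion b n) hβ

end AM
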