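import Pool.Agent.AM.J1
import Pool.Agent.AM.J2

/-!
# [AM-J3] ascending chains
-/

set_option autoImplicit false

namespace AM

variable {J : Type*} [CommRing J] {B : Type*} [AddCommGroup B] [Module J B] {P : Type*} [Group P]
  (ρ : P →* Module.End J B)

/-- PROOF. `K∞ = ⨆ K n ≤ M` is `Q`-stable, so `K∞ = sp ρ Q f`, `f` finite, `f ⊆ K n₀` for some `n₀` (directed union), and `K∞ ≤ K n₀`. -/
theorem good_acc {Q : Subgroup P} (hQ : Good ρ Q) {M : Submodule J B} (hM : FGq ρ Q M)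
    (K : ℕ → Submodule J B) (hmono : Monotone K) (hle : ∀ n, K n ≤ M) (hst : ∀ n, St ρ Q (K n)) :
    ∃ n₀, ∀ n, n₀ ≤ n → K n = K n₀ := by
  obtain ⟨f, hf⟩ := (hQ M hM).1 (⨆ n, K n) (iSup_le hle) (St.iSup ρ hst)
  have hsub : (f : Set B) ⊆ ((⨆ n, K n : Submodule J B) : Set B) := by
    have := subset_sp ρ Q (f : Set B)
    rw [← hf] at this
    exact this
  have hex : ∀ b ∈ f, ∃ n, b ∈ K n := by
    intro b hb
    have h1 : b ∈ (⨆ n, K n : Submodule J B) := hsub hb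
    exact (Submodule.mem_iSup_of_directed K hmono.directed_le).1 h1
  choose! g hg using hex
  refine ⟨f.sup g, fun n hn => le_antisymm ?_ (hmono hn)⟩
  have h2 : (⨆ n, K n) ≤ K (f.sup g) := by
    rw [hf]
    apply sp_le ρ (hst _)
    intro b hb
    exact hmono (Finset.le_sup (f := g) hb) (hg b hb)
  exact (le_iSup K n).trans h2

/-- PROOF. Only `K 0, ..., K n₀` occur; `s` = the product of the `s_n` for `n ≤ n₀` (`GF.mul_right`, commutativity), nonzero in a domain. -/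
theorem good_acc_gf [IsDomain J] {Q : Subgroup P} (hQ : Good ρ Q) {M : Submodule J B}
    (hM : FGq ρ Q M) (K : ℕ → Submodule J B) (hmono : Monotone K) (hle : ∀ n, K n ≤ M)
    (hst : ∀ n, St ρ Q (K n)) : ∃ s : J, s ≠ 0 ∧ ∀ n, GF s (K n) M := by
  obtain ⟨n₀, hn₀⟩ := good_acc ρ hQ hM K hmono hle hst
  have hs : ∀ n, ∃ s : J, s ≠ 0 ∧ GF s (K n) M := fun n => (hQ M hM).2 (K n) (hle n) (hst n)
  choose s hs0 hs1 using hs
  refine ⟨∏ n ∈ Finset.range (n₀ + 1), s n, Finset.prod_ne_zero_iff.2 (fun n _ => hs0 n), ?_⟩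
  have key : ∀ n ≤ n₀, GF (∏ n ∈ Finset.range (n₀ + 1), s n) (K n) M := by
    intro n hn
    rw [← Finset.mul_prod_erase (Finset.range (n₀ + 1)) s (Finset.mem_range.2 (Nat.lt_succ_of_le hn))]
    exact GF.mul_right _ (hs1 n)
  intro n
  rcases le_total n n₀ with h | h
  · exact key n h
  · rw [hn₀ n h]
    exact key n₀ le_rfl

end AM
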