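import Pool.Agent.AM.J3

/-!
# [AM-J4] generic freeness: adjoining one element to the group
-/

set_option autoImplicit false

namespace AM

variable {J : Type*} [CommRing J] {B : Type*} [AddCommGroup B] [Module J B] {P : Type*} [Group P]
  (ρ : P →* Module.End J B)

/-- the automorphism `ρ g` -/
def j4_e (g : P) : B ≃ₗ[J] B :=
  LinearEquiv.ofLinearMap (ρ g) (ρ g⁻¹)
    (by
      have h : ρ g * ρ g⁻¹ = 1 := by rw [← map_mul, mul_inv_cancel, map_one]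
      exact h)
    (by
      have h : ρ g⁻¹ * ρ g = 1 := by rw [← map_mul, inv_mul_cancel, map_one]
      exact h)

theorem j4_coe (g : P) : ((j4_e ρ g : B ≃ₗ[J] B) : B →ₗ[J] B) = ρ g := rfl

theorem j4_gf_map {s : J} {Y X : Submodule J B} (h : GF s Y X) (g : P) :
    GF s (Y.map (ρ g)) (X.map (ρ g)) := by
  have := GF.map h (j4_e ρ g)
  rwa [j4_coe] at this

theorem j4_norm {Q : Subgroup P} {y : P} (hy : ∀ q, q ∈ Q ↔ y * q * y⁻¹ ∈ Q) (n : ℕ) :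
    ∀ q, q ∈ Q ↔ y ^ n * q * (y ^ n)⁻¹ ∈ Q := by
  induction n with
  | zero => intro q; simp
  | succ n ih =>
    intro q
    rw [hy q, ih]
    have : y ^ (n + 1) * q * (y ^ (n + 1))⁻¹ = y ^ n * (y * q * y⁻¹) * (y ^ n)⁻¹ := by
      rw [pow_succ]; group
    rw [this]

theorem j4_map_inf_comap (f : B →ₗ[J] B) (M V : Submodule J B) :
    (M ⊓ V.comap f).map f = V ⊓ M.map f := by
  ext x
  constructor
  · rintro ⟨m, ⟨hm, hv⟩, rfl⟩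
    exact ⟨hv, m, hm, rfl⟩
  · rintro ⟨hv, m, hm, rfl⟩
    exact ⟨m, ⟨hm, hv⟩, rfl⟩

theorem j4_stable_map {Q : Subgroup P} {y : P} {Y : Submodule J B}
    (hY : St ρ (Q ⊔ Subgroup.zpowers y) Y) (n : ℤ) : Y.map (ρ (y ^ n)) = Y := by
  have hmem : ∀ k : ℤ, y ^ k ∈ Q ⊔ Subgroup.zpowers y := fun k =>
    (le_sup_right : Subgroup.zpowers y ≤ Q ⊔ Subgroup.zpowers y)
      (Subgroup.zpow_mem_zpowers y k)
  apply le_antisymm
  · rintro _ ⟨a, ha, rfl⟩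
    exact hY _ (hmem n) a ha
  · intro a ha
    refine ⟨ρ (y ^ (-n)) a, hY _ (hmem (-n)) a ha, ?_⟩
    have h : ρ (y ^ n) * ρ (y ^ (-n)) = 1 := by
      rw [← map_mul, ← zpow_add, add_neg_cancel, zpow_zero, map_one]
    have := congrArg (fun g : Module.End J B => g a) h
    simp

theorem j4_gf_left {s t : J} {Y X : Submodule J B} (h : GF t Y X) : GF (s * t) Y X := by
  rw [mul_comm]
  exact h.mul_right s

/-- PROOF. `exists_pos`: `M`, `U n = UU ρ M y n`, `W = ⨆ U n`. All the `ρ (y ^ n)` are automorphisms of `B`. Let `V n = Y ⊔ U n`.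
(1) `K n = M ⊓ (V n).comap (ρ (y^(n+1)))` is an ascending sequence of `Q`-stable submodules of `M` (`y^(n+1) m ∈ Y ⊔ U n` implies `y^(n+2) m ∈ Y ⊔ U (n+1)`: `Y` is stable under `y`, `UU_map_le`). `good_acc_gf`: `s₁ ≠ 0` with `GF s₁ (K n) M` for all `n`. Applying `y^(n+1)` (`GF.map`):
`GF s₁ (N ⊓ V n) N` for `N = M.map (ρ (y^(n+1)))`, so by `GF.sup` `GF s₁ (V n) (V n ⊔ N) = GF s₁ (V n) (V (n+1))`. Similarly `GF s₀ (M ⊓ Y) M` for some `s₀ ≠ 0` (`Good` for `M`), so `GF s₀ Y (V 0)`. By `GF.chain`, `GF.trans`: `GF (s₀ s₁) Y W'`, `W' = Y ⊔ W = ⨆ V n`.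
(2) `W' = W'.map (ρ y) ⊔ M` (`W = M ⊔ W.map (ρ y)`, `Y.map (ρ y) = Y`). `GF s₂ (M ⊓ W'.map (ρ y)) M` for some `s₂ ≠ 0` (`Good`; `W'.map (ρ y)` is `Q`-stable), so `GF s₂ (W'.map (ρ y)) W'` (`GF.sup`). Applying `y^(-(n+1))`: `GF s₂ (y^(-n) W') (y^(-(n+1)) W')`; these submodules form an ascending chain
with union `X` (`exists_pos`, `Y ≤ X`). So `GF s₂ W' X` (`GF.chain`), and `GF (s₀ s₁ s₂) Y X`. -/
theorem step_gf [IsDomain J] {Q : Subgroup P} {y : P} (hy : ∀ q, q ∈ Q ↔ y * q * y⁻¹ ∈ Q)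
    (hQ : Good ρ Q) {X : Submodule J B} (hX : FGq ρ (Q ⊔ Subgroup.zpowers y) X)
    {Y : Submodule J B} (hYX : Y ≤ X) (hY : St ρ (Q ⊔ Subgroup.zpowers y) Y) :
    ∃ s : J, s ≠ 0 ∧ GF s Y X := by
  obtain ⟨M, hM, hMX, hWy, hWeq, hXeq, -⟩ := exists_pos ρ hy hX
  have hYQ : St ρ Q Y := fun q hq a ha =>
    hY q ((le_sup_left : Q ≤ Q ⊔ Subgroup.zpowers y) hq) a ha
  have hYmap : ∀ n : ℤ, Y.map (ρ (y ^ n)) = Y := j4_stable_map ρ hY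
  have hYmap1 : Y.map (ρ y) = Y := by
    have := hYmap 1
    rwa [zpow_one] at this
  have hMst : St ρ Q M := hM.stable
  -- step 1
  have hmono : Monotone fun n => M ⊓ (Y ⊔ UU ρ M y n).comap (ρ (y ^ (n + 1))) := by
    refine monotone_nat_of_le_succ fun n => ?_
    refine inf_le_inf le_rfl fun m hm => ?_
    rw [Submodule.mem_comap] at hm ⊢
    have h1 : ρ (y ^ (n + 1 + 1)) m = ρ y (ρ (y ^ (n + 1)) m) := by
      rw [pow_succ' y (n + 1), map_mul]; rfl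
    rw [h1]
    have h2 : ρ y (ρ (y ^ (n + 1)) m) ∈ (Y ⊔ UU ρ M y n).map (ρ y) :=
      Submodule.mem_map_of_mem hm
    rw [Submodule.map_sup, hYmap1] at h2
    exact (sup_le_sup le_rfl (UU_map_le ρ M y n)) h2
  obtain ⟨s₁, hs₁, hgf₁⟩ := good_acc_gf ρ hQ hM
    (fun n => M ⊓ (Y ⊔ UU ρ M y n).comap (ρ (y ^ (n + 1)))) hmono (fun n => inf_le_left)
    (fun n => St.inf ρ hMst (St.comap ρ (j4_norm hy (n + 1))
      (St.sup ρ hYQ (UU_stable ρ hy hMst n))))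
  have hV : ∀ n, GF s₁ (Y ⊔ UU ρ M y n) (Y ⊔ UU ρ M y (n + 1)) := by
    intro n
    have h1 := j4_gf_map ρ (hgf₁ n) (y ^ (n + 1))
    rw [j4_map_inf_comap] at h1
    have h2 : GF s₁ (M.map (ρ (y ^ (n + 1))) ⊓ (Y ⊔ UU ρ M y n))
        (M.map (ρ (y ^ (n + 1)))) := by rwa [inf_comm]
    have h3 := GF.sup h2
    rw [sup_assoc] at h3
    exact h3
  obtain ⟨s₀, hs₀, hgf₀⟩ := (hQ M hM).2 (M ⊓ Y) inf_le_left (St.inf ρ hMst hYQ)
  have hV0 : GF s₀ Y (Y ⊔ UU ρ M y 0) := GF.sup hgf₀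
  have hVmono : Monotone fun n => Y ⊔ UU ρ M y n := fun a b hab =>
    sup_le_sup le_rfl (UU_mono ρ M y hab)
  have hchain := GF.chain hVmono hV
  rw [← sup_iSup] at hchain
  set W := ⨆ n, UU ρ M y n with hW
  have h0W : Y ⊔ UU ρ M y 0 ≤ Y ⊔ W := sup_le_sup le_rfl (le_iSup (UU ρ M y) 0)
  have hYW : GF (s₀ * s₁) Y (Y ⊔ W) :=
    GF.trans le_sup_left h0W (hV0.mul_right s₁) (j4_gf_left hchain)
  -- step 2
  have hWst : St ρ Q W := St.iSup ρ fun n => UU_stable ρ hy hMst n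
  have hW' : (Y ⊔ W).map (ρ y) = Y ⊔ W.map (ρ y) := by
    rw [Submodule.map_sup, hYmap1]
  have hW'eq : Y ⊔ W = (Y ⊔ W).map (ρ y) ⊔ M := by
    rw [hW', sup_assoc, sup_comm (W.map (ρ y)) M, ← hWeq]
  obtain ⟨s₂, hs₂, hgf₂⟩ := (hQ M hM).2 (M ⊓ (Y ⊔ W).map (ρ y)) inf_le_left
    (St.inf ρ hMst (St.map ρ hy (St.sup ρ hYQ hWst)))
  have hgf₂' : GF s₂ ((Y ⊔ W).map (ρ y)) (Y ⊔ W) := by
    have h := GF.sup hgf₂
    rwa [← hW'eq] at h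
  have hle : (Y ⊔ W).map (ρ y) ≤ Y ⊔ W := by
    rw [hW']
    exact sup_le_sup le_rfl hWy
  have hstep : ∀ n : ℕ, ((Y ⊔ W).map (ρ y)).map (ρ (y ^ (-((n + 1 : ℕ) : ℤ)))) =
      (Y ⊔ W).map (ρ (y ^ (-(n : ℤ)))) := by
    intro n
    have h := map_map_zpow ρ y (Y ⊔ W) 1 (-((n + 1 : ℕ) : ℤ))
    rw [zpow_one] at h
    rw [h]
    congr 3
    push_cast
    ring
  have hXn : ∀ n : ℕ, GF s₂ ((Y ⊔ W).map (ρ (y ^ (-(n : ℤ)))))
      ((Y ⊔ W).map (ρ (y ^ (-((n + 1 : ℕ) : ℤ))))) := by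
    intro n
    have h := j4_gf_map ρ hgf₂' (y ^ (-((n + 1 : ℕ) : ℤ)))
    rwa [hstep] at h
  have hXmono : Monotone fun n : ℕ => (Y ⊔ W).map (ρ (y ^ (-(n : ℤ)))) := by
    refine monotone_nat_of_le_succ fun n => ?_
    show (Y ⊔ W).map (ρ (y ^ (-(n : ℤ)))) ≤ (Y ⊔ W).map (ρ (y ^ (-((n + 1 : ℕ) : ℤ))))
    rw [← hstep n]
    exact Submodule.map_mono hle
  have hchain2 := GF.chain hXmono hXn
  have hX0 : (Y ⊔ W).map (ρ (y ^ (-((0 : ℕ) : ℤ)))) = Y ⊔ W := by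
    have : ρ (y ^ (-((0 : ℕ) : ℤ))) = LinearMap.id := by
      rw [Nat.cast_zero, neg_zero, zpow_zero, map_one]; rfl
    rw [this, Submodule.map_id]
  have hXall : (⨆ n : ℕ, (Y ⊔ W).map (ρ (y ^ (-(n : ℤ))))) = X := by
    have h : ∀ n : ℕ, (Y ⊔ W).map (ρ (y ^ (-(n : ℤ)))) = Y ⊔ W.map (ρ (y ^ (-(n : ℤ)))) := by
      intro n
      rw [Submodule.map_sup, hYmap]
    simp_rw [h]
    rw [← sup_iSup, ← hXeq]
    exact sup_eq_right.mpr hYX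
  rw [hX0, hXall] at hchain2
  have hWX : Y ⊔ W ≤ X := by
    rw [← hXall]
    have := le_iSup (fun n : ℕ => (Y ⊔ W).map (ρ (y ^ (-(n : ℤ))))) 0
    rwa [hX0] at this
  refine ⟨s₀ * s₁ * s₂, mul_ne_zero (mul_ne_zero hs₀ hs₁) hs₂, ?_⟩
  exact GF.trans le_sup_left hWX (hYW.mul_right s₂) (j4_gf_left hchain2)

end AM
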