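import Pool.Agent.AM.J3

/-!
# [AM-J5] Hall's theorem (the argument of Hilbert's basis theorem): adjoining one element to the group
-/

set_option autoImplicit false

namespace AM

variable {J : Type*} [CommRing J] {B : Type*} [AddCommGroup B] [Module J B] {P : Type*} [Group P]
  (ρ : P →* Module.End J B)

/-- `U' 0 = ⊥`, `U' (n + 1) = U n` -/
def j5_U (M : Submodule J B) (y : P) : ℕ → Submodule J B
  | 0 => ⊥
  | n + 1 => UU ρ M y n

theorem j5_U_succ (M : Submodule J B) (y : P) (n : ℕ) :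
    UU ρ M y n = j5_U ρ M y n ⊔ M.map (ρ (y ^ n)) := by
  cases n with
  | zero =>
    show M = ⊥ ⊔ M.map (ρ (y ^ 0))
    rw [pow_zero, map_one, bot_sup_eq]
    exact (Submodule.map_id M).symm
  | succ n => rfl

theorem j5_conj {Q : Subgroup P} {y : P} (hy : ∀ q, q ∈ Q ↔ y * q * y⁻¹ ∈ Q) (n : ℕ) :
    ∀ q, q ∈ Q ↔ y ^ n * q * (y ^ n)⁻¹ ∈ Q := by
  induction n with
  | zero =>
    intro q
    rw [pow_zero, one_mul, inv_one, mul_one]
  | succ n ih =>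
    intro q
    rw [ih q, hy]
    have h1 : y * (y ^ n * q * (y ^ n)⁻¹) * y⁻¹ = y ^ (n + 1) * q * (y ^ (n + 1))⁻¹ := by
      rw [pow_succ' y n, mul_inv_rev]
      group
    rw [h1]

theorem j5_stable {Q : Subgroup P} {y : P} (hy : ∀ q, q ∈ Q ↔ y * q * y⁻¹ ∈ Q)
    {M : Submodule J B} (hM : St ρ Q M) (n : ℕ) : St ρ Q (j5_U ρ M y n) := by
  cases n with
  | zero =>
    intro q _ x hx
    have hx0 : x = 0 := (Submodule.mem_bot J).1 hx
    rw [hx0, map_zero]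
    exact Submodule.zero_mem _
  | succ n => exact UU_stable ρ hy hM n

theorem j5_map1 (M : Submodule J B) (y : P) (n : ℕ) {x : B} (hx : x ∈ j5_U ρ M y n) :
    ρ y x ∈ j5_U ρ M y (n + 1) := by
  cases n with
  | zero =>
    have hx0 : x = 0 := (Submodule.mem_bot J).1 hx
    rw [hx0, map_zero]
    exact Submodule.zero_mem _
  | succ n => exact UU_map_le ρ M y n (Submodule.mem_map_of_mem hx)

theorem j5_mapk (M : Submodule J B) (y : P) (k : ℕ) : ∀ (n : ℕ) {x : B}, x ∈ j5_U ρ M y n →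
    ρ (y ^ k) x ∈ j5_U ρ M y (n + k) := by
  induction k with
  | zero =>
    intro n x hx
    rw [pow_zero, map_one]
    exact hx
  | succ k ih =>
    intro n x hx
    have h1 := j5_map1 ρ M y _ (ih n hx)
    rw [pow_succ' y k, map_mul]
    exact h1

/-- PROOF. `exists_pos`: `M`, `U n = UU ρ M y n`, `W = ⨆ U n`; put `U' 0 = ⊥`, `U' (n+1) = U n`. Let `Y₊ = Y ⊓ W`. For `x ∈ Y` there is `n` with `y^n x ∈ Y₊`, so `Y` is generated by `Y₊` (and the group).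
`L n = {m ∈ M | ρ(y^n) m ∈ Y₊ ⊔ U' n}` is an ascending sequence of `Q`-stable submodules of `M`; `good_acc`: `L n = L n₀` for `n ≥ n₀`. By `Good ρ Q` for every `n ≤ n₀` there is a finite set `F n` with `L n = sp ρ Q (F n)`. For `m ∈ F n` choose `e = e(n, m) ∈ Y₊` with
`e - ρ(y^n) m ∈ U' n`. Let `E ⊆ Y` be the finite set of all `e(n, m)`, `n ≤ n₀`, `m ∈ F n`. Claim: `Y ⊓ U n ≤ Z = sp ρ (Q ⊔ zpowers y) E` for all `n` (induction on `n`, including `U' 0 = ⊥`). Let `w ∈ Y ⊓ U n = Y ⊓ (U' n ⊔ M.map (ρ (y^n)))`: `w = u + ρ(y^n) m`, `u ∈ U' n`, `m ∈ M`, so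
`m ∈ L n = L n₁`, `n₁ = min n n₀`, `m = ∑ c_j ρ(q_j) m_j` with `c_j ∈ J`, `q_j ∈ Q`, `m_j ∈ F n₁`. Put `q_j' = y^n q_j y^(-n) ∈ Q`, `z = ∑ c_j ρ(q_j' y^(n - n₁)) e(n₁, m_j) ∈ Z`. `e(n₁, m_j) = ρ(y^(n₁)) m_j + u_j`, `u_j ∈ U' n₁`, so
`z = ∑ c_j ρ(y^n q_j) m_j + ∑ c_j ρ(q_j' y^(n - n₁)) u_j = ρ(y^n) m + u'`, `u' ∈ U' n` (`y^(n-n₁) U' n₁ ≤ U' n`, `Q`-stable). So `w - z ∈ Y ⊓ U' n ≤ Z` by induction. Hence `Y₊ ≤ Z`, `Y ≤ Z`, `Y = Z`. -/
theorem step_fg {Q : Subgroup P} {y : P} (hy : ∀ q, q ∈ Q ↔ y * q * y⁻¹ ∈ Q)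
    (hQ : Good ρ Q) {X : Submodule J B} (hX : FGq ρ (Q ⊔ Subgroup.zpowers y) X)
    {Y : Submodule J B} (hYX : Y ≤ X) (hY : St ρ (Q ⊔ Subgroup.zpowers y) Y) :
    FGq ρ (Q ⊔ Subgroup.zpowers y) Y := by
  classical
  obtain ⟨M, hM, hMX, hW1, hW2, hX2, hpos⟩ := exists_pos ρ hy hX
  have hQle : Q ≤ Q ⊔ Subgroup.zpowers y := le_sup_left
  have hyQ : ∀ n : ℕ, y ^ n ∈ Q ⊔ Subgroup.zpowers y := fun n =>
    (le_sup_right : Subgroup.zpowers y ≤ Q ⊔ Subgroup.zpowers y)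
      (Subgroup.pow_mem _ (Subgroup.mem_zpowers y) n)
  have hMs : St ρ Q M := hM.stable
  set W : Submodule J B := ⨆ n, UU ρ M y n with hWdef
  have hWs : St ρ Q W := St.iSup ρ (fun n => UU_stable ρ hy hMs n)
  have hYQ : St ρ Q Y := fun q hq x hx => hY q (hQle hq) x hx
  have hYp : St ρ Q (Y ⊓ W) := hYQ.inf ρ hWs
  have hYp1 : ∀ x ∈ Y ⊓ W, ρ y x ∈ Y ⊓ W := by
    rintro x ⟨h1, h2⟩
    refine ⟨?_, hW1 (Submodule.mem_map_of_mem h2)⟩
    have := hY (y ^ 1) (hyQ 1) x h1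
    rwa [pow_one] at this
  -- the submodules `L n`
  let L : ℕ → Submodule J B := fun n => M ⊓ ((Y ⊓ W) ⊔ j5_U ρ M y n).comap (ρ (y ^ n))
  have hLmono : Monotone L := by
    apply monotone_nat_of_le_succ
    rintro n m ⟨hm1, hm2⟩
    refine ⟨hm1, ?_⟩
    have hm3 : ρ (y ^ n) m ∈ (Y ⊓ W) ⊔ j5_U ρ M y n := hm2
    show ρ (y ^ (n + 1)) m ∈ (Y ⊓ W) ⊔ j5_U ρ M y (n + 1)
    obtain ⟨a, ha, b, hb, hab⟩ := Submodule.mem_sup.1 hm3
    rw [pow_succ' y n, map_mul]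
    show ρ y (ρ (y ^ n) m) ∈ _
    rw [← hab, map_add]
    exact Submodule.add_mem_sup (hYp1 a ha) (j5_map1 ρ M y n hb)
  have hLle : ∀ n, L n ≤ M := fun n => inf_le_left
  have hLst : ∀ n, St ρ Q (L n) := fun n =>
    hMs.inf ρ ((hYp.sup ρ (j5_stable ρ hy hMs n)).comap ρ (j5_conj hy n))
  obtain ⟨n₀, hn₀⟩ := good_acc ρ hQ hM L hLmono hLle hLst
  have hLfg : ∀ n, FGq ρ Q (L n) := fun n => (hQ M hM).1 (L n) (hLle n) (hLst n)
  choose F hF using hLfg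
  have hex : ∀ n m, ∃ e : B, m ∈ F n → (e ∈ Y ⊓ W ∧ ρ (y ^ n) m - e ∈ j5_U ρ M y n) := by
    intro n m
    by_cases hm : m ∈ F n
    · have h1 : m ∈ L n := by
        rw [hF n]
        exact subset_sp ρ Q _ hm
      have h2 : ρ (y ^ n) m ∈ (Y ⊓ W) ⊔ j5_U ρ M y n := h1.2
      obtain ⟨a, ha, b, hb, hab⟩ := Submodule.mem_sup.1 h2
      refine ⟨a, fun _ => ⟨ha, ?_⟩⟩
      rw [← hab, add_sub_cancel_left]
      exact hb
    · exact ⟨0, fun h => absurd h hm⟩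
  choose e he using hex
  let E : Finset B := (Finset.range (n₀ + 1)).biUnion (fun n => (F n).image (e n))
  have hEmem : ∀ n ≤ n₀, ∀ m ∈ F n, e n m ∈ E := by
    intro n hn m hm
    exact Finset.mem_biUnion.2 ⟨n, Finset.mem_range.2 (by omega), Finset.mem_image_of_mem _ hm⟩
  have hEY : (E : Set B) ⊆ (Y : Set B) := by
    intro x hx
    obtain ⟨n, -, hx2⟩ := Finset.mem_biUnion.1 (Finset.mem_coe.1 hx)
    obtain ⟨m, hm, rfl⟩ := Finset.mem_image.1 hx2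
    exact (he n m hm).1.1
  refine ⟨E, ?_⟩
  set Z : Submodule J B := sp ρ (Q ⊔ Subgroup.zpowers y) (E : Set B) with hZ
  have hZst : St ρ (Q ⊔ Subgroup.zpowers y) Z := sp_stable ρ _ _
  have hZY : Z ≤ Y := sp_le ρ hY hEY
  have hEZ : ∀ x ∈ E, x ∈ Z := fun x hx => subset_sp ρ _ _ (Finset.mem_coe.2 hx)
  -- key
  have key : ∀ n n₁ : ℕ, n₁ ≤ n → n₁ ≤ n₀ → ∀ m ∈ L n₁, ∃ z ∈ Z,
      ρ (y ^ n) m - z ∈ j5_U ρ M y n := by
    intro n n₁ h1 h2 m hm
    rw [hF n₁] at hm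
    unfold sp at hm
    induction hm using Submodule.span_induction with
    | mem x hx =>
      obtain ⟨q, hq, a, ha, rfl⟩ := hx
      have ha' : a ∈ F n₁ := ha
      refine ⟨ρ ((y ^ n * q * (y ^ n)⁻¹) * y ^ (n - n₁)) (e n₁ a), ?_, ?_⟩
      · exact hZst _ (Subgroup.mul_mem _ (hQle ((j5_conj hy n q).1 hq)) (hyQ _)) _
          (hEZ _ (hEmem n₁ h2 a ha'))
      · have h3 : ρ (y ^ n) (ρ q a) - ρ ((y ^ n * q * (y ^ n)⁻¹) * y ^ (n - n₁)) (e n₁ a) =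
            ρ (y ^ n * q * (y ^ n)⁻¹) (ρ (y ^ (n - n₁)) (ρ (y ^ n₁) a - e n₁ a)) := by
          rw [map_sub, map_sub, map_mul ρ (y ^ n * q * (y ^ n)⁻¹) (y ^ (n - n₁))]
          have h4 : ρ (y ^ n) (ρ q a) =
              ρ (y ^ n * q * (y ^ n)⁻¹) (ρ (y ^ (n - n₁)) (ρ (y ^ n₁) a)) := by
            have h5 : y ^ n * q = (y ^ n * q * (y ^ n)⁻¹) * (y ^ (n - n₁) * y ^ n₁) := by
              rw [← pow_add, Nat.sub_add_cancel h1]
              group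
            have h6 : ρ (y ^ n * q) a =
                ρ ((y ^ n * q * (y ^ n)⁻¹) * (y ^ (n - n₁) * y ^ n₁)) a := by
              rw [← h5]
            rw [map_mul, map_mul ρ (y ^ n * q * (y ^ n)⁻¹), map_mul ρ (y ^ (n - n₁))] at h6
            exact h6
          rw [h4]
          rfl
        rw [h3]
        have h7 := j5_mapk ρ M y (n - n₁) n₁ (he n₁ a ha').2
        rw [Nat.add_sub_cancel' h1] at h7
        exact j5_stable ρ hy hMs n _ ((j5_conj hy n q).1 hq) _ h7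
    | zero =>
      refine ⟨0, Submodule.zero_mem _, ?_⟩
      rw [map_zero, sub_zero]
      exact Submodule.zero_mem _
    | add x x' _ _ ihx ihx' =>
      obtain ⟨z, hz, hz2⟩ := ihx
      obtain ⟨z', hz', hz2'⟩ := ihx'
      refine ⟨z + z', Submodule.add_mem _ hz hz', ?_⟩
      rw [map_add, add_sub_add_comm]
      exact Submodule.add_mem _ hz2 hz2'
    | smul c x _ ihx =>
      obtain ⟨z, hz, hz2⟩ := ihx
      refine ⟨c • z, Submodule.smul_mem _ c hz, ?_⟩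
      rw [map_smul, ← smul_sub]
      exact Submodule.smul_mem _ c hz2
  have hUW : ∀ n, UU ρ M y n ≤ W := fun n => le_iSup (fun n => UU ρ M y n) n
  have claim : ∀ n, Y ⊓ j5_U ρ M y n ≤ Z := by
    intro n
    induction n with
    | zero =>
      rintro x ⟨-, hx⟩
      have hx0 : x = 0 := (Submodule.mem_bot J).1 hx
      rw [hx0]
      exact Submodule.zero_mem _
    | succ n ih =>
      rintro w ⟨hw1, hw2⟩
      have hw3 : w ∈ UU ρ M y n := hw2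
      have hwW : w ∈ W := hUW n hw3
      rw [j5_U_succ] at hw3
      obtain ⟨u, hu, v, hv, huv⟩ := Submodule.mem_sup.1 hw3
      obtain ⟨m, hm, rfl⟩ := Submodule.mem_map.1 hv
      have hmL : m ∈ L n := by
        refine ⟨hm, ?_⟩
        show ρ (y ^ n) m ∈ (Y ⊓ W) ⊔ j5_U ρ M y n
        have h1 : ρ (y ^ n) m = w + -u := by
          rw [← huv]
          abel
        rw [h1]
        exact Submodule.add_mem_sup ⟨hw1, hwW⟩ (Submodule.neg_mem _ hu)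
      have hmL1 : m ∈ L (min n n₀) := by
        rcases le_total n n₀ with h | h
        · rw [min_eq_left h]
          exact hmL
        · rw [min_eq_right h, ← hn₀ n h]
          exact hmL
      obtain ⟨z, hz, hz2⟩ := key n (min n n₀) (min_le_left _ _) (min_le_right _ _) m hmL1
      have h2 : w - z ∈ Y ⊓ j5_U ρ M y n := by
        refine ⟨Submodule.sub_mem _ hw1 (hZY hz), ?_⟩
        have h3 : w - z = u + (ρ (y ^ n) m - z) := by
          rw [← huv]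
          abel
        rw [h3]
        exact Submodule.add_mem _ hu hz2
      have h4 := Submodule.add_mem _ (ih h2) hz
      rwa [sub_add_cancel] at h4
  have hYpZ : Y ⊓ W ≤ Z := by
    rintro x ⟨hx1, hx2⟩
    have hx3 : x ∈ ⨆ n, UU ρ M y n := hx2
    rw [Submodule.mem_iSup_of_directed _ (UU_mono ρ M y).directed_le] at hx3
    obtain ⟨n, hn⟩ := hx3
    exact claim (n + 1) ⟨hx1, hn⟩
  apply le_antisymm _ hZY
  intro x hx
  obtain ⟨n, hn⟩ := hpos x (hYX hx)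
  have h1 : ρ (y ^ n) x ∈ Z := hYpZ ⟨hY _ (hyQ n) x hx, hn⟩
  have h2 := hZst (y ^ n)⁻¹ (Subgroup.inv_mem _ (hyQ n)) _ h1
  have h3 : ρ (y ^ n)⁻¹ (ρ (y ^ n) x) = x := by
    have h4 : ρ ((y ^ n)⁻¹ * y ^ n) x = x := by
      rw [inv_mul_cancel, map_one]
      rfl
    rw [map_mul] at h4
    exact h4
  rwa [h3] at h2

end AM
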