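import Pool.Agent.AM.J1
import Pool.Agent.AM.J2

/-!
# [AM-J6] the trivial group
-/

set_option autoImplicit false

namespace AM

variable {J : Type*} [CommRing J] {B : Type*} [AddCommGroup B] [Module J B] {P : Type*} [Group P]
  (ρ : P →* Module.End J B)

theorem j6_sp_bot (f : Set B) : sp ρ (⊥ : Subgroup P) f = Submodule.span J f := by
  unfold sp
  congr 1
  ext b
  constructor
  · rintro ⟨q, hq, a, ha, rfl⟩
    rw [Subgroup.mem_bot] at hq
    rw [hq, map_one]
    exact ha
  · intro hb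
    refine ⟨1, Subgroup.mem_bot.mpr rfl, b, hb, ?_⟩
    rw [map_one]
    rfl

theorem j6_fg_iff (X : Submodule J B) : FGq ρ (⊥ : Subgroup P) X ↔ X.FG := by
  unfold FGq
  simp only [j6_sp_bot]
  constructor
  · rintro ⟨f, rfl⟩
    exact ⟨f, rfl⟩
  · rintro ⟨f, rfl⟩
    exact ⟨f, rfl⟩

/-- generic freeness without a group -/
theorem j6_gf [IsDomain J] {X Y : Submodule J B} (hX : X.FG) :
    ∃ s : J, s ≠ 0 ∧ GF s Y X := by
  classical
  obtain ⟨I, hI, hmax⟩ := exists_maximal_linearIndepOn J (fun x : X => Y.mkQ (x : B))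
  set b : Set B := Subtype.val '' I with hb
  have hex : ∀ x ∈ X, ∃ a : J, a ≠ 0 ∧ a • x ∈ Submodule.span J b ⊔ Y := by
    intro x hx
    by_cases hxI : (⟨x, hx⟩ : X) ∈ I
    · refine ⟨1, one_ne_zero, ?_⟩
      rw [one_smul]
      exact Submodule.mem_sup_left (Submodule.subset_span ⟨_, hxI, rfl⟩)
    · obtain ⟨a, ha, h⟩ := hmax _ hxI
      refine ⟨a, ha, ?_⟩
      have h1 : ((fun x : X => Y.mkQ (x : B)) '' I) = (Y.mkQ : B → B ⧸ Y) '' b := by
        rw [hb, Set.image_image]
      rw [h1, ← Submodule.map_span] at h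
      obtain ⟨y, hy, hxy⟩ := h
      have h2 : a • x - y ∈ Y := by
        rw [← Submodule.Quotient.mk_eq_zero, ← Submodule.mkQ_apply, map_sub, map_smul, hxy, sub_self]
      have h3 : a • x = y + (a • x - y) := by abel
      rw [h3]
      exact Submodule.add_mem_sup hy h2
  obtain ⟨f, hf⟩ := hX
  have hfX : ∀ x ∈ f, x ∈ X := by
    intro x hx
    rw [← hf]
    exact Submodule.subset_span hx
  have hex' : ∀ x : B, ∃ a : J, a ≠ 0 ∧ (x ∈ f → a • x ∈ Submodule.span J b ⊔ Y) := by
    intro x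
    by_cases hx : x ∈ f
    · obtain ⟨a, ha, h⟩ := hex x (hfX x hx)
      exact ⟨a, ha, fun _ => h⟩
    · exact ⟨1, one_ne_zero, fun h => absurd h hx⟩
  choose a ha ha' using hex'
  refine ⟨∏ x ∈ f, a x, Finset.prod_ne_zero_iff.mpr fun x _ => ha x, b, ?_, ?_, ?_⟩
  · rintro _ ⟨x, _, rfl⟩
    exact x.2
  · have h1 : LinearIndependent J (fun x : I => Y.mkQ ((x : X) : B)) := hI
    have h2 := (linearIndependent_equiv (Equiv.Set.image (Subtype.val : X → B) I
      Subtype.val_injective) (f := fun y : b => Y.mkQ (y : B))).mp h1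
    exact h2
  · intro x hx
    refine ⟨1, ?_⟩
    rw [pow_one]
    have h1 : X ≤ (Submodule.span J b ⊔ Y).comap (LinearMap.lsmul J B (∏ x ∈ f, a x)) := by
      rw [← hf, Submodule.span_le]
      intro y hy
      change (∏ x ∈ f, a x) • y ∈ Submodule.span J b ⊔ Y
      rw [← Finset.prod_erase_mul f a hy, mul_smul]
      exact Submodule.smul_mem _ _ (ha' y hy)
    exact h1 hx

/-- PROOF. `sp ρ ⊥ f = span f`, so `FGq ρ ⊥ X ↔ X.FG`; `J` is noetherian. Generic freeness: let `X` be finitely generated, `Y ≤ X`. Choose a maximal subset `b` of `X` linearly independent modulo `Y` (`exists_linearIndepOn_extension`, Zorn, `exists_linearIndependent...`). For every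
`x ∈ X` there is `s_x ≠ 0` with `s_x x ∈ span b ⊔ Y` (maximality). `s` = the product of the `s_x` over a finite generating set of `X` (a domain); `k = 1` works for all `x ∈ X`. -/
theorem good_bot [IsDomain J] [IsNoetherianRing J] : Good ρ (⊥ : Subgroup P) := by
  intro X hX
  rw [j6_fg_iff] at hX
  refine ⟨fun Y hY _ => ?_, fun Y hY _ => j6_gf hX⟩
  rw [j6_fg_iff]
  have h1 : Module.Finite J X := Module.Finite.iff_fg.mpr hX
  have h2 : IsNoetherian J X := isNoetherian_of_isNoetherianRing_of_finite J X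
  have h3 : (Y.comap X.subtype).FG := h2.noetherian _
  have h4 := h3.map X.subtype
  rw [Submodule.map_comap_subtype, inf_eq_right.mpr hY] at h4
  exact h4

end AM
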