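import Pool.Agent.AM.J4
import Pool.Agent.AM.J5
import Pool.Agent.AM.J6
import Pool.Agent.AG.G7
import Pool.Agent.AG.V3

/-!
# [AM-J7] Hall's theorem and generic freeness for finitely generated nilpotent groups
-/

set_option autoImplicit false

namespace AM

/-- PROOF. All subgroups of `P` are finitely generated (`AG.fg_of_nilpotent`), so there is a maximal good subgroup `Q` (`AG.v3_wf`, `good_bot`). If `Q ≠ ⊤`, the normalizer condition (`Group.normalizerCondition_of_isNilpotent`) gives `y ∉ Q` in the normalizer of `Q`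
(`Subgroup.mem_normalizer_iff`), and `Q ⊔ zpowers y` is good by `step_gf`, `step_fg`, a contradiction. -/
theorem good_top {J : Type*} [CommRing J] [IsDomain J] [IsNoetherianRing J] {B : Type*}
    [AddCommGroup B] [Module J B] {P : Type*} [Group P] [Group.FG P] [Group.IsNilpotent P]
    (ρ : P →* Module.End J B) : Good ρ (⊤ : Subgroup P) := by
  have hwf : WellFoundedGT (Subgroup P) := AG.v3_wf fun K => AG.fg_of_nilpotent K
  obtain ⟨Q, hQ, hmax⟩ := hwf.wf.has_min {Q : Subgroup P | Good ρ Q} ⟨⊥, good_bot ρ⟩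
  by_cases htop : Q = ⊤
  · rw [← htop]
    exact hQ
  · exfalso
    have hlt := Group.normalizerCondition_of_isNilpotent (G := P) Q (lt_top_iff_ne_top.2 htop)
    obtain ⟨y, hy1, hy2⟩ := SetLike.exists_of_lt hlt
    have hy : ∀ q, q ∈ Q ↔ y * q * y⁻¹ ∈ Q := Subgroup.mem_normalizer_iff.1 hy1
    have hgood : Good ρ (Q ⊔ Subgroup.zpowers y) := by
      intro X hX
      exact ⟨fun Y hYX hY => step_fg ρ hy hQ hX hYX hY, fun Y hYX hY => step_gf ρ hy hQ hX hYX hY⟩
    refine hmax _ hgood ?_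
    refine lt_of_le_of_ne le_sup_left ?_
    intro h
    apply hy2
    rw [h]
    exact (le_sup_right : Subgroup.zpowers y ≤ Q ⊔ Subgroup.zpowers y) (Subgroup.mem_zpowers y)

/-- PROOF. Apply `good_top` to `P = H ⧸ N`, `N = (⊤ : Subgroup H).lowerCentralSeries c` and the induced homomorphism `QuotientGroup.lift N ρ _` (or to the image of `H` in the group of units of `Module.End J B`): `St`, `sp` for `⊤` are the same for `H` and for `P`. -/
theorem hall {J : Type*} [CommRing J] [IsDomain J] [IsNoetherianRing J] {B : Type*}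
    [AddCommGroup B] [Module J B] {H : Type*} [Group H] [Group.FG H]
    (ρ : H →* Module.End J B) (c : ℕ) (hc : (⊤ : Subgroup H).lowerCentralSeries c ≤ ρ.ker) :
    Good ρ (⊤ : Subgroup H) := by
  obtain ⟨N, hN⟩ : ∃ N : Subgroup H, N = (⊤ : Subgroup H).lowerCentralSeries c := ⟨_, rfl⟩
  have hNn : N.Normal := by
    rw [hN]
    infer_instance
  rw [← hN] at hc
  have hnil : Group.IsNilpotent (H ⧸ N) := by
    rw [Subgroup.nilpotent_iff_lowerCentralSeries]
    refine ⟨c, ?_⟩
    have h1 := Subgroup.map_lowerCentralSeries (⊤ : Subgroup H) (QuotientGroup.mk' N) c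
    rw [← hN, Subgroup.map_top_of_surjective _ (QuotientGroup.mk'_surjective N)] at h1
    rw [← h1, Subgroup.map_eq_bot_iff, QuotientGroup.ker_mk']
  have hlift : ∀ h : H, QuotientGroup.lift N ρ hc (QuotientGroup.mk h) = ρ h := fun h => rfl
  have hgood := good_top (QuotientGroup.lift N ρ hc)
  have hsp : ∀ f : Set B, sp (QuotientGroup.lift N ρ hc) (⊤ : Subgroup (H ⧸ N)) f =
      sp ρ (⊤ : Subgroup H) f := by
    intro f
    unfold sp
    congr 1
    ext b
    constructor
    · rintro ⟨q, -, a, ha, rfl⟩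
      obtain ⟨h, rfl⟩ := QuotientGroup.mk_surjective q
      exact ⟨h, Subgroup.mem_top _, a, ha, rfl⟩
    · rintro ⟨h, -, a, ha, rfl⟩
      exact ⟨QuotientGroup.mk h, Subgroup.mem_top _, a, ha, rfl⟩
  have hFG : ∀ X : Submodule J B, FGq (QuotientGroup.lift N ρ hc) (⊤ : Subgroup (H ⧸ N)) X ↔
      FGq ρ (⊤ : Subgroup H) X := by
    intro X
    unfold FGq
    simp only [hsp]
  have hSt : ∀ Y : Submodule J B, St ρ (⊤ : Subgroup H) Y →
      St (QuotientGroup.lift N ρ hc) (⊤ : Subgroup (H ⧸ N)) Y := by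
    intro Y hY q _ y hy
    obtain ⟨h, rfl⟩ := QuotientGroup.mk_surjective q
    rw [hlift]
    exact hY h (Subgroup.mem_top _) y hy
  intro X hX
  obtain ⟨h1, h2⟩ := hgood X ((hFG X).2 hX)
  exact ⟨fun Y hYX hY => (hFG Y).1 (h1 Y hYX (hSt Y hY)), fun Y hYX hY => h2 Y hYX (hSt Y hY)⟩

end AM
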