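import Pool.Agent.AM.Defs

/-!
# [AM-K1] bounded denominators
-/

set_option autoImplicit false

open Polynomial IntermediateField

namespace AM

open scoped IntermediateField.algebraAdjoinAdjoin in
/-- a relation with coefficients in `F[q]` -/
theorem k1_rel {F K : Type*} [Field F] [Field K] [Algebra F K] (T q : K) (m : ℕ)
    (hfin : FiniteDimensional F⟮q⟯ K) (hm : Module.finrank F⟮q⟯ K ≤ m) :
    ∃ a : ℕ → F[X], (∃ i ≤ m, aeval q (a i) ≠ 0) ∧
      ∑ i ∈ Finset.range (m + 1), aeval q (a i) * T ^ i = 0 := by
  classical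
  have hint : IsIntegral F⟮q⟯ T := IsIntegral.of_finite F⟮q⟯ T
  set g : F⟮q⟯[X] := minpoly F⟮q⟯ T with hg
  have hgd : g.natDegree ≤ m := (minpoly.natDegree_le T).trans hm
  have hg0 : g ≠ 0 := minpoly.ne_zero hint
  set P := IsLocalization.integerNormalization (nonZeroDivisors (Algebra.adjoin F {q})) g with hP
  have hP0 : P ≠ 0 := by
    intro h
    exact hg0 (IsFractionRing.integerNormalization_eq_zero_iff.mp h)
  have hPd : P.natDegree ≤ m := by
    refine le_trans ?_ hgd
    rw [natDegree_le_iff_coeff_eq_zero]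
    intro N hN
    by_contra hne
    have h1 : N ∈ P.support := mem_support_iff.mpr hne
    have h2 := IsLocalization.integerNormalization_support (nonZeroDivisors (Algebra.adjoin F {q})) g h1
    have h3 := le_natDegree_of_mem_supp N h2
    omega
  have hPT : aeval T P = 0 :=
    IsLocalization.integerNormalization_aeval_eq_zero _ g (minpoly.aeval _ _)
  have hcoef : ∀ i, ∃ a : F[X], aeval q a = ((P.coeff i : Algebra.adjoin F {q}) : K) := by
    intro i
    have h0 : ∀ y : K, y ∈ Algebra.adjoin F ({q} : Set K) → ∃ a : F[X], aeval q a = y := by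
      intro y hy
      rw [Algebra.adjoin_singleton_eq_range_aeval] at hy
      exact hy
    exact h0 _ (P.coeff i).2
  choose a ha using hcoef
  refine ⟨a, ⟨P.natDegree, hPd, ?_⟩, ?_⟩
  · rw [ha]
    intro h
    have h2 : P.coeff P.natDegree = 0 := Subtype.ext h
    exact hP0 (leadingCoeff_eq_zero.mp h2)
  · rw [aeval_eq_sum_range' (lt_of_le_of_lt hPd (Nat.lt_succ_self m))] at hPT
    rw [← hPT]
    refine Finset.sum_congr rfl fun i _ => ?_
    rw [ha]
    rfl

/-- PROOF. If `q` is algebraic over `F` take `c = 1`. Otherwise `T` is algebraic over `F(q)`, its minimal polynomial has degree `d ≤ [K : F(q)] = m`. `F(q)` is the fraction field of `F[q]` (`q` transcendental; the elements of `F(q)` are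
quotients of elements of `F[q] = Algebra.adjoin F {q}`), so after multiplication by a common denominator there are `a 0, ..., a d ∈ F[X]` with `∑_i a_i(q) T^i = 0` and `a_d ≠ 0`. Let `e = max deg a_i` and collect the powers of `q`:
`∑_{j ≤ e} c_j(T) q^j = 0`, where `c_j = ∑_i (a_i).coeff j X^i` has degree `≤ d ≤ m`, and `c_e ≠ 0`. As `T` is transcendental `c_e(T) ≠ 0`. So `q` is a root of the nonzero polynomial `R = ∑_j c_j(T) Y^j` over
`A = Algebra.adjoin F {T}` with leading coefficient `c_e(T)`; hence `c_e(T) q` is integral over `A` (`isIntegral_leadingCoeff_smul` or similar). Take `c = c_e`. -/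
theorem exists_den {F K : Type*} [Field F] [Field K] [Algebra F K] (T q : K)
    (hT : Transcendental F T) (m : ℕ) (hq : HtLe F q m) :
    ∃ c : F[X], c ≠ 0 ∧ c.natDegree ≤ m ∧
      IsIntegral (Algebra.adjoin F ({T} : Set K)) (aeval T c * q) := by
  classical
  rcases hq with halg | ⟨hfin, hm⟩
  · refine ⟨1, one_ne_zero, by simp, ?_⟩
    rw [map_one, one_mul]
    exact (halg.isIntegral).tower_top
  obtain ⟨a, ⟨i₀, hi₀, hne⟩, hsum⟩ := k1_rel T q m hfin hm
  have ha0 : a i₀ ≠ 0 := by
    intro h
    rw [h, map_zero] at hne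
    exact hne rfl
  -- bound for the degrees
  set N := (Finset.range (m + 1)).sup (fun i => (a i).natDegree) with hN
  have hNle : ∀ i ≤ m, (a i).natDegree ≤ N := fun i hi =>
    Finset.le_sup (f := fun i => (a i).natDegree) (Finset.mem_range.mpr (by omega))
  let c : ℕ → F[X] := fun j => ∑ i ∈ Finset.range (m + 1), C ((a i).coeff j) * X ^ i
  have hcd : ∀ j, (c j).natDegree ≤ m := by
    intro j
    refine natDegree_sum_le_of_forall_le _ _ fun i hi => ?_
    refine (natDegree_C_mul_X_pow_le _ _).trans ?_
    have := Finset.mem_range.mp hi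
    omega
  have hcc : ∀ j, ∀ i ≤ m, (c j).coeff i = (a i).coeff j := by
    intro j i hi
    simp only [c, finsetSum_coeff, coeff_C_mul, coeff_X_pow, mul_ite, mul_one, mul_zero]
    rw [Finset.sum_ite_eq (Finset.range (m + 1)) i, if_pos (Finset.mem_range.mpr (by omega))]
  set A := Algebra.adjoin F ({T} : Set K) with hA
  let T' : A := ⟨T, Algebra.self_mem_adjoin_singleton F T⟩
  have hval : ∀ f : F[X], ((aeval T' f : A) : K) = aeval T f := by
    intro f
    have := Polynomial.aeval_algHom_apply A.val T' f
    exact this.symm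
  let R : A[X] := ∑ j ∈ Finset.range (N + 1), C (aeval T' (c j)) * X ^ j
  have hRc : ∀ j ≤ N, R.coeff j = aeval T' (c j) := by
    intro j hj
    simp only [R, finsetSum_coeff, coeff_C_mul, coeff_X_pow, mul_ite, mul_one, mul_zero]
    rw [Finset.sum_ite_eq (Finset.range (N + 1)) j, if_pos (Finset.mem_range.mpr (by omega))]
  have hRd : R.natDegree ≤ N := by
    refine natDegree_sum_le_of_forall_le _ _ fun i hi => ?_
    refine (natDegree_C_mul_X_pow_le _ _).trans ?_
    have := Finset.mem_range.mp hi
    omega
  have hR0 : R ≠ 0 := by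
    intro h
    have h1 := hRc (a i₀).natDegree (hNle i₀ hi₀)
    rw [h, coeff_zero] at h1
    have h2 : aeval T (c (a i₀).natDegree) = 0 := by
      rw [← hval, ← h1]; rfl
    have h3 : c (a i₀).natDegree = 0 := (transcendental_iff.mp hT) _ h2
    have h4 := hcc (a i₀).natDegree i₀ hi₀
    rw [h3, coeff_zero] at h4
    exact ha0 (leadingCoeff_eq_zero.mp h4.symm)
  have hRq : aeval q R = 0 := by
    simp only [R, map_sum, map_mul, map_pow, aeval_X, aeval_C]
    rw [← hsum]
    have h1 : ∀ j ∈ Finset.range (N + 1), (algebraMap A K) (aeval T' (c j)) * q ^ j =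
        ∑ i ∈ Finset.range (m + 1), algebraMap F K ((a i).coeff j) * T ^ i * q ^ j := by
      intro j _
      rw [show (algebraMap A K) (aeval T' (c j)) = aeval T (c j) from hval _]
      simp only [c, map_sum, map_mul, map_pow, aeval_X, aeval_C]
      rw [Finset.sum_mul]
    rw [Finset.sum_congr rfl h1, Finset.sum_comm]
    refine Finset.sum_congr rfl fun i hi => ?_
    have hi' := Finset.mem_range.mp hi
    rw [aeval_eq_sum_range' (lt_of_le_of_lt (hNle i (by omega)) (Nat.lt_succ_self N)),
      Finset.sum_mul]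
    refine Finset.sum_congr rfl fun j _ => ?_
    rw [Algebra.smul_def]
    ring
  have hint := isIntegral_leadingCoeff_smul R q hRq
  have hlc : R.leadingCoeff = aeval T' (c R.natDegree) := hRc _ hRd
  refine ⟨c R.natDegree, ?_, hcd _, ?_⟩
  · intro h
    rw [h, map_zero] at hlc
    exact hR0 (leadingCoeff_eq_zero.mp hlc)
  · rw [hlc, Algebra.smul_def] at hint
    rw [show (algebraMap A K) (aeval T' (c R.natDegree)) = aeval T (c R.natDegree) from hval _] at hint
    exact hint

end AM
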