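import Pool.Agent.AM.Defs

/-!
# [AM-K2] irreducible polynomials over `k` stay irreducible over a purely transcendental extension
-/

set_option autoImplicit false

open Polynomial IntermediateField

namespace AM

/-- first step: polynomial rings -/
theorem k2_prime_map {k : Type*} [Field k] {ι : Type*} (g : k[X]) (hg : Irreducible g) :
    Irreducible (g.map (algebraMap k (MvPolynomial ι k))) := by
  have hgp : Prime g := hg.prime
  have h1 : Prime (MvPolynomial.C g : MvPolynomial ι k[X]) := (MvPolynomial.prime_C_iff ι).mpr hgp
  let e : (MvPolynomial ι k)[X] ≃ₐ[k] MvPolynomial ι k[X] :=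
    (MvPolynomial.optionEquivLeft k ι).symm.trans (MvPolynomial.optionEquivRight k ι)
  have he : ∀ f : k[X], e (f.map (algebraMap k (MvPolynomial ι k))) = MvPolynomial.C f := by
    intro f
    have h2 : (e : (MvPolynomial ι k)[X] →ₐ[k] MvPolynomial ι k[X]).comp
        (Polynomial.mapAlgHom (Algebra.ofId k (MvPolynomial ι k))) =
        (IsScalarTower.toAlgHom k k[X] (MvPolynomial ι k[X])) := by
      apply Polynomial.algHom_ext
      simp only [AlgHom.comp_apply, Polynomial.coe_mapAlgHom, Polynomial.map_X,
        IsScalarTower.coe_toAlgHom', MvPolynomial.algebraMap_eq]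
      show MvPolynomial.optionEquivRight k ι ((MvPolynomial.optionEquivLeft k ι).symm X) = _
      rw [← MvPolynomial.optionEquivLeft_X_none, AlgEquiv.symm_apply_apply,
        MvPolynomial.optionEquivRight_X_none]
    have h3 := DFunLike.congr_fun h2 f
    exact h3
  have h4 : Prime (g.map (algebraMap k (MvPolynomial ι k))) := by
    rw [← MulEquiv.prime_iff e, he]
    exact h1
  exact h4.irreducible

/-- monic case -/
theorem k2_monic {k K : Type*} [Field k] [Field K] [Algebra k K] {ι : Type*} (x : ι → K)
    (hx : AlgebraicIndependent k x) (g : k[X]) (hg : Irreducible g) (hm : g.Monic) :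
    Irreducible (g.map (algebraMap k (IntermediateField.adjoin k (Set.range x)))) := by
  classical
  let e2 : MvPolynomial ι k ≃ₐ[k] Algebra.adjoin k (Set.range x) := hx.aevalEquiv
  have h1 : Irreducible (g.map (algebraMap k (Algebra.adjoin k (Set.range x)))) := by
    have h2 := k2_prime_map (ι := ι) g hg
    have h3 : g.map (algebraMap k (Algebra.adjoin k (Set.range x))) =
        Polynomial.mapEquiv (e2 : MvPolynomial ι k ≃+* Algebra.adjoin k (Set.range x))
          (g.map (algebraMap k (MvPolynomial ι k))) := by
      rw [Polynomial.mapEquiv_apply, Polynomial.map_map]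
      congr 1
      ext a
      exact (congrArg Subtype.val (e2.commutes a)).symm
    rw [h3]
    exact (MulEquiv.irreducible_iff _).mpr h2
  have : IsIntegrallyClosed (MvPolynomial ι k) := inferInstance
  have : IsIntegrallyClosed (Algebra.adjoin k (Set.range x)) :=
    IsIntegrallyClosed.of_equiv (e2 : MvPolynomial ι k ≃+* Algebra.adjoin k (Set.range x))
  open scoped IntermediateField.algebraAdjoinAdjoin in
  have h5 := (Polynomial.Monic.irreducible_iff_irreducible_map_fraction_map
    (K := IntermediateField.adjoin k (Set.range x))
    (hm.map (algebraMap k (Algebra.adjoin k (Set.range x))))).mp h1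
  rw [Polynomial.map_map] at h5
  convert h5 using 2
  ext a
  rfl

/-- PROOF. `C g ∈ MvPolynomial ι k[X]` is prime (`MvPolynomial.prime_C_iff`, `g` is prime in `k[X]`). Under the isomorphism `MvPolynomial ι k[X] ≃ (MvPolynomial ι k)[X]` (composition of `MvPolynomial.optionEquivRight` and
`MvPolynomial.optionEquivLeft`, for `Option ι`) it corresponds to `g.map C`, which is therefore irreducible. We may assume that `g` is monic (multiply by a constant). `R = MvPolynomial ι k` is a unique factorization domain, hence integrally closed, so
`Polynomial.Monic.irreducible_iff_irreducible_map_fraction_map`: `g` stays irreducible over `FractionRing R`. Since `x` is algebraically independent, `R ≃ Algebra.adjoin k (range x)` (`AlgebraicIndependent.aevalEquiv`) and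
`IntermediateField.adjoin k (range x)` is a fraction field of it (there is an `IsFractionRing (Algebra.adjoin k S) (IntermediateField.adjoin k S)` instance or lemma in Mathlib; or: `AlgebraicIndependent.aevalEquivField`). Or directly: the field
`E = IntermediateField.adjoin k (range x)` is a fraction ring of `R` with the algebra structure `aeval x` (`IsFractionRing R E`), and use the theorem with this `E`. -/
theorem irreducible_map {k K : Type*} [Field k] [Field K] [Algebra k K] {ι : Type*} (x : ι → K)
    (hx : AlgebraicIndependent k x) (g : k[X]) (hg : Irreducible g) :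
    Irreducible (g.map (algebraMap k (IntermediateField.adjoin k (Set.range x)))) := by
  have h1 : (g * C (g.leadingCoeff)⁻¹).Monic := monic_mul_leadingCoeff_inv hg.ne_zero
  have h2 : Irreducible (g * C (g.leadingCoeff)⁻¹) := irreducible_mul_leadingCoeff_inv.mpr hg
  have h3 := k2_monic x hx _ h2 h1
  rw [Polynomial.map_mul, Polynomial.map_C] at h3
  have hu : IsUnit (C ((algebraMap k (IntermediateField.adjoin k (Set.range x)))
      (g.leadingCoeff)⁻¹)) := by
    rw [Polynomial.isUnit_C]
    exact (_root_.map_ne_zero _).mpr (inv_ne_zero (leadingCoeff_ne_zero.mpr hg.ne_zero)) |>.isUnit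
  exact (irreducible_mul_isUnit hu).mp h3

/-- PROOF. Apply the previous theorem to the subfamily (`AlgebraicIndependent.comp`). -/
theorem irreducible_map_Fi {k K : Type*} [Field k] [Field K] [Algebra k K] {ι : Type*} (x : ι → K)
    (hx : AlgebraicIndependent k x) (i : ι) (g : k[X]) (hg : Irreducible g) :
    Irreducible (g.map (algebraMap k (Fi k x i))) :=
  irreducible_map (fun j : {j : ι // j ≠ i} => x j) (hx.comp _ Subtype.val_injective) g hg

end AM
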