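import Pool.Agent.AM.Defs

/-!
# [AM-N1] the relations between a transcendence basis and one more element
-/

set_option autoImplicit false

open Polynomial IntermediateField

namespace AM

/-- evaluation at `xT x T` in terms of `optionEquivLeft` -/
theorem n1_eval {k K : Type*} [Field k] [Field K] [Algebra k K] {ι : Type*} (x : ι → K) (T : K)
    (Ψ : MvPolynomial (Option ι) k) :
    MvPolynomial.aeval (xT x T) Ψ =
      Polynomial.eval₂ (MvPolynomial.aeval x : MvPolynomial ι k →ₐ[k] K).toRingHom T
        (MvPolynomial.optionEquivLeft k ι Ψ) := by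
  induction Ψ using MvPolynomial.induction_on with
  | C a => simp [MvPolynomial.optionEquivLeft_C]
  | add p q hp hq => rw [map_add, map_add, Polynomial.eval₂_add, hp, hq]
  | mul_X p n hp =>
    rw [map_mul, map_mul, Polynomial.eval₂_mul, hp]
    congr 1
    cases n with
    | none => simp [xT, MvPolynomial.optionEquivLeft_X_none]
    | some i => simp [xT, MvPolynomial.optionEquivLeft_X_some]

/-- Gauss: a prime polynomial over a UFD divides every polynomial with the same root -/
theorem n1_gauss {R K : Type*} [CommRing R] [IsDomain R] [UniqueFactorizationMonoid R] [Field K]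
    (ev : R →+* K) (hinj : Function.Injective ev) (T : K) (P Q : R[X]) (hPp : Prime P)
    (hP0 : Polynomial.eval₂ ev T P = 0) (hQ0 : Polynomial.eval₂ ev T Q = 0) : P ∣ Q := by
  classical
  have hdeg : P.natDegree ≠ 0 := by
    intro h
    rw [Polynomial.eq_C_of_natDegree_eq_zero h, Polynomial.eval₂_C] at hP0
    have h0 : P.coeff 0 = 0 := hinj (by rw [hP0, map_zero])
    apply hPp.ne_zero
    rw [Polynomial.eq_C_of_natDegree_eq_zero h, h0, Polynomial.C_0]
  have hprim : P.IsPrimitive := hPp.irreducible.isPrimitive hdeg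
  let _ : StrongNormalizationMonoid R := UniqueFactorizationMonoid.strongNormalizationMonoid
  let _ : NormalizedGCDMonoid R := UniqueFactorizationMonoid.toNormalizedGCDMonoid R
  let L := FractionRing R
  let φ : L →+* K := IsFractionRing.lift hinj
  have hφ : φ.comp (algebraMap R L) = ev :=
    RingHom.ext fun r => IsFractionRing.lift_algebraMap hinj r
  let _ : Algebra L K := φ.toAlgebra
  have hevL : ∀ Q : R[X], Polynomial.aeval T
      (Q.map (algebraMap R L)) = Polynomial.eval₂ ev T Q := by
    intro Q
    rw [Polynomial.aeval_def, Polynomial.eval₂_map, RingHom.algebraMap_toAlgebra, hφ]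
  have hirr : Irreducible (P.map (algebraMap R L)) :=
    (hprim.irreducible_iff_irreducible_map_fraction_map).1 hPp.irreducible
  have hmP : minpoly L T ∣ P.map (algebraMap R L) :=
    minpoly.dvd L T (by rw [hevL, hP0])
  have hmQ : minpoly L T ∣ Q.map (algebraMap R L) :=
    minpoly.dvd L T (by rw [hevL, hQ0])
  have hunit : ¬ IsUnit (minpoly L T) := by
    refine minpoly.not_isUnit L T
  have hassoc : Associated (P.map (algebraMap R L)) (minpoly L T) := by
    obtain ⟨c, hc⟩ := hmP
    rcases hirr.isUnit_or_isUnit hc with h | h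
    · exact absurd h hunit
    · rw [hc]
      exact (associated_mul_unit_left _ _ h)
  exact hprim.dvd_of_fraction_map_dvd_fraction_map (K := L) (hassoc.dvd.trans hmQ)

/-- there is a relation -/
theorem n1_exists {k K : Type*} [Field k] [Field K] [Algebra k K] {ι : Type*} (x : ι → K)
    (hx : IsTranscendenceBasis k x) (T : K) :
    ∃ Ψ : MvPolynomial (Option ι) k, MvPolynomial.aeval (xT x T) Ψ = 0 ∧ Ψ ≠ 0 := by
  have hnot : ¬ AlgebraicIndependent k (xT x T) := by
    intro h
    have h1 := (hx.1.option_iff_transcendental T).1 h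
    exact h1 (hx.isAlgebraic.isAlgebraic T)
  by_contra hcon
  push Not at hcon
  exact hnot (algebraicIndependent_iff.2 hcon)

/-- PROOF. `R = MvPolynomial ι k` is a unique factorization domain (`MvPolynomial.uniqueFactorizationMonoid`-instance), choose a `NormalizedGCDMonoid` structure (`UniqueFactorizationMonoid.toNormalizedGCDMonoid`). `E = IntermediateField.adjoin k (range x)` is a
fraction field of `R` (algebra structure `aeval x`, injective; every element of `E` is a quotient of elements of `Algebra.adjoin k (range x)`), and `T` is algebraic over `E`. Let `μ` be the minimal polynomial of `T` over `E` and `Φ' ∈ R[X]` the primitive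
part of an integer normalization of `μ` (`IsLocalization.integerNormalization`, `Polynomial.primPart`): `Φ'` is primitive, `Φ'` and `μ` differ by a nonzero constant of `E`. If `Ψ' ∈ R[X]` has the root `T`, then `μ ∣ Ψ'` over `E`, so
`Φ' ∣ Ψ'` over `E`, so `Φ' ∣ Ψ'` in `R[X]` (`Polynomial.IsPrimitive.dvd_of_fraction_map_dvd_fraction_map`). Transport by `MvPolynomial.optionEquivLeft k ι : MvPolynomial (Option ι) k ≃ₐ (MvPolynomial ι k)[X]`
(`none ↦ X`, `some i ↦ C (X i)`). -/
theorem exists_gen {k K : Type*} [Field k] [Field K] [Algebra k K] {ι : Type*} (x : ι → K)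
    (hx : IsTranscendenceBasis k x) (T : K) :
    ∃ Φ : MvPolynomial (Option ι) k, Φ ≠ 0 ∧ MvPolynomial.aeval (xT x T) Φ = 0 ∧
      ∀ Ψ : MvPolynomial (Option ι) k, MvPolynomial.aeval (xT x T) Ψ = 0 → Φ ∣ Ψ := by
  classical
  let I : Ideal (MvPolynomial (Option ι) k) :=
    RingHom.ker (MvPolynomial.aeval (xT x T) : MvPolynomial (Option ι) k →ₐ[k] K).toRingHom
  have hI : I.IsPrime := RingHom.ker_isPrime _
  have hImem : ∀ Ψ, Ψ ∈ I ↔ MvPolynomial.aeval (xT x T) Ψ = 0 := fun Ψ => RingHom.mem_ker
  have hne : I ≠ ⊥ := by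
    obtain ⟨Ψ, h1, h2⟩ := n1_exists x hx T
    intro h
    have h3 := (hImem Ψ).2 h1
    rw [h] at h3
    exact h2 ((Submodule.mem_bot _).1 h3)
  obtain ⟨Φ, hΦI, hΦ⟩ := hI.exists_mem_prime_of_ne_bot hne
  refine ⟨Φ, hΦ.ne_zero, (hImem Φ).1 hΦI, fun Ψ hΨ => ?_⟩
  have hinj : Function.Injective
      (MvPolynomial.aeval x : MvPolynomial ι k →ₐ[k] K).toRingHom := hx.1
  have hPp : Prime (MvPolynomial.optionEquivLeft k ι Φ) :=
    (MulEquiv.prime_iff (MvPolynomial.optionEquivLeft k ι).toMulEquiv).2 hΦ
  have hP0 := n1_eval x T Φ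
  rw [(hImem Φ).1 hΦI] at hP0
  have hQ0 := n1_eval x T Ψ
  rw [hΨ] at hQ0
  have hdvd := n1_gauss _ hinj T _ _ hPp hP0.symm hQ0.symm
  have h3 := map_dvd (MvPolynomial.optionEquivLeft k ι).symm hdvd
  rwa [AlgEquiv.symm_apply_apply, AlgEquiv.symm_apply_apply] at h3

end AM
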