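import Pool.Agent.AM.Defs

/-!
# [AM-N2] clearing denominators in several variables
-/

set_option autoImplicit false

open Polynomial IntermediateField

namespace AM

open scoped IntermediateField.algebraAdjoinAdjoin in
/-- clearing denominators -/
theorem n2_clear {k K : Type*} [Field k] [Field K] [Algebra k K] (S : Set K)
    (P : (IntermediateField.adjoin k S)[X]) (hP : P ≠ 0) :
    ∃ Q : (Algebra.adjoin k S)[X], Q ≠ 0 ∧ Q.natDegree ≤ P.natDegree ∧
      ∀ z : K, aeval z P = 0 → aeval z Q = 0 := by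
  refine ⟨IsLocalization.integerNormalization (nonZeroDivisors (Algebra.adjoin k S)) P, ?_, ?_, ?_⟩
  · intro h
    exact hP ((IsLocalization.integerNormalization_eq_zero_iff le_rfl P).1 h)
  · refine Polynomial.natDegree_le_natDegree (Polynomial.degree_mono ?_)
    exact IsLocalization.integerNormalization_support _ P
  · intro z hz
    exact IsLocalization.integerNormalization_aeval_eq_zero _ P hz

/-- the polynomial ring in the variables `s` maps onto the algebra generated by `y '' s` -/
theorem n2_lift {k K σ : Type*} [Field k] [Field K] [Algebra k K] (y : σ → K) (s : Set σ)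
    (Q : (Algebra.adjoin k (y '' s))[X]) (hQ : Q ≠ 0) :
    ∃ A : (MvPolynomial s k)[X], A.natDegree = Q.natDegree ∧
      A.map (MvPolynomial.aeval (fun i : s => y i) : MvPolynomial s k →ₐ[k] K).toRingHom ≠ 0 ∧
      ∀ z : K, aeval z Q = 0 → Polynomial.eval₂
        (MvPolynomial.aeval (fun i : s => y i) : MvPolynomial s k →ₐ[k] K).toRingHom z A = 0 := by
  have hsurj : ∀ a : Algebra.adjoin k (y '' s), ∃ b : MvPolynomial s k,
      MvPolynomial.aeval (fun i : s => y i) b = (a : K) := by
    intro a
    have h1 : (a : K) ∈ Algebra.adjoin k (Set.range fun i : s => y i) := by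
      have h2 : (Set.range fun i : s => y i) = y '' s := by
        ext z
        constructor
        · rintro ⟨i, rfl⟩
          exact ⟨i, i.2, rfl⟩
        · rintro ⟨i, hi, rfl⟩
          exact ⟨⟨i, hi⟩, rfl⟩
      rw [h2]
      exact a.2
    rw [Algebra.adjoin_range_eq_range_aeval] at h1
    exact h1
  choose b hb using hsurj
  have hcoe : Function.Injective (algebraMap (Algebra.adjoin k (y '' s)) K) :=
    Subtype.val_injective
  let A : (MvPolynomial s k)[X] := ∑ j ∈ Q.support, Polynomial.monomial j (b (Q.coeff j))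
  have hAmap : A.map (MvPolynomial.aeval (fun i : s => y i) : MvPolynomial s k →ₐ[k] K).toRingHom =
      Q.map (algebraMap (Algebra.adjoin k (y '' s)) K) := by
    conv_rhs => rw [Q.as_sum_support]
    rw [Polynomial.map_sum, Polynomial.map_sum]
    refine Finset.sum_congr rfl fun j _ => ?_
    rw [Polynomial.map_monomial, Polynomial.map_monomial]
    congr 1
    exact hb (Q.coeff j)
  have hmapne : A.map
      (MvPolynomial.aeval (fun i : s => y i) : MvPolynomial s k →ₐ[k] K).toRingHom ≠ 0 := by
    rw [hAmap]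
    exact (Polynomial.map_ne_zero_iff hcoe).2 hQ
  refine ⟨A, le_antisymm ?_ ?_, hmapne, fun z hz => ?_⟩
  · refine Polynomial.natDegree_sum_le_of_forall_le _ _ fun j hj => ?_
    exact (Polynomial.natDegree_monomial_le _).trans (Polynomial.le_natDegree_of_mem_supp j hj)
  · calc Q.natDegree = (Q.map (algebraMap (Algebra.adjoin k (y '' s)) K)).natDegree :=
          (Polynomial.natDegree_map_eq_of_injective hcoe Q).symm
      _ = (A.map (MvPolynomial.aeval (fun i : s => y i) :
            MvPolynomial s k →ₐ[k] K).toRingHom).natDegree := by rw [hAmap]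
      _ ≤ A.natDegree := Polynomial.natDegree_map_le
  · rw [Polynomial.eval₂_eq_eval_map, hAmap, ← Polynomial.eval₂_eq_eval_map]
    exact hz

theorem n2_degreeOf_rename {k σ : Type*} [Field k] (s : Set σ) (A : MvPolynomial s k) (o : σ)
    (ho : o ∉ s) : (MvPolynomial.rename (Subtype.val : s → σ) A).degreeOf o = 0 := by
  classical
  by_contra h
  rw [← Ne, ← Nat.pos_iff_ne_zero, MvPolynomial.degreeOf_def, Multiset.count_pos] at h
  have h2 : o ∈ (MvPolynomial.rename (Subtype.val : s → σ) A).vars := by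
    rw [MvPolynomial.vars_def, Multiset.mem_toFinset]
    exact h
  obtain ⟨j, -, hj⟩ := MvPolynomial.mem_vars_rename _ _ h2
  exact ho (hj ▸ j.2)

/-- PROOF. `P = ∑_{j ≤ d} a_j X^j`, `a_j ∈ E = IntermediateField.adjoin k (y '' s)`. The elements of `E` are quotients of elements of `Algebra.adjoin k (y '' s)` (`IntermediateField.mem_adjoin_iff_div`, or `IsFractionRing`), so there is a common
denominator `b ∈ Algebra.adjoin k (y '' s)`, `b ≠ 0`, `b a_j ∈ Algebra.adjoin k (y '' s)` for all `j`. `Algebra.adjoin k (y '' s)` is the image of `MvPolynomial.supported k s` under `aeval y`. Choose `A_j ∈ MvPolynomial.supported k s` with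
`aeval y A_j = b a_j` (`A_j = 0` if `a_j = 0`) and let `Ψ = ∑_j A_j (X o)^j`. `aeval y Ψ = b P(y o) = 0`. `Ψ ≠ 0`: the homomorphism `MvPolynomial σ k → K[X]`, `X o ↦ X`, `X o' ↦ C (y o')` for `o' ≠ o` maps `Ψ` to
`∑_j C (b a_j) X^j = b P ≠ 0`. Degrees: `degreeOf o A_j = 0` (`o ∉ s`, `MvPolynomial.mem_supported`), `degreeOf o (X o ^ j) = j`; `degreeOf o' A_j = 0` for `o' ∉ s` (`MvPolynomial.degreeOf_sum_le`, `degreeOf_mul_le`, `degreeOf_eq_zero_iff...`). -/
theorem exists_rel {k K σ : Type*} [Field k] [Field K] [Algebra k K] (y : σ → K) (s : Set σ)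
    (o : σ) (ho : o ∉ s) (d : ℕ) (P : (IntermediateField.adjoin k (y '' s))[X]) (hP : P ≠ 0)
    (hd : P.natDegree ≤ d) (hy : aeval (y o) P = 0) :
    ∃ Ψ : MvPolynomial σ k, Ψ ≠ 0 ∧ MvPolynomial.aeval y Ψ = 0 ∧ Ψ.degreeOf o ≤ d ∧
      ∀ o' : σ, o' ∉ s → o' ≠ o → Ψ.degreeOf o' = 0 := by
  classical
  obtain ⟨Q, hQ, hQd, hQz⟩ := n2_clear (y '' s) P hP
  obtain ⟨A, hAd, hA0, hAz⟩ := n2_lift y s Q hQ
  have hA := hAz _ (hQz _ hy)
  have hdeg : ∀ j ∈ A.support, j ≤ d := fun j hj =>
    ((Polynomial.le_natDegree_of_mem_supp j hj).trans (hAd ▸ hQd)).trans hd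
  let Ψ : MvPolynomial σ k := ∑ j ∈ A.support,
    MvPolynomial.rename (Subtype.val : s → σ) (A.coeff j) * MvPolynomial.X o ^ j
  refine ⟨Ψ, ?_, ?_, ?_, ?_⟩
  · intro hΨ
    let θ : MvPolynomial σ k →ₐ[k] K[X] := MvPolynomial.aeval
      (fun i : σ => if i = o then (Polynomial.X : K[X]) else Polynomial.C (y i))
    have h1 : ∀ B : MvPolynomial s k, θ (MvPolynomial.rename (Subtype.val : s → σ) B) =
        Polynomial.C (MvPolynomial.aeval (fun i : s => y i) B) := by
      intro B
      have h2 : θ.comp (MvPolynomial.rename (Subtype.val : s → σ)) =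
          (Polynomial.CAlgHom.comp (AlgHom.restrictScalars k (AlgHom.id K K))).comp
            (MvPolynomial.aeval (fun i : s => y i)) := by
        apply MvPolynomial.algHom_ext
        intro i
        have hio : (i : σ) ≠ o := fun h => ho (h ▸ i.2)
        simp [θ, hio]
      exact DFunLike.congr_fun h2 B
    have h3 : θ Ψ = A.map
        (MvPolynomial.aeval (fun i : s => y i) : MvPolynomial s k →ₐ[k] K).toRingHom := by
      conv_rhs => rw [A.as_sum_support]
      rw [map_sum, Polynomial.map_sum]
      refine Finset.sum_congr rfl fun j _ => ?_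
      rw [map_mul, map_pow, h1, Polynomial.map_monomial, ← Polynomial.C_mul_X_pow_eq_monomial]
      congr 2
      simp [θ]
    rw [hΨ, map_zero] at h3
    exact hA0 h3.symm
  · rw [Polynomial.eval₂_eq_sum, Polynomial.sum_def] at hA
    rw [map_sum, ← hA]
    refine Finset.sum_congr rfl fun j _ => ?_
    rw [map_mul, map_pow, MvPolynomial.aeval_X, MvPolynomial.aeval_rename]
    rfl
  · refine (MvPolynomial.degreeOf_sum_le _ _ _).trans (Finset.sup_le fun j hj => ?_)
    refine (MvPolynomial.degreeOf_mul_le _ _ _).trans ?_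
    rw [n2_degreeOf_rename s _ o ho, zero_add, MvPolynomial.degreeOf_X_self_pow]
    exact hdeg j hj
  · intro o' ho' hne
    refine Nat.le_zero.1 ((MvPolynomial.degreeOf_sum_le _ _ _).trans (Finset.sup_le fun j hj => ?_))
    refine (MvPolynomial.degreeOf_mul_le _ _ _).trans ?_
    rw [n2_degreeOf_rename s _ o' ho', zero_add, MvPolynomial.degreeOf_X_pow_of_ne _ hne]

end AM
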