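import Pool.Agent.AM.N1
import Pool.Agent.AM.N2
import Pool.Agent.AM.K3

/-!
# [AM-N3] the degrees of the generator of the relations
-/

set_option autoImplicit false

open Polynomial IntermediateField

namespace AM

/-- degrees of divisors. PROOF. `Ψ = Φ * Φ'`, all nonzero, `MvPolynomial.degreeOf_mul_eq` (domain). -/
theorem degreeOf_le_of_dvd {σ k : Type*} [Field k] (Φ Ψ : MvPolynomial σ k) (hΨ : Ψ ≠ 0)
    (h : Φ ∣ Ψ) (o : σ) : Φ.degreeOf o ≤ Ψ.degreeOf o := by
  obtain ⟨Φ', rfl⟩ := h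
  have h1 : Φ ≠ 0 := left_ne_zero_of_mul hΨ
  have h2 : Φ' ≠ 0 := right_ne_zero_of_mul hΨ
  rw [MvPolynomial.degreeOf_mul_eq h1 h2]
  exact Nat.le_add_right _ _

/-- the relation lemma for polynomials over any field whose image is contained in `k(y '' s)` -/
theorem n3_rel {k K σ L : Type*} [Field k] [Field K] [Algebra k K] [Field L] [Algebra L K]
    (y : σ → K) (s : Set σ) (o : σ) (ho : o ∉ s) (d : ℕ)
    (hL : ∀ a : L, algebraMap L K a ∈ IntermediateField.adjoin k (y '' s))
    (P : L[X]) (hP : P ≠ 0) (hd : P.natDegree ≤ d) (hy : aeval (y o) P = 0) :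
    ∃ Ψ : MvPolynomial σ k, Ψ ≠ 0 ∧ MvPolynomial.aeval y Ψ = 0 ∧ Ψ.degreeOf o ≤ d ∧
      ∀ o' : σ, o' ∉ s → o' ≠ o → Ψ.degreeOf o' = 0 := by
  let φ : L →+* IntermediateField.adjoin k (y '' s) :=
    (algebraMap L K).codRestrict (IntermediateField.adjoin k (y '' s)) hL
  have hφ : (algebraMap (IntermediateField.adjoin k (y '' s)) K).comp φ = algebraMap L K :=
    RingHom.ext fun a => rfl
  refine exists_rel y s o ho d (P.map φ) ((Polynomial.map_ne_zero_iff φ.injective).2 hP) ?_ ?_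
  · rwa [Polynomial.natDegree_map]
  · rw [Polynomial.aeval_def, Polynomial.eval₂_map, hφ]
    exact hy

/-- the case of an element which is algebraic of degree at most `d` -/
theorem n3_alg {k K σ L : Type*} [Field k] [Field K] [Algebra k K] [Field L] [Algebra L K]
    (y : σ → K) (s : Set σ) (o : σ) (ho : o ∉ s)
    (hL : ∀ a : L, algebraMap L K a ∈ IntermediateField.adjoin k (y '' s))
    (h : IsAlgebraic L (y o)) (Φ : MvPolynomial σ k)
    (hΦ : ∀ Ψ : MvPolynomial σ k, MvPolynomial.aeval y Ψ = 0 → Φ ∣ Ψ) :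
    ∀ o' : σ, o' ∉ s → o' ≠ o → Φ.degreeOf o' = 0 := by
  intro o' h1 h2
  obtain ⟨P, hP, hy⟩ := h
  obtain ⟨Ψ, hΨ, hΨ0, -, h3⟩ := n3_rel y s o ho P.natDegree hL P hP le_rfl hy
  exact Nat.le_zero.1 ((degreeOf_le_of_dvd Φ Ψ hΨ (hΦ Ψ hΨ0) o').trans (h3 o' h1 h2).le)

theorem n3_fin {k K σ L : Type*} [Field k] [Field K] [Algebra k K] [Field L] [Algebra L K]
    (y : σ → K) (s : Set σ) (o : σ) (ho : o ∉ s)
    (hL : ∀ a : L, algebraMap L K a ∈ IntermediateField.adjoin k (y '' s))
    [FiniteDimensional L K] (Φ : MvPolynomial σ k)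
    (hΦ : ∀ Ψ : MvPolynomial σ k, MvPolynomial.aeval y Ψ = 0 → Φ ∣ Ψ) :
    Φ.degreeOf o ≤ Module.finrank L K := by
  have hint : IsIntegral L (y o) := Algebra.IsIntegral.isIntegral (y o)
  obtain ⟨Ψ, hΨ, hΨ0, h3, -⟩ := n3_rel y s o ho (Module.finrank L K) hL (minpoly L (y o))
    (minpoly.ne_zero hint) (minpoly.natDegree_le (y o)) (minpoly.aeval L (y o))
  exact (degreeOf_le_of_dvd Φ Ψ hΨ (hΦ Ψ hΨ0) o).trans h3

theorem n3_some_zero {k K : Type*} [Field k] [Field K] [Algebra k K] {ι : Type*}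
    (x : ι → K) (T : K) (i : ι) (h : IsAlgebraic (Fi k x i) T) (Φ : MvPolynomial (Option ι) k)
    (hΦ : ∀ Ψ : MvPolynomial (Option ι) k, MvPolynomial.aeval (xT x T) Ψ = 0 → Φ ∣ Ψ) :
    Φ.degreeOf (some i) = 0 := by
  refine n3_alg (L := Fi k x i) (xT x T) {o | ∃ j, j ≠ i ∧ o = some j} none (by simp) ?_ h Φ hΦ
    (some i) ?_ (by simp)
  · rintro ⟨a, ha⟩
    change a ∈ IntermediateField.adjoin k (xT x T '' {o | ∃ j, j ≠ i ∧ o = some j})
    have h1 : Fi k x i ≤ IntermediateField.adjoin k (xT x T '' {o | ∃ j, j ≠ i ∧ o = some j}) := by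
      rw [Fi, IntermediateField.adjoin_le_iff]
      rintro z ⟨j, rfl⟩
      exact IntermediateField.subset_adjoin k _ ⟨some j, ⟨j, j.2, rfl⟩, rfl⟩
    exact h1 ha
  · rintro ⟨j, hj, h2⟩
    exact hj (Option.some_injective _ h2).symm

/-- PROOF. `xT x T` and the index `some i`. First case: `T` is algebraic over `F = Fi k x i = adjoin k (xT x T '' s)`, `s = {some j : j ≠ i}`; `exists_rel` for `o = none`: `Ψ ≠ 0` with `degreeOf (some i) Ψ = 0`. Second case: `[K : F(T)] ≤ C`: `x i` is a root of a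
nonzero polynomial (the minimal polynomial) of degree `≤ [K : F(T)] ≤ C` over `F(T) = adjoin k (xT x T '' s)` (as sets of elements of `K`; transfer the coefficients, `IntermediateField.adjoin_adjoin_left` or restrictScalars), `s = {none} ∪ {some j : j ≠ i}`; `exists_rel` for `o = some i`. In both
cases `Φ ∣ Ψ` and `degreeOf_le_of_dvd`. -/
theorem degreeOf_some_le {k K : Type*} [Field k] [Field K] [Algebra k K] {ι : Type*} (x : ι → K)
    (T : K) (i : ι) (C : ℕ) (h : HtLe (Fi k x i) T C) (Φ : MvPolynomial (Option ι) k)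
    (hΦ : ∀ Ψ : MvPolynomial (Option ι) k, MvPolynomial.aeval (xT x T) Ψ = 0 → Φ ∣ Ψ) :
    Φ.degreeOf (some i) ≤ C := by
  rcases h with h | ⟨hfin, hC⟩
  · exact (n3_some_zero x T i h Φ hΦ).le.trans (Nat.zero_le _)
  · have := hfin
    refine (n3_fin (L := (Fi k x i)⟮T⟯) (xT x T) {o | o ≠ some i} (some i) (by simp) ?_ Φ hΦ).trans hC
    rintro ⟨a, ha⟩
    change a ∈ IntermediateField.adjoin k (xT x T '' {o | o ≠ some i})
    have h1 : (Fi k x i)⟮T⟯.restrictScalars k ≤
        IntermediateField.adjoin k (xT x T '' {o | o ≠ some i}) := by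
      rw [Fi, IntermediateField.adjoin_adjoin_left, IntermediateField.adjoin_le_iff]
      rintro z (⟨j, rfl⟩ | hz)
      · refine IntermediateField.subset_adjoin k _ ⟨some j, ?_, rfl⟩
        intro h
        exact j.2 (Option.some_injective _ h)
      · rw [Set.mem_singleton_iff] at hz
        subst hz
        exact IntermediateField.subset_adjoin k _ ⟨none, by simp, rfl⟩
    exact h1 ha

/-- PROOF. As the first case above. -/
theorem degreeOf_some_eq_zero {k K : Type*} [Field k] [Field K] [Algebra k K] {ι : Type*}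
    (x : ι → K) (T : K) (i : ι) (h : IsAlgebraic (Fi k x i) T) (Φ : MvPolynomial (Option ι) k)
    (hΦ : ∀ Ψ : MvPolynomial (Option ι) k, MvPolynomial.aeval (xT x T) Ψ = 0 → Φ ∣ Ψ) :
    Φ.degreeOf (some i) = 0 :=
  n3_some_zero x T i h Φ hΦ

/-- PROOF. `T` is a root of its minimal polynomial over `k(x) = adjoin k (xT x T '' range some)`, of degree `≤ [K : k(x)]`; `exists_rel` with `s = range some`, `o = none`. -/
theorem degreeOf_none_le {k K : Type*} [Field k] [Field K] [Algebra k K] {ι : Type*} (x : ι → K)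
    [FiniteDimensional (IntermediateField.adjoin k (Set.range x)) K]
    (T : K) (Φ : MvPolynomial (Option ι) k)
    (hΦ : ∀ Ψ : MvPolynomial (Option ι) k, MvPolynomial.aeval (xT x T) Ψ = 0 → Φ ∣ Ψ) :
    Φ.degreeOf none ≤ Module.finrank (IntermediateField.adjoin k (Set.range x)) K := by
  refine n3_fin (L := IntermediateField.adjoin k (Set.range x)) (xT x T) (Set.range some) none
    (by simp) ?_ Φ hΦ
  rintro ⟨a, ha⟩
  change a ∈ IntermediateField.adjoin k (xT x T '' Set.range some)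
  have h1 : IntermediateField.adjoin k (Set.range x) ≤
      IntermediateField.adjoin k (xT x T '' Set.range some) := by
    rw [IntermediateField.adjoin_le_iff]
    rintro z ⟨j, rfl⟩
    exact IntermediateField.subset_adjoin k _ ⟨some j, ⟨j, rfl⟩, rfl⟩
  exact h1 ha

end AM
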