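import Pool.Agent.AG.Defs
import Pool.Agent.AG.G7

/-!
# [AM-R1] finite rank
-/

set_option autoImplicit false

namespace AM

open AG

/-- PROOF. `K ≤ G` finitely generated, by `x 1, ..., x m`. The image of `K` in `G ⧸ N` is generated by `≤ r₂` elements, lift them to elements of `K`; let `K₀ ≤ K` be the subgroup generated by the lifts: `x j = w j * n j` with `w j ∈ K₀`, `n j ∈ K ⊓ N`. The subgroup of `N` generated by the `n j` is generated by `≤ r₁` elements, and `K` is generated
by `K₀` and the `n j`. -/
theorem rankLe_ext {G : Type*} [Group G] (N : Subgroup G) [N.Normal] {r₁ r₂ : ℕ}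
    (h₁ : RankLe N r₁) (h₂ : RankLe (G ⧸ N) r₂) : RankLe G (r₁ + r₂) := by
  classical
  rintro K ⟨X, hX⟩
  obtain ⟨T₂, hT₂, hT₂'⟩ := h₂ (K.map (QuotientGroup.mk' N))
    ⟨X.image (QuotientGroup.mk' N), by rw [Finset.coe_image, ← MonoidHom.map_closure, hX]⟩
  have hl : ∀ t : G ⧸ N, ∃ g : G, t ∈ T₂ → g ∈ K ∧ (QuotientGroup.mk' N) g = t := by
    intro t
    by_cases ht : t ∈ T₂
    · have h3 : t ∈ K.map (QuotientGroup.mk' N) := by
        rw [← hT₂']
        exact Subgroup.subset_closure ht
      obtain ⟨g, hg, hg'⟩ := h3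
      exact ⟨g, fun _ => ⟨hg, hg'⟩⟩
    · exact ⟨1, fun h => absurd h ht⟩
  choose f hf using hl
  have himg : (QuotientGroup.mk' N) '' (f '' (T₂ : Set (G ⧸ N))) = T₂ := by
    ext t
    constructor
    · rintro ⟨_, ⟨s, hs, rfl⟩, rfl⟩
      rw [(hf s hs).2]
      exact hs
    · intro ht
      exact ⟨f t, ⟨t, ht, rfl⟩, (hf t ht).2⟩
  have hn : ∀ x : G, ∃ n : N, x ∈ X →
      ∃ w ∈ Subgroup.closure (f '' (T₂ : Set (G ⧸ N))), x = w * n := by
    intro x
    by_cases hx : x ∈ X
    · have hxK : x ∈ K := by
        rw [← hX]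
        exact Subgroup.subset_closure hx
      have h3 : (QuotientGroup.mk' N) x ∈ Subgroup.closure (T₂ : Set (G ⧸ N)) := by
        rw [hT₂']
        exact ⟨x, hxK, rfl⟩
      rw [← himg, ← MonoidHom.map_closure] at h3
      obtain ⟨w, hw, hw'⟩ := h3
      have h4 : w⁻¹ * x ∈ N := QuotientGroup.eq.1 hw'
      exact ⟨⟨w⁻¹ * x, h4⟩, fun _ => ⟨w, hw, by simp⟩⟩
    · exact ⟨1, fun h => absurd h hx⟩
  choose n hn using hn
  obtain ⟨T₁, hT₁, hT₁'⟩ := h₁ (Subgroup.closure (n '' (X : Set G)))
    ⟨X.image n, by rw [Finset.coe_image]⟩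
  have hfK : Subgroup.closure (f '' (T₂ : Set (G ⧸ N))) ≤ K := by
    rw [Subgroup.closure_le]
    rintro _ ⟨t, ht, rfl⟩
    exact (hf t ht).1
  refine ⟨T₁.image (Subtype.val) ∪ T₂.image f, ?_, le_antisymm ?_ ?_⟩
  · refine (Finset.card_union_le _ _).trans ?_
    have h3 := Finset.card_image_le (s := T₁) (f := (Subtype.val : N → G))
    have h4 := Finset.card_image_le (s := T₂) (f := f)
    omega
  · rw [Subgroup.closure_le, Finset.coe_union, Finset.coe_image, Finset.coe_image]
    rintro x (⟨t, ht, rfl⟩ | ⟨t, ht, rfl⟩)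
    · have h3 : t ∈ Subgroup.closure (n '' (X : Set G)) := by
        rw [← hT₁']
        exact Subgroup.subset_closure ht
      have h4 : Subgroup.closure (n '' (X : Set G)) ≤ K.comap N.subtype := by
        rw [Subgroup.closure_le]
        rintro _ ⟨x, hx, rfl⟩
        obtain ⟨w, hw, hw'⟩ := hn x hx
        show (n x : G) ∈ K
        have h5 : (n x : G) = w⁻¹ * x := eq_inv_mul_iff_mul_eq.2 hw'.symm
        rw [h5]
        refine K.mul_mem (K.inv_mem (hfK hw)) ?_
        rw [← hX]
        exact Subgroup.subset_closure hx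
      exact h4 h3
    · exact (hf t ht).1
  · rw [← hX, Subgroup.closure_le]
    intro x hx
    obtain ⟨w, hw, hw'⟩ := hn x hx
    have h3 : Subgroup.closure (f '' (T₂ : Set (G ⧸ N))) ≤
        Subgroup.closure ((T₁.image (Subtype.val) ∪ T₂.image f : Finset G) : Set G) := by
      apply Subgroup.closure_mono
      rw [Finset.coe_union, Finset.coe_image, Finset.coe_image]
      exact Set.subset_union_right
    have h4 : (n x : G) ∈
        Subgroup.closure ((T₁.image (Subtype.val) ∪ T₂.image f : Finset G) : Set G) := by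
      have h5 : n x ∈ Subgroup.closure (T₁ : Set N) := by
        rw [hT₁']
        exact Subgroup.subset_closure ⟨x, hx, rfl⟩
      have h6 : (n x : G) ∈ (Subgroup.closure (T₁ : Set N)).map N.subtype := ⟨n x, h5, rfl⟩
      rw [MonoidHom.map_closure] at h6
      refine Subgroup.closure_mono ?_ h6
      rw [Finset.coe_union, Finset.coe_image, Finset.coe_image]
      exact Set.subset_union_left
    show x ∈ Subgroup.closure ((T₁.image (Subtype.val) ∪ T₂.image f : Finset G) : Set G)
    rw [hw']
    exact Subgroup.mul_mem _ (h3 hw) h4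

theorem rankLe_finite {G : Type*} [Group G] [Finite G] : RankLe G (Nat.card G) := by
  classical
  intro K _
  have := Fintype.ofFinite G
  refine ⟨(K : Set G).toFinset, ?_, ?_⟩
  · rw [Nat.card_eq_fintype_card]
    exact Finset.card_le_univ _
  · rw [Set.coe_toFinset, Subgroup.closure_eq]

theorem rankLe_of_mulEquiv {G G' : Type*} [Group G] [Group G'] (e : G ≃* G') {r : ℕ}
    (h : RankLe G r) : RankLe G' r := by
  classical
  rintro K ⟨X, hX⟩
  obtain ⟨T, hT, hT'⟩ := h (K.map (e.symm : G' →* G))
    ⟨X.image (e.symm : G' →* G), by rw [Finset.coe_image, ← MonoidHom.map_closure, hX]⟩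
  refine ⟨T.image (e : G →* G'), Finset.card_image_le.trans hT, ?_⟩
  rw [Finset.coe_image, ← MonoidHom.map_closure, hT', Subgroup.map_map]
  have h1 : (e : G →* G').comp (e.symm : G' →* G) = MonoidHom.id G' := by
    ext x
    simp
  rw [h1, Subgroup.map_id]

theorem r1_zpowers {G : Type*} [Group G] (a : G) : RankLe (Subgroup.zpowers a) 1 := by
  classical
  intro K _
  obtain ⟨g, hg⟩ := (inferInstance : IsCyclic K)
  refine ⟨{(g : Subgroup.zpowers a)}, by simp, ?_⟩
  rw [Finset.coe_singleton, ← Subgroup.zpowers_eq_closure]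
  apply le_antisymm
  · rw [Subgroup.zpowers_le]
    exact g.2
  · intro x hx
    obtain ⟨k, hk⟩ := hg ⟨x, hx⟩
    rw [Subgroup.mem_zpowers_iff]
    refine ⟨k, ?_⟩
    have := congrArg Subtype.val hk
    simpa using this

theorem r1_comm (n : ℕ) : ∀ {A : Type*} [CommGroup A] (S : Finset A), S.card ≤ n →
    Subgroup.closure (S : Set A) = ⊤ → RankLe A n := by
  classical
  induction n with
  | zero =>
    intro A _ S hS hS'
    have h0 : S = ∅ := Finset.card_eq_zero.1 (Nat.le_zero.1 hS)
    rw [h0, Finset.coe_empty, Subgroup.closure_empty] at hS'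
    intro K _
    refine ⟨∅, by simp, ?_⟩
    rw [Finset.coe_empty, Subgroup.closure_empty]
    exact le_antisymm bot_le (le_top.trans hS'.symm.le)
  | succ n ih =>
    intro A _ S hS hS'
    by_cases h0 : S = ∅
    · rw [h0, Finset.coe_empty, Subgroup.closure_empty] at hS'
      intro K _
      refine ⟨∅, by simp, ?_⟩
      rw [Finset.coe_empty, Subgroup.closure_empty]
      exact le_antisymm bot_le (le_top.trans hS'.symm.le)
    · obtain ⟨a, ha⟩ := Finset.nonempty_iff_ne_empty.2 h0
      have h1 : RankLe (A ⧸ Subgroup.zpowers a) n := by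
        refine ih ((S.erase a).image (QuotientGroup.mk' (Subgroup.zpowers a))) ?_ ?_
        · refine Finset.card_image_le.trans ?_
          rw [Finset.card_erase_of_mem ha]
          omega
        · rw [eq_top_iff]
          have h2 : (⊤ : Subgroup (A ⧸ Subgroup.zpowers a)) =
              (Subgroup.closure (S : Set A)).map (QuotientGroup.mk' (Subgroup.zpowers a)) := by
            rw [hS', ← MonoidHom.range_eq_map, QuotientGroup.range_mk']
          rw [h2, MonoidHom.map_closure, Subgroup.closure_le]
          rintro _ ⟨x, hx, rfl⟩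
          by_cases hxa : x = a
          · rw [hxa]
            have h3 : (QuotientGroup.mk' (Subgroup.zpowers a)) a = 1 := by
              rw [← MonoidHom.mem_ker, QuotientGroup.ker_mk']
              exact Subgroup.mem_zpowers a
            rw [h3]
            exact Subgroup.one_mem _
          · apply Subgroup.subset_closure
            rw [Finset.coe_image]
            exact ⟨x, Finset.mem_coe.2 (Finset.mem_erase.2 ⟨hxa, hx⟩), rfl⟩
      have h2 := rankLe_ext (Subgroup.zpowers a) (r1_zpowers a) h1
      rwa [add_comm] at h2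

/-- PROOF. A finitely generated abelian group with `n` generators is a quotient of `Fin n → ℤ`, and all subgroups of `Fin n → ℤ` are free of rank `≤ n` (`Submodule.basisOfPid` or `Submodule.nonempty_basis_of_pid`). -/
theorem finRank_of_comm {A : Type*} [CommGroup A] [Group.FG A] : FinRank A := by
  obtain ⟨S, hS⟩ := (Group.fg_def.1 (inferInstance : Group.FG A))
  exact ⟨S.card, r1_comm _ S le_rfl hS⟩

open scoped IsMulCommutative in
theorem r1_center {G : Type*} [Group G] (h : Group.FG (Subgroup.center G)) :
    FinRank (Subgroup.center G) :=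
  finRank_of_comm (A := Subgroup.center G)

/-- PROOF. Induction `Group.nilpotent_center_quotient_ind`: the center is finitely generated (`AG.fg_of_nilpotent`) and abelian; `rankLe_ext`. -/
theorem finRank_of_nilpotent {N : Type*} [Group N] [Group.FG N] [Group.IsNilpotent N] :
    FinRank N := by
  have key : Group.FG N → FinRank N := by
    apply Group.nilpotent_center_quotient_ind (P := fun G _ _ => Group.FG G → FinRank G) N
    · intro G _ _ _
      exact ⟨_, rankLe_finite⟩
    · intro G _ _ ih hG
      obtain ⟨r₂, h₂⟩ := ih inferInstance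
      have hc : Group.FG (Subgroup.center G) :=
        (Group.fg_iff_subgroup_fg _).2 (fg_of_nilpotent (Subgroup.center G))
      obtain ⟨r₁, h₁⟩ := r1_center hc
      exact ⟨r₁ + r₂, rankLe_ext _ h₁ h₂⟩
  exact key inferInstance

/-- PROOF. A nilpotent subgroup `N` of finite index, its normal core `N₀` is nilpotent, of finite index, finitely generated; `rankLe_ext`. -/
theorem finRank_of_virtually_nilpotent {G : Type*} [Group G] [Group.FG G]
    (h : Group.IsVirtuallyNilpotent G) : FinRank G := by
  obtain ⟨H, hH, hi⟩ := h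
  have h1 : H.normalCore ≤ H := Subgroup.normalCore_le H
  have h2 : Group.IsNilpotent H.normalCore :=
    Group.nilpotent_of_mulEquiv (Subgroup.subgroupOfEquivOfLe h1)
  have h3 : H.normalCore.FiniteIndex := inferInstance
  have h4 : Group.FG H.normalCore := Subgroup.fg_of_index_ne_zero _
  obtain ⟨r, hr⟩ := finRank_of_nilpotent (N := H.normalCore)
  have h5 : Finite (G ⧸ H.normalCore) := inferInstance
  exact ⟨_, rankLe_ext H.normalCore hr rankLe_finite⟩

end AM
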